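import Mathlib
import Pool.Agent.Lib.MP_3f0e40_al.Pres

set_option autoImplicit false

/-!
# MP_3f0e40_al, project PL (private letters): definitions
-/

namespace Pool.Agent.MP3f0e40.PL

open Pool.Agent.MP3f0e40

section Words

variable {C L : Type}

/-- the words in the common letters `C` -/
def inC : FreeGroup C →* FreeGroup (C ⊕ L) := FreeGroup.map Sum.inl

/-- the letters `L` are deleted -/
def ret : FreeGroup (C ⊕ L) →* FreeGroup C := FreeGroup.lift (Sum.elim FreeGroup.of fun _ => 1)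

/-- the homomorphism `F(C ∪ {none}) → F(C ∪ L)` with `none ↦ w` -/
def iF (w : FreeGroup (C ⊕ L)) : FreeGroup (Option C) →* FreeGroup (C ⊕ L) :=
  FreeGroup.lift fun o => o.elim w fun c => FreeGroup.of (Sum.inl c)

/-- no element of `w F(C)` is conjugate to an element of `F(C)` -/
def TF (w : FreeGroup (C ⊕ L)) : Prop :=
  ∀ (c d : FreeGroup C) (g : FreeGroup (C ⊕ L)), w * inC c ≠ g * inC d * g⁻¹

/-- the subgroups `N ∩ F(C)`, `N` normal of finite index in `F(C ∪ L)`, `r ∈ N` -/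
def Tr (r : FreeGroup (C ⊕ L)) (D : Subgroup (FreeGroup C)) : Prop :=
  ∃ N : Subgroup (FreeGroup (C ⊕ L)), N.Normal ∧ N.FiniteIndex ∧ r ∈ N ∧ N.comap inC = D

/-- `D` contains a member of the family `P` -/
def Up (P : Subgroup (FreeGroup C) → Prop) (D : Subgroup (FreeGroup C)) : Prop :=
  ∃ D₀, P D₀ ∧ D₀ ≤ D

/-- families of normal subgroups of finite index closed under intersections -/
structure Fam (P : Subgroup (FreeGroup C) → Prop) : Prop where
  nrm : ∀ D, P D → D.Normal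
  fin : ∀ D, P D → D.FiniteIndex
  top : P ⊤
  inf : ∀ D D', P D → P D' → P (D ⊓ D')

/-- the family has trivial intersection -/
def Sepd (P : Subgroup (FreeGroup C) → Prop) : Prop := ∀ c : FreeGroup C, c ≠ 1 → ∃ D, P D ∧ c ∉ D

/-- every normal subgroup of finite index contains a member of the family -/
def Full (P : Subgroup (FreeGroup C) → Prop) : Prop :=
  ∀ D : Subgroup (FreeGroup C), D.Normal → D.FiniteIndex → Up P D

/-- relative M. Hall property of the subgroup generated by `C` and `w` -/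
def RH (P : Subgroup (FreeGroup C) → Prop) (w : FreeGroup (C ⊕ L)) : Prop :=
  ∀ V : Subgroup (FreeGroup (Option C)), V.Normal → V.FiniteIndex → Up P (V.comap old) →
    ∀ T : Finset (FreeGroup (C ⊕ L)), ∃ N : Subgroup (FreeGroup (C ⊕ L)),
      N.Normal ∧ N.FiniteIndex ∧ P (N.comap inC) ∧ N.comap (iF w) ≤ V ∧
        ∀ t ∈ T, t ∉ (iF w).range → ∀ u, t * (iF w u)⁻¹ ∉ N

/-- `S` is closed in `Y` for the normal subgroups of finite index with trace in the family -/
def Cl {Y : Type} [Group Y] (P : Subgroup (FreeGroup C) → Prop) (j : FreeGroup C →* Y)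
    (S : Subgroup Y) : Prop :=
  ∀ y, y ∉ S → ∃ M : Subgroup Y, M.Normal ∧ M.FiniteIndex ∧ Up P (M.comap j) ∧
    ∀ s ∈ S, y * s⁻¹ ∉ M

/-- the finite quotients of `F(C ∪ {none})` with trace in the family extend to `Y` -/
def Ex {Y : Type} [Group Y] (P : Subgroup (FreeGroup C) → Prop)
    (i : FreeGroup (Option C) →* Y) : Prop :=
  ∀ V : Subgroup (FreeGroup (Option C)), V.Normal → V.FiniteIndex → P (V.comap old) →
    ∃ R : Subgroup Y, R.Normal ∧ R.FiniteIndex ∧ R.comap i = V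

open Classical in
/-- the exponent sum of the letter `a` -/
noncomputable def expo {X : Type} (a : X) : FreeGroup X →* Multiplicative ℤ :=
  FreeGroup.lift fun x => if x = a then Multiplicative.ofAdd (1 : ℤ) else 1

end Words

/-- `I` is the group generated by `Y` and `F` with `iY u = iF u` for `u` in `U` -/
structure Am {U Y F I : Type} [Group U] [Group Y] [Group F] [Group I]
    (iY : U →* Y) (iF : U →* F) (ιY : Y →* I) (ιF : F →* I) : Prop where
  comm : ∀ u, ιY (iY u) = ιF (iF u)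
  gen : Subgroup.closure (Set.range ιY ∪ Set.range ιF) = ⊤
  univ : ∀ (K : Type) [Group K] (ψ : Y →* K) (φ : F →* K), (∀ u, ψ (iY u) = φ (iF u)) →
    ∃ Φ : I →* K, (∀ y, Φ (ιY y) = ψ y) ∧ ∀ f, Φ (ιF f) = φ f

/-- `W(a, b)` -/
def sub {K : Type} [Group K] (a b : K) : FreeGroup (Fin 2) →* K := FreeGroup.lift ![a, b]

/-- the exponent sums of `W` are zero -/
def Bal (W : FreeGroup (Fin 2)) : Prop :=
  ∀ (K : Type) [Group K] (a : K), sub a 1 W = 1 ∧ sub 1 a W = 1

/-- `⟨x, y; W⟩` -/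
abbrev QW (W : FreeGroup (Fin 2)) : Type := PresentedGroup ({W} : Set (FreeGroup (Fin 2)))

/-- `⟨C, x, y; W(x, y)⟩` -/
abbrev JW (C : Type) (W : FreeGroup (Fin 2)) : Type :=
  PresentedGroup ({FreeGroup.map Sum.inr W} : Set (FreeGroup (C ⊕ Fin 2)))

/-- `⟨C, L, y; W(r, y)⟩` with `y = none` -/
abbrev EW {C L : Type} (r : FreeGroup (C ⊕ L)) (W : FreeGroup (Fin 2)) : Type :=
  PresentedGroup ({sub (old r) (FreeGroup.of none) W} : Set (FreeGroup (Option (C ⊕ L))))

/-- the letters of `C` and `L₂` in the alphabet `(C ∪ L₁) ∪ L₂` -/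
def in2 {C L₁ L₂ : Type} : FreeGroup (C ⊕ L₂) →* FreeGroup ((C ⊕ L₁) ⊕ L₂) :=
  FreeGroup.map (Sum.map Sum.inl id)

/-- `⟨C, L₁, L₂; W(r, s)⟩` -/
abbrev IW {C L₁ L₂ : Type} (r : FreeGroup (C ⊕ L₁)) (s : FreeGroup (C ⊕ L₂))
    (W : FreeGroup (Fin 2)) : Type :=
  PresentedGroup ({sub (FreeGroup.map Sum.inl r) (in2 s) W} : Set (FreeGroup ((C ⊕ L₁) ⊕ L₂)))

/-- `F(C ∪ {none}) → ⟨C, x, y; W⟩`, `none ↦ x` -/
def jx {C : Type} (W : FreeGroup (Fin 2)) : FreeGroup (Option C) →* JW C W :=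
  FreeGroup.lift fun o => o.elim (PresentedGroup.of (Sum.inr 0))
    fun c => PresentedGroup.of (Sum.inl c)

/-- `F(C ∪ {none}) → ⟨C, x, y; W⟩`, `none ↦ y` -/
def jy {C : Type} (W : FreeGroup (Fin 2)) : FreeGroup (Option C) →* JW C W :=
  FreeGroup.lift fun o => o.elim (PresentedGroup.of (Sum.inr 1))
    fun c => PresentedGroup.of (Sum.inl c)

/-- `F(C ∪ {none}) → ⟨C, L, y; W(r, y)⟩`, `none ↦ y` -/
def jE {C L : Type} (r : FreeGroup (C ⊕ L)) (W : FreeGroup (Fin 2)) :
    FreeGroup (Option C) →* EW r W :=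
  FreeGroup.lift fun o => o.elim (PresentedGroup.of none)
    fun c => PresentedGroup.of (some (Sum.inl c))

end Pool.Agent.MP3f0e40.PL
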