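import Mathlib
import Pool.Agent.Lib.MP_3f0e40_al.PL.Defs
import Pool.Agent.Lib.MP_3f0e40_al.Hnn

set_option autoImplicit false

/-!
# MP_3f0e40_al, project PL: amalgams acting on finite sets
-/

namespace Pool.Agent.MP3f0e40.PL

open Pool.Agent.MP3f0e40

variable {U Y F I : Type} [Group U] [Group Y] [Group F] [Group I]

namespace Ac

/-- `y 0 * f 0 * y 1 * ... * f (n - 1) * y n` -/
def val (ιY : Y →* I) (ιF : F →* I) (y : ℕ → Y) (f : ℕ → F) : ℕ → I
  | 0 => ιY (y 0)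
  | n + 1 => val ιY ιF y f n * ιF (f n) * ιY (y (n + 1))

/-- reduced words -/
def Red (iY : U →* Y) (iF : U →* F) (y : ℕ → Y) (f : ℕ → F) (n : ℕ) : Prop :=
  (∀ i < n, f i ∉ iF.range) ∧ ∀ i, 0 < i → i < n → y i ∉ iY.range

theorem val_congr (ιY : Y →* I) (ιF : F →* I) {y y' : ℕ → Y} {f f' : ℕ → F} (n : ℕ)
    (hy : ∀ k ≤ n, y k = y' k) (hf : ∀ k < n, f k = f' k) :
    val ιY ιF y f n = val ιY ιF y' f' n := by
  induction n with
  | zero => simp [val, hy 0 le_rfl]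
  | succ n ih =>
    rw [val, val, ih (fun k hk => hy k (by omega)) (fun k hk => hf k (by omega)),
      hf n (by omega), hy (n + 1) le_rfl]

/-- the elements with a reduced form -/
def Has (iY : U →* Y) (iF : U →* F) (ιY : Y →* I) (ιF : F →* I) (g : I) : Prop :=
  ∃ n y f, Red iY iF y f n ∧ val ιY ιF y f n = g

theorem has_mul_Y (iY : U →* Y) (iF : U →* F) (ιY : Y →* I) (ιF : F →* I) (g : I) (x : Y)
    (h : Has iY iF ιY ιF g) : Has iY iF ιY ιF (g * ιY x) := by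
  obtain ⟨n, y, f, ⟨h1, h2⟩, rfl⟩ := h
  refine ⟨n, Function.update y n (y n * x), f, ⟨h1, fun i h3 h4 => ?_⟩, ?_⟩
  · rw [Function.update_of_ne (by omega)]
    exact h2 i h3 h4
  · cases n with
    | zero => simp [val]
    | succ n =>
      rw [val, val, Function.update_self, map_mul]
      simp only [mul_assoc]
      congr 1
      refine val_congr ιY ιF n (fun k hk => ?_) (fun _ _ => rfl)
      rw [Function.update_of_ne (by omega)]

theorem has_app (iY : U →* Y) (iF : U →* F) (ιY : Y →* I) (ιF : F →* I) (y : ℕ → Y) (f : ℕ → F)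
    (n : ℕ) (h : Red iY iF y f n) (hy : 0 < n → y n ∉ iY.range) (a : F) (ha : a ∉ iF.range) :
    Has iY iF ιY ιF (val ιY ιF y f n * ιF a) := by
  refine ⟨n + 1, Function.update y (n + 1) 1, Function.update f n a, ⟨fun i hi => ?_,
    fun i hi hi' => ?_⟩, ?_⟩
  · rcases Nat.lt_or_ge i n with h1 | h1
    · rw [Function.update_of_ne (by omega)]
      exact h.1 i h1
    · obtain rfl : i = n := by omega
      rw [Function.update_self]
      exact ha
  · rw [Function.update_of_ne (by omega)]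
    rcases Nat.lt_or_ge i n with h1 | h1
    · exact h.2 i hi h1
    · obtain rfl : i = n := by omega
      exact hy hi
  · rw [val, Function.update_self, Function.update_self, map_one, mul_one]
    congr 1
    exact val_congr ιY ιF n (fun k hk => by rw [Function.update_of_ne (by omega)])
      (fun k hk => by rw [Function.update_of_ne (by omega)])

theorem has_mul_F {iY : U →* Y} {iF : U →* F} {ιY : Y →* I} {ιF : F →* I}
    (hc : ∀ u, ιY (iY u) = ιF (iF u)) (g : I) (a : F)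
    (h : Has iY iF ιY ιF g) : Has iY iF ιY ιF (g * ιF a) := by
  by_cases ha : a ∈ iF.range
  · obtain ⟨u, rfl⟩ := ha
    rw [← hc]
    exact has_mul_Y iY iF ιY ιF g (iY u) h
  obtain ⟨n, y, f, hr, rfl⟩ := h
  cases n with
  | zero => exact has_app iY iF ιY ιF y f 0 hr (fun h => absurd h (by omega)) a ha
  | succ m =>
    by_cases hy : y (m + 1) ∈ iY.range
    · obtain ⟨u, hu⟩ := hy
      have hrm : Red iY iF y f m := ⟨fun i hi => hr.1 i (by omega),
        fun i hi hi' => hr.2 i hi (by omega)⟩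
      have e1 : val ιY ιF y f (m + 1) * ιF a = val ιY ιF y f m * ιF (f m * iF u * a) := by
        rw [val, ← hu, hc, map_mul, map_mul]
        simp only [mul_assoc]
      rw [e1]
      by_cases hb : f m * iF u * a ∈ iF.range
      · obtain ⟨v, hv⟩ := hb
        rw [← hv, ← hc]
        exact has_mul_Y iY iF ιY ιF _ (iY v) ⟨m, y, f, hrm, rfl⟩
      · exact has_app iY iF ιY ιF y f m hrm (fun h => hr.2 m h (by omega)) _ hb
    · exact has_app iY iF ιY ιF y f (m + 1) hr (fun _ => hy) a ha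

theorem has_all {iY : U →* Y} {iF : U →* F} {ιY : Y →* I} {ιF : F →* I} (h : Am iY iF ιY ιF)
    (g : I) : Has iY iF ιY ιF g := by
  have hg : g ∈ Subgroup.closure (Set.range ιY ∪ Set.range ιF) := by
    rw [h.gen]
    exact Subgroup.mem_top g
  induction hg using Subgroup.closure_induction_right with
  | one => exact ⟨0, fun _ => 1, fun _ => 1, ⟨fun i hi => by omega, fun i _ hi => by omega⟩,
      by simp [val]⟩
  | mul_right x hx y hy ih =>
    rcases hy with ⟨b, rfl⟩ | ⟨b, rfl⟩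
    · exact has_mul_Y iY iF ιY ιF x b ih
    · exact has_mul_F h.comm x b ih
  | mul_inv_cancel x hx y hy ih =>
    rcases hy with ⟨b, rfl⟩ | ⟨b, rfl⟩
    · rw [← map_inv]
      exact has_mul_Y iY iF ιY ιF x b⁻¹ ih
    · rw [← map_inv]
      exact has_mul_F h.comm x b⁻¹ ih

theorem fix_iff {B : Type} [Group B] (N : Subgroup B) (hN : N.Normal) (m : ℕ) (b : B)
    (v : (B ⧸ N) × Fin m) : cop N m b v = v ↔ b ∈ N := by
  obtain ⟨q, i⟩ := v
  rw [cop_apply, Prod.mk.injEq]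
  simp [smul_eq_iff]

theorem one_iff {B : Type} [Group B] (N : Subgroup B) (hN : N.Normal) (m : ℕ) (hm : 0 < m)
    (b : B) : cop N m b = 1 ↔ b ∈ N := by
  constructor
  · intro h
    rw [← fix_iff N hN m b (((1 : B) : B ⧸ N), ⟨0, hm⟩), h, Equiv.Perm.one_apply]
  · intro h
    ext1 v
    rw [(fix_iff N hN m b v).2 h, Equiv.Perm.one_apply]

/-- the gluing -/
theorem glue {iY : U →* Y} {iF : U →* F} {ιY : Y →* I} {ιF : F →* I} (h : Am iY iF ιY ιF)
    (M : Subgroup Y) (N : Subgroup F) (hM : M.Normal) (hMf : M.FiniteIndex) (hN : N.Normal)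
    (hNf : N.FiniteIndex) (hMN : M.comap iY = N.comap iF) (k k' : ℕ) (hk : 0 < k) (hk' : 0 < k')
    (hcard : Nat.card (Y ⧸ M) * k = Nat.card (F ⧸ N) * k') {J : Type}
    (x : J → (Y ⧸ M) × Fin k) (z : J → (F ⧸ N) × Fin k')
    (hx : ∀ j l u, cop M k (iY u) (x j) = x l → j = l)
    (hz : ∀ j l u, cop N k' (iF u) (z j) = z l → j = l) :
    ∃ (τ : ((Y ⧸ M) × Fin k) ≃ ((F ⧸ N) × Fin k')) (Φ : I →* Equiv.Perm ((Y ⧸ M) × Fin k)),
      (∀ y, Φ (ιY y) = cop M k y) ∧ (∀ f v, τ (Φ (ιF f) v) = cop N k' f (τ v)) ∧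
      (∀ j, τ (x j) = z j) ∧ Φ.ker.Normal ∧ Φ.ker.FiniteIndex ∧ Φ.ker.comap ιY = M ∧
        Φ.ker.comap ιF = N := by
  have : Finite (Y ⧸ M) := inferInstance
  have : Finite (F ⧸ N) := inferInstance
  have hc : Nat.card ((Y ⧸ M) × Fin k) = Nat.card ((F ⧸ N) × Fin k') := by
    rw [Nat.card_prod, Nat.card_prod, Nat.card_fin, Nat.card_fin]
    exact hcard
  obtain ⟨e⟩ : Nonempty (((Y ⧸ M) × Fin k) ≃ ((F ⧸ N) × Fin k')) := Finite.card_eq.1 hc
  let conj : (((Y ⧸ M) × Fin k) ≃ ((F ⧸ N) × Fin k')) → (F →* Equiv.Perm ((Y ⧸ M) × Fin k)) :=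
    fun s =>
    { toFun := fun f => (s.trans (cop N k' f)).trans s.symm
      map_one' := by
        ext1 v
        simp
      map_mul' := by
        intro a b
        ext1 v
        simp }
  have hconj : ∀ s f v, conj s f v = s.symm (cop N k' f (s v)) := fun s f v => rfl
  have hU : ∀ u, iY u ∈ M ↔ iF u ∈ N := fun u => by
    have := congrArg (fun K => u ∈ K) hMN
    simpa using this
  obtain ⟨τ0, h1, h2⟩ := ext_equivariant ((cop M k).comp iY) ((conj e).comp iF)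
    (fun u v w => by
      rw [MonoidHom.comp_apply, MonoidHom.comp_apply, fix_iff M hM, hconj, Equiv.symm_apply_eq,
        fix_iff N hN, hU]) x (fun j => e.symm (z j)) (fun j l u hjl => hx j l u hjl)
    (fun j l u hjl => by
      rw [MonoidHom.comp_apply, hconj, Equiv.apply_symm_apply] at hjl
      exact hz j l u (e.symm.injective hjl))
  obtain ⟨Φ, h3, h4⟩ := h.univ (Equiv.Perm ((Y ⧸ M) × Fin k)) (cop M k) (conj (τ0.trans e))
    (fun u => by
      ext1 v
      rw [hconj]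
      change _ = (τ0.trans e).symm (cop N k' (iF u) (e (τ0 v)))
      rw [Equiv.eq_symm_apply]
      change e (τ0 (((cop M k).comp iY) u v)) = _
      rw [h1, MonoidHom.comp_apply, hconj, Equiv.apply_symm_apply])
  refine ⟨τ0.trans e, Φ, h3, fun f v => ?_, fun j => ?_, inferInstance, inferInstance, ?_, ?_⟩
  · rw [h4, hconj, Equiv.apply_symm_apply]
  · change e (τ0 (x j)) = z j
    rw [h2, Equiv.apply_symm_apply]
  · ext y
    rw [Subgroup.mem_comap, MonoidHom.mem_ker, h3, one_iff M hM k hk]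
  · ext f
    rw [Subgroup.mem_comap, MonoidHom.mem_ker, h4, ← one_iff N hN k' hk']
    constructor
    · intro h5
      ext1 v
      have h6 : (τ0.trans e) (conj (τ0.trans e) f ((τ0.trans e).symm v)) = v := by
        rw [h5, Equiv.Perm.one_apply, Equiv.apply_symm_apply]
      rw [hconj, Equiv.apply_symm_apply, Equiv.apply_symm_apply] at h6
      rw [h6, Equiv.Perm.one_apply]
    · intro h5
      ext1 v
      rw [hconj, h5, Equiv.Perm.one_apply, Equiv.symm_apply_apply, Equiv.Perm.one_apply]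

theorem ne {B C : Type} [Group B] [Group C] (j : C →* B) (N : Subgroup B) (hN : N.Normal) (b : B)
    (hb : ∀ c, b * (j c)⁻¹ ∉ N) :
    (∀ c, j c • ((b : B) : B ⧸ N) ≠ ((1 : B) : B ⧸ N)) ∧
      ∀ c, j c • ((1 : B) : B ⧸ N) ≠ ((b : B) : B ⧸ N) := by
  refine ⟨fun c hc => ?_, fun c hc => ?_⟩
  · rw [MulAction.Quotient.smul_coe, smul_eq_mul, eq_comm, QuotientGroup.eq, inv_one,
      one_mul] at hc
    have h1 := notMem_comm hc
    have h2 := hb c⁻¹
    rw [map_inv, inv_inv] at h2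
    exact h2 h1
  · rw [MulAction.Quotient.smul_coe, smul_eq_mul, mul_one, QuotientGroup.eq] at hc
    exact hb c (notMem_comm hc)

theorem path {ιY : Y →* I} {ιF : F →* I} (M : Subgroup Y) (N : Subgroup F) (k k' n : ℕ)
    (hk : n < k) (hk' : n < k') (y : ℕ → Y) (f : ℕ → F)
    (τ : ((Y ⧸ M) × Fin k) ≃ ((F ⧸ N) × Fin k')) (Φ : I →* Equiv.Perm ((Y ⧸ M) × Fin k))
    (h1 : ∀ y, Φ (ιY y) = cop M k y) (h2 : ∀ f v, τ (Φ (ιF f) v) = cop N k' f (τ v))
    (h3 : ∀ i (hi : i < n), τ (((y (i + 1) : Y) : Y ⧸ M), ⟨i + 1, by omega⟩) =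
      (((1 : F) : F ⧸ N), ⟨i + 1, by omega⟩))
    (h4 : ∀ i (hi : i < n), τ (((1 : Y) : Y ⧸ M), ⟨i, by omega⟩) =
      (((f i : F) : F ⧸ N), ⟨i + 1, by omega⟩)) :
    ∀ m (hm : m ≤ n), Φ (val ιY ιF y f m) (((1 : Y) : Y ⧸ M), ⟨m, by omega⟩) =
      (((y 0 : Y) : Y ⧸ M), ⟨0, by omega⟩) := by
  intro m
  induction m with
  | zero =>
    intro _
    rw [val, h1, cop_apply, MulAction.Quotient.smul_coe, smul_eq_mul, mul_one]
  | succ m ih =>
    intro hm
    rw [val, map_mul, map_mul, Equiv.Perm.mul_apply, Equiv.Perm.mul_apply, h1, cop_apply,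
      MulAction.Quotient.smul_coe, smul_eq_mul, mul_one]
    have h5 : Φ (ιF (f m)) (((y (m + 1) : Y) : Y ⧸ M), ⟨m + 1, by omega⟩) =
        (((1 : Y) : Y ⧸ M), ⟨m, by omega⟩) := by
      apply τ.injective
      rw [h2, h3 m (by omega), h4 m (by omega), cop_apply, MulAction.Quotient.smul_coe,
        smul_eq_mul, mul_one]
    rw [h5]
    exact ih (by omega)

end Ac

/-- compatible finite quotients of `Y` and `F` give a finite quotient of `I` -/
theorem ac_ext {iY : U →* Y} {iF : U →* F} {ιY : Y →* I} {ιF : F →* I} (h : Am iY iF ιY ιF)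
    (M : Subgroup Y) (N : Subgroup F) (hM : M.Normal) (hMf : M.FiniteIndex) (hN : N.Normal)
    (hNf : N.FiniteIndex) (hMN : M.comap iY = N.comap iF) :
    ∃ K : Subgroup I, K.Normal ∧ K.FiniteIndex ∧ K.comap ιY = M ∧ K.comap ιF = N := by
  have : Finite (Y ⧸ M) := inferInstance
  have : Finite (F ⧸ N) := inferInstance
  obtain ⟨_, Φ, _, _, _, h1, h2, h3, h4⟩ := Ac.glue h M N hM hMf hN hNf hMN
    (Nat.card (F ⧸ N)) (Nat.card (Y ⧸ M)) Nat.card_pos Nat.card_pos (mul_comm _ _) (J := Empty)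
    (fun j => j.elim) (fun j => j.elim) (fun j => j.elim) (fun j => j.elim)
  exact ⟨Φ.ker, h1, h2, h3, h4⟩

/-- separation of an element of `I` from `Y` -/
theorem ac_sep {iY : U →* Y} {iF : U →* F} {ιY : Y →* I} {ιF : F →* I} (h : Am iY iF ιY ιF)
    (g : I) (hg : g ∉ ιY.range) :
    ∃ (A : Finset Y) (B : Finset F), (∀ a ∈ A, a ∉ iY.range) ∧ (∀ b ∈ B, b ∉ iF.range) ∧
      ∀ (M : Subgroup Y) (N : Subgroup F), M.Normal → M.FiniteIndex → N.Normal → N.FiniteIndex →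
        M.comap iY = N.comap iF → (∀ a ∈ A, ∀ u, a * (iY u)⁻¹ ∉ M) →
        (∀ b ∈ B, ∀ u, b * (iF u)⁻¹ ∉ N) →
        ∃ K : Subgroup I, K.Normal ∧ K.FiniteIndex ∧ K.comap ιY = M ∧ K.comap ιF = N ∧
          ∀ y, g * (ιY y)⁻¹ ∉ K := by
  classical
  obtain ⟨n, y, f, hr, rfl⟩ := Ac.has_all h g
  have hn : 0 < n := by
    rcases Nat.eq_zero_or_pos n with h0 | h0
    · subst h0
      exact absurd ⟨y 0, rfl⟩ hg
    · exact h0
  refine ⟨((Finset.range n).filter fun i => 0 < i).image y, (Finset.range n).image f, ?_, ?_, ?_⟩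
  · intro a ha
    obtain ⟨i, hi, rfl⟩ := Finset.mem_image.1 ha
    rw [Finset.mem_filter, Finset.mem_range] at hi
    exact hr.2 i hi.2 hi.1
  · intro b hb
    obtain ⟨i, hi, rfl⟩ := Finset.mem_image.1 hb
    exact hr.1 i (Finset.mem_range.1 hi)
  intro M N hM hMf hN hNf hMN hA hB
  have : Finite (Y ⧸ M) := inferInstance
  have : Finite (F ⧸ N) := inferInstance
  have hA' : ∀ i, 0 < i → i < n → ∀ u, y i * (iY u)⁻¹ ∉ M := fun i h1 h2 =>
    hA (y i) (Finset.mem_image.2 ⟨i, by rw [Finset.mem_filter, Finset.mem_range]; exact ⟨h2, h1⟩,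
      rfl⟩)
  have hB' : ∀ i, i < n → ∀ u, f i * (iF u)⁻¹ ∉ N := fun i h1 =>
    hB (f i) (Finset.mem_image.2 ⟨i, Finset.mem_range.2 h1, rfl⟩)
  obtain ⟨k, hk⟩ : ∃ k, k = Nat.card (F ⧸ N) * (n + 1) := ⟨_, rfl⟩
  obtain ⟨k', hk'⟩ : ∃ k', k' = Nat.card (Y ⧸ M) * (n + 1) := ⟨_, rfl⟩
  have hkn : n < k := by
    have h1 : 0 < Nat.card (F ⧸ N) := Nat.card_pos
    rw [hk]
    nlinarith
  have hkn' : n < k' := by
    have h1 : 0 < Nat.card (Y ⧸ M) := Nat.card_pos
    rw [hk']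
    nlinarith
  obtain ⟨x, hx⟩ : ∃ x : Fin n × Bool → (Y ⧸ M) × Fin k, ∀ i b, x (i, b) =
      bif b then (((y (i.1 + 1) : Y) : Y ⧸ M), ⟨i.1 + 1, by omega⟩)
      else (((1 : Y) : Y ⧸ M), ⟨i.1, by omega⟩) :=
    ⟨fun p => bif p.2 then (((y (p.1.1 + 1) : Y) : Y ⧸ M), ⟨p.1.1 + 1, by omega⟩)
      else (((1 : Y) : Y ⧸ M), ⟨p.1.1, by omega⟩), fun _ _ => rfl⟩
  obtain ⟨z, hz⟩ : ∃ z : Fin n × Bool → (F ⧸ N) × Fin k', ∀ i b, z (i, b) =
      bif b then (((1 : F) : F ⧸ N), ⟨i.1 + 1, by omega⟩)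
      else (((f i.1 : F) : F ⧸ N), ⟨i.1 + 1, by omega⟩) :=
    ⟨fun p => bif p.2 then (((1 : F) : F ⧸ N), ⟨p.1.1 + 1, by omega⟩)
      else (((f p.1.1 : F) : F ⧸ N), ⟨p.1.1 + 1, by omega⟩), fun _ _ => rfl⟩
  obtain ⟨τ, Φ, h1, h2, h3, h4, h5, h6, h7⟩ := Ac.glue h M N hM hMf hN hNf hMN k k' (by omega)
    (by omega) (by rw [hk, hk']; ring) x z
    (by
      rintro ⟨i, b⟩ ⟨l, c⟩ u hil
      rw [hx, hx] at hil
      cases b <;> cases c <;> simp only [cond_true, cond_false, cop_apply, Prod.mk.injEq,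
        Fin.mk.injEq] at hil
      · exact Prod.ext (Fin.ext hil.2) rfl
      · exfalso
        exact (Ac.ne iY M hM (y (l.1 + 1)) (hA' (l.1 + 1) (by omega) (by omega))).2 u hil.1
      · exfalso
        exact (Ac.ne iY M hM (y (i.1 + 1)) (hA' (i.1 + 1) (by omega) (by omega))).1 u hil.1
      · exact Prod.ext (Fin.ext (by dsimp only; omega)) rfl)
    (by
      rintro ⟨i, b⟩ ⟨l, c⟩ u hil
      rw [hz, hz] at hil
      cases b <;> cases c <;> simp only [cond_true, cond_false, cop_apply, Prod.mk.injEq,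
        Fin.mk.injEq] at hil
      · exact Prod.ext (Fin.ext (by dsimp only; omega)) rfl
      · exfalso
        exact (Ac.ne iF N hN (f i.1) (hB' i.1 i.2)).1 u hil.1
      · exfalso
        exact (Ac.ne iF N hN (f l.1) (hB' l.1 l.2)).2 u hil.1
      · exact Prod.ext (Fin.ext (by dsimp only; omega)) rfl)
  refine ⟨Φ.ker, h4, h5, h6, h7, fun y' hy' => ?_⟩
  have h8 := Ac.path M N k k' n hkn hkn' y f τ Φ h1 h2
    (fun i hi => by
      have h9 := h3 (⟨i, hi⟩, true)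
      rw [hx, hz] at h9
      exact h9)
    (fun i hi => by
      have h9 := h3 (⟨i, hi⟩, false)
      rw [hx, hz] at h9
      exact h9) n le_rfl
  rw [MonoidHom.mem_ker, map_mul, map_inv, mul_inv_eq_one, h1] at hy'
  rw [hy', cop_apply, Prod.mk.injEq, Fin.mk.injEq] at h8
  omega

end Pool.Agent.MP3f0e40.PL
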