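import Mathlib
import Pool.Agent.Lib.MP_3f0e40_al.PL.Defs

set_option autoImplicit false

/-!
# MP_3f0e40_al, project PL: families of traces
-/

namespace Pool.Agent.MP3f0e40.PL

open Pool.Agent.MP3f0e40

variable {C L : Type}

theorem ret_inC (c : FreeGroup C) : ret (L := L) (inC c) = c := by
  have : (ret (L := L)).comp inC = MonoidHom.id (FreeGroup C) := by
    ext1 x
    rw [MonoidHom.comp_apply, inC, FreeGroup.map.of, ret, FreeGroup.lift_apply_of]
    rfl
  exact DFunLike.congr_fun this c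

theorem inC_injective : Function.Injective (inC : FreeGroup C →* FreeGroup (C ⊕ L)) :=
  Function.LeftInverse.injective (ret_inC (L := L))

theorem iF_old (w : FreeGroup (C ⊕ L)) (c : FreeGroup C) : iF w (old c) = inC c := by
  have : (iF w).comp old = inC := by
    ext1 x
    rw [MonoidHom.comp_apply, inC, FreeGroup.map.of, old, FreeGroup.map.of, iF,
      FreeGroup.lift_apply_of]
    rfl
  exact DFunLike.congr_fun this c

theorem iF_comp_old (w : FreeGroup (C ⊕ L)) : (iF w).comp old = inC :=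
  MonoidHom.ext fun c => iF_old w c

theorem iF_none (w : FreeGroup (C ⊕ L)) : iF w (FreeGroup.of none) = w := by
  rw [iF, FreeGroup.lift_apply_of]
  rfl

theorem TF.notMem {w : FreeGroup (C ⊕ L)} (h : TF w) :
    w ∉ (inC : FreeGroup C →* FreeGroup (C ⊕ L)).range := by
  rintro ⟨c, rfl⟩
  refine h 1 c 1 ?_
  simp

theorem Up.mono {P : Subgroup (FreeGroup C) → Prop} {D D' : Subgroup (FreeGroup C)}
    (h : Up P D) (hD : D ≤ D') : Up P D' := by
  obtain ⟨D₀, h0, h1⟩ := h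
  exact ⟨D₀, h0, h1.trans hD⟩

theorem Up.inf {P : Subgroup (FreeGroup C) → Prop} (hP : Fam P) {D D' : Subgroup (FreeGroup C)}
    (h : Up P D) (h' : Up P D') : Up P (D ⊓ D') := by
  obtain ⟨D₀, h0, h1⟩ := h
  obtain ⟨D₁, h2, h3⟩ := h'
  exact ⟨D₀ ⊓ D₁, hP.inf _ _ h0 h2, inf_le_inf h1 h3⟩

theorem Fam.up {P : Subgroup (FreeGroup C) → Prop} {D : Subgroup (FreeGroup C)} (h : P D) :
    Up P D := ⟨D, h, le_rfl⟩

theorem fam_Tr (r : FreeGroup (C ⊕ L)) : Fam (Tr r) := by
  refine ⟨?_, ?_, ?_, ?_⟩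
  · rintro _ ⟨N, h1, h2, h3, rfl⟩
    exact h1.comap _
  · rintro _ ⟨N, h1, h2, h3, rfl⟩
    exact finIdx_comap _ N
  · exact ⟨⊤, inferInstance, inferInstance, Subgroup.mem_top _, Subgroup.comap_top _⟩
  · rintro _ _ ⟨N, h1, h2, h3, rfl⟩ ⟨N', h1', h2', h3', rfl⟩
    exact ⟨N ⊓ N', inferInstance, inferInstance, ⟨h3, h3'⟩, Subgroup.comap_inf _ _ _⟩

theorem sepd_of_full {P : Subgroup (FreeGroup C) → Prop} (h : Full P) : Sepd P := by
  intro c hc
  obtain ⟨N, h1, h2, h3⟩ := (rf_iff _).1 (free_rf C) c hc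
  obtain ⟨D, hD, hDN⟩ := h N h1 h2
  exact ⟨D, hD, fun hcD => h3 (hDN hcD)⟩

/-- a common subgroup for finitely many conditions -/
theorem exists_common_up {Y : Type} [Group Y] {P : Subgroup (FreeGroup C) → Prop} (hP : Fam P)
    (j : FreeGroup C →* Y) {Q : Y → Subgroup Y → Prop}
    (hanti : ∀ b N N', N' ≤ N → Q b N → Q b N') (T : Finset Y)
    (h : ∀ b ∈ T, ∃ N : Subgroup Y, N.Normal ∧ N.FiniteIndex ∧ Up P (N.comap j) ∧ Q b N) :
    ∃ N : Subgroup Y, N.Normal ∧ N.FiniteIndex ∧ Up P (N.comap j) ∧ ∀ b ∈ T, Q b N := by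
  classical
  induction T using Finset.induction with
  | empty =>
    exact ⟨⊤, inferInstance, inferInstance, ⟨⊤, hP.top, by rw [Subgroup.comap_top]⟩, by simp⟩
  | insert a T _ ih =>
    obtain ⟨N, h1, h2, h3, h4⟩ := ih (fun b hb => h b (Finset.mem_insert_of_mem hb))
    obtain ⟨N', h1', h2', h3', h4'⟩ := h a (Finset.mem_insert_self a T)
    refine ⟨N ⊓ N', inferInstance, inferInstance, ?_, fun b hb => ?_⟩
    · rw [Subgroup.comap_inf]
      exact Up.inf hP h3 h3'
    rcases Finset.mem_insert.1 hb with rfl | hb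
    · exact hanti _ _ _ inf_le_right h4'
    · exact hanti _ _ _ inf_le_left (h4 b hb)

end Pool.Agent.MP3f0e40.PL
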