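import Mathlib
import Pool.Agent.Lib.MP_3f0e40_al.PL.Fam
import Pool.Agent.Lib.MP_3f0e40_al.PL.Ac

set_option autoImplicit false

/-!
# MP_3f0e40_al, project PL: the group `⟨C, x, y; W(x, y)⟩`
-/

namespace Pool.Agent.MP3f0e40.PL

open Pool.Agent.MP3f0e40

variable {C L : Type}

/-- the range of a retract is closed -/
theorem cl_of_retract {Y U : Type} [Group Y] [Group U] (P : Subgroup (FreeGroup C) → Prop)
    (j : FreeGroup C →* Y) (hbot : Cl P j ⊥) (i : U →* Y) (π : Y →* U) (hπ : ∀ u, π (i u) = u)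
    (hj : ∀ c, i (π (j c)) = j c) : Cl P j i.range := by
  intro y hy
  obtain ⟨M₀, h1, h2, h3, h4⟩ := hbot (y * (i (π y))⁻¹) (fun h => hy ⟨π y, by
    rw [Subgroup.mem_bot, mul_inv_eq_one] at h
    exact h.symm⟩)
  have h5 : (M₀.comap (i.comp π)).FiniteIndex := finIdx_comap _ M₀
  refine ⟨M₀ ⊓ M₀.comap (i.comp π), inferInstance, inferInstance, ?_, ?_⟩
  · have h6 : (M₀ ⊓ M₀.comap (i.comp π)).comap j = M₀.comap j := by
      ext c
      simp only [Subgroup.mem_comap, Subgroup.mem_inf, MonoidHom.comp_apply, hj, and_self]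
    rw [h6]
    exact h3
  · rintro _ ⟨u, rfl⟩ hu
    have h7 : i (π (y * (i u)⁻¹)) ∈ M₀ := hu.2
    rw [map_mul, map_mul, map_inv, map_inv, hπ] at h7
    refine h4 1 (Subgroup.mem_bot.2 rfl) ?_
    have h8 := M₀.mul_mem hu.1 (M₀.inv_mem h7)
    rw [mul_inv_rev, inv_inv, mul_assoc, inv_mul_cancel_left] at h8
    rwa [inv_one, mul_one]

/-- a homomorphism from `⟨C, x, y; W⟩` -/
theorem exists_homJ {K : Type} [Group K] (W : FreeGroup (Fin 2)) (f : C → K) (a b : K)
    (h : sub a b W = 1) : ∃ Φ : JW C W →* K, (∀ c, Φ (PresentedGroup.of (Sum.inl c)) = f c) ∧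
      Φ (PresentedGroup.of (Sum.inr 0)) = a ∧ Φ (PresentedGroup.of (Sum.inr 1)) = b := by
  have h1 : FreeGroup.lift (Sum.elim f ![a, b]) (FreeGroup.map Sum.inr W) = 1 := by
    have : (FreeGroup.lift (Sum.elim f ![a, b])).comp (FreeGroup.map Sum.inr) = sub a b := by
      ext1 x
      rw [MonoidHom.comp_apply, FreeGroup.map.of, sub, FreeGroup.lift_apply_of,
        FreeGroup.lift_apply_of]
      rfl
    rw [← h]
    exact DFunLike.congr_fun this W
  exact ⟨toG _ _ h1, fun c => toG_of _ _ h1 _, toG_of _ _ h1 _, toG_of _ _ h1 _⟩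

theorem jx_some (W : FreeGroup (Fin 2)) (c : C) :
    jx W (FreeGroup.of (some c)) = PresentedGroup.of (Sum.inl c) := by
  rw [jx, FreeGroup.lift_apply_of]
  rfl

theorem jx_none (W : FreeGroup (Fin 2)) :
    jx (C := C) W (FreeGroup.of none) = PresentedGroup.of (Sum.inr 0) := by
  rw [jx, FreeGroup.lift_apply_of]
  rfl

theorem jy_some (W : FreeGroup (Fin 2)) (c : C) :
    jy W (FreeGroup.of (some c)) = PresentedGroup.of (Sum.inl c) := by
  rw [jy, FreeGroup.lift_apply_of]
  rfl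

theorem jy_none (W : FreeGroup (Fin 2)) :
    jy (C := C) W (FreeGroup.of none) = PresentedGroup.of (Sum.inr 1) := by
  rw [jy, FreeGroup.lift_apply_of]
  rfl

theorem jy_comp_old (W : FreeGroup (Fin 2)) : (jy (C := C) W).comp old = (jx W).comp old := by
  ext1 c
  show jy W (FreeGroup.map some (FreeGroup.of c)) = jx W (FreeGroup.map some (FreeGroup.of c))
  rw [FreeGroup.map.of, jx_some, jy_some]

theorem exists_px {W : FreeGroup (Fin 2)} (hW : Bal W) :
    ∃ π : JW C W →* FreeGroup (Option C), ∀ u, π (jx W u) = u := by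
  obtain ⟨π, h1, h2, -⟩ := exists_homJ W (fun c : C => FreeGroup.of (some c))
    (FreeGroup.of none) 1 (hW _ _).1
  refine ⟨π, fun u => ?_⟩
  have : π.comp (jx W) = MonoidHom.id _ := by
    ext1 o
    rw [MonoidHom.comp_apply]
    cases o with
    | none => rw [jx_none, h2]; rfl
    | some c => rw [jx_some, h1]; rfl
  exact DFunLike.congr_fun this u

theorem exists_py {W : FreeGroup (Fin 2)} (hW : Bal W) :
    ∃ π : JW C W →* FreeGroup (Option C), ∀ u, π (jy W u) = u := by
  obtain ⟨π, h1, -, h2⟩ := exists_homJ W (fun c : C => FreeGroup.of (some c))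
    1 (FreeGroup.of none) (hW _ _).2
  refine ⟨π, fun u => ?_⟩
  have : π.comp (jy W) = MonoidHom.id _ := by
    ext1 o
    rw [MonoidHom.comp_apply]
    cases o with
    | none => rw [jy_none, h2]; rfl
    | some c => rw [jy_some, h1]; rfl
  exact DFunLike.congr_fun this u

/-- `⟨x, y; W⟩ → ⟨C, x, y; W⟩` -/
def jQ (C : Type) (W : FreeGroup (Fin 2)) : QW W →* JW C W :=
  toG W (fun i => PresentedGroup.of (Sum.inr i)) (by
    have : FreeGroup.lift (fun i => (PresentedGroup.of (Sum.inr i) : JW C W)) =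
        (PresentedGroup.mk _).comp (FreeGroup.map Sum.inr) := by
      ext1 i
      rw [MonoidHom.comp_apply, FreeGroup.map.of, FreeGroup.lift_apply_of]
      rfl
    rw [this]
    exact mk_rel _)

theorem jQ_of (W : FreeGroup (Fin 2)) (i : Fin 2) :
    jQ C W (PresentedGroup.of i) = PresentedGroup.of (Sum.inr i) := toG_of _ _ _ _

/-- `⟨C, x, y; W⟩` is the free product of `⟨x, y; W⟩` and `F(C)` -/
theorem am_J (W : FreeGroup (Fin 2)) :
    Am (1 : Unit →* QW W) (1 : Unit →* FreeGroup C) (jQ C W) ((jx W).comp old) := by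
  refine ⟨fun u => by simp, ?_, ?_⟩
  · rw [eq_top_iff, ← PresentedGroup.closure_range_of, Subgroup.closure_le]
    rintro _ ⟨x, rfl⟩
    cases x with
    | inl c =>
      refine Subgroup.subset_closure (Or.inr ⟨FreeGroup.of c, ?_⟩)
      show jx W (FreeGroup.map some (FreeGroup.of c)) = _
      rw [FreeGroup.map.of, jx_some]
    | inr i => exact Subgroup.subset_closure (Or.inl ⟨PresentedGroup.of i, jQ_of W i⟩)
  · intro K _ ψ φ _
    obtain ⟨Φ, h1, h2, h3⟩ := exists_homJ W (fun c : C => φ (FreeGroup.of c))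
      (ψ (PresentedGroup.of 0)) (ψ (PresentedGroup.of 1)) (by
        have : sub (ψ (PresentedGroup.of 0)) (ψ (PresentedGroup.of 1)) =
            ψ.comp (PresentedGroup.mk _) := by
          ext1 i
          rw [sub, FreeGroup.lift_apply_of, MonoidHom.comp_apply]
          fin_cases i <;> rfl
        rw [this, MonoidHom.comp_apply, mk_rel, map_one])
    refine ⟨Φ, ?_, ?_⟩
    · have : Φ.comp (jQ C W) = ψ := by
        apply PresentedGroup.ext
        intro i
        rw [MonoidHom.comp_apply, jQ_of]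
        fin_cases i
        · exact h2
        · exact h3
      exact fun y => DFunLike.congr_fun this y
    · have : Φ.comp ((jx W).comp old) = φ := by
        ext1 c
        show Φ (jx W (FreeGroup.map some (FreeGroup.of c))) = _
        rw [FreeGroup.map.of, jx_some, h1]
      exact fun y => DFunLike.congr_fun this y

theorem J_bot (P : Subgroup (FreeGroup C) → Prop) (hP : Fam P) (hs : Sepd P)
    (W : FreeGroup (Fin 2)) (hQ : Group.ResiduallyFinite (QW W)) :
    Cl P ((jx (C := C) W).comp old) ⊥ := by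
  intro g hg
  rw [Subgroup.mem_bot] at hg
  have hcomap : ∀ (M : Subgroup (QW W)) (N : Subgroup (FreeGroup C)),
      M.comap (1 : Unit →* QW W) = N.comap (1 : Unit →* FreeGroup C) := by
    intro M N
    ext u
    simp [Subgroup.mem_comap, M.one_mem, N.one_mem]
  by_cases hgY : g ∈ (jQ C W).range
  · obtain ⟨q, rfl⟩ := hgY
    have hq : q ≠ 1 := fun h => hg (by rw [h, map_one])
    obtain ⟨M, h1, h2, h3⟩ := (rf_iff _).1 hQ q hq
    obtain ⟨K, hK, hKf, hKY, hKF⟩ := ac_ext (am_J W) M ⊤ h1 h2 inferInstance inferInstance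
      (hcomap _ _)
    refine ⟨K, hK, hKf, ⟨⊤, hP.top, by rw [hKF]⟩, ?_⟩
    intro s hs2 hK2
    rw [Subgroup.mem_bot] at hs2
    rw [hs2, inv_one, mul_one] at hK2
    exact h3 (by rw [← hKY]; exact hK2)
  · obtain ⟨A, B, hA, hB, hAB⟩ := ac_sep (am_J W) g hgY
    obtain ⟨M, hM, hMf, hMA⟩ := exists_common
      (P := fun (b : QW W) (N : Subgroup (QW W)) => b ≠ 1 → b ∉ N)
      (fun b N N' hN hP hb hb' => hP hb (hN hb'))
      (fun b => by
        by_cases hb : b = 1
        · exact ⟨⊤, inferInstance, inferInstance, fun h => absurd hb h⟩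
        · obtain ⟨N, h1, h2, h3⟩ := (rf_iff _).1 hQ b hb
          exact ⟨N, h1, h2, fun _ => h3⟩) A
    obtain ⟨N, hN, hNf, hNu, hNB⟩ := exists_common_up hP (MonoidHom.id _)
      (Q := fun (b : FreeGroup C) (N : Subgroup (FreeGroup C)) => b ≠ 1 → b ∉ N)
      (fun b N N' hN hP hb hb' => hP hb (hN hb')) B
      (fun b _ => by
        by_cases hb : b = 1
        · exact ⟨⊤, inferInstance, inferInstance, ⟨⊤, hP.top, le_top⟩, fun h => absurd hb h⟩
        · obtain ⟨D, hD, hbD⟩ := hs b hb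
          exact ⟨D, hP.nrm D hD, hP.fin D hD, ⟨D, hD, le_rfl⟩, fun _ => hbD⟩)
    have hA1 : ∀ a ∈ A, a ≠ 1 := fun a ha h => hA a ha ⟨1, by rw [h]; rfl⟩
    have hB1 : ∀ b ∈ B, b ≠ 1 := fun b hb h => hB b hb ⟨1, by rw [h]; rfl⟩
    obtain ⟨K, hK, hKf, hKY, hKF, hKg⟩ := hAB M N hM hMf hN hNf (hcomap _ _)
      (fun a ha u => by simpa using hMA a ha (hA1 a ha))
      (fun b hb u => by simpa using hNB b hb (hB1 b hb))
    refine ⟨K, hK, hKf, ?_, ?_⟩
    · rw [hKF]
      exact hNu
    · intro s hs2 hK2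
      rw [Subgroup.mem_bot] at hs2
      rw [hs2] at hK2
      exact hKg 1 (by rwa [map_one])

theorem J_x (P : Subgroup (FreeGroup C) → Prop) (hP : Fam P) (hs : Sepd P)
    {W : FreeGroup (Fin 2)} (hW : Bal W) (hQ : Group.ResiduallyFinite (QW W)) :
    Cl P ((jx (C := C) W).comp old) (jx W).range := by
  obtain ⟨π, hπ⟩ := exists_px (C := C) hW
  exact cl_of_retract P _ (J_bot P hP hs W hQ) (jx W) π hπ (fun c => by
    rw [MonoidHom.comp_apply, hπ])

theorem J_y (P : Subgroup (FreeGroup C) → Prop) (hP : Fam P) (hs : Sepd P)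
    {W : FreeGroup (Fin 2)} (hW : Bal W) (hQ : Group.ResiduallyFinite (QW W)) :
    Cl P ((jx (C := C) W).comp old) (jy W).range := by
  obtain ⟨π, hπ⟩ := exists_py (C := C) hW
  exact cl_of_retract P _ (J_bot P hP hs W hQ) (jy W) π hπ (fun c => by
    rw [← jy_comp_old, MonoidHom.comp_apply, hπ])

theorem J_ex (P : Subgroup (FreeGroup C) → Prop) {W : FreeGroup (Fin 2)} (hW : Bal W) :
    Ex P (jx (C := C) W) := by
  obtain ⟨π, hπ⟩ := exists_px (C := C) hW
  intro V hV hVf _
  refine ⟨V.comap π, hV.comap _, finIdx_comap _ V, ?_⟩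
  ext u
  rw [Subgroup.mem_comap, Subgroup.mem_comap, hπ]

end Pool.Agent.MP3f0e40.PL
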