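import Mathlib
import Pool.Agent.Lib.MP_3f0e40_al.PL.Fam
import Pool.Agent.Lib.MP_3f0e40_al.PL.Ac

set_option autoImplicit false

/-!
# MP_3f0e40_al, project PL: closed subgroups stay closed
-/

namespace Pool.Agent.MP3f0e40.PL

open Pool.Agent.MP3f0e40

variable {C L Y I : Type} [Group Y] [Group I]

/-- `I` is `Y` with the letters `L` and the relation `x = w` added. Closed subgroups of `Y` are
closed in `I`. -/
theorem lemL (P : Subgroup (FreeGroup C) → Prop) (hP : Fam P) (w : FreeGroup (C ⊕ L))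
    (hw : RH P w) (iY : FreeGroup (Option C) →* Y) (hex : Ex P iY)
    (hcl : Cl P (iY.comp old) iY.range) (ιY : Y →* I) (ιF : FreeGroup (C ⊕ L) →* I)
    (h : Am iY (iF w) ιY ιF) (S : Subgroup Y) (hS : Cl P (iY.comp old) S) :
    Cl P (ιY.comp (iY.comp old)) (S.map ιY) := by
  classical
  -- compatible subgroups below a given one
  have key : ∀ (M : Subgroup Y), M.Normal → M.FiniteIndex → Up P (M.comap (iY.comp old)) →
      ∀ T : Finset (FreeGroup (C ⊕ L)), ∃ (M' : Subgroup Y) (N : Subgroup (FreeGroup (C ⊕ L))),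
        M' ≤ M ∧ M'.Normal ∧ M'.FiniteIndex ∧ N.Normal ∧ N.FiniteIndex ∧
        M'.comap iY = N.comap (iF w) ∧ P (N.comap inC) ∧
        ∀ t ∈ T, t ∉ (iF w).range → ∀ u, t * (iF w u)⁻¹ ∉ N := by
    intro M hM hMf hMu T
    obtain ⟨N, hN, hNf, hNP, hNV, hNT⟩ := hw (M.comap iY) (hM.comap _) (finIdx_comap _ M)
      (by rwa [Subgroup.comap_comap]) T
    obtain ⟨R, hR, hRf, hRV⟩ := hex (N.comap (iF w)) (hN.comap _) (finIdx_comap _ N) (by
      rwa [Subgroup.comap_comap, iF_comp_old])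
    refine ⟨M ⊓ R, N, inf_le_left, inferInstance, inferInstance, hN, hNf, ?_, hNP, hNT⟩
    rw [Subgroup.comap_inf, hRV]
    exact inf_eq_right.2 hNV
  have keyUp : ∀ (M' : Subgroup Y) (N : Subgroup (FreeGroup (C ⊕ L))) (K : Subgroup I),
      M'.comap iY = N.comap (iF w) → P (N.comap inC) → K.comap ιY = M' →
      Up P (K.comap (ιY.comp (iY.comp old))) := by
    intro M' N K h1 h2 h3
    refine ⟨N.comap inC, h2, ?_⟩
    rw [← Subgroup.comap_comap, h3, ← Subgroup.comap_comap, h1, Subgroup.comap_comap, iF_comp_old]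
  intro g hg
  by_cases hgY : g ∈ ιY.range
  · obtain ⟨y, rfl⟩ := hgY
    have hy : y ∉ S := fun h1 => hg ⟨y, h1, rfl⟩
    obtain ⟨M, hM, hMf, hMu, hMS⟩ := hS y hy
    obtain ⟨M', N, hle, h1, h2, h3, h4, h5, h6, -⟩ := key M hM hMf hMu ∅
    obtain ⟨K, hK, hKf, hKY, -⟩ := ac_ext h M' N h1 h2 h3 h4 h5
    refine ⟨K, hK, hKf, keyUp M' N K h5 h6 hKY, ?_⟩
    rintro _ ⟨s, hs, rfl⟩ hK2
    refine hMS s hs (hle ?_)
    rw [← hKY, Subgroup.mem_comap, map_mul, map_inv]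
    exact hK2
  · obtain ⟨A, B, hA, hB, hAB⟩ := ac_sep h g hgY
    obtain ⟨M, hM, hMf, hMu, hMA⟩ := exists_common_up hP (iY.comp old)
      (Q := fun a M => ∀ u, a * (iY u)⁻¹ ∉ M)
      (fun b N N' hN hQ u hu => hQ u (hN hu)) A (fun a ha => by
        obtain ⟨M, h1, h2, h3, h4⟩ := hcl a (hA a ha)
        exact ⟨M, h1, h2, h3, fun u => h4 _ ⟨u, rfl⟩⟩)
    obtain ⟨M', N, hle, h1, h2, h3, h4, h5, h6, h7⟩ := key M hM hMf hMu B
    obtain ⟨K, hK, hKf, hKY, -, hKg⟩ := hAB M' N h1 h2 h3 h4 h5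
      (fun a ha u hu => hMA a ha u (hle hu)) (fun b hb => h7 b hb (hB b hb))
    refine ⟨K, hK, hKf, keyUp M' N K h5 h6 hKY, ?_⟩
    rintro _ ⟨s, hs, rfl⟩
    exact hKg s

end Pool.Agent.MP3f0e40.PL
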