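import Mathlib
import Pool.Agent.Lib.MP_3f0e40_al.PL.LemL
import Pool.Agent.Lib.MP_3f0e40_al.PL.JJ

set_option autoImplicit false

/-!
# MP_3f0e40_al, project PL: the group `⟨C, L, y; W(r, y)⟩`
-/

namespace Pool.Agent.MP3f0e40.PL

open Pool.Agent.MP3f0e40

variable {C L : Type}

theorem sub_map {K K' : Type} [Group K] [Group K'] (f : K →* K') (a b : K)
    (W : FreeGroup (Fin 2)) : f (sub a b W) = sub (f a) (f b) W := by
  have : f.comp (sub a b) = sub (f a) (f b) := by
    ext1 i
    rw [MonoidHom.comp_apply, sub, sub, FreeGroup.lift_apply_of, FreeGroup.lift_apply_of]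
    fin_cases i <;> rfl
  exact DFunLike.congr_fun this W

theorem rel_J (W : FreeGroup (Fin 2)) :
    sub (PresentedGroup.of (Sum.inr 0) : JW C W) (PresentedGroup.of (Sum.inr 1)) W = 1 := by
  have : sub (PresentedGroup.of (Sum.inr 0) : JW C W) (PresentedGroup.of (Sum.inr 1)) =
      (PresentedGroup.mk _).comp (FreeGroup.map Sum.inr) := by
    ext1 i
    rw [MonoidHom.comp_apply, sub, FreeGroup.map.of, FreeGroup.lift_apply_of]
    fin_cases i <;> rfl
  rw [this]
  exact mk_rel _

theorem rel_E (r : FreeGroup (C ⊕ L)) (W : FreeGroup (Fin 2)) :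
    sub (PresentedGroup.mk _ (old r) : EW r W) (PresentedGroup.of none) W = 1 := by
  have h := mk_rel (sub (old r) (FreeGroup.of none) W)
  rw [sub_map] at h
  exact h

/-- a homomorphism from `⟨C, L, y; W(r, y)⟩` -/
theorem exists_homE {K : Type} [Group K] (r : FreeGroup (C ⊕ L)) (W : FreeGroup (Fin 2))
    (φ : FreeGroup (C ⊕ L) →* K) (b : K) (h : sub (φ r) b W = 1) :
    ∃ Φ : EW r W →* K, (∀ v, Φ (PresentedGroup.mk _ (old v)) = φ v) ∧
      Φ (PresentedGroup.of none) = b := by
  let f : Option (C ⊕ L) → K := fun o => o.elim b fun x => φ (FreeGroup.of x)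
  have hf : ∀ v, FreeGroup.lift f (old v) = φ v := by
    intro v
    have : (FreeGroup.lift f).comp old = φ := by
      ext1 x
      rw [MonoidHom.comp_apply, old, FreeGroup.map.of, FreeGroup.lift_apply_of]
      rfl
    exact DFunLike.congr_fun this v
  have h1 : FreeGroup.lift f (sub (old r) (FreeGroup.of none) W) = 1 := by
    rw [sub_map, hf, FreeGroup.lift_apply_of]
    exact h
  exact ⟨toG _ f h1, fun v => by rw [toG_mk, hf], toG_of _ _ _ _⟩

/-- `⟨C, x, y; W⟩ → ⟨C, L, y; W(r, y)⟩` -/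
theorem exists_ιJ (r : FreeGroup (C ⊕ L)) (W : FreeGroup (Fin 2)) :
    ∃ ι : JW C W →* EW r W,
      (∀ c, ι (PresentedGroup.of (Sum.inl c)) = PresentedGroup.of (some (Sum.inl c))) ∧
      ι (PresentedGroup.of (Sum.inr 0)) = PresentedGroup.mk _ (old r) ∧
      ι (PresentedGroup.of (Sum.inr 1)) = PresentedGroup.of none :=
  exists_homJ W _ _ _ (rel_E r W)

theorem mk_old_of {X : Type} (w : FreeGroup (Option X)) (x : X) :
    (PresentedGroup.mk ({w} : Set (FreeGroup (Option X))) (old (FreeGroup.of x))) =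
      PresentedGroup.of (some x) := by
  rw [old, FreeGroup.map.of]
  rfl

theorem jE_some (r : FreeGroup (C ⊕ L)) (W : FreeGroup (Fin 2)) (c : C) :
    jE r W (FreeGroup.of (some c)) = PresentedGroup.of (some (Sum.inl c)) := by
  rw [jE, FreeGroup.lift_apply_of]
  rfl

theorem jE_none (r : FreeGroup (C ⊕ L)) (W : FreeGroup (Fin 2)) :
    jE r W (FreeGroup.of none) = PresentedGroup.of none := by
  rw [jE, FreeGroup.lift_apply_of]
  rfl

/-- the amalgam description of `⟨C, L, y; W(r, y)⟩` -/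
theorem am1 (r : FreeGroup (C ⊕ L)) (W : FreeGroup (Fin 2)) :
    ∃ ι : JW C W →* EW r W, Am (jx W) (iF r) ι ((PresentedGroup.mk _).comp old) ∧
      ι.comp (jy W) = jE r W := by
  obtain ⟨ι, h1, h2, h3⟩ := exists_ιJ r W
  refine ⟨ι, ⟨?_, ?_, ?_⟩, ?_⟩
  · intro u
    have : ι.comp (jx W) = ((PresentedGroup.mk _).comp old).comp (iF r) := by
      ext1 o
      rw [MonoidHom.comp_apply, MonoidHom.comp_apply, MonoidHom.comp_apply]
      cases o with
      | none => rw [jx_none, h2, iF_none]
      | some c =>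
        rw [jx_some, h1, iF, FreeGroup.lift_apply_of]
        exact (mk_old_of _ _).symm
    exact DFunLike.congr_fun this u
  · rw [eq_top_iff, ← PresentedGroup.closure_range_of, Subgroup.closure_le]
    rintro _ ⟨x, rfl⟩
    cases x with
    | none => exact Subgroup.subset_closure (Or.inl ⟨PresentedGroup.of (Sum.inr 1), h3⟩)
    | some x => exact Subgroup.subset_closure (Or.inr ⟨FreeGroup.of x, mk_old_of _ _⟩)
  · intro K _ ψ φ h
    obtain ⟨Φ, hΦ1, hΦ2⟩ := exists_homE r W φ (ψ (PresentedGroup.of (Sum.inr 1))) (by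
      have h4 := h (FreeGroup.of none)
      rw [jx_none, iF_none] at h4
      rw [← h4, ← sub_map, rel_J, map_one])
    refine ⟨Φ, ?_, fun f => hΦ1 f⟩
    have : Φ.comp ι = ψ := by
      apply PresentedGroup.ext
      intro x
      rw [MonoidHom.comp_apply]
      cases x with
      | inl c =>
        have h4 := h (FreeGroup.of (some c))
        rw [jx_some, iF, FreeGroup.lift_apply_of] at h4
        rw [h1, h4, ← mk_old_of, hΦ1]
        rfl
      | inr i =>
        fin_cases i
        · have h4 := h (FreeGroup.of none)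
          rw [jx_none, iF_none] at h4
          show Φ (ι (PresentedGroup.of (Sum.inr 0))) = ψ (PresentedGroup.of (Sum.inr 0))
          rw [h2, hΦ1, h4]
        · show Φ (ι (PresentedGroup.of (Sum.inr 1))) = ψ (PresentedGroup.of (Sum.inr 1))
          rw [h3, hΦ2]
    exact fun y => DFunLike.congr_fun this y
  · ext1 o
    rw [MonoidHom.comp_apply]
    cases o with
    | none => rw [jy_none, h3, jE_none]
    | some c => rw [jy_some, h1, jE_some]

theorem comp_old_eq (r : FreeGroup (C ⊕ L)) (W : FreeGroup (Fin 2)) (ι : JW C W →* EW r W)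
    (h : ι.comp (jy W) = jE r W) : ι.comp ((jx W).comp old) = (jE r W).comp old := by
  rw [← h, ← jy_comp_old]
  rfl

theorem E_bot (P : Subgroup (FreeGroup C) → Prop) (hP : Fam P) (hs : Sepd P)
    {W : FreeGroup (Fin 2)} (hW : Bal W) (hQ : Group.ResiduallyFinite (QW W))
    (r : FreeGroup (C ⊕ L)) (hr : RH P r) : Cl P ((jE r W).comp old) ⊥ := by
  obtain ⟨ι, hA, hι⟩ := am1 r W
  have h := lemL P hP r hr (jx W) (J_ex P hW) (J_x P hP hs hW hQ) ι _ hA ⊥ (J_bot P hP hs W hQ)
  rwa [comp_old_eq r W ι hι, Subgroup.map_bot] at h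

theorem E_y (P : Subgroup (FreeGroup C) → Prop) (hP : Fam P) (hs : Sepd P)
    {W : FreeGroup (Fin 2)} (hW : Bal W) (hQ : Group.ResiduallyFinite (QW W))
    (r : FreeGroup (C ⊕ L)) (hr : RH P r) : Cl P ((jE r W).comp old) (jE r W).range := by
  obtain ⟨ι, hA, hι⟩ := am1 r W
  have h := lemL P hP r hr (jx W) (J_ex P hW) (J_x P hP hs hW hQ) ι _ hA (jy W).range
    (J_y P hP hs hW hQ)
  rwa [comp_old_eq r W ι hι, ← MonoidHom.range_comp, hι] at h

end Pool.Agent.MP3f0e40.PL
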