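import Mathlib
import Pool.Agent.Lib.MP_3f0e40_al.PL.Step1

set_option autoImplicit false

/-!
# MP_3f0e40_al, project PL: the group `⟨C, L₁, L₂; W(r, s)⟩`
-/

namespace Pool.Agent.MP3f0e40.PL

open Pool.Agent.MP3f0e40

variable {C L : Type}

/-- `F(C ∪ {y}) → F(C ∪ L ∪ {y})` -/
def yL {C L : Type} : FreeGroup (Option C) →* FreeGroup (Option (C ⊕ L)) :=
  FreeGroup.map (Option.map Sum.inl)

theorem am_free : Am (old : FreeGroup C →* FreeGroup (Option C)) (inC : FreeGroup C →* _)
    (yL (L := L)) old := by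
  refine ⟨?_, ?_, ?_⟩
  · intro u
    have : (yL (L := L)).comp old = old.comp (inC : FreeGroup C →* _) := by
      ext1 c
      show FreeGroup.map (Option.map Sum.inl) (FreeGroup.map some (FreeGroup.of c)) =
        FreeGroup.map some (FreeGroup.map Sum.inl (FreeGroup.of c))
      rw [FreeGroup.map.of, FreeGroup.map.of, FreeGroup.map.of, FreeGroup.map.of]
      rfl
    exact DFunLike.congr_fun this u
  · rw [eq_top_iff, ← FreeGroup.closure_range_of, Subgroup.closure_le]
    rintro _ ⟨x, rfl⟩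
    cases x with
    | none =>
      refine Subgroup.subset_closure (Or.inl ⟨FreeGroup.of none, ?_⟩)
      rw [yL, FreeGroup.map.of]
      rfl
    | some x =>
      refine Subgroup.subset_closure (Or.inr ⟨FreeGroup.of x, ?_⟩)
      rw [old, FreeGroup.map.of]
  · intro K _ ψ φ h
    let f : Option (C ⊕ L) → K := fun o => o.elim (ψ (FreeGroup.of none))
      fun x => φ (FreeGroup.of x)
    refine ⟨FreeGroup.lift f, ?_, ?_⟩
    · have : (FreeGroup.lift f).comp yL = ψ := by
        ext1 o
        rw [MonoidHom.comp_apply, yL, FreeGroup.map.of, FreeGroup.lift_apply_of]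
        cases o with
        | none => rfl
        | some c =>
          have h1 := h (FreeGroup.of c)
          rw [old, inC, FreeGroup.map.of, FreeGroup.map.of] at h1
          exact h1.symm
      exact fun y => DFunLike.congr_fun this y
    · have : (FreeGroup.lift f).comp old = φ := by
        ext1 x
        rw [MonoidHom.comp_apply, old, FreeGroup.map.of, FreeGroup.lift_apply_of]
        rfl
      exact fun y => DFunLike.congr_fun this y

theorem jE_eq (r : FreeGroup (C ⊕ L)) (W : FreeGroup (Fin 2)) (u : FreeGroup (Option C)) :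
    jE r W u = PresentedGroup.mk _ (yL u) := by
  have : jE r W = (PresentedGroup.mk _).comp yL := by
    ext1 o
    rw [MonoidHom.comp_apply, yL, FreeGroup.map.of]
    cases o with
    | none => rw [jE_none]; rfl
    | some c => rw [jE_some]; rfl
  exact DFunLike.congr_fun this u

/-- quotients of a presented group -/
theorem descend {X : Type} (w : FreeGroup X) (K : Subgroup (FreeGroup X)) (hK : K.Normal)
    (hKf : K.FiniteIndex) (hw : w ∈ K) :
    ∃ R : Subgroup (PresentedGroup ({w} : Set (FreeGroup X))), R.Normal ∧ R.FiniteIndex ∧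
      ∀ v, PresentedGroup.mk _ v ∈ R ↔ v ∈ K := by
  refine ⟨K.map (PresentedGroup.mk _), hK.map _ (PresentedGroup.mk_surjective _), ?_, ?_⟩
  · exact ⟨ne_zero_of_dvd_ne_zero hKf.index_ne_zero
      (Subgroup.index_map_dvd K (PresentedGroup.mk_surjective _))⟩
  · intro v
    constructor
    · rintro ⟨v', hv', h⟩
      have h1 : v'⁻¹ * v ∈ Subgroup.normalClosure ({w} : Set (FreeGroup X)) := by
        have h2 : ((v' : FreeGroup X) : FreeGroup X ⧸ Subgroup.normalClosure ({w} : Set _)) =
          (v : FreeGroup X ⧸ Subgroup.normalClosure ({w} : Set _)) := h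
        exact QuotientGroup.eq.1 h2
      have h3 : Subgroup.normalClosure ({w} : Set (FreeGroup X)) ≤ K :=
        Subgroup.normalClosure_le_normal (Set.singleton_subset_iff.2 hw)
      have := K.mul_mem hv' (h3 h1)
      rwa [mul_inv_cancel_left] at this
    · exact fun h => ⟨v, h, rfl⟩

theorem E_ex {W : FreeGroup (Fin 2)} (hW : Bal W) (r : FreeGroup (C ⊕ L)) :
    Ex (Tr r) (jE r W) := by
  rintro V hV hVf ⟨N, hN, hNf, hrN, hNV⟩
  obtain ⟨K, hK, hKf, hKY, hKF⟩ := ac_ext am_free V N hV hVf hN hNf hNV.symm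
  have hrK : old r ∈ K := by
    have : r ∈ K.comap old := by rwa [hKF]
    exact this
  obtain ⟨R, hR, hRf, hRK⟩ := descend (sub (old r) (FreeGroup.of none) W) K hK hKf (by
    have h1 := sub_map (QuotientGroup.mk' K) (old r) (FreeGroup.of none) W
    rw [QuotientGroup.mk'_apply, QuotientGroup.mk'_apply, QuotientGroup.mk'_apply,
      (QuotientGroup.eq_one_iff (old r)).2 hrK, (hW _ _).2, QuotientGroup.eq_one_iff] at h1
    exact h1)
  refine ⟨R, hR, hRf, ?_⟩
  ext u
  rw [Subgroup.mem_comap, jE_eq, hRK, ← hKY]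
  rfl

section I

variable {L₁ L₂ : Type}

theorem in2_inl (c : C) : in2 (C := C) (L₁ := L₁) (L₂ := L₂) (FreeGroup.of (Sum.inl c)) =
    FreeGroup.of (Sum.inl (Sum.inl c)) := by
  rw [in2, FreeGroup.map.of]
  rfl

theorem in2_inr (l : L₂) : in2 (C := C) (L₁ := L₁) (L₂ := L₂) (FreeGroup.of (Sum.inr l)) =
    FreeGroup.of (Sum.inr l) := by
  rw [in2, FreeGroup.map.of]
  rfl

theorem rel_I (r : FreeGroup (C ⊕ L₁)) (s : FreeGroup (C ⊕ L₂)) (W : FreeGroup (Fin 2)) :
    sub (PresentedGroup.mk _ (FreeGroup.map Sum.inl r) : IW r s W)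
      (PresentedGroup.mk _ (in2 s)) W = 1 := by
  have h := mk_rel (sub (FreeGroup.map Sum.inl r) (in2 s) W)
  rw [sub_map] at h
  exact h

/-- a homomorphism from `⟨C, L₁, L₂; W(r, s)⟩` -/
theorem exists_homI {K : Type} [Group K] (r : FreeGroup (C ⊕ L₁)) (s : FreeGroup (C ⊕ L₂))
    (W : FreeGroup (Fin 2)) (ψ : FreeGroup (C ⊕ L₁) →* K) (φ : FreeGroup (C ⊕ L₂) →* K)
    (h0 : ∀ c : FreeGroup C, ψ (inC c) = φ (inC c)) (h : sub (ψ r) (φ s) W = 1) :
    ∃ Φ : IW r s W →* K, (∀ v, Φ (PresentedGroup.mk _ (FreeGroup.map Sum.inl v)) = ψ v) ∧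
      ∀ v, Φ (PresentedGroup.mk _ (in2 v)) = φ v := by
  let f : (C ⊕ L₁) ⊕ L₂ → K := Sum.elim (fun x => ψ (FreeGroup.of x))
    fun l => φ (FreeGroup.of (Sum.inr l))
  have hf : ∀ v, FreeGroup.lift f (FreeGroup.map Sum.inl v) = ψ v := by
    intro v
    have : (FreeGroup.lift f).comp (FreeGroup.map Sum.inl) = ψ := by
      ext1 x
      rw [MonoidHom.comp_apply, FreeGroup.map.of, FreeGroup.lift_apply_of]
      rfl
    exact DFunLike.congr_fun this v
  have hf2 : ∀ v, FreeGroup.lift f (in2 v) = φ v := by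
    intro v
    have : (FreeGroup.lift f).comp in2 = φ := by
      ext1 x
      rw [MonoidHom.comp_apply, in2, FreeGroup.map.of, FreeGroup.lift_apply_of]
      cases x with
      | inl c =>
        have h1 := h0 (FreeGroup.of c)
        rw [inC, inC, FreeGroup.map.of, FreeGroup.map.of] at h1
        exact h1
      | inr l => rfl
    exact DFunLike.congr_fun this v
  have h1 : FreeGroup.lift f (sub (FreeGroup.map Sum.inl r) (in2 s) W) = 1 := by
    rw [sub_map, hf, hf2]
    exact h
  exact ⟨toG _ f h1, fun v => by rw [toG_mk, hf], fun v => by rw [toG_mk, hf2]⟩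

theorem am2 (r : FreeGroup (C ⊕ L₁)) (s : FreeGroup (C ⊕ L₂)) (W : FreeGroup (Fin 2)) :
    ∃ ι : EW r W →* IW r s W, Am (jE r W) (iF s) ι ((PresentedGroup.mk _).comp in2) := by
  obtain ⟨ι, h1, h2⟩ := exists_homE r W
    ((PresentedGroup.mk ({sub (FreeGroup.map Sum.inl r) (in2 s) W} : Set _)).comp
      (FreeGroup.map Sum.inl)) (PresentedGroup.mk _ (in2 s)) (rel_I r s W)
  refine ⟨ι, ⟨?_, ?_, ?_⟩⟩
  · intro u
    have : ι.comp (jE r W) = ((PresentedGroup.mk _).comp in2).comp (iF s) := by
      ext1 o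
      rw [MonoidHom.comp_apply, MonoidHom.comp_apply, MonoidHom.comp_apply]
      cases o with
      | none => rw [jE_none, h2, iF_none]
      | some c =>
        rw [jE_some, ← mk_old_of, h1, iF, FreeGroup.lift_apply_of, MonoidHom.comp_apply,
          FreeGroup.map.of]
        exact (congrArg (PresentedGroup.mk _) (in2_inl c)).symm
    exact DFunLike.congr_fun this u
  · rw [eq_top_iff, ← PresentedGroup.closure_range_of, Subgroup.closure_le]
    rintro _ ⟨x, rfl⟩
    cases x with
    | inl x =>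
      refine Subgroup.subset_closure (Or.inl ⟨PresentedGroup.of (some x), ?_⟩)
      rw [← mk_old_of, h1, MonoidHom.comp_apply, FreeGroup.map.of]
      rfl
    | inr l =>
      refine Subgroup.subset_closure (Or.inr ⟨FreeGroup.of (Sum.inr l), ?_⟩)
      exact congrArg (PresentedGroup.mk _) (in2_inr l)
  · intro K _ ψ φ h
    have h0 : ∀ c : FreeGroup C, (ψ.comp ((PresentedGroup.mk _).comp old)) (inC c) =
        φ (inC c) := by
      intro c
      have h4 := h (old c)
      rw [iF_old] at h4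
      rw [← h4, jE_eq]
      show ψ (PresentedGroup.mk _ (old (inC c))) = ψ (PresentedGroup.mk _ (yL (old c)))
      rw [am_free.comm]
    obtain ⟨Φ, hΦ1, hΦ2⟩ := exists_homI r s W (ψ.comp ((PresentedGroup.mk _).comp old)) φ h0 (by
      have h4 := h (FreeGroup.of none)
      rw [jE_none, iF_none] at h4
      rw [← h4]
      show sub (ψ (PresentedGroup.mk _ (old r))) (ψ (PresentedGroup.of none)) W = 1
      rw [← sub_map, rel_E, map_one])
    refine ⟨Φ, ?_, fun f => hΦ2 f⟩
    have : Φ.comp ι = ψ := by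
      apply PresentedGroup.ext
      intro x
      rw [MonoidHom.comp_apply]
      cases x with
      | none =>
        rw [h2, hΦ2]
        have h4 := h (FreeGroup.of none)
        rw [jE_none, iF_none] at h4
        exact h4.symm
      | some x =>
        rw [← mk_old_of, h1, MonoidHom.comp_apply, hΦ1]
        rfl
    exact fun y => DFunLike.congr_fun this y

/-- the main step -/
theorem I_rf {W : FreeGroup (Fin 2)} (hW : Bal W) (hQ : Group.ResiduallyFinite (QW W))
    (r : FreeGroup (C ⊕ L₁)) (s : FreeGroup (C ⊕ L₂)) (hsep : Sepd (Tr r))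
    (hr : RH (Tr r) r) (hs : RH (Tr r) s) : Group.ResiduallyFinite (IW r s W) := by
  obtain ⟨ι, hA⟩ := am2 r s W
  have hP := fam_Tr r
  have h := lemL (Tr r) hP s hs (jE r W) (E_ex hW r) (E_y _ hP hsep hW hQ r hr) ι _ hA ⊥
    (E_bot _ hP hsep hW hQ r hr)
  rw [Subgroup.map_bot] at h
  rw [rf_iff]
  intro g hg
  obtain ⟨M, h1, h2, -, h3⟩ := h g (by rwa [Subgroup.mem_bot])
  refine ⟨M, h1, h2, fun h4 => h3 1 (Subgroup.mem_bot.2 rfl) ?_⟩
  rwa [inv_one, mul_one]

end I

end Pool.Agent.MP3f0e40.PL
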