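import Mathlib
import Pool.Agent.Lib.MP_3f0e40_al.PL.Fam

set_option autoImplicit false

/-!
# MP_3f0e40_al, project PL: a word outside `F(C)` is free over `C`

`F = F(C ∪ L)`, `w ∈ F` not in `F(C)`. Then the subgroup of `F` generated by `C` and `w` is free on
`C ∪ {w}`: the homomorphism `iF w : F(C ∪ {none}) → F`, `none ↦ w`, is injective.

Proof. Let `w = c₁ t c₂` with `c₁, c₂ ∈ F(C)` such that the reduced word of `t` begins and ends with
a letter of `L` (strip the maximal initial and final parts in the letters `C`; possible since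
`w ∉ F(C)`). The automorphism `none ↦ c₁ none c₂` of `F(C ∪ {none})` shows that it is enough to
treat `w = t`. Ping-pong (`FreeGroup.injective_lift_of_ping_pong` or a direct argument): write
`t = h t₀ h⁻¹` reduced as written, `t₀` cyclically reduced and `≠ 1` (Mathlib:
`FreeGroup.reduceCyclically`, `conj_conjugator_reduceCyclically`). For `e ≠ 0` the reduced word of
`t ^ e` is `h t₀ᵉ h⁻¹`, so it begins and ends with a letter of `L` (its first letter is the first
letter of `h`, or of `t = t₀` or of `t⁻¹` if `h = 1`). Hence in a product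
`c₀ t^{e₁} c₁ t^{e₂} ⋯ t^{eₙ} cₙ` with `n ≥ 1`, `eᵢ ≠ 0`, `c₁, …, cₙ₋₁ ≠ 1` there is no cancellation
between the reduced words of the factors, and the product is not in `F(C)`; in particular it is
not `1`. Every element of `F(C ∪ {none})` is such a product or lies in `F(C)` (on which `iF w` is
`inC`, injective). An alternative: induction with the free product normal form
(`Monoid.CoprodI.NeWord`).
-/

namespace Pool.Agent.MP3f0e40.PL

open Pool.Agent.MP3f0e40

/-!
The proof below is different: `H = ⟨C, w⟩` is free (Nielsen-Schreier), of rank `|C|` or `|C| + 1`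
if `C` is finite. Free groups of finite rank are Hopfian. If the rank is `|C|`, then the
retraction `H → F(C)` is injective and `w ∈ F(C)`. If it is `|C| + 1` then `F(C ∪ {none}) → H` is
injective. For infinite `C` pass to a finite subset.
-/

namespace WordInj

/-- Free groups of finite rank are Hopfian. -/
theorem hopf {X : Type} [Finite X] (f : FreeGroup X →* FreeGroup X)
    (hf : Function.Surjective f) : Function.Injective f := by
  rw [injective_iff_map_eq_one]
  intro g hg
  by_contra hne
  obtain ⟨N, hN, hfin, hgN⟩ := (rf_iff _).1 (free_rf X) g hne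
  have h1 : Finite (FreeGroup X ⧸ N) := Subgroup.finite_quotient_of_finiteIndex
  have h2 : Finite (FreeGroup X →* FreeGroup X ⧸ N) :=
    Finite.of_injective (FreeGroup.lift (α := X) (β := FreeGroup X ⧸ N)).symm
      (Equiv.injective _)
  have hT : Function.Injective
      (fun ψ : FreeGroup X →* FreeGroup X ⧸ N => ψ.comp f) := fun ψ ψ' h =>
    (MonoidHom.cancel_right hf).1 h
  obtain ⟨ψ, hψ⟩ := (Finite.injective_iff_surjective.1 hT) (QuotientGroup.mk' N)
  apply hgN
  have h3 : QuotientGroup.mk' N g = 1 := by
    rw [← hψ]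
    show ψ (f g) = 1
    rw [hg, map_one]
  exact (QuotientGroup.eq_one_iff g).1 h3

theorem hopf' {X Y : Type} [Finite X] (e : Y ≃ X) (f : FreeGroup X →* FreeGroup Y)
    (hf : Function.Surjective f) : Function.Injective f := by
  have h1 := hopf ((FreeGroup.freeGroupCongr e).toMonoidHom.comp f)
    ((FreeGroup.freeGroupCongr e).surjective.comp hf)
  intro a b hab
  apply h1
  show FreeGroup.freeGroupCongr e (f a) = FreeGroup.freeGroupCongr e (f b)
  rw [hab]

/-- Finite sets with the same number of elements. -/
noncomputable def eqv {X Y : Type} [Finite X] [Finite Y] (h : Nat.card X = Nat.card Y) :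
    X ≃ Y :=
  (Finite.equivFin X).trans ((finCongr h).trans (Finite.equivFin Y).symm)

/-- The rank does not increase under surjections. -/
theorem card_le {X Y : Type} [Finite Y] (f : FreeGroup Y →* FreeGroup X)
    (hf : Function.Surjective f) : Finite X ∧ Nat.card X ≤ Nat.card Y := by
  classical
  let K := Multiplicative (ZMod 2)
  have hinj : Function.Injective (fun u : X → K =>
      (FreeGroup.lift (α := Y) (β := K)).symm ((FreeGroup.lift (α := X) (β := K) u).comp f)) := by
    intro u u' h
    have h1 := (FreeGroup.lift (α := Y) (β := K)).symm.injective h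
    exact (FreeGroup.lift (α := X) (β := K)).injective ((MonoidHom.cancel_right hf).1 h1)
  have hfinK : Finite K := inferInstanceAs (Finite (ZMod 2))
  have hfX : Finite (X → K) := Finite.of_injective _ hinj
  have hX : Finite X := by
    refine Finite.of_injective
      (fun x : X => (fun y => if y = x then Multiplicative.ofAdd (1 : ZMod 2) else 1 : X → K)) ?_
    intro x y h
    have h1 := congrFun h x
    by_contra hxy
    simp only [if_true, if_neg hxy] at h1
    exact absurd h1 (by decide)
  refine ⟨hX, ?_⟩
  have h1 := Nat.card_le_card_of_injective _ hinj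
  have h2 : Nat.card K = 2 := by
    show Nat.card (ZMod 2) = 2
    rw [Nat.card_zmod]
  rw [Nat.card_fun, Nat.card_fun, h2] at h1
  exact (Nat.pow_le_pow_iff_right (by norm_num)).1 h1

/-- The case of a finite set `C`. -/
theorem fin_case {C L : Type} [Finite C] (w : FreeGroup (C ⊕ L))
    (hw : w ∉ (inC : FreeGroup C →* FreeGroup (C ⊕ L)).range) :
    Function.Injective (iF w) := by
  have hH : IsFreeGroup (iF w).range := subgroupIsFreeOfIsFree _
  obtain ⟨X, ⟨e⟩⟩ : ∃ X : Type, Nonempty (FreeGroup X ≃* (iF w).range) :=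
    ⟨IsFreeGroup.Generators (iF w).range, ⟨IsFreeGroup.mulEquiv _⟩⟩
  let f : FreeGroup (Option C) →* FreeGroup X := e.symm.toMonoidHom.comp (iF w).rangeRestrict
  have hf : Function.Surjective f := e.symm.surjective.comp (iF w).rangeRestrict_surjective
  have hfe : ∀ u, e (f u) = (iF w).rangeRestrict u := fun u => e.apply_symm_apply _
  let h : FreeGroup X →* FreeGroup C := ((ret (L := L)).comp (iF w).range.subtype).comp
    e.toMonoidHom
  have hhe : ∀ y : (iF w).range, h (e.symm y) = ret (y : FreeGroup (C ⊕ L)) := by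
    intro y
    show ret ((e (e.symm y) : (iF w).range) : FreeGroup (C ⊕ L)) = _
    rw [e.apply_symm_apply]
  have hmem : ∀ c : FreeGroup C, inC c ∈ (iF w).range := fun c => ⟨old c, iF_old w c⟩
  have hs : Function.Surjective h := by
    intro c
    refine ⟨e.symm ⟨inC c, hmem c⟩, ?_⟩
    rw [hhe]
    exact ret_inC c
  obtain ⟨hX, hXc⟩ := card_le f hf
  have hCX := (card_le h hs).2
  have hOpt : Nat.card (Option C) = Nat.card C + 1 := Finite.card_option
  rw [hOpt] at hXc
  rcases Nat.lt_or_ge (Nat.card C) (Nat.card X) with hlt | hge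
  · -- rank `|C| + 1`
    have hcard : Nat.card (Option C) = Nat.card X := by omega
    have hinj := hopf' (WordInj.eqv hcard).symm f hf
    intro a b hab
    apply hinj
    apply e.injective
    rw [hfe, hfe]
    exact Subtype.ext hab
  · -- rank `|C|`
    exfalso
    have hcard : Nat.card C = Nat.card X := by omega
    have hinj := hopf' (WordInj.eqv hcard) h hs
    apply hw
    have hwm : w ∈ (iF w).range := ⟨FreeGroup.of none, iF_none w⟩
    have h1 : e.symm ⟨w, hwm⟩ = e.symm ⟨inC (ret w), hmem _⟩ := by
      apply hinj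
      rw [hhe, hhe]
      exact (ret_inC (L := L) (ret w)).symm
    have h2 := congrArg Subtype.val (e.symm.injective h1)
    exact ⟨ret w, h2.symm⟩

/-- Every word involves only finitely many letters. -/
theorem supp {X : Type} (u : FreeGroup X) : ∃ A : Finset X, ∀ B : Finset X, A ⊆ B →
    u ∈ (FreeGroup.map (Subtype.val : {x // x ∈ B} → X)).range := by
  classical
  induction u using FreeGroup.induction_on with
  | C1 => exact ⟨∅, fun B _ => Subgroup.one_mem _⟩
  | of x =>
    refine ⟨{x}, fun B hB => ⟨FreeGroup.of ⟨x, hB (Finset.mem_singleton_self x)⟩, ?_⟩⟩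
    rw [FreeGroup.map.of]
  | inv_of x ih =>
    obtain ⟨A, hA⟩ := ih
    exact ⟨A, fun B hB => Subgroup.inv_mem _ (hA B hB)⟩
  | mul a b iha ihb =>
    obtain ⟨A, hA⟩ := iha
    obtain ⟨A', hA'⟩ := ihb
    exact ⟨A ∪ A', fun B hB => Subgroup.mul_mem _
      (hA B (Finset.subset_union_left.trans hB)) (hA' B (Finset.subset_union_right.trans hB))⟩

end WordInj

theorem iF_inj {C L : Type} (w : FreeGroup (C ⊕ L))
    (hw : w ∉ (inC : FreeGroup C →* FreeGroup (C ⊕ L)).range) :
    Function.Injective (iF w) := by
  classical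
  rw [injective_iff_map_eq_one]
  intro u hu
  obtain ⟨A, hA⟩ := WordInj.supp w
  obtain ⟨A', hA'⟩ := WordInj.supp u
  -- the finite set of letters
  let B : Finset C := (A.preimage Sum.inl Sum.inl_injective.injOn) ∪
    (A'.preimage some (Option.some_injective C).injOn)
  let ι : {c // c ∈ B} → C := Subtype.val
  have hι : Function.Injective ι := Subtype.val_injective
  -- `w` and `u` come from the letters in `B`
  have hw' : ∃ w' : FreeGroup ({c // c ∈ B} ⊕ L), FreeGroup.map (Sum.map ι id) w' = w := by
    obtain ⟨w0, hw0⟩ := hA A (Finset.Subset.refl A)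
    have hk : ∀ x : {x // x ∈ A}, ∃ y : {c // c ∈ B} ⊕ L, Sum.map ι id y = x.1 := by
      rintro ⟨x, hx⟩
      rcases x with c | l
      · exact ⟨Sum.inl ⟨c, Finset.mem_union_left _ (Finset.mem_preimage.2 hx)⟩, rfl⟩
      · exact ⟨Sum.inr l, rfl⟩
    choose k hk using hk
    refine ⟨FreeGroup.map k w0, ?_⟩
    rw [← hw0, FreeGroup.map.comp]
    congr 1
    exact congrArg FreeGroup.map (funext hk)
  have hu' : ∃ u' : FreeGroup (Option {c // c ∈ B}), FreeGroup.map (Option.map ι) u' = u := by
    obtain ⟨u0, hu0⟩ := hA' A' (Finset.Subset.refl A')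
    have hk : ∀ x : {x // x ∈ A'}, ∃ y : Option {c // c ∈ B}, Option.map ι y = x.1 := by
      rintro ⟨x, hx⟩
      rcases x with _ | c
      · exact ⟨none, rfl⟩
      · exact ⟨some ⟨c, Finset.mem_union_right _ (Finset.mem_preimage.2 hx)⟩, rfl⟩
    choose k hk using hk
    refine ⟨FreeGroup.map k u0, ?_⟩
    rw [← hu0, FreeGroup.map.comp]
    congr 1
    exact congrArg FreeGroup.map (funext hk)
  obtain ⟨w', rfl⟩ := hw'
  obtain ⟨u', rfl⟩ := hu'
  have hcomm : ∀ v : FreeGroup (Option {c // c ∈ B}),
      iF (FreeGroup.map (Sum.map ι id) w') (FreeGroup.map (Option.map ι) v) =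
        FreeGroup.map (Sum.map ι id) (iF w' v) := by
    intro v
    have h1 : (iF (FreeGroup.map (Sum.map ι id) w')).comp (FreeGroup.map (Option.map ι)) =
        (FreeGroup.map (Sum.map ι id)).comp (iF w') := by
      ext1 x
      rcases x with _ | c
      · rw [MonoidHom.comp_apply, MonoidHom.comp_apply, FreeGroup.map.of, iF_none]
        exact iF_none _
      · rw [MonoidHom.comp_apply, MonoidHom.comp_apply, FreeGroup.map.of, iF, iF,
          FreeGroup.lift_apply_of, FreeGroup.lift_apply_of]
        simp
    exact DFunLike.congr_fun h1 v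
  have hSum : Function.Injective (Sum.map ι (id : L → L)) :=
    Sum.map_injective.2 ⟨hι, Function.injective_id⟩
  have hwn : w' ∉ (inC : FreeGroup {c // c ∈ B} →* FreeGroup ({c // c ∈ B} ⊕ L)).range := by
    rintro ⟨c, rfl⟩
    apply hw
    refine ⟨FreeGroup.map ι c, ?_⟩
    rw [inC, inC, FreeGroup.map.comp, FreeGroup.map.comp]
    congr 1
  have hin := WordInj.fin_case w' hwn
  rw [hcomm] at hu
  have h2 : iF w' u' = 1 := (FreeGroup.map_injective hSum) (by rw [hu, map_one])
  have h3 : u' = 1 := hin (by rw [h2, map_one])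
  rw [h3, map_one]

end Pool.Agent.MP3f0e40.PL
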