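import Mathlib
import Pool.Agent.Lib.MP_3f0e40_al.PL.Step2
import Pool.Agent.Lib.MP_3f0e40_al.PL.WordInj

set_option autoImplicit false

/-!
# MP_3f0e40_al, project PL: `⟨x, y; W⟩` embeds in `⟨C, L₁, L₂; W(r, s)⟩`

Proof. An amalgam `Am iY iF ιY ιF` (see `Defs.lean`; `univ` for all target groups) with `iY` and
`iF` injective has `ιY` injective: let `K = Monoid.PushoutI` of the two maps (index type `Bool`, or
use another construction), let `ψ`, `φ` be the canonical maps to `K`; `ψ` is injective
(`Monoid.PushoutI.of_injective`), `ψ ∘ iY = φ ∘ iF`, and `Φ ∘ ιY = ψ` for the `Φ` given by `univ`.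
Apply this to `am1 r W` (`iY = jx W` is injective by `exists_px`, `iF r` by `iF_inj`), and to
`am2 r s W` (`iY = jE r W = ι ∘ jy W`, injective by the first step and `exists_py`; `iF s` by
`iF_inj`). The map `jQ C W : QW W →* JW C W` is injective (it has the left inverse
`exists_homJ W 1 x y`, i.e. the letters `C` go to `1`; use `rel_QW`: `sub x y W = 1` in `QW W`).
So the composite `QW W → JW C W → EW r W → IW r s W` is injective; use `rf_of_injective`.
-/

namespace Pool.Agent.MP3f0e40.PL

open Pool.Agent.MP3f0e40

theorem am_injective {U Y F I : Type} [Group U] [Group Y] [Group F] [Group I]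
    {iY : U →* Y} {iF : U →* F} {ιY : Y →* I} {ιF : F →* I} (h : Am iY iF ιY ιF)
    (hY : Function.Injective iY) (hF : Function.Injective iF) : Function.Injective ιY := by
  let G : Bool → Type := fun b => match b with
    | true => Y
    | false => F
  let hG : ∀ b, Group (G b) := fun b => match b with
    | true => (inferInstance : Group Y)
    | false => (inferInstance : Group F)
  let φ : ∀ b, U →* G b := fun b => match b with
    | true => iY
    | false => iF
  have hφ : ∀ b, Function.Injective (φ b) := fun b => match b with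
    | true => hY
    | false => hF
  obtain ⟨Φ, h1, h2⟩ := h.univ (Monoid.PushoutI φ)
    (Monoid.PushoutI.of (φ := φ) true) (Monoid.PushoutI.of (φ := φ) false) (fun u => by
      have e1 := Monoid.PushoutI.of_apply_eq_base φ true u
      have e2 := Monoid.PushoutI.of_apply_eq_base φ false u
      exact e1.trans e2.symm)
  intro a b hab
  have h3 := Monoid.PushoutI.of_injective hφ true
  apply h3
  have h4 := congrArg Φ hab
  rw [h1, h1] at h4
  exact h4

theorem conv {C L₁ L₂ : Type} {W : FreeGroup (Fin 2)} (hW : Bal W) (r : FreeGroup (C ⊕ L₁))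
    (s : FreeGroup (C ⊕ L₂)) (hr : r ∉ (inC : FreeGroup C →* FreeGroup (C ⊕ L₁)).range)
    (hs : s ∉ (inC : FreeGroup C →* FreeGroup (C ⊕ L₂)).range)
    (hI : Group.ResiduallyFinite (IW r s W)) : Group.ResiduallyFinite (QW W) := by
  obtain ⟨ι1, hA1, hj1⟩ := am1 r W
  obtain ⟨ι2, hA2⟩ := am2 r s W
  obtain ⟨πx, hπx⟩ := exists_px (C := C) hW
  obtain ⟨πy, hπy⟩ := exists_py (C := C) hW
  have hi1 : Function.Injective ι1 :=
    am_injective hA1 (Function.LeftInverse.injective hπx) (iF_inj r hr)
  have hjE : Function.Injective (jE r W) := by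
    rw [← hj1, MonoidHom.coe_comp]
    exact hi1.comp (Function.LeftInverse.injective hπy)
  have hi2 : Function.Injective ι2 := am_injective hA2 hjE (iF_inj s hs)
  have hQ : sub (PresentedGroup.of 0 : QW W) (PresentedGroup.of 1) W = 1 := by
    have : sub (PresentedGroup.of 0 : QW W) (PresentedGroup.of 1) = PresentedGroup.mk _ := by
      ext1 i
      rw [sub, FreeGroup.lift_apply_of]
      fin_cases i <;> rfl
    rw [this]
    exact mk_rel _
  obtain ⟨Φ, -, hΦ0, hΦ1⟩ := exists_homJ W (fun _ : C => (1 : QW W)) (PresentedGroup.of 0)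
    (PresentedGroup.of 1) hQ
  have hΦ : Φ.comp (jQ C W) = MonoidHom.id (QW W) := by
    apply PresentedGroup.ext
    intro i
    rw [MonoidHom.comp_apply, jQ_of]
    fin_cases i
    · exact hΦ0
    · exact hΦ1
  have hjQ : Function.Injective (jQ C W) :=
    Function.LeftInverse.injective (g := Φ) (fun y => DFunLike.congr_fun hΦ y)
  exact rf_of_injective ((ι2.comp ι1).comp (jQ C W)) (hi2.comp (hi1.comp hjQ)) hI

end Pool.Agent.MP3f0e40.PL
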