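import Mathlib
import Pool.Agent.Lib.MP_3f0e40_al.PL.Fam

set_option autoImplicit false

/-!
# MP_3f0e40_al, project PL: closed cyclic subgroups; unitriangular representations
-/

namespace Pool.Agent.MP3f0e40.PL

open Pool.Agent.MP3f0e40

variable {C L : Type}

/-- the cyclic subgroups of `F(C)` are closed for the family -/
def Cyc (P : Subgroup (FreeGroup C) → Prop) : Prop :=
  ∀ v b : FreeGroup C, (∀ i : ℤ, b ≠ v ^ i) → ∃ D, P D ∧ ∀ i : ℤ, b * v ^ (-i) ∉ D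

/-- the elements of `F(C)` survive in integral unitriangular representations of `⟨C, L; r⟩` -/
def RTN (r : FreeGroup (C ⊕ L)) : Prop :=
  ∀ c : FreeGroup C, c ≠ 1 → ∃ (k : ℕ)
    (ρ : FreeGroup (C ⊕ L) →* Matrix (Fin (k + 1)) (Fin (k + 1)) ℤ),
    (∀ g, D 0 1 (ρ g - 1)) ∧ ρ r = 1 ∧ ρ (inC c) ≠ 1

theorem sepd_of_cyc {P : Subgroup (FreeGroup C) → Prop} (h : Cyc P) : Sepd P := by
  intro c hc
  obtain ⟨D, hD, hDc⟩ := h 1 c (fun i => by rwa [one_zpow])
  exact ⟨D, hD, fun hcD => hDc 0 (by simpa using hcD)⟩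

end Pool.Agent.MP3f0e40.PL
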