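import Mathlib
import Pool.Agent.Lib.MP_3f0e40_al.PL.CycDefs

set_option autoImplicit false

/-!
# MP_3f0e40_al, project PL: cyclic subgroups of `F(C)` are closed in `⟨C, L; r⟩`

`potent_of_rep`: this is the proof of `exists_central` in
`Pool/Agent/Lib/MP_3f0e40_al/Magnus.lean` after the choice of the representation `ρ` with `ρ s ≠
1`: with `S = ρ s - 1`, `d` the least diagonal on which `S` is not zero, `(i₀, j₀)` an entry `S i₀
j₀ ≠ 0` on it, one takes `j = ρ b i₀ j₀ / S i₀ j₀` and `N = cong ρ hρ n' (d + 1)`, `n' = n * |S i₀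
j₀|`; `N` contains the kernel of `ρ` (`cong` is defined by divisibility of the entries of `ρ g -
1`).

`cyc_of_rtn`: let `b, v ∈ F(C)`, `b ≠ v ^ i` for all `i`. If `v = 1`: take `ρ` for `b`; some entry
of `ρ b - 1` is not divisible by a suitable `n > 0`; `N = cong ρ hρ n (k + 1)`; `D = N ∩ F(C)`. If
`v ≠ 1`: take `ρ` for `v` and `j` from `potent_of_rep` (for `inC v`, `inC b`); then `b v^{-j} ≠
1`, so (by the first case applied to `b v^{-j}`) there is `M` normal of finite index with `r ∈ M`,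
`inC (b v^{-j}) ∉ M`. Let `n = M.index` and `N` the subgroup of `potent_of_rep` for `n`. If `b
v^{-i} ∈ (M ⊓ N)` (read in `F(C ∪ L)`) then `n ∣ i - j`, `v^{i-j} ∈ M`, so `b v^{-j} = b v^{-i}
v^{i-j} ∈ M`, a contradiction (compare `potent_sep` in `Sep.lean`). So `D = (M ⊓ N) ∩ F(C)`.

`cyc_of_full`: `potent_sep (free_rf C) (free_potent v hv) b hb` in `Sep.lean` (and `free_rf` if `v
= 1`) gives a normal subgroup of finite index of `F(C)`; it contains a member of `P`.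
-/

namespace Pool.Agent.MP3f0e40.PL

open Pool.Agent.MP3f0e40

theorem potent_of_rep {Z : Type} {k : ℕ}
    (ρ : FreeGroup Z →* Matrix (Fin (k + 1)) (Fin (k + 1)) ℤ) (hρ : ∀ g, D 0 1 (ρ g - 1))
    (s : FreeGroup Z) (hs : ρ s ≠ 1) (b : FreeGroup Z) : ∃ j : ℤ, ∀ n : ℕ, 0 < n →
      ∃ N : Subgroup (FreeGroup Z), N.Normal ∧ N.FiniteIndex ∧ (∀ g, ρ g = 1 → g ∈ N) ∧
        ∀ i : ℤ, b * s ^ (-i) ∈ N → (n : ℤ) ∣ i - j := by
  classical
  obtain ⟨S, hS⟩ : ∃ S, S = ρ s - 1 := ⟨_, rfl⟩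
  have hex : ∃ d, ∃ i j : Fin (k + 1), (j : ℕ) = i + d ∧ S i j ≠ 0 := by
    by_contra hcon
    push Not at hcon
    apply hs
    rw [← sub_eq_zero, ← hS]
    ext i j
    rcases Nat.lt_or_ge (j : ℕ) i with h | h
    · rw [hS]
      exact zero_dvd_iff.1 (hρ s i j (by omega))
    · exact hcon (j - i) i j (by omega)
  obtain ⟨i₀, j₀, hij, hS0⟩ := Nat.find_spec hex
  obtain ⟨d, hd⟩ : ∃ d, d = Nat.find hex := ⟨_, rfl⟩
  rw [← hd] at hij
  have hρS : D 0 1 S := by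
    rw [hS]
    exact hρ s
  have hSd : D 0 d S := by
    intro i j h
    rw [zero_dvd_iff]
    by_contra hne0
    have h1 : ¬ ((j : ℕ) < i + 1) := fun h2 => hne0 (zero_dvd_iff.1 (hρS i j h2))
    rw [hd] at h
    exact Nat.find_min hex (by omega : (j : ℕ) - i < Nat.find hex) ⟨i, j, by omega, hne0⟩
  have hd1 : 1 ≤ d := by
    by_contra h
    exact hS0 (zero_dvd_iff.1 (hρS i₀ j₀ (by omega)))
  have h0 : ∀ x, D 0 0 (ρ x) := by
    intro x
    have := ((hρ x).mono (by omega : 0 ≤ 1)).add (D_one 0)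
    rwa [sub_add_cancel] at this
  -- powers
  have hpow : ∀ l : ℕ, D 0 (d + 1) (ρ (s ^ l) - 1 - (l : ℤ) • S) := by
    intro l
    induction l with
    | zero =>
      rw [pow_zero, map_one, sub_self]
      simp only [Nat.cast_zero, zero_smul, sub_zero]
      exact D_zero 0 _
    | succ l ih =>
      have h1 : ρ (s ^ (l + 1)) - 1 - ((l + 1 : ℕ) : ℤ) • S =
          (ρ (s ^ l) - 1) * S + (ρ (s ^ l) - 1 - (l : ℤ) • S) := by
        have h2 : ρ s = S + 1 := by rw [hS, sub_add_cancel]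
        rw [pow_succ, map_mul, h2]
        push_cast
        rw [add_smul, one_smul]
        noncomm_ring
      rw [h1]
      refine D.add ?_ ih
      have h3 := (hρ (s ^ l)).mul hSd
      exact h3.mono (by omega)
  have hzpow : ∀ l : ℤ, D 0 (d + 1) (ρ (s ^ l) - 1 - l • S) := by
    intro l
    obtain ⟨l, rfl | rfl⟩ := l.eq_nat_or_neg
    · rw [zpow_natCast]
      exact hpow l
    · rw [zpow_neg, zpow_natCast]
      have h1 : ρ (s ^ l)⁻¹ - 1 - (-(l : ℤ)) • S =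
          -((ρ (s ^ l)⁻¹ - 1) * (ρ (s ^ l) - 1)) - (ρ (s ^ l) - 1 - (l : ℤ) • S) := by
        have h2 : ρ (s ^ l)⁻¹ * ρ (s ^ l) = 1 := by rw [← map_mul, inv_mul_cancel, map_one]
        rw [sub_mul, mul_sub, h2, neg_smul]
        noncomm_ring
      rw [h1]
      refine D.sub (D.neg ?_) (hpow l)
      -- `ρ (s ^ l) - 1` lies deep
      have h3 : D 0 d (ρ (s ^ l) - 1) := by
        have := ((hpow l).mono (by omega : d ≤ d + 1)).add (hSd.smul (l : ℤ))
        rwa [sub_add_cancel] at this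
      exact ((hρ _).mul h3).mono (by omega)
  refine ⟨ρ b i₀ j₀ / S i₀ j₀, fun n hn => ?_⟩
  let n' : ℕ := n * (S i₀ j₀).natAbs
  have hn' : 0 < n' := Nat.mul_pos hn (Int.natAbs_pos.2 hS0)
  refine ⟨cong ρ hρ n' (d + 1), cong_normal ρ hρ n' (d + 1), cong_finite ρ hρ n' hn' (d + 1),
    ?_, ?_⟩
  · intro g hg
    show D n' (d + 1) (ρ g - 1)
    rw [hg, sub_self]
    exact D_zero _ _
  · intro i hi
    have h1 : D n' (d + 1) (ρ (b * s ^ (-i)) - 1) := hi
    have h2 : D n' (d + 1) (ρ b - ρ (s ^ i)) := by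
      have h3 : ρ b - ρ (s ^ i) = (ρ (b * s ^ (-i)) - 1) * ρ (s ^ i) := by
        rw [sub_mul, ← map_mul, one_mul]
        congr 2
        rw [mul_assoc, ← zpow_add]
        simp
      rw [h3]
      have := D.mul h1 (h0 (s ^ i))
      rwa [add_zero] at this
    have h3 := h2.sub ((hzpow i).of_zero (n' : ℤ) |>.neg)
    have h4 := h3 i₀ j₀ (by omega)
    have h5 : (ρ b - ρ (s ^ i) - -(ρ (s ^ i) - 1 - i • S)) i₀ j₀ = ρ b i₀ j₀ - i * S i₀ j₀ := by
      have h6 : (1 : Matrix (Fin (k + 1)) (Fin (k + 1)) ℤ) i₀ j₀ = 0 := Matrix.one_apply_ne (by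
        intro h7
        rw [h7] at hij
        omega)
      simp only [Matrix.sub_apply, Matrix.neg_apply, Matrix.smul_apply, smul_eq_mul, h6]
      ring
    rw [h5] at h4
    have h6 : (S i₀ j₀) ∣ ρ b i₀ j₀ := by
      have h7 : (S i₀ j₀) ∣ (n' : ℤ) := by
        show _ ∣ ((n * (S i₀ j₀).natAbs : ℕ) : ℤ)
        push_cast
        exact Dvd.dvd.mul_left (by rw [dvd_abs]) _
      have h8 := h7.trans h4
      exact (Int.dvd_iff_dvd_of_dvd_sub h8).2 (Dvd.intro_left i rfl)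
    obtain ⟨c, hc⟩ := h6
    rw [hc, Int.mul_ediv_cancel_left c hS0]
    rw [hc] at h4
    have h7 : S i₀ j₀ * c - i * S i₀ j₀ = (c - i) * S i₀ j₀ := by ring
    rw [h7] at h4
    have h8 : (n : ℤ) * |S i₀ j₀| ∣ (c - i) * S i₀ j₀ := by
      have : ((n' : ℕ) : ℤ) = (n : ℤ) * |S i₀ j₀| := by
        show ((n * (S i₀ j₀).natAbs : ℕ) : ℤ) = _
        push_cast
        rfl
      rwa [this] at h4
    have h9 : (n : ℤ) * S i₀ j₀ ∣ (c - i) * S i₀ j₀ := by
      rcases abs_choice (S i₀ j₀) with h | h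
      · rwa [h] at h8
      · rw [h, mul_neg] at h8
        exact (neg_dvd).1 h8
    have h10 := Int.dvd_of_mul_dvd_mul_right hS0 h9
    have h11 : (n : ℤ) ∣ -(c - i) := (dvd_neg).2 h10
    rwa [neg_sub] at h11

private theorem CycRtn_sep {C L : Type} {r : FreeGroup (C ⊕ L)} (h : RTN r) {c : FreeGroup C}
    (hc : c ≠ 1) : ∃ M : Subgroup (FreeGroup (C ⊕ L)), M.Normal ∧ M.FiniteIndex ∧ r ∈ M ∧
      inC c ∉ M := by
  obtain ⟨k, ρ, hρ, hr, hρc⟩ := h c hc
  obtain ⟨i, j, hij⟩ : ∃ i j, (ρ (inC c) - 1) i j ≠ 0 := by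
    by_contra hcon
    push Not at hcon
    apply hρc
    rw [← sub_eq_zero]
    ext i j
    exact hcon i j
  obtain ⟨e, he⟩ : ∃ e, e = (ρ (inC c) - 1) i j := ⟨_, rfl⟩
  rw [← he] at hij
  refine ⟨cong ρ hρ ((e.natAbs + 1 : ℕ) : ℤ) (k + 1), cong_normal ρ hρ _ _,
    cong_finite ρ hρ _ (Nat.succ_pos _) _, ?_, ?_⟩
  · show D _ (k + 1) (ρ r - 1)
    rw [hr, sub_self]
    exact D_zero _ _
  · intro hm
    have h1 : ((e.natAbs + 1 : ℕ) : ℤ) ∣ (ρ (inC c) - 1) i j := hm i j (by omega)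
    rw [← he, Int.natCast_dvd] at h1
    have h2 := Nat.le_of_dvd (Int.natAbs_pos.2 hij) h1
    omega

theorem cyc_of_rtn {C L : Type} (r : FreeGroup (C ⊕ L)) (h : RTN r) : Cyc (Tr r) := by
  intro v b hb
  by_cases hv : v = 1
  · have hb1 : b ≠ 1 := by
      have := hb 0
      rwa [zpow_zero] at this
    obtain ⟨M, h1, h2, h3, h4⟩ := CycRtn_sep h hb1
    refine ⟨M.comap inC, ⟨M, h1, h2, h3, rfl⟩, fun i hi => h4 ?_⟩
    rw [hv, one_zpow, mul_one] at hi
    exact hi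
  · obtain ⟨k, ρ, hρ, hr, hρv⟩ := h v hv
    obtain ⟨j, hj⟩ := potent_of_rep ρ hρ (inC v) hρv (inC b)
    have hne : b * v ^ (-j) ≠ 1 := fun h1 => hb j (by
      rw [zpow_neg, mul_inv_eq_one] at h1
      exact h1)
    obtain ⟨M, hM1, hM2, hM3, hM4⟩ := CycRtn_sep h hne
    obtain ⟨N, hN1, hN2, hN3, hN4⟩ := hj M.index (Nat.pos_of_ne_zero hM2.index_ne_zero)
    refine ⟨(M ⊓ N).comap inC, ⟨M ⊓ N, inferInstance, inferInstance, ⟨hM3, hN3 r hr⟩, rfl⟩,
      fun i hi => hM4 ?_⟩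
    rw [Subgroup.mem_comap, map_mul, map_zpow] at hi
    rw [map_mul, map_zpow]
    obtain ⟨c, hc⟩ := hN4 i hi.2
    have h1 : (inC v : FreeGroup (C ⊕ L)) ^ (i - j) ∈ M := by
      rw [hc, zpow_mul, zpow_natCast]
      exact M.zpow_mem (M.pow_index_mem _) c
    have h2 := M.mul_mem hi.1 h1
    rw [mul_assoc, ← zpow_add] at h2
    have h3 : -i + (i - j) = -j := by ring
    rwa [h3] at h2

theorem cyc_of_full {C : Type} {P : Subgroup (FreeGroup C) → Prop} (h : Full P) : Cyc P := by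
  intro v b hb
  by_cases hv : v = 1
  · have hb1 : b ≠ 1 := by
      have := hb 0
      rwa [zpow_zero] at this
    obtain ⟨N, h1, h2, h3⟩ := (rf_iff _).1 (free_rf C) b hb1
    obtain ⟨D, hD, hDN⟩ := h N h1 h2
    refine ⟨D, hD, fun i hi => h3 (hDN ?_)⟩
    rw [hv, one_zpow, mul_one] at hi
    exact hi
  · obtain ⟨N, h1, h2, h3⟩ := potent_sep (free_rf C) (free_potent v hv) b hb
    obtain ⟨D, hD, hDN⟩ := h N h1 h2
    exact ⟨D, hD, fun i hi => h3 i (hDN hi)⟩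

end Pool.Agent.MP3f0e40.PL
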