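import Mathlib
import Pool.Agent.Lib.MP_3f0e40_al.PL.Fam
import Pool.Agent.Lib.MP_3f0e40_al.Ext
import Pool.Agent.Lib.MP_3f0e40_al.Hnn

set_option autoImplicit false

/-!
# MP_3f0e40_al, project PL: M. Hall's theorem with `F(C)` acting through a given family

`F = F(C ∪ L)`, `iF w` injective, `U = (iF w).range`, `P` a family of normal subgroups of finite
index of `F(C)`, closed under intersections, with trivial intersection (`Sepd`), and (`hmal`)
`k ∈ F(C)`, `k ≠ 1`, `g⁻¹ k g ∈ U` imply `g ∈ U`. Claim: `RH P w`.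

Proof. Let `V` be normal of finite index in `F(C ∪ {none})`, `D₀ ∈ P`, `D₀ ≤ V.comap old`, `T`
finite.
Let `V' = iF w (V)`, a subgroup of `F`, let `F` act on `X = F ⧸ V'` by left multiplication, and
`Ω₀ = {u V' : u ∈ U}`, finite (the map `F(C ∪ {none}) ⧸ V → X` is injective with image `Ω₀`) and
invariant under `U`; `o = V'`. `D₀` acts trivially on `Ω₀` (`V` is normal). `F(C)` acts freely on
`X ∖ Ω₀`: if `k g V' = g V'` then `g⁻¹ k g ∈ V' ≤ U`, so `k = 1` or `g ∈ U`.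
Let `S ⊆ X` be the finite set of the points `ℓ_j ⋯ ℓ_1 ω`, `ω ∈ Ω₀`, `0 ≤ j ≤ m`, for a word
`w = ℓ_m ⋯ ℓ_1`, and of the corresponding points of the paths from `o` with label `t ∈ T`
(`S ⊇ Ω₀`). Let `R ⊆ S ∖ Ω₀` be representatives of the `F(C)`-orbits meeting `S ∖ Ω₀`, so every
`x ∈ S ∖ Ω₀` is `k_x ρ_x` with unique `ρ_x ∈ R`, `k_x ∈ F(C)`. Choose `D ∈ P`, `D ≤ D₀`, such that
`k_y⁻¹ k_x ∉ D` for all `x ≠ y` in `S ∖ Ω₀` with `ρ_x = ρ_y` (finitely many elements `≠ 1`). Let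
`Ω = Ω₀ ⊕ (R × F(C) ⧸ D)`, with `F(C)` acting on `Ω₀` as in `X` and on `F(C) ⧸ D` by left
multiplication; `D` acts trivially on `Ω`. The map `ε : S → Ω`, identity on `Ω₀` and
`x ↦ (ρ_x, k_x D)` elsewhere, is injective, and `ε (c x) = c ε(x)` if `c ∈ C` and `x, c x ∈ S`.
For `z ∈ L` extend the injection `ε x ↦ ε (z x)` (`x, z x ∈ S`) to a permutation of `Ω`
(`Equiv.extendSubtype` or `exists_equiv_extend` in `Pool/Agent/Lib/MP_3f0e40_al/Ext.lean`); the
letters of `C` act as given. So `F` acts on `Ω`, paths inside `S` are traced as in `X`: `iF w u`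
acts on `Ω₀` as in `X`, and `t · o = ε (t V')` for `t ∈ T`. Let `N₁` be the kernel: if
`iF w u ∈ N₁` then `u ∈ V`; if `t * (iF w u)⁻¹ ∈ N₁` then `ε (t V') = (iF w u) V' ∈ Ω₀`, so
`t V' ∈ Ω₀` and `t ∈ U`; and `D ≤ N₁ ∩ F(C)`. Put `N = N₁ ⊓ ret⁻¹(D)`; then `N ∩ F(C) = D ∈ P`.
-/

namespace Pool.Agent.MP3f0e40.PL

open Pool.Agent.MP3f0e40

namespace HallMal

/-- Paths inside `S` are traced. -/
theorem trace {Z X Ω : Type} [MulAction (FreeGroup Z) X] (β : FreeGroup Z →* Equiv.Perm Ω)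
    (ε : X → Ω) (S : Set X)
    (hβ : ∀ z x, x ∈ S → FreeGroup.of z • x ∈ S →
      β (FreeGroup.of z) (ε x) = ε (FreeGroup.of z • x)) (x : X) (l : List (Z × Bool))
    (hl : ∀ l', l' <:+ l → FreeGroup.mk l' • x ∈ S) :
    β (FreeGroup.mk l) (ε x) = ε (FreeGroup.mk l • x) := by
  induction l with
  | nil =>
    change β 1 (ε x) = ε ((1 : FreeGroup Z) • x)
    simp
  | cons a l ih =>
    obtain ⟨z, e⟩ := a
    have h1 := ih (fun l' h => hl l' (h.trans (List.suffix_cons _ _)))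
    have h2 : FreeGroup.mk l • x ∈ S := hl l (List.suffix_cons _ _)
    have h3 : FreeGroup.mk ((z, e) :: l) • x ∈ S := hl _ (List.suffix_refl _)
    cases e with
    | true =>
      have h4 : FreeGroup.mk ((z, true) :: l) = FreeGroup.of z * FreeGroup.mk l := rfl
      rw [h4, mul_smul] at h3
      rw [h4, map_mul, Equiv.Perm.mul_apply, h1, mul_smul]
      exact hβ z _ h2 h3
    | false =>
      have h4 : FreeGroup.mk ((z, false) :: l) = (FreeGroup.of z)⁻¹ * FreeGroup.mk l := rfl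
      rw [h4, mul_smul] at h3
      rw [h4, map_mul, Equiv.Perm.mul_apply, h1, mul_smul, map_inv, Equiv.Perm.inv_eq_iff_eq]
      have h5 := hβ z _ h3 (by rw [smul_inv_smul]; exact h2)
      rw [smul_inv_smul] at h5
      exact h5.symm

/-- A member of the family avoiding finitely many elements. -/
theorem avoid {C : Type} {P : Subgroup (FreeGroup C) → Prop} (hP : Fam P) (hsep : Sepd P)
    (D₀ : Subgroup (FreeGroup C)) (h0 : P D₀) (E : Set (FreeGroup C)) (hE : E.Finite)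
    (h1 : 1 ∉ E) : ∃ D, P D ∧ D ≤ D₀ ∧ ∀ e ∈ E, e ∉ D := by
  induction E, hE using Set.Finite.induction_on with
  | empty => exact ⟨D₀, h0, le_rfl, fun _ h => h.elim⟩
  | @insert a E _ _ ih =>
    obtain ⟨D, h2, h3, h4⟩ := ih (fun h => h1 (Set.mem_insert_of_mem _ h))
    obtain ⟨D', h5, h6⟩ := hsep a (fun h => h1 (h ▸ Set.mem_insert a E))
    refine ⟨D ⊓ D', hP.inf _ _ h2 h5, inf_le_left.trans h3, fun e he hD => ?_⟩
    rcases Set.mem_insert_iff.1 he with rfl | he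
    · exact h6 hD.2
    · exact h4 e he hD.1

/-- A finite model of a finite part `S` of a set with an action which is free outside the
invariant subset `Ω₀`. -/
theorem model {K X : Type} [Group K] (α : K →* Equiv.Perm X) (Ω₀ S : Set X) (h0 : Ω₀.Finite)
    (hS : S.Finite) (o : X) (ho : o ∈ Ω₀) (hinv : ∀ k x, x ∈ Ω₀ → α k x ∈ Ω₀)
    (hfree : ∀ k x, x ∉ Ω₀ → α k x = x → k = 1) :
    ∃ E : Set K, E.Finite ∧ 1 ∉ E ∧ ∀ D : Subgroup K, D.Normal → D.FiniteIndex →
      (∀ e ∈ E, e ∉ D) → (∀ d ∈ D, ∀ x ∈ Ω₀, α d x = x) →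
      ∃ (Ω : Type) (_ : Finite Ω) (γ : K →* Equiv.Perm Ω) (ε : X → Ω), Set.InjOn ε S ∧
        (∀ d ∈ D, γ d = 1) ∧ ∀ k x, x ∈ S → α k x ∈ S → γ k (ε x) = ε (α k x) := by
  classical
  let ρ : X → X := fun x => (Quotient.mk (orb α) x).out
  have hρ : ∀ x, ∃ k, α k (ρ x) = x := fun x => (orb_iff α _ _).1 (Quotient.out_eq _)
  choose κ hκ using hρ
  have hρα : ∀ k x, ρ (α k x) = ρ x := fun k x => by
    change (Quotient.mk (orb α) (α k x)).out = (Quotient.mk (orb α) x).out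
    rw [orb_act]
  have hκα : ∀ k x, x ∉ Ω₀ → κ (α k x) = k * κ x := by
    intro k x hx
    have h1 : ρ x ∉ Ω₀ := fun h => hx (by
      rw [← hκ x]
      exact hinv _ _ h)
    have h2 := hκ (α k x)
    rw [hρα] at h2
    have h3 : α (k * κ x) (ρ x) = α k x := by
      rw [map_mul, Equiv.Perm.mul_apply, hκ]
    have h4 : α ((k * κ x)⁻¹ * κ (α k x)) (ρ x) = ρ x := by
      rw [map_mul, Equiv.Perm.mul_apply, h2, map_inv, Equiv.Perm.inv_eq_iff_eq, h3]
    exact (inv_mul_eq_one.1 (hfree _ _ h1 h4)).symm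
  let E : Set K := {e | ∃ x ∈ S, ∃ y ∈ S, x ≠ y ∧ ρ x = ρ y ∧ e = (κ x)⁻¹ * κ y}
  have hEf : E.Finite := by
    refine (Set.Finite.image2 (fun x y => (κ x)⁻¹ * κ y) hS hS).subset ?_
    rintro _ ⟨x, hx, y, hy, _, _, rfl⟩
    exact ⟨x, hx, y, hy, rfl⟩
  have hE1 : 1 ∉ E := by
    rintro ⟨x, hx, y, hy, hne, hr, he⟩
    refine hne ?_
    rw [← hκ x, ← hκ y, hr, inv_mul_eq_one.1 he.symm]
  refine ⟨E, hEf, hE1, fun D hDn hDf hDE hD0 => ?_⟩
  have := h0.to_subtype
  have hR : (ρ '' S).Finite := hS.image ρ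
  have := hR.to_subtype
  let Ω : Type := Ω₀ ⊕ ((ρ '' S : Set X) × (K ⧸ D))
  let act : MulAction K Ω :=
    { smul := fun k => Sum.map (fun x => ⟨α k x, hinv k x x.2⟩) (fun p => (p.1, k • p.2))
      one_smul := by
        rintro (⟨x, hx⟩ | ⟨r, q⟩)
        · exact congrArg Sum.inl (Subtype.ext (by
            change α 1 x = x
            rw [map_one]
            rfl))
        · exact congrArg Sum.inr (Prod.ext rfl (one_smul K q))
      mul_smul := by
        rintro k l (⟨x, hx⟩ | ⟨r, q⟩)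
        · exact congrArg Sum.inl (Subtype.ext (by
            change α (k * l) x = α k (α l x)
            rw [map_mul]
            rfl))
        · exact congrArg Sum.inr (Prod.ext rfl (mul_smul k l q)) }
  let ε : X → Ω := fun x => if hx : x ∈ Ω₀ then Sum.inl ⟨x, hx⟩ else
    if hS : x ∈ S then Sum.inr (⟨ρ x, x, hS, rfl⟩, (κ x : K ⧸ D)) else Sum.inl ⟨o, ho⟩
  have hε0 : ∀ x (hx : x ∈ Ω₀), ε x = Sum.inl ⟨x, hx⟩ := fun x hx => dif_pos hx
  have hε1 : ∀ x (_ : x ∉ Ω₀) (hS : x ∈ S),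
      ε x = Sum.inr (⟨ρ x, x, hS, rfl⟩, (κ x : K ⧸ D)) := fun x hx hS => by
    change (if hx : x ∈ Ω₀ then (Sum.inl ⟨x, hx⟩ : Ω) else
      if hS : x ∈ S then Sum.inr (⟨ρ x, x, hS, rfl⟩, (κ x : K ⧸ D)) else Sum.inl ⟨o, ho⟩) = _
    rw [dif_neg hx, dif_pos hS]
  refine ⟨Ω, inferInstance, MulAction.toPermHom K Ω, ε, ?_, ?_, ?_⟩
  · intro x hx y hy hxy
    by_cases h1 : x ∈ Ω₀ <;> by_cases h2 : y ∈ Ω₀
    · rw [hε0 x h1, hε0 y h2] at hxy
      exact congrArg Subtype.val (Sum.inl.inj hxy)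
    · rw [hε0 x h1, hε1 y h2 hy] at hxy
      cases hxy
    · rw [hε1 x h1 hx, hε0 y h2] at hxy
      cases hxy
    · rw [hε1 x h1 hx, hε1 y h2 hy] at hxy
      have h3 := Sum.inr.inj hxy
      have h4 : ρ x = ρ y := congrArg (fun p => (p.1 : X)) h3
      have h5 : (κ x : K ⧸ D) = κ y := congrArg Prod.snd h3
      by_contra hne
      exact hDE _ ⟨x, hx, y, hy, hne, h4, rfl⟩ (QuotientGroup.eq.1 h5)
  · intro d hd
    refine Equiv.ext fun ω => ?_
    rcases ω with ⟨x, hx⟩ | ⟨r, q⟩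
    · exact congrArg Sum.inl (Subtype.ext (hD0 d hd x hx))
    · exact congrArg Sum.inr (Prod.ext rfl ((smul_eq_iff D d q).2 hd))
  · intro k x hx hkx
    by_cases h1 : x ∈ Ω₀
    · rw [hε0 x h1, hε0 _ (hinv k x h1)]
      rfl
    · have h2 : α k x ∉ Ω₀ := fun h => h1 (by
        have h3 := hinv k⁻¹ _ h
        have h4 : (α k)⁻¹ (α k x) = x := (α k).symm_apply_apply x
        rw [map_inv, h4] at h3
        exact h3)
      rw [hε1 x h1 hx, hε1 _ h2 hkx]
      refine congrArg Sum.inr (Prod.ext (Subtype.ext (hρα k x).symm) ?_)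
      change k • (κ x : K ⧸ D) = (κ (α k x) : K ⧸ D)
      rw [hκα k x h1]
      rfl

end HallMal

theorem rh_mal {C L : Type} (P : Subgroup (FreeGroup C) → Prop) (hP : Fam P) (hsep : Sepd P)
    (w : FreeGroup (C ⊕ L)) (hinj : Function.Injective (iF w))
    (hmal : ∀ (k : FreeGroup C), k ≠ 1 → ∀ g : FreeGroup (C ⊕ L),
      g⁻¹ * inC k * g ∈ (iF w).range → g ∈ (iF w).range) : RH P w := by
  classical
  intro V hV hVf ⟨D₀, hD₀, hD₀V⟩ T
  let V' : Subgroup (FreeGroup (C ⊕ L)) := V.map (iF w)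
  have hV'U : V' ≤ (iF w).range := Subgroup.map_le_range _ _
  let X : Type := FreeGroup (C ⊕ L) ⧸ V'
  let mk : FreeGroup (C ⊕ L) → X := fun g => (g : FreeGroup (C ⊕ L) ⧸ V')
  have hmk : ∀ g h, mk g = mk h ↔ g⁻¹ * h ∈ V' := fun g h => QuotientGroup.eq
  have hsm : ∀ g h, g • mk h = mk (g * h) := fun g h => rfl
  let Ω₀ : Set X := Set.range fun u : FreeGroup (Option C) => mk (iF w u)
  have hΩ₀ : ∀ g, mk g ∈ Ω₀ ↔ g ∈ (iF w).range := by
    intro g
    constructor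
    · rintro ⟨u, hu⟩
      have h1 : (iF w u)⁻¹ * g ∈ (iF w).range := hV'U ((hmk _ _).1 hu)
      have h2 : (iF w u)⁻¹ ∈ (iF w).range := Subgroup.inv_mem _ (MonoidHom.mem_range.2 ⟨u, rfl⟩)
      exact (Subgroup.mul_mem_cancel_left _ h2).1 h1
    · rintro ⟨u, rfl⟩
      exact ⟨u, rfl⟩
  have hfin : Ω₀.Finite := by
    have h1 : (Set.range fun q : FreeGroup (Option C) ⧸ V => mk (iF w q.out)).Finite :=
      Set.finite_range _
    refine h1.subset ?_
    rintro _ ⟨u, rfl⟩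
    refine ⟨(u : FreeGroup (Option C) ⧸ V), ?_⟩
    refine (hmk _ _).2 ?_
    rw [← map_inv, ← map_mul]
    refine ⟨_, ?_, rfl⟩
    exact QuotientGroup.eq.1 (Quotient.out_eq _)
  have hU : ∀ u x, x ∈ Ω₀ → iF w u • x ∈ Ω₀ := by
    rintro u _ ⟨v, rfl⟩
    refine ⟨u * v, ?_⟩
    change mk (iF w (u * v)) = iF w u • mk (iF w v)
    rw [map_mul]
    rfl
  let o : X := mk 1
  have ho : o ∈ Ω₀ := ⟨1, congrArg mk (map_one (iF w))⟩
  let α : FreeGroup C →* Equiv.Perm X := (MulAction.toPermHom (FreeGroup (C ⊕ L)) X).comp inC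
  have hα : ∀ k x, α k x = (inC k : FreeGroup (C ⊕ L)) • x := fun k x => rfl
  have hinv : ∀ k x, x ∈ Ω₀ → α k x ∈ Ω₀ := by
    intro k x hx
    rw [hα, ← iF_old w]
    exact hU _ _ hx
  have hfree : ∀ k x, x ∉ Ω₀ → α k x = x → k = 1 := by
    intro k x hx hk
    by_contra hne
    obtain ⟨g, rfl⟩ := Quotient.exists_rep x
    have h1 : mk (inC k * g) = mk g := hk
    have h2 := (hmk _ _).1 h1.symm
    rw [← mul_assoc] at h2
    exact hx ((hΩ₀ g).2 (hmal k hne g (hV'U h2)))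
  -- the finite set `S`
  let W : Finset (FreeGroup (C ⊕ L)) := insert w (insert 1 T)
  let B : Set (FreeGroup (C ⊕ L)) := ⋃ t ∈ W, {g | ∃ l, l <:+ t.toWord ∧ FreeGroup.mk l = g}
  have hB : B.Finite := by
    refine Set.Finite.biUnion W.finite_toSet fun t _ => ?_
    refine ((t.toWord.tails.map FreeGroup.mk).toFinset.finite_toSet).subset ?_
    rintro _ ⟨l, hl, rfl⟩
    simp only [List.coe_toFinset, List.mem_map, List.mem_tails, Set.mem_ofPred_eq]
    exact ⟨l, hl, rfl⟩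
  let S : Set X := Set.image2 (fun g x => g • x) B Ω₀
  have hS : S.Finite := Set.Finite.image2 _ hB hfin
  have hSB : ∀ t ∈ W, ∀ x ∈ Ω₀, ∀ l, l <:+ t.toWord → FreeGroup.mk l • x ∈ S := by
    intro t ht x hx l hl
    exact ⟨FreeGroup.mk l, Set.mem_biUnion ht ⟨l, hl, rfl⟩, x, hx, rfl⟩
  have h0S : Ω₀ ⊆ S := by
    intro x hx
    have h1 := hSB w (Finset.mem_insert_self _ _) x hx [] List.nil_suffix
    rw [← one_smul (FreeGroup (C ⊕ L)) x]
    exact h1
  have hST : ∀ t ∈ W, ∀ x ∈ Ω₀, t • x ∈ S := by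
    intro t ht x hx
    have h1 := hSB t ht x hx t.toWord (List.suffix_refl _)
    rw [FreeGroup.mk_toWord] at h1
    exact h1
  obtain ⟨E, hE, hE1, hmodel⟩ := HallMal.model α Ω₀ S hfin hS o ho hinv hfree
  obtain ⟨D, hPD, hDD₀, hDE⟩ := HallMal.avoid hP hsep D₀ hD₀ E hE hE1
  have hDn := hP.nrm D hPD
  have hDf := hP.fin D hPD
  obtain ⟨Ω, hΩ, γ, ε, hεS, hγD, hγ⟩ := hmodel D hDn hDf hDE (by
    rintro d hd _ ⟨u, rfl⟩
    rw [hα, hsm]
    refine (hmk _ _).2 ?_
    refine ⟨(old d * u)⁻¹ * u, ?_, ?_⟩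
    · have h1 : old d ∈ V := hD₀V (hDD₀ hd)
      have h2 := hV.conj_mem _ (V.inv_mem h1) u⁻¹
      rw [inv_inv] at h2
      rw [mul_inv_rev]
      exact h2
    · rw [map_mul, map_inv, map_mul, iF_old])
  -- the permutations of the other letters
  have hπ : ∀ z : L, ∃ π : Equiv.Perm Ω, ∀ x, x ∈ S → FreeGroup.of (Sum.inr z : C ⊕ L) • x ∈ S →
      π (ε x) = ε (FreeGroup.of (Sum.inr z : C ⊕ L) • x) := by
    intro z
    obtain ⟨π, hπ⟩ := exists_equiv_extend (rfl : Nat.card Ω = Nat.card Ω)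
      (fun x : {x : X // x ∈ S ∧ FreeGroup.of (Sum.inr z : C ⊕ L) • x ∈ S} => ε x)
      (fun x => ε (FreeGroup.of (Sum.inr z : C ⊕ L) • (x : X)))
      (fun x y h => Subtype.ext (hεS x.2.1 y.2.1 h))
      (fun x y h => Subtype.ext (MulAction.injective _ (hεS x.2.2 y.2.2 h)))
    exact ⟨π, fun x hx hx' => hπ ⟨x, hx, hx'⟩⟩
  choose π hπ using hπ
  let β : FreeGroup (C ⊕ L) →* Equiv.Perm Ω :=
    FreeGroup.lift (Sum.elim (fun c => γ (FreeGroup.of c)) π)
  have hβγ : ∀ c, β (inC c) = γ c := by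
    have : β.comp inC = γ := by
      ext1 c
      rw [MonoidHom.comp_apply, inC, FreeGroup.map.of, FreeGroup.lift_apply_of]
      rfl
    exact fun c => DFunLike.congr_fun this c
  have hβ : ∀ z x, x ∈ S → FreeGroup.of z • x ∈ S →
      β (FreeGroup.of z) (ε x) = ε (FreeGroup.of z • x) := by
    rintro (c | z) x hx hx'
    · have h1 : β (FreeGroup.of (Sum.inl c)) = γ (FreeGroup.of c) := FreeGroup.lift_apply_of
      rw [h1]
      exact hγ _ _ hx hx'
    · have h1 : β (FreeGroup.of (Sum.inr z)) = π z := FreeGroup.lift_apply_of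
      rw [h1]
      exact hπ z x hx hx'
  have htr : ∀ t ∈ W, ∀ x ∈ Ω₀, β t (ε x) = ε (t • x) := by
    intro t ht x hx
    have h1 := HallMal.trace β ε S hβ x t.toWord (hSB t ht x hx)
    rw [FreeGroup.mk_toWord] at h1
    exact h1
  have hβU : ∀ u, ∀ x ∈ Ω₀, β (iF w u) (ε x) = ε (iF w u • x) := by
    intro u
    have hof : ∀ a : Option C, ∀ x ∈ Ω₀, β (iF w (FreeGroup.of a)) (ε x) =
        ε (iF w (FreeGroup.of a) • x) := by
      rintro (_ | c) x hx
      · rw [iF_none]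
        exact htr w (Finset.mem_insert_self _ _) x hx
      · have h1 : (FreeGroup.of (some c) : FreeGroup (Option C)) = old (FreeGroup.of c) := by
          rw [old, FreeGroup.map.of]
        rw [h1, iF_old, hβγ]
        exact hγ _ _ (h0S hx) (h0S (hinv _ _ hx))
    induction u using FreeGroup.induction_on with
    | C1 =>
      intro x hx
      rw [map_one, map_one, one_smul]
      rfl
    | of a => exact hof a
    | inv_of a _ =>
      intro x hx
      have h1 := hof a (iF w (FreeGroup.of a)⁻¹ • x) (hU _ _ hx)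
      rw [map_inv, smul_inv_smul] at h1
      rw [map_inv, map_inv, Equiv.Perm.inv_eq_iff_eq, h1]
    | mul a b ha hb =>
      intro x hx
      rw [map_mul, map_mul, Equiv.Perm.mul_apply, hb x hx, ha _ (hU _ _ hx), mul_smul]
  have hker : ∀ c ∈ D, inC c ∈ β.ker := by
    intro c hc
    rw [MonoidHom.mem_ker, hβγ]
    exact hγD c hc
  have hfinker : β.ker.FiniteIndex := by
    have : Finite (Equiv.Perm Ω) := inferInstance
    infer_instance
  refine ⟨β.ker ⊓ D.comap ret, inferInstance, ?_, ?_, ?_, ?_⟩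
  · have := finIdx_comap (ret (L := L)) D
    infer_instance
  · have h1 : (β.ker ⊓ D.comap ret).comap inC = D := by
      ext c
      constructor
      · rintro ⟨_, h2⟩
        have h3 : ret (inC c) ∈ D := h2
        rw [ret_inC] at h3
        exact h3
      · intro hc
        refine ⟨hker c hc, ?_⟩
        change ret (inC c) ∈ D
        rw [ret_inC]
        exact hc
    rw [h1]
    exact hPD
  · rintro u ⟨hu, _⟩
    have h1 : β (iF w u) = 1 := hu
    have h2 := hβU u o ho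
    rw [h1] at h2
    have h3 : o = iF w u • o := hεS (h0S ho) (h0S (hU _ _ ho)) h2
    have h4 : mk 1 = mk (iF w u * 1) := h3
    have h5 := (hmk _ _).1 h4
    rw [inv_one, one_mul, mul_one] at h5
    obtain ⟨v, hv, hvu⟩ := h5
    rw [← hinj hvu]
    exact hv
  · rintro t ht htU u ⟨hu, _⟩
    have htW : t ∈ W := Finset.mem_insert_of_mem (Finset.mem_insert_of_mem ht)
    have h1 : β (t * (iF w u)⁻¹) = 1 := hu
    rw [map_mul, map_inv, mul_inv_eq_one] at h1
    have h2 := htr t htW o ho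
    rw [h1, hβU u o ho] at h2
    have h3 := hεS (h0S (hU _ _ ho)) (hST t htW o ho) h2
    have h4 : mk (t * 1) ∈ Ω₀ := by
      change t • o ∈ Ω₀
      rw [← h3]
      exact hU _ _ ho
    rw [mul_one] at h4
    exact htU ((hΩ₀ t).1 h4)

end Pool.Agent.MP3f0e40.PL
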