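import Mathlib
import Pool.Agent.Lib.MP_3f0e40_al.PL.CycDefs

set_option autoImplicit false

/-!
# MP_3f0e40_al, project PL: the stabilisers of `F(C)` on `F ⧸ ⟨C, w⟩` are cyclic

`F = F(C ∪ L)`, `U = (iF w).range` the subgroup generated by `C` and `w`, `g ∈ F ∖ U`. Claim: the
subgroup `K = {k ∈ F(C) : g⁻¹ k g ∈ U}` is cyclic.

Proof. `F` acts on `X = F ⧸ U`; `o = U`, `x = g U`, `K` is the stabiliser of `x` in `F(C)`. The
`F(C)`-orbit `O` of `x` does not contain `o` (`o` is fixed by `F(C) ≤ U`, and `x ≠ o`). For `y ∈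
O` choose `t_y ∈ F(C)` with `t_y x = y`, `t_x = 1`, and let `δ(c, y) = t_{c y}⁻¹ c t_y ∈ K` for `c
∈ F(C)`; `δ(c c', y) = δ(c, c' y) δ(c', y)`. Let the letters of `F` act on `X × K` (take `K` as a
type, or `FreeGroup C` in place of `K`) by permutations: `c ∈ C` acts by `(y, κ) ↦ (c y, δ(c, y)
κ)` if `y ∈ O` and `(y, κ) ↦ (c y, κ)` otherwise, `ℓ ∈ L` acts by `(y, κ) ↦ (ℓ y, κ)`. This
defines a homomorphism `F → Perm (X × K)` (`FreeGroup.lift`); the action of `c ∈ F(C)` is given by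
the same formula, and the action of `f ∈ F` has the form `(y, κ) ↦ (f y, m(f, y) κ)`, so it
commutes with right multiplications of the second coordinate. For `u ∈ U` let `u (o, 1) = (o, ψ
u)`; `ψ` is a homomorphism `U → K` with `ψ c = 1` for `c ∈ F(C)`, so `ψ U` is generated by `b = ψ
w`. Let `g (o, 1) = (x, κ₀)`. If `k ∈ K` and `u = g⁻¹ k g ∈ U` then `k (x, κ) = (x, k κ)` (`t_x =
1`), so `ψ u = κ₀⁻¹ k κ₀`; hence `k = (κ₀ b κ₀⁻¹)^i` for some `i`. Take `v = κ₀ b κ₀⁻¹`.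
-/

namespace Pool.Agent.MP3f0e40.PL

open Pool.Agent.MP3f0e40

namespace StabCyc

/-- the skew permutation `(y, κ) ↦ (f y, a y * κ)` -/
def sk {F X G : Type} [Group F] [MulAction F X] [Group G] (f : F) (a : X → G) :
    Equiv.Perm (X × G) where
  toFun q := (f • q.1, a q.1 * q.2)
  invFun q := (f⁻¹ • q.1, (a (f⁻¹ • q.1))⁻¹ * q.2)
  left_inv q := by
    refine Prod.ext ?_ ?_
    · exact inv_smul_smul f q.1
    · change (a (f⁻¹ • f • q.1))⁻¹ * (a q.1 * q.2) = q.2
      rw [inv_smul_smul, inv_mul_cancel_left]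
  right_inv q := by
    refine Prod.ext ?_ ?_
    · exact smul_inv_smul f q.1
    · change a (f⁻¹ • q.1) * ((a (f⁻¹ • q.1))⁻¹ * q.2) = q.2
      rw [mul_inv_cancel_left]

theorem inv_apply {Y : Type} (p : Equiv.Perm Y) {x y : Y} (h : p x = y) : p⁻¹ y = x := by
  rw [Equiv.Perm.inv_eq_iff_eq]
  exact h.symm

variable {C L : Type} {X : Type} [MulAction (FreeGroup (C ⊕ L)) X] (O : Set X)

open Classical in
/-- the action on `X × F(C)` -/
noncomputable def act : FreeGroup (C ⊕ L) →* Equiv.Perm (X × FreeGroup C) :=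
  FreeGroup.lift (Sum.elim
    (fun c => sk (FreeGroup.of (Sum.inl c : C ⊕ L))
      (fun y => if y ∈ O then FreeGroup.of c else 1))
    (fun l => sk (FreeGroup.of (Sum.inr l : C ⊕ L)) (fun _ => 1)))

theorem act_form (f : FreeGroup (C ⊕ L)) :
    ∃ a : X → FreeGroup C, ∀ y κ, act O f (y, κ) = (f • y, a y * κ) := by
  classical
  induction f using FreeGroup.induction_on with
  | C1 => exact ⟨fun _ => 1, fun y κ => by rw [map_one, one_smul, one_mul]; rfl⟩
  | of x =>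
    rcases x with c | l
    · refine ⟨fun y => if y ∈ O then FreeGroup.of c else 1, fun y κ => ?_⟩
      have h : act O (FreeGroup.of (Sum.inl c : C ⊕ L)) =
          sk (FreeGroup.of (Sum.inl c)) (fun y => if y ∈ O then FreeGroup.of c else 1) :=
        FreeGroup.lift_apply_of
      rw [h]
      rfl
    · refine ⟨fun _ => 1, fun y κ => ?_⟩
      have h : act O (FreeGroup.of (Sum.inr l : C ⊕ L)) =
          sk (FreeGroup.of (Sum.inr l)) (fun _ => 1) := FreeGroup.lift_apply_of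
      rw [h]
      rfl
  | inv_of x ih =>
    obtain ⟨a, ha⟩ := ih
    refine ⟨fun y => (a ((FreeGroup.of x)⁻¹ • y))⁻¹, fun y κ => ?_⟩
    rw [map_inv]
    refine inv_apply _ ?_
    rw [ha, smul_inv_smul, mul_inv_cancel_left]
  | mul x y hx hy =>
    obtain ⟨a, ha⟩ := hx
    obtain ⟨b, hb⟩ := hy
    refine ⟨fun z => a (y • z) * b z, fun z κ => ?_⟩
    rw [map_mul, Equiv.Perm.mul_apply, hb, ha, mul_smul, mul_assoc]

theorem act_inC (hO : ∀ (c : FreeGroup C) (y : X), y ∈ O ↔ (inC c : FreeGroup (C ⊕ L)) • y ∈ O)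
    (c : FreeGroup C) : (∀ y ∈ O, ∀ κ, act O (inC c : FreeGroup (C ⊕ L)) (y, κ) =
      ((inC c : FreeGroup (C ⊕ L)) • y, c * κ)) ∧
    (∀ y ∉ O, ∀ κ, act O (inC c : FreeGroup (C ⊕ L)) (y, κ) =
      ((inC c : FreeGroup (C ⊕ L)) • y, κ)) := by
  classical
  induction c using FreeGroup.induction_on with
  | C1 =>
    refine ⟨fun y _ κ => ?_, fun y _ κ => ?_⟩
    · rw [map_one, map_one, one_smul, one_mul]; rfl
    · rw [map_one, map_one, one_smul]; rfl
  | of x =>
    have h : act O (inC (FreeGroup.of x) : FreeGroup (C ⊕ L)) =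
        sk (FreeGroup.of (Sum.inl x : C ⊕ L))
          (fun y => if y ∈ O then FreeGroup.of x else 1) := by
      have h1 : (inC (FreeGroup.of x) : FreeGroup (C ⊕ L)) = FreeGroup.of (Sum.inl x) :=
        FreeGroup.map.of
      rw [h1]
      exact FreeGroup.lift_apply_of
    refine ⟨fun y hy κ => ?_, fun y hy κ => ?_⟩
    · rw [h]
      refine Prod.ext rfl ?_
      change (if y ∈ O then FreeGroup.of x else 1) * κ = _
      rw [if_pos hy]
    · rw [h]
      refine Prod.ext rfl ?_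
      change (if y ∈ O then FreeGroup.of x else 1) * κ = _
      rw [if_neg hy, one_mul]
  | inv_of x ih =>
    obtain ⟨h1, h2⟩ := ih
    have hm : (inC (FreeGroup.of x)⁻¹ : FreeGroup (C ⊕ L)) = (inC (FreeGroup.of x))⁻¹ :=
      map_inv _ _
    refine ⟨fun y hy κ => ?_, fun y hy κ => ?_⟩
    · rw [hm, map_inv]
      refine inv_apply _ ?_
      have hy' := (hO (FreeGroup.of x)⁻¹ y).1 hy
      rw [hm] at hy'
      rw [h1 _ hy', smul_inv_smul, mul_inv_cancel_left]
    · rw [hm, map_inv]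
      refine inv_apply _ ?_
      have hy' := fun h => hy ((hO (FreeGroup.of x)⁻¹ y).2 h)
      rw [hm] at hy'
      rw [h2 _ hy', smul_inv_smul]
  | mul a b ha hb =>
    obtain ⟨ha1, ha2⟩ := ha
    obtain ⟨hb1, hb2⟩ := hb
    refine ⟨fun y hy κ => ?_, fun y hy κ => ?_⟩
    · rw [map_mul, map_mul, Equiv.Perm.mul_apply, hb1 y hy, ha1 _ ((hO b y).1 hy), mul_smul,
        mul_assoc]
    · rw [map_mul, map_mul, Equiv.Perm.mul_apply, hb2 y hy, ha2 _ (fun h => hy ((hO b y).2 h)),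
        mul_smul]

theorem iF_map (w : FreeGroup (C ⊕ L)) (c : FreeGroup C) :
    iF w (FreeGroup.map some c) = inC c := by
  have h : (iF w).comp (FreeGroup.map some) = (inC : FreeGroup C →* FreeGroup (C ⊕ L)) := by
    refine FreeGroup.ext_hom _ _ fun x => ?_
    rw [MonoidHom.comp_apply, FreeGroup.map.of]
    exact FreeGroup.lift_apply_of.trans FreeGroup.map.of.symm
  rw [← h]
  rfl

end StabCyc

open StabCyc in
theorem stab_cyclic {C L : Type} (w g : FreeGroup (C ⊕ L)) (hg : g ∉ (iF w).range) :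
    ∃ v : FreeGroup C, ∀ k : FreeGroup C, g⁻¹ * inC k * g ∈ (iF w).range →
      ∃ i : ℤ, k = v ^ i := by
  classical
  set U : Subgroup (FreeGroup (C ⊕ L)) := (iF w).range with hU
  let X : Type := FreeGroup (C ⊕ L) ⧸ U
  let o : X := ((1 : FreeGroup (C ⊕ L)) : FreeGroup (C ⊕ L) ⧸ U)
  let x : X := (g : FreeGroup (C ⊕ L) ⧸ U)
  have hsm : ∀ f h : FreeGroup (C ⊕ L),
      f • ((h : FreeGroup (C ⊕ L) ⧸ U) : X) = ((f * h : FreeGroup (C ⊕ L)) : FreeGroup (C ⊕ L) ⧸ U) :=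
    fun f h => rfl
  have heq : ∀ f h : FreeGroup (C ⊕ L), ((f : FreeGroup (C ⊕ L) ⧸ U) : X) = h ↔ f⁻¹ * h ∈ U :=
    fun f h => QuotientGroup.eq
  let O : Set X := {y | ∃ c : FreeGroup C, y = (inC c : FreeGroup (C ⊕ L)) • x}
  have hO : ∀ (c : FreeGroup C) (y : X), y ∈ O ↔ (inC c : FreeGroup (C ⊕ L)) • y ∈ O := by
    intro c y
    constructor
    · rintro ⟨d, rfl⟩
      exact ⟨c * d, by rw [map_mul, mul_smul]⟩
    · rintro ⟨d, hd⟩
      refine ⟨c⁻¹ * d, ?_⟩
      rw [map_mul, mul_smul, ← hd, map_inv, inv_smul_smul]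
  have hCU : ∀ c : FreeGroup C, (inC c : FreeGroup (C ⊕ L)) ∈ U := fun c =>
    ⟨FreeGroup.map some c, iF_map w c⟩
  have hUo : ∀ u ∈ U, u • o = o := by
    intro u hu
    refine (heq (u * 1) 1).2 ?_
    rw [mul_one, mul_one]
    exact U.inv_mem hu
  have hoO : o ∉ O := by
    rintro ⟨c, hc⟩
    have h1 := (heq 1 (inC c * g)).1 hc
    rw [inv_one, one_mul] at h1
    exact hg ((U.mul_mem_cancel_left (hCU c)).1 h1)
  have hxO : x ∈ O := ⟨1, by rw [map_one, one_smul]⟩
  obtain ⟨aw, haw⟩ := act_form O w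
  obtain ⟨ag, hag⟩ := act_form O g
  set b := aw o with hb
  set κ₀ := ag o with hκ
  have hw : ∀ κ, act O w (o, κ) = (o, b * κ) := by
    intro κ
    rw [haw, hUo w ⟨FreeGroup.of none, FreeGroup.lift_apply_of⟩]
  have hgo : ∀ κ, act O g (o, κ) = (x, κ₀ * κ) := by
    intro κ
    rw [hag]
    refine Prod.ext ?_ rfl
    change g • o = x
    refine (hsm g 1).trans ?_
    rw [mul_one]
  have hψ : ∀ v : FreeGroup (Option C), ∃ i : ℤ, ∀ κ, act O (iF w v) (o, κ) = (o, b ^ i * κ) := by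
    intro v
    induction v using FreeGroup.induction_on with
    | C1 => exact ⟨0, fun κ => by rw [map_one, map_one, zpow_zero, one_mul]; rfl⟩
    | of z =>
      rcases z with _ | c
      · refine ⟨1, fun κ => ?_⟩
        have h1 : iF w (FreeGroup.of none) = w := FreeGroup.lift_apply_of
        rw [h1, hw, zpow_one]
      · refine ⟨0, fun κ => ?_⟩
        have h1 : iF w (FreeGroup.of (some c)) = inC (FreeGroup.of c) := by
          rw [← iF_map w, FreeGroup.map.of]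
        rw [h1, (act_inC O hO (FreeGroup.of c)).2 o hoO, hUo _ (hCU _), zpow_zero, one_mul]
    | inv_of z ih =>
      obtain ⟨i, hi⟩ := ih
      refine ⟨-i, fun κ => ?_⟩
      rw [map_inv, map_inv]
      refine inv_apply _ ?_
      rw [hi, ← mul_assoc, ← zpow_add, add_neg_cancel, zpow_zero, one_mul]
    | mul y z hy hz =>
      obtain ⟨i, hi⟩ := hy
      obtain ⟨j, hj⟩ := hz
      refine ⟨i + j, fun κ => ?_⟩
      rw [map_mul, map_mul, Equiv.Perm.mul_apply, hj, hi, ← mul_assoc, ← zpow_add]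
  refine ⟨κ₀ * b * κ₀⁻¹, fun k hk => ?_⟩
  obtain ⟨v, hv⟩ := hk
  obtain ⟨i, hi⟩ := hψ v
  refine ⟨i, ?_⟩
  have h1 : inC k * g = g * iF w v := by
    rw [hv]
    group
  have h2 : act O (inC k * g) (o, 1) = act O (g * iF w v) (o, 1) := by rw [h1]
  rw [map_mul, map_mul, Equiv.Perm.mul_apply, Equiv.Perm.mul_apply, hgo, hi, hgo,
    (act_inC O hO k).1 x hxO, mul_one, mul_one] at h2
  have h3 : k * κ₀ = κ₀ * b ^ i := congrArg Prod.snd h2
  rw [conj_zpow, ← h3, mul_inv_cancel_right]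

end Pool.Agent.MP3f0e40.PL
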