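import Mathlib
import Pool.Agent.Lib.MP_3f0e40_al.PL.CycDefs
import Pool.Agent.Lib.MP_3f0e40_al.PL.StabCyc
import Pool.Agent.Lib.MP_3f0e40_al.PL.HallMal

set_option autoImplicit false

/-!
# MP_3f0e40_al, project PL: M. Hall's theorem when the cyclic subgroups of `F(C)` are closed

This is a variant of `rh_mal` (file `HallMal.lean`, proved; adapt its proof). `F = F(C ∪ L)`, `iF
w` injective, `U = (iF w).range`, `P` a family of normal subgroups of finite index of `F(C)`,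
closed under intersections, for which all cyclic subgroups of `F(C)` are closed (`Cyc P`). Claim:
`RH P w`.

Proof. Let `V` be normal of finite index in `F(C ∪ {none})`, `D₀ ∈ P`, `D₀ ≤ V.comap old`, `T`
finite. Let `V' = iF w (V)`, a subgroup of `F`, let `F` act on `X = F ⧸ V'` by left
multiplication, and `Ω₀ = {u V' : u ∈ U}`, finite (the map `F(C ∪ {none}) ⧸ V → X` is injective
with image `Ω₀`) and invariant under `U`; `o = V'`. `D₀` acts trivially on `Ω₀` (`V` is normal).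
For `x = g V' ∈ X ∖ Ω₀` (`g ∉ U`) the stabiliser `K_x` of `x` in `F(C)` is cyclic: it is contained
in the cyclic group `{k : g⁻¹ k g ∈ U}` (`stab_cyclic`). Let `S ⊆ X` be the finite set of the
points `ℓ_j ⋯ ℓ_1 ω`, `ω ∈ Ω₀`, `0 ≤ j ≤ m`, for a word `w = ℓ_m ⋯ ℓ_1`, and of the corresponding
points of the paths from `o` with label `t ∈ T` (`S ⊇ Ω₀`). Let `R ⊆ S ∖ Ω₀` be representatives of
the `F(C)`-orbits meeting `S ∖ Ω₀`; for `x ∈ S ∖ Ω₀` choose `ρ_x ∈ R`, `k_x ∈ F(C)` with `x = k_x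
ρ_x`. For `x ≠ y` in `S ∖ Ω₀` with `ρ_x = ρ_y = ρ` one has `k_x⁻¹ k_y ∉ K_ρ`. By `Cyc P` (finitely
many conditions, `P` closed under intersections) there is `D ∈ P`, `D ≤ D₀`, with `k_x⁻¹ k_y ∉ K_ρ
D` for all these pairs. Let `Ω = Ω₀ ⊕ (Σ ρ ∈ R, F(C) ⧸ (K_ρ ⊔ D))` with `F(C)` acting on `Ω₀` as
in `X` and on `F(C) ⧸ (K_ρ ⊔ D)` by left multiplication; `D` acts trivially on `Ω` (`D` is normal
and contained in `K_ρ ⊔ D`). The map `ε : S → Ω`, identity on `Ω₀` and `x ↦ (ρ_x, k_x (K_ρ ⊔ D))`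
elsewhere, is injective, and `ε (c x) = c ε(x)` if `c ∈ C` and `x, c x ∈ S` (then `k_{c x}⁻¹ c k_x
∈ K_ρ`). For `z ∈ L` extend the injection `ε x ↦ ε (z x)` (`x, z x ∈ S`) to a permutation of `Ω`.
So `F` acts on `Ω` and paths inside `S` are traced as in `X`; conclude as in `HallMal.lean`: with
`N₁` the kernel of the action, `N = N₁ ⊓ ret⁻¹(D)`, `N ∩ F(C) = D ∈ P`.
-/

namespace Pool.Agent.MP3f0e40.PL

open Pool.Agent.MP3f0e40

namespace HallCyc

/-- A member of the family with finitely many conditions on cyclic subgroups. -/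
theorem avoid {C : Type} {P : Subgroup (FreeGroup C) → Prop} (hP : Fam P) (hcyc : Cyc P)
    (D₀ : Subgroup (FreeGroup C)) (h0 : P D₀) (E : Set (FreeGroup C × FreeGroup C))
    (hE : E.Finite) (h1 : ∀ e ∈ E, ∀ i : ℤ, e.2 ≠ e.1 ^ i) :
    ∃ D, P D ∧ D ≤ D₀ ∧ ∀ e ∈ E, ∀ i : ℤ, e.2 * e.1 ^ (-i) ∉ D := by
  induction E, hE using Set.Finite.induction_on with
  | empty => exact ⟨D₀, h0, le_rfl, fun _ h => h.elim⟩
  | @insert a E _ _ ih =>
    obtain ⟨D, h2, h3, h4⟩ := ih (fun e h => h1 e (Set.mem_insert_of_mem _ h))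
    obtain ⟨D', h5, h6⟩ := hcyc a.1 a.2 (h1 a (Set.mem_insert a E))
    refine ⟨D ⊓ D', hP.inf _ _ h2 h5, inf_le_left.trans h3, fun e he i hD => ?_⟩
    rcases Set.mem_insert_iff.1 he with rfl | he
    · exact h6 i hD.2
    · exact h4 e he i hD.1

theorem sig_eq {I K : Type} [Group K] (H : I → Subgroup K) {i j : I} {a b : K} :
    ((⟨i, (a : K ⧸ H i)⟩ : Σ i, K ⧸ H i) = ⟨j, (b : K ⧸ H j)⟩) ↔ i = j ∧ a⁻¹ * b ∈ H i := by
  constructor
  · intro h
    obtain ⟨h1, h2⟩ := Sigma.mk.inj_iff.1 h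
    subst h1
    exact ⟨rfl, QuotientGroup.eq.1 (eq_of_heq h2)⟩
  · rintro ⟨rfl, h⟩
    exact Sigma.ext rfl (heq_of_eq (QuotientGroup.eq.2 h))

/-- A finite model of a finite part `S` of a set with an action with cyclic stabilisers outside
the invariant subset `Ω₀`. -/
theorem model {K X : Type} [Group K] (α : K →* Equiv.Perm X) (Ω₀ S : Set X) (h0 : Ω₀.Finite)
    (hS : S.Finite) (o : X) (ho : o ∈ Ω₀) (hinv : ∀ k x, x ∈ Ω₀ → α k x ∈ Ω₀)
    (hcyc : ∀ x, x ∉ Ω₀ → ∃ v : K, ∀ k, α k x = x ↔ ∃ i : ℤ, k = v ^ i) :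
    ∃ E : Set (K × K), E.Finite ∧ (∀ e ∈ E, ∀ i : ℤ, e.2 ≠ e.1 ^ i) ∧
      ∀ D : Subgroup K, D.Normal → D.FiniteIndex →
      (∀ e ∈ E, ∀ i : ℤ, e.2 * e.1 ^ (-i) ∉ D) → (∀ d ∈ D, ∀ x ∈ Ω₀, α d x = x) →
      ∃ (Ω : Type) (_ : Finite Ω) (γ : K →* Equiv.Perm Ω) (ε : X → Ω), Set.InjOn ε S ∧
        (∀ d ∈ D, γ d = 1) ∧ ∀ k x, x ∈ S → α k x ∈ S → γ k (ε x) = ε (α k x) := by
  classical
  let ρ : X → X := fun x => (Quotient.mk (orb α) x).out
  have hρ : ∀ x, ∃ k, α k (ρ x) = x := fun x => (orb_iff α _ _).1 (Quotient.out_eq _)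
  choose κ hκ using hρ
  have hρα : ∀ k x, ρ (α k x) = ρ x := fun k x => by
    change (Quotient.mk (orb α) (α k x)).out = (Quotient.mk (orb α) x).out
    rw [orb_act]
  have hρ0 : ∀ x, x ∉ Ω₀ → ρ x ∉ Ω₀ := fun x hx h => hx (by
    rw [← hκ x]
    exact hinv _ _ h)
  -- the stabilisers
  let St : X → Subgroup K := fun r =>
    { carrier := {k | α k r = r}
      one_mem' := by
        change α 1 r = r
        rw [map_one]
        rfl
      mul_mem' := fun {a b} ha hb => by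
        change α (a * b) r = r
        rw [map_mul, Equiv.Perm.mul_apply]
        exact (congrArg (α a) hb).trans ha
      inv_mem' := fun {a} ha => by
        change α a⁻¹ r = r
        rw [map_inv, Equiv.Perm.inv_eq_iff_eq]
        exact ha.symm }
  have hSt : ∀ r k, k ∈ St r ↔ α k r = r := fun r k => Iff.rfl
  have hκα : ∀ k x, (k * κ x)⁻¹ * κ (α k x) ∈ St (ρ x) := by
    intro k x
    have h2 := hκ (α k x)
    rw [hρα] at h2
    rw [hSt, map_mul, Equiv.Perm.mul_apply, h2, map_inv, Equiv.Perm.inv_eq_iff_eq, map_mul,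
      Equiv.Perm.mul_apply, hκ]
  choose! v hv using hcyc
  let E : Set (K × K) := {e | ∃ x ∈ S, ∃ y ∈ S, x ∉ Ω₀ ∧ x ≠ y ∧ ρ x = ρ y ∧
    e = (v (ρ x), (κ x)⁻¹ * κ y)}
  have hEf : E.Finite := by
    refine (Set.Finite.image2 (fun x y => (v (ρ x), (κ x)⁻¹ * κ y)) hS hS).subset ?_
    rintro _ ⟨x, hx, y, hy, _, _, _, rfl⟩
    exact ⟨x, hx, y, hy, rfl⟩
  have hE1 : ∀ e ∈ E, ∀ i : ℤ, e.2 ≠ e.1 ^ i := by
    rintro _ ⟨x, hx, y, hy, hx0, hne, hr, rfl⟩ i hi
    have h1 := (hv (ρ x) (hρ0 x hx0) ((κ x)⁻¹ * κ y)).2 ⟨i, hi⟩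
    rw [map_mul, Equiv.Perm.mul_apply, map_inv, Equiv.Perm.inv_eq_iff_eq, hκ x] at h1
    rw [hr, hκ y] at h1
    exact hne h1.symm
  refine ⟨E, hEf, hE1, fun D hDn hDf hDE hD0 => ?_⟩
  have := h0.to_subtype
  have hR : (ρ '' S).Finite := hS.image ρ
  have := hR.to_subtype
  have hfi : ∀ r, (St r ⊔ D).FiniteIndex := fun r => Subgroup.finiteIndex_of_le le_sup_right
  let H : (ρ '' S : Set X) → Subgroup K := fun r => St r ⊔ D
  have : ∀ r, Finite (K ⧸ H r) := fun r => by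
    have := hfi r
    exact inferInstanceAs (Finite (K ⧸ (St (r : X) ⊔ D)))
  let Ω : Type := Ω₀ ⊕ (Σ r : (ρ '' S : Set X), K ⧸ H r)
  let act : MulAction K Ω :=
    { smul := fun k => Sum.map (fun x => ⟨α k x, hinv k x x.2⟩) (fun p => ⟨p.1, k • p.2⟩)
      one_smul := by
        rintro (⟨x, hx⟩ | ⟨r, q⟩)
        · exact congrArg Sum.inl (Subtype.ext (by
            change α 1 x = x
            rw [map_one]
            rfl))
        · exact congrArg Sum.inr (Sigma.ext rfl (heq_of_eq (one_smul K q)))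
      mul_smul := by
        rintro k l (⟨x, hx⟩ | ⟨r, q⟩)
        · exact congrArg Sum.inl (Subtype.ext (by
            change α (k * l) x = α k (α l x)
            rw [map_mul]
            rfl))
        · exact congrArg Sum.inr (Sigma.ext rfl (heq_of_eq (mul_smul k l q))) }
  let ε : X → Ω := fun x => if hx : x ∈ Ω₀ then Sum.inl ⟨x, hx⟩ else
    if hS : x ∈ S then Sum.inr ⟨⟨ρ x, x, hS, rfl⟩, (κ x : K ⧸ H ⟨ρ x, x, hS, rfl⟩)⟩
    else Sum.inl ⟨o, ho⟩
  have hε0 : ∀ x (hx : x ∈ Ω₀), ε x = Sum.inl ⟨x, hx⟩ := fun x hx => dif_pos hx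
  have hε1 : ∀ x (_ : x ∉ Ω₀) (hS : x ∈ S),
      ε x = Sum.inr ⟨⟨ρ x, x, hS, rfl⟩, (κ x : K ⧸ H ⟨ρ x, x, hS, rfl⟩)⟩ := fun x hx hS => by
    change (if hx : x ∈ Ω₀ then (Sum.inl ⟨x, hx⟩ : Ω) else
      if hS : x ∈ S then Sum.inr ⟨⟨ρ x, x, hS, rfl⟩, (κ x : K ⧸ H ⟨ρ x, x, hS, rfl⟩)⟩
      else Sum.inl ⟨o, ho⟩) = _
    rw [dif_neg hx, dif_pos hS]
  refine ⟨Ω, inferInstance, MulAction.toPermHom K Ω, ε, ?_, ?_, ?_⟩
  · intro x hx y hy hxy
    by_cases h1 : x ∈ Ω₀ <;> by_cases h2 : y ∈ Ω₀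
    · rw [hε0 x h1, hε0 y h2] at hxy
      exact congrArg Subtype.val (Sum.inl.inj hxy)
    · rw [hε0 x h1, hε1 y h2 hy] at hxy
      cases hxy
    · rw [hε1 x h1 hx, hε0 y h2] at hxy
      cases hxy
    · rw [hε1 x h1 hx, hε1 y h2 hy] at hxy
      obtain ⟨h3, h5⟩ := (sig_eq H).1 (Sum.inr.inj hxy)
      have h4 : ρ x = ρ y := congrArg Subtype.val h3
      by_contra hne
      have h6 : (κ x)⁻¹ * κ y ∈ St (ρ x) ⊔ D := h5
      obtain ⟨s, hs, d, hd, hsd⟩ := Subgroup.mem_sup_of_normal_right.1 h6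
      obtain ⟨i, hi⟩ := (hv (ρ x) (hρ0 x h1) s).1 hs
      refine hDE _ ⟨x, hx, y, hy, h1, hne, h4, rfl⟩ i ?_
      change (κ x)⁻¹ * κ y * v (ρ x) ^ (-i) ∈ D
      rw [← hsd, zpow_neg, ← hi]
      exact hDn.conj_mem d hd s
  · intro d hd
    refine Equiv.ext fun ω => ?_
    rcases ω with ⟨x, hx⟩ | ⟨r, q⟩
    · exact congrArg Sum.inl (Subtype.ext (hD0 d hd x hx))
    · refine congrArg Sum.inr (Sigma.ext rfl (heq_of_eq ?_))
      change d • q = q
      induction q using QuotientGroup.induction_on with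
      | H g =>
        rw [MulAction.Quotient.smul_coe, smul_eq_mul, eq_comm, QuotientGroup.eq]
        have h3 : g⁻¹ * (d * g) ∈ D := by
          have := hDn.conj_mem d hd g⁻¹
          rwa [inv_inv, mul_assoc] at this
        exact (le_sup_right : D ≤ St (r : X) ⊔ D) h3
  · intro k x hx hkx
    by_cases h1 : x ∈ Ω₀
    · rw [hε0 x h1, hε0 _ (hinv k x h1)]
      rfl
    · have h2 : α k x ∉ Ω₀ := fun h => h1 (by
        have h3 := hinv k⁻¹ _ h
        have h4 : (α k)⁻¹ (α k x) = x := (α k).symm_apply_apply x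
        rw [map_inv, h4] at h3
        exact h3)
      rw [hε1 x h1 hx, hε1 _ h2 hkx]
      refine congrArg Sum.inr ?_
      refine (sig_eq H (a := k * κ x)).2 ⟨Subtype.ext (hρα k x).symm, ?_⟩
      exact (le_sup_left : St (ρ x) ≤ St (ρ x) ⊔ D) (hκα k x)

/-- A subgroup contained in a cyclic subgroup is cyclic. -/
theorem cyc_sub {K : Type} [Group K] (H : Subgroup K) (v : K) (h : ∀ k ∈ H, ∃ i : ℤ, k = v ^ i) :
    ∃ v' : K, ∀ k, k ∈ H ↔ ∃ i : ℤ, k = v' ^ i := by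
  have h1 : H ≤ Subgroup.zpowers v := fun k hk => by
    obtain ⟨i, hi⟩ := h k hk
    exact Subgroup.mem_zpowers_iff.2 ⟨i, hi.symm⟩
  have h2 : IsCyclic (H.subgroupOf (Subgroup.zpowers v)) := inferInstance
  obtain ⟨⟨⟨a, ha⟩, ha'⟩, hg⟩ := h2.exists_generator
  refine ⟨a, fun k => ⟨fun hk => ?_, ?_⟩⟩
  · obtain ⟨i, hi⟩ := Subgroup.mem_zpowers_iff.1 (hg ⟨⟨k, h1 hk⟩, hk⟩)
    exact ⟨i, (congrArg (fun z => ((z : H.subgroupOf (Subgroup.zpowers v)) :
      Subgroup.zpowers v).1) hi).symm⟩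
  · rintro ⟨i, rfl⟩
    exact H.zpow_mem ha' i

end HallCyc

theorem rh_cyc {C L : Type} (P : Subgroup (FreeGroup C) → Prop) (hP : Fam P) (hcyc : Cyc P)
    (w : FreeGroup (C ⊕ L)) (hinj : Function.Injective (iF w)) : RH P w := by
  classical
  intro V hV hVf ⟨D₀, hD₀, hD₀V⟩ T
  let V' : Subgroup (FreeGroup (C ⊕ L)) := V.map (iF w)
  have hV'U : V' ≤ (iF w).range := Subgroup.map_le_range _ _
  let X : Type := FreeGroup (C ⊕ L) ⧸ V'
  let mk : FreeGroup (C ⊕ L) → X := fun g => (g : FreeGroup (C ⊕ L) ⧸ V')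
  have hmk : ∀ g h, mk g = mk h ↔ g⁻¹ * h ∈ V' := fun g h => QuotientGroup.eq
  have hsm : ∀ g h, g • mk h = mk (g * h) := fun g h => rfl
  let Ω₀ : Set X := Set.range fun u : FreeGroup (Option C) => mk (iF w u)
  have hΩ₀ : ∀ g, mk g ∈ Ω₀ ↔ g ∈ (iF w).range := by
    intro g
    constructor
    · rintro ⟨u, hu⟩
      have h1 : (iF w u)⁻¹ * g ∈ (iF w).range := hV'U ((hmk _ _).1 hu)
      have h2 : (iF w u)⁻¹ ∈ (iF w).range := Subgroup.inv_mem _ (MonoidHom.mem_range.2 ⟨u, rfl⟩)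
      exact (Subgroup.mul_mem_cancel_left _ h2).1 h1
    · rintro ⟨u, rfl⟩
      exact ⟨u, rfl⟩
  have hfin : Ω₀.Finite := by
    have h1 : (Set.range fun q : FreeGroup (Option C) ⧸ V => mk (iF w q.out)).Finite :=
      Set.finite_range _
    refine h1.subset ?_
    rintro _ ⟨u, rfl⟩
    refine ⟨(u : FreeGroup (Option C) ⧸ V), ?_⟩
    refine (hmk _ _).2 ?_
    rw [← map_inv, ← map_mul]
    refine ⟨_, ?_, rfl⟩
    exact QuotientGroup.eq.1 (Quotient.out_eq _)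
  have hU : ∀ u x, x ∈ Ω₀ → iF w u • x ∈ Ω₀ := by
    rintro u _ ⟨v, rfl⟩
    refine ⟨u * v, ?_⟩
    change mk (iF w (u * v)) = iF w u • mk (iF w v)
    rw [map_mul]
    rfl
  let o : X := mk 1
  have ho : o ∈ Ω₀ := ⟨1, congrArg mk (map_one (iF w))⟩
  let α : FreeGroup C →* Equiv.Perm X := (MulAction.toPermHom (FreeGroup (C ⊕ L)) X).comp inC
  have hα : ∀ k x, α k x = (inC k : FreeGroup (C ⊕ L)) • x := fun k x => rfl
  have hinv : ∀ k x, x ∈ Ω₀ → α k x ∈ Ω₀ := by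
    intro k x hx
    rw [hα, ← iF_old w]
    exact hU _ _ hx
  have hst : ∀ x, x ∉ Ω₀ → ∃ v : FreeGroup C, ∀ k, α k x = x ↔ ∃ i : ℤ, k = v ^ i := by
    intro x hx
    obtain ⟨g, rfl⟩ := Quotient.exists_rep x
    obtain ⟨v, hv⟩ := stab_cyclic w g (fun h => hx ((hΩ₀ g).2 h))
    let H : Subgroup (FreeGroup C) :=
      { carrier := {k | α k (mk g) = mk g}
        one_mem' := by
          change α 1 (mk g) = mk g
          rw [map_one]
          rfl
        mul_mem' := fun {a b} ha hb => by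
          change α (a * b) (mk g) = mk g
          rw [map_mul, Equiv.Perm.mul_apply]
          exact (congrArg (α a) hb).trans ha
        inv_mem' := fun {a} ha => by
          change α a⁻¹ (mk g) = mk g
          rw [map_inv, Equiv.Perm.inv_eq_iff_eq]
          exact ha.symm }
    refine HallCyc.cyc_sub H v fun k hk => hv k ?_
    have h1 : mk (inC k * g) = mk g := hk
    have h2 := (hmk _ _).1 h1.symm
    rw [← mul_assoc] at h2
    exact hV'U h2
  -- the finite set `S`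
  let W : Finset (FreeGroup (C ⊕ L)) := insert w (insert 1 T)
  let B : Set (FreeGroup (C ⊕ L)) := ⋃ t ∈ W, {g | ∃ l, l <:+ t.toWord ∧ FreeGroup.mk l = g}
  have hB : B.Finite := by
    refine Set.Finite.biUnion W.finite_toSet fun t _ => ?_
    refine ((t.toWord.tails.map FreeGroup.mk).toFinset.finite_toSet).subset ?_
    rintro _ ⟨l, hl, rfl⟩
    simp only [List.coe_toFinset, List.mem_map, List.mem_tails, Set.mem_ofPred_eq]
    exact ⟨l, hl, rfl⟩
  let S : Set X := Set.image2 (fun g x => g • x) B Ω₀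
  have hS : S.Finite := Set.Finite.image2 _ hB hfin
  have hSB : ∀ t ∈ W, ∀ x ∈ Ω₀, ∀ l, l <:+ t.toWord → FreeGroup.mk l • x ∈ S := by
    intro t ht x hx l hl
    exact ⟨FreeGroup.mk l, Set.mem_biUnion ht ⟨l, hl, rfl⟩, x, hx, rfl⟩
  have h0S : Ω₀ ⊆ S := by
    intro x hx
    have h1 := hSB w (Finset.mem_insert_self _ _) x hx [] List.nil_suffix
    rw [← one_smul (FreeGroup (C ⊕ L)) x]
    exact h1
  have hST : ∀ t ∈ W, ∀ x ∈ Ω₀, t • x ∈ S := by
    intro t ht x hx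
    have h1 := hSB t ht x hx t.toWord (List.suffix_refl _)
    rw [FreeGroup.mk_toWord] at h1
    exact h1
  obtain ⟨E, hE, hE1, hmodel⟩ := HallCyc.model α Ω₀ S hfin hS o ho hinv hst
  obtain ⟨D, hPD, hDD₀, hDE⟩ := HallCyc.avoid hP hcyc D₀ hD₀ E hE hE1
  have hDn := hP.nrm D hPD
  have hDf := hP.fin D hPD
  obtain ⟨Ω, hΩ, γ, ε, hεS, hγD, hγ⟩ := hmodel D hDn hDf hDE (by
    rintro d hd _ ⟨u, rfl⟩
    rw [hα, hsm]
    refine (hmk _ _).2 ?_
    refine ⟨(old d * u)⁻¹ * u, ?_, ?_⟩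
    · have h1 : old d ∈ V := hD₀V (hDD₀ hd)
      have h2 := hV.conj_mem _ (V.inv_mem h1) u⁻¹
      rw [inv_inv] at h2
      rw [mul_inv_rev]
      exact h2
    · rw [map_mul, map_inv, map_mul, iF_old])
  -- the permutations of the other letters
  have hπ : ∀ z : L, ∃ π : Equiv.Perm Ω, ∀ x, x ∈ S → FreeGroup.of (Sum.inr z : C ⊕ L) • x ∈ S →
      π (ε x) = ε (FreeGroup.of (Sum.inr z : C ⊕ L) • x) := by
    intro z
    obtain ⟨π, hπ⟩ := exists_equiv_extend (rfl : Nat.card Ω = Nat.card Ω)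
      (fun x : {x : X // x ∈ S ∧ FreeGroup.of (Sum.inr z : C ⊕ L) • x ∈ S} => ε x)
      (fun x => ε (FreeGroup.of (Sum.inr z : C ⊕ L) • (x : X)))
      (fun x y h => Subtype.ext (hεS x.2.1 y.2.1 h))
      (fun x y h => Subtype.ext (MulAction.injective _ (hεS x.2.2 y.2.2 h)))
    exact ⟨π, fun x hx hx' => hπ ⟨x, hx, hx'⟩⟩
  choose π hπ using hπ
  let β : FreeGroup (C ⊕ L) →* Equiv.Perm Ω :=
    FreeGroup.lift (Sum.elim (fun c => γ (FreeGroup.of c)) π)
  have hβγ : ∀ c, β (inC c) = γ c := by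
    have : β.comp inC = γ := by
      ext1 c
      rw [MonoidHom.comp_apply, inC, FreeGroup.map.of, FreeGroup.lift_apply_of]
      rfl
    exact fun c => DFunLike.congr_fun this c
  have hβ : ∀ z x, x ∈ S → FreeGroup.of z • x ∈ S →
      β (FreeGroup.of z) (ε x) = ε (FreeGroup.of z • x) := by
    rintro (c | z) x hx hx'
    · have h1 : β (FreeGroup.of (Sum.inl c)) = γ (FreeGroup.of c) := FreeGroup.lift_apply_of
      rw [h1]
      exact hγ _ _ hx hx'
    · have h1 : β (FreeGroup.of (Sum.inr z)) = π z := FreeGroup.lift_apply_of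
      rw [h1]
      exact hπ z x hx hx'
  have htr : ∀ t ∈ W, ∀ x ∈ Ω₀, β t (ε x) = ε (t • x) := by
    intro t ht x hx
    have h1 := HallMal.trace β ε S hβ x t.toWord (hSB t ht x hx)
    rw [FreeGroup.mk_toWord] at h1
    exact h1
  have hβU : ∀ u, ∀ x ∈ Ω₀, β (iF w u) (ε x) = ε (iF w u • x) := by
    intro u
    have hof : ∀ a : Option C, ∀ x ∈ Ω₀, β (iF w (FreeGroup.of a)) (ε x) =
        ε (iF w (FreeGroup.of a) • x) := by
      rintro (_ | c) x hx
      · rw [iF_none]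
        exact htr w (Finset.mem_insert_self _ _) x hx
      · have h1 : (FreeGroup.of (some c) : FreeGroup (Option C)) = old (FreeGroup.of c) := by
          rw [old, FreeGroup.map.of]
        rw [h1, iF_old, hβγ]
        exact hγ _ _ (h0S hx) (h0S (hinv _ _ hx))
    induction u using FreeGroup.induction_on with
    | C1 =>
      intro x hx
      rw [map_one, map_one, one_smul]
      rfl
    | of a => exact hof a
    | inv_of a _ =>
      intro x hx
      have h1 := hof a (iF w (FreeGroup.of a)⁻¹ • x) (hU _ _ hx)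
      rw [map_inv, smul_inv_smul] at h1
      rw [map_inv, map_inv, Equiv.Perm.inv_eq_iff_eq, h1]
    | mul a b ha hb =>
      intro x hx
      rw [map_mul, map_mul, Equiv.Perm.mul_apply, hb x hx, ha _ (hU _ _ hx), mul_smul]
  have hker : ∀ c ∈ D, inC c ∈ β.ker := by
    intro c hc
    rw [MonoidHom.mem_ker, hβγ]
    exact hγD c hc
  have hfinker : β.ker.FiniteIndex := by
    have : Finite (Equiv.Perm Ω) := inferInstance
    infer_instance
  refine ⟨β.ker ⊓ D.comap ret, inferInstance, ?_, ?_, ?_, ?_⟩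
  · have := finIdx_comap (ret (L := L)) D
    infer_instance
  · have h1 : (β.ker ⊓ D.comap ret).comap inC = D := by
      ext c
      constructor
      · rintro ⟨_, h2⟩
        have h3 : ret (inC c) ∈ D := h2
        rw [ret_inC] at h3
        exact h3
      · intro hc
        refine ⟨hker c hc, ?_⟩
        change ret (inC c) ∈ D
        rw [ret_inC]
        exact hc
    rw [h1]
    exact hPD
  · rintro u ⟨hu, _⟩
    have h1 : β (iF w u) = 1 := hu
    have h2 := hβU u o ho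
    rw [h1] at h2
    have h3 : o = iF w u • o := hεS (h0S ho) (h0S (hU _ _ ho)) h2
    have h4 : mk 1 = mk (iF w u * 1) := h3
    have h5 := (hmk _ _).1 h4
    rw [inv_one, one_mul, mul_one] at h5
    obtain ⟨v, hv, hvu⟩ := h5
    rw [← hinj hvu]
    exact hv
  · rintro t ht htU u ⟨hu, _⟩
    have htW : t ∈ W := Finset.mem_insert_of_mem (Finset.mem_insert_of_mem ht)
    have h1 : β (t * (iF w u)⁻¹) = 1 := hu
    rw [map_mul, map_inv, mul_inv_eq_one] at h1
    have h2 := htr t htW o ho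
    rw [h1, hβU u o ho] at h2
    have h3 := hεS (h0S (hU _ _ ho)) (hST t htW o ho) h2
    have h4 : mk (t * 1) ∈ Ω₀ := by
      change t • o ∈ Ω₀
      rw [← h3]
      exact hU _ _ ho
    rw [mul_one] at h4
    exact htU ((hΩ₀ t).1 h4)

end Pool.Agent.MP3f0e40.PL
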