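import Mathlib
import Pool.Agent.Lib.MP_3f0e40_al.PL.Fam
import Pool.Agent.Lib.MP_3f0e40_al.Ext
import Pool.Agent.Lib.MP_3f0e40_al.Magnus

set_option autoImplicit false

/-!
# MP_3f0e40_al, project PL: M. Hall's theorem for the subgroup generated by `C` and `w`

`F = F(C ∪ L)`, `iF w` injective, `U = (iF w).range`. Given a normal subgroup `V` of finite index in
`F(C ∪ {none})` and a finite set `T ⊆ F` there is a normal subgroup `N` of finite index in `F` with
`N ∩ U ≤ V` and `t ∉ U N` for all `t ∈ T` outside `U`.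

Proof. Let `V' = iF w (V)`, a subgroup of `F`, and let `F` act on `X = F ⧸ V'` by left
multiplication. `Ω₀ = {u V' : u ∈ U} ⊆ X` is finite (the map `F(C ∪ {none}) ⧸ V → X` is injective,
since `iF w` is injective, with image `Ω₀`), `o = V' ∈ Ω₀`. Let `S ⊆ X` be the finite set of all
points `x' ω` and `t' o`, `ω ∈ Ω₀`, `t ∈ T`, where `x'` runs through the suffixes of a word for `w`
and `t'` through the suffixes of a word for `t` (suffix: for `w = ℓ_m ⋯ ℓ_1` the points
`ℓ_j ⋯ ℓ_1 ω`, `0 ≤ j ≤ m`); `S` contains `Ω₀`. For every letter `z ∈ C ∪ L` the map `x ↦ z x` is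
injective on `{x ∈ S : z x ∈ S}`; extend it to a permutation of the finite set `S`
(`Equiv.extendSubtype`, or `Set.MapsTo.exists_equiv_extend_of_card_eq`; see also
`exists_equiv_extend` in `Pool/Agent/Lib/MP_3f0e40_al/Ext.lean`). This gives an action of `F` on `S`
such that a path inside `S` is traced as in `X`: so `w` acts on `Ω₀` as in `X`, every `c ∈ C`
acts on `Ω₀` as in `X` (`Ω₀` is invariant under `U`), and `t · o` is the point `t V'` of `S`. Let
`N₁` be the kernel of the action. If `iF w u ∈ N₁` then `u` acts trivially on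
`Ω₀ ≅ F(C ∪ {none}) ⧸ V`, so `u ∈ V`. If `t * (iF w u)⁻¹ ∈ N₁`, `t ∈ T`, then
`t o = (iF w u) o ∈ Ω₀`, i.e. `t V' = (iF w u) V'`, so `t ∈ U`. Finally `D₁ = N₁ ∩ F(C)` is normal
of finite index, so by `Full P` it contains some
`D ∈ P`; `N = N₁ ⊓ ret⁻¹(D)` (`ret : F → F(C)` deletes the letters `L`, `ret_inC`) satisfies
`N ∩ F(C) = D₁ ⊓ D = D`.
-/

namespace Pool.Agent.MP3f0e40.PL

open Pool.Agent.MP3f0e40

namespace HallFull

variable {A X : Type} [MulAction (FreeGroup A) X]

/-- Partial actions on finite sets extend. -/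
theorem exists_act (S : Set X) (hS : S.Finite) : ∃ ρ : FreeGroup A →* Equiv.Perm S,
    ∀ (z : A) (x : S) (y : S), FreeGroup.of z • (x : X) = y → ρ (FreeGroup.of z) x = y := by
  classical
  have : Finite S := hS
  have h : ∀ z : A, ∃ π : Equiv.Perm S, ∀ x y : S, FreeGroup.of z • (x : X) = y → π x = y := by
    intro z
    obtain ⟨π, hπ⟩ := exists_equiv_extend (J := {x : S // FreeGroup.of z • (x : X) ∈ S})
      (O := S) (P := S) rfl (fun x => x.1) (fun x => ⟨FreeGroup.of z • (x.1 : X), x.2⟩)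
      Subtype.val_injective (by
        intro x y hxy
        have h1 : FreeGroup.of z • (x.1 : X) = FreeGroup.of z • (y.1 : X) :=
          congrArg Subtype.val hxy
        exact Subtype.ext (Subtype.ext (MulAction.injective _ h1)))
    refine ⟨π, fun x y hxy => ?_⟩
    have h1 := hπ ⟨x, by rw [hxy]; exact y.2⟩
    rw [h1]
    exact Subtype.ext hxy
  choose π hπ using h
  refine ⟨FreeGroup.lift π, fun z x y hxy => ?_⟩
  rw [FreeGroup.lift_apply_of]
  exact hπ z x y hxy

/-- Paths inside `S` are traced. -/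
theorem trace {S : Set X} {ρ : FreeGroup A →* Equiv.Perm S}
    (hρ : ∀ (z : A) (x : S) (y : S), FreeGroup.of z • (x : X) = y → ρ (FreeGroup.of z) x = y)
    (x : S) : ∀ (l : List (A × Bool)), (∀ l', l' <:+ l → FreeGroup.mk l' • (x : X) ∈ S) →
      ((ρ (FreeGroup.mk l) x : S) : X) = FreeGroup.mk l • (x : X) := by
  intro l
  induction l with
  | nil =>
    intro _
    rw [← FreeGroup.one_eq_mk, map_one, one_smul]
    rfl
  | cons a l ih =>
    intro h
    obtain ⟨z, b⟩ := a
    have h1 := ih fun l' hl' => h l' (hl'.trans (List.suffix_cons _ _))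
    have e1 : (FreeGroup.mk ((z, b) :: l) : FreeGroup A) =
        FreeGroup.mk [(z, b)] * FreeGroup.mk l := by
      rw [FreeGroup.mul_mk]
      rfl
    have h2 : FreeGroup.mk ((z, b) :: l) • (x : X) ∈ S := h _ List.suffix_rfl
    rw [e1, map_mul, Equiv.Perm.mul_apply, mul_smul, ← h1]
    rw [e1, mul_smul, ← h1] at h2
    generalize ρ (FreeGroup.mk l) x = y at h2
    cases b with
    | true => exact congrArg Subtype.val (hρ z y ⟨_, h2⟩ rfl)
    | false =>
      have e2 : (FreeGroup.mk [(z, false)] : FreeGroup A) = (FreeGroup.of z)⁻¹ := rfl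
      rw [e2] at h2 ⊢
      have h3 := hρ z ⟨(FreeGroup.of z)⁻¹ • (y : X), h2⟩ y (by
        change FreeGroup.of z • (FreeGroup.of z)⁻¹ • (y : X) = y
        rw [smul_inv_smul])
      rw [map_inv]
      have h4 : (ρ (FreeGroup.of z))⁻¹ y = ⟨(FreeGroup.of z)⁻¹ • (y : X), h2⟩ := by
        rw [Equiv.Perm.inv_eq_iff_eq]
        exact h3.symm
      exact congrArg Subtype.val h4

end HallFull

theorem rh_full {C L : Type} (P : Subgroup (FreeGroup C) → Prop) (hP : Fam P) (hfull : Full P)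
    (w : FreeGroup (C ⊕ L)) (hinj : Function.Injective (iF w)) : RH P w := by
  classical
  intro V hVn hVf _ T
  set V' : Subgroup (FreeGroup (C ⊕ L)) := V.map (iF w) with hV'
  set q : FreeGroup (C ⊕ L) → FreeGroup (C ⊕ L) ⧸ V' := fun g => (g : FreeGroup (C ⊕ L) ⧸ V')
    with hq
  have hsm : ∀ g h : FreeGroup (C ⊕ L), g • q h = q (g * h) := fun g h => rfl
  have hqe : ∀ g h, q g = q h ↔ g⁻¹ * h ∈ V' := fun g h => QuotientGroup.eq
  set Ω : Set (FreeGroup (C ⊕ L) ⧸ V') := Set.range fun u => q (iF w u) with hΩ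
  have hΩf : Ω.Finite := by
    have hfin : Finite (FreeGroup (Option C) ⧸ V) := inferInstance
    have h1 : Ω = Set.range (fun x : FreeGroup (Option C) ⧸ V => Quotient.liftOn' x
        (fun u => q (iF w u)) (by
          intro a b hab
          rw [QuotientGroup.leftRel_apply] at hab
          rw [hqe, ← map_inv, ← map_mul]
          exact ⟨_, hab, rfl⟩)) := by
      ext x
      constructor
      · rintro ⟨u, rfl⟩
        exact ⟨(u : FreeGroup (Option C) ⧸ V), rfl⟩
      · rintro ⟨y, rfl⟩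
        obtain ⟨u, rfl⟩ := QuotientGroup.mk_surjective y
        exact ⟨u, rfl⟩
    rw [h1]
    exact Set.finite_range _
  have hΩ1 : ∀ (u : FreeGroup (Option C)) (x), x ∈ Ω → iF w u • x ∈ Ω := by
    rintro u _ ⟨v, rfl⟩
    refine ⟨u * v, ?_⟩
    change q (iF w (u * v)) = iF w u • q (iF w v)
    rw [hsm, map_mul]
  set S : Set (FreeGroup (C ⊕ L) ⧸ V') :=
    (⋃ l' ∈ {l' | l' <:+ w.toWord}, (fun x => FreeGroup.mk l' • x) '' Ω) ∪
      ⋃ t ∈ T, (fun l' => FreeGroup.mk l' • q 1) '' {l' | l' <:+ t.toWord} with hS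
  have hsuf : ∀ l : List ((C ⊕ L) × Bool), {l' | l' <:+ l}.Finite := by
    intro l
    refine (List.finite_toSet l.tails).subset ?_
    intro l' hl'
    exact (List.mem_tails _ _).2 hl'
  have hSf : S.Finite := by
    refine Set.Finite.union ?_ ?_
    · exact (hsuf _).biUnion fun l' _ => hΩf.image _
    · exact T.finite_toSet.biUnion fun t _ => (hsuf _).image _
  have hSw : ∀ l', l' <:+ w.toWord → ∀ x ∈ Ω, FreeGroup.mk l' • x ∈ S := by
    intro l' hl' x hx
    left
    exact Set.mem_biUnion (show l' ∈ {l' | l' <:+ w.toWord} from hl') ⟨x, hx, rfl⟩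
  have hSt : ∀ t ∈ T, ∀ l', l' <:+ t.toWord → FreeGroup.mk l' • q 1 ∈ S := by
    intro t ht l' hl'
    right
    exact Set.mem_biUnion (show t ∈ (T : Set _) from ht) ⟨l', hl', rfl⟩
  have hΩS : ∀ x ∈ Ω, x ∈ S := by
    intro x hx
    have h1 := hSw [] List.nil_suffix x hx
    rwa [← FreeGroup.one_eq_mk, one_smul] at h1
  obtain ⟨ρ, hρ⟩ := HallFull.exists_act (A := C ⊕ L) S hSf
  have : Finite S := hSf
  have ho : q 1 ∈ Ω := by
    refine ⟨1, ?_⟩
    change q (iF w 1) = q 1
    rw [map_one]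
  have hU : ∀ (u : FreeGroup (Option C)) (x : FreeGroup (C ⊕ L) ⧸ V') (hx : x ∈ Ω),
      ((ρ (iF w u) ⟨x, hΩS x hx⟩ : S) : FreeGroup (C ⊕ L) ⧸ V') = iF w u • x := by
    intro u
    have hof : ∀ o : Option C, ∀ (x : FreeGroup (C ⊕ L) ⧸ V') (hx : x ∈ Ω),
        ((ρ (iF w (FreeGroup.of o)) ⟨x, hΩS x hx⟩ : S) : FreeGroup (C ⊕ L) ⧸ V') =
          iF w (FreeGroup.of o) • x := by
      intro o x hx
      cases o with
      | none =>
        rw [iF_none]
        have h1 := HallFull.trace hρ ⟨x, hΩS x hx⟩ w.toWord (fun l' hl' => hSw l' hl' x hx)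
        rwa [FreeGroup.mk_toWord] at h1
      | some c =>
        have e1 : iF w (FreeGroup.of (some c)) = FreeGroup.of (Sum.inl c) := by
          rw [iF, FreeGroup.lift_apply_of]
          rfl
        have h1 := hΩ1 (FreeGroup.of (some c)) x hx
        rw [e1] at h1 ⊢
        exact congrArg Subtype.val (hρ (Sum.inl c) ⟨x, hΩS x hx⟩
          ⟨FreeGroup.of (Sum.inl c) • x, hΩS _ h1⟩ rfl)
    have hinv : ∀ u : FreeGroup (Option C), (∀ (x : FreeGroup (C ⊕ L) ⧸ V') (hx : x ∈ Ω),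
        ((ρ (iF w u) ⟨x, hΩS x hx⟩ : S) : FreeGroup (C ⊕ L) ⧸ V') = iF w u • x) →
        ∀ (x : FreeGroup (C ⊕ L) ⧸ V') (hx : x ∈ Ω),
        ((ρ (iF w u⁻¹) ⟨x, hΩS x hx⟩ : S) : FreeGroup (C ⊕ L) ⧸ V') = iF w u⁻¹ • x := by
      intro u hu x hx
      have h1 := hΩ1 u⁻¹ x hx
      have h2 := hu _ h1
      have h3 : ρ (iF w u) ⟨iF w u⁻¹ • x, hΩS _ h1⟩ = ⟨x, hΩS x hx⟩ := by
        apply Subtype.ext
        rw [h2, map_inv, smul_inv_smul]
      have h4 : (ρ (iF w u))⁻¹ ⟨x, hΩS x hx⟩ = ⟨iF w u⁻¹ • x, hΩS _ h1⟩ := by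
        rw [Equiv.Perm.inv_eq_iff_eq]
        exact h3.symm
      rw [map_inv (iF w), map_inv ρ]
      refine (congrArg Subtype.val h4).trans ?_
      change iF w u⁻¹ • x = (iF w u)⁻¹ • x
      rw [map_inv]
    induction u using FreeGroup.induction_on with
    | C1 =>
      intro x hx
      rw [map_one, map_one, one_smul]
      rfl
    | of o => exact hof o
    | inv_of o _ => exact hinv _ (hof o)
    | mul a b ha hb =>
      intro x hx
      rw [map_mul, map_mul, mul_smul, Equiv.Perm.mul_apply]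
      have h1 : ρ (iF w b) ⟨x, hΩS x hx⟩ = ⟨iF w b • x, hΩS _ (hΩ1 b x hx)⟩ :=
        Subtype.ext (hb x hx)
      rw [h1]
      exact ha _ (hΩ1 b x hx)
  have hkN : ρ.ker.Normal := inferInstance
  have hkF : ρ.ker.FiniteIndex := by
    have h1 := finIdx_comap ρ (⊥ : Subgroup (Equiv.Perm S))
    rwa [MonoidHom.comap_bot] at h1
  obtain ⟨D, hD, hDle⟩ := hfull (ρ.ker.comap inC) (hkN.comap _) (finIdx_comap _ _)
  have hDn := hP.nrm D hD
  have hDf := hP.fin D hD
  have hcomap : (D.comap (ret (L := L))).comap inC = D := by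
    ext c
    rw [Subgroup.mem_comap, Subgroup.mem_comap, ret_inC]
  have hfi : (D.comap (ret (L := L))).FiniteIndex := finIdx_comap _ _
  have hni : (D.comap (ret (L := L))).Normal := hDn.comap _
  refine ⟨ρ.ker ⊓ D.comap ret, inferInstance, inferInstance, ?_, ?_, ?_⟩
  · rw [Subgroup.comap_inf, hcomap, inf_eq_right.2 hDle]
    exact hD
  · intro u hu
    have h1 : ρ (iF w u) = 1 := hu.1
    have h2 := hU u (q 1) ho
    rw [h1, hsm, mul_one] at h2
    have h3 : q 1 = q (iF w u) := h2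
    rw [hqe, inv_one, one_mul] at h3
    obtain ⟨v, hv, hvu⟩ := h3
    rw [← hinj hvu]
    exact hv
  · intro t ht htU u hu
    have h1 : ρ (t * (iF w u)⁻¹) = 1 := hu.1
    rw [map_mul, map_inv, mul_inv_eq_one] at h1
    have h2 := hU u (q 1) ho
    have h3 := HallFull.trace hρ ⟨q 1, hΩS _ ho⟩ t.toWord (fun l' hl' => hSt t ht l' hl')
    rw [FreeGroup.mk_toWord, h1, h2, hsm, hsm, mul_one, mul_one, hqe] at h3
    apply htU
    obtain ⟨v, -, hv⟩ := h3
    refine ⟨u * v, ?_⟩
    rw [map_mul, hv, mul_inv_cancel_left]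

end Pool.Agent.MP3f0e40.PL
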