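import Mathlib
import Pool.Agent.Lib.MP_3f0e40_al.PL.CycDefs

set_option autoImplicit false

/-!
# MP_3f0e40_al, project PL: unitriangular matrices, Fox derivatives, cocycles
-/

namespace Pool.Agent.MP3f0e40.PL

open Pool.Agent.MP3f0e40

/-- integral unitriangular matrices of size `m + 1` -/
def UT (m : ℕ) : Subgroup (Matrix (Fin (m + 1)) (Fin (m + 1)) ℤ)ˣ where
  carrier := {u | D 0 1 ((u : Matrix (Fin (m + 1)) (Fin (m + 1)) ℤ) - 1) ∧
    D 0 1 (((u⁻¹ : (Matrix (Fin (m + 1)) (Fin (m + 1)) ℤ)ˣ) :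
      Matrix (Fin (m + 1)) (Fin (m + 1)) ℤ) - 1)}
  one_mem' := by
    constructor
    · rw [Units.val_one, sub_self]
      exact D_zero 0 1
    · rw [inv_one, Units.val_one, sub_self]
      exact D_zero 0 1
  mul_mem' := by
    have key : ∀ A B : Matrix (Fin (m + 1)) (Fin (m + 1)) ℤ, D 0 1 (A - 1) → D 0 1 (B - 1) →
        D 0 1 (A * B - 1) := by
      intro A B hA hB
      have h : A * B - 1 = (A - 1) * (B - 1) + ((A - 1) + (B - 1)) := by noncomm_ring
      rw [h]
      exact ((hA.mul hB).mono (by omega)).add (hA.add hB)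
    rintro u v ⟨h1, h2⟩ ⟨h3, h4⟩
    refine ⟨?_, ?_⟩
    · rw [Units.val_mul]
      exact key _ _ h1 h3
    · rw [mul_inv_rev, Units.val_mul]
      exact key _ _ h4 h2
  inv_mem' := by
    rintro u ⟨h1, h2⟩
    exact ⟨h2, by rwa [inv_inv]⟩

/-- the entries -/
def ent {m : ℕ} (Y : UT m) (i j : Fin (m + 1)) : ℤ :=
  ((Y : (Matrix (Fin (m + 1)) (Fin (m + 1)) ℤ)ˣ) : Matrix (Fin (m + 1)) (Fin (m + 1)) ℤ) i j

/-- the polynomial functions in the entries -/
def Pol (m : ℕ) : Subalgebra ℚ (UT m → ℚ) :=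
  Algebra.adjoin ℚ {f | ∃ i j, f = fun Y => (ent Y i j : ℚ)}

/-- the action of the group ring on functions -/
noncomputable def act {Q : Type} [Group Q] (x : Q →₀ ℤ) (f : Q → ℚ) : Q → ℚ :=
  fun Y => x.sum fun q n => (n : ℚ) * f (Y * q)

/-- `x` is the Fox derivative with respect to the letter `a`, with values in the group ring of
`Q`, along `φ` -/
structure Fox {Z Q : Type} [Group Q] (φ : FreeGroup Z →* Q) (a : Z)
    (x : FreeGroup Z → MonoidAlgebra ℤ Q) : Prop where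
  self : x (FreeGroup.of a) = 1
  other : ∀ z, z ≠ a → x (FreeGroup.of z) = 0
  mul : ∀ v w, x (v * w) = x v + MonoidAlgebra.single (φ v) 1 * x w

/-- multiplicative cocycles: `A (v w) (Y) = A v (Y) A w (Y φ(v))` -/
structure Coc {Z Q R : Type} [Group Q] [Monoid R] (φ : FreeGroup Z →* Q)
    (A : FreeGroup Z → Q → R) : Prop where
  one : ∀ Y, A 1 Y = 1
  mul : ∀ v w Y, A (v * w) Y = A v Y * A w (Y * φ v)

/-- the Fox derivative of `r` for some letter of `L` does not vanish over a unitriangular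
group -/
def FoxNe {C L : Type} (r : FreeGroup (C ⊕ L)) : Prop :=
  ∃ (m : ℕ) (φ : FreeGroup (C ⊕ L) →* UT m) (a : L)
    (x : FreeGroup (C ⊕ L) → MonoidAlgebra ℤ (UT m)), Fox φ (Sum.inr a) x ∧ φ r = 1 ∧ x r ≠ 0

/-- the letters `C` are deleted -/
def del {C L : Type} : FreeGroup (C ⊕ L) →* FreeGroup L :=
  FreeGroup.lift (Sum.elim (fun _ => 1) FreeGroup.of)

/-- the congruence quotients of integral unitriangular representations of `F(C)` are defined by
members of the family -/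
def Cong {C : Type} (P : Subgroup (FreeGroup C) → Prop) : Prop :=
  ∀ (k : ℕ) (ρ : FreeGroup C →* Matrix (Fin (k + 1)) (Fin (k + 1)) ℤ),
    (∀ g, D 0 1 (ρ g - 1)) → ∀ n : ℕ, 0 < n →
      ∃ E, P E ∧ ∀ c ∈ E, ∀ i j, (n : ℤ) ∣ (ρ c - 1) i j

end Pool.Agent.MP3f0e40.PL
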