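import Mathlib
import Pool.Agent.Lib.MP_3f0e40_al.PL.NDefs

set_option autoImplicit false

/-!
# MP_3f0e40_al, project PL: the group ring acts surjectively: adjoining one function

`tower_step`: let `V` be a subalgebra of the functions `Q → ℚ`, invariant under right
translations, `π : Q → S` a map such that `f (Y q)` depends only on `Y` and `π q` for `f ∈ V`, and
suppose every `x` with `π_* x ≠ 0` acts surjectively on `V`. Let `y : Q → ℤ` be such that
`v_q(Y) = y (Y q) - y Y` is in `V` for all `q` and `v_{q'} - v_q` is the constant `y q' - y q` if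
`π q = π q'`. Then every `x` with `(π, y)_* x ≠ 0` acts surjectively on `V[y]`.

Proof. Choose for every `σ ∈ π(supp x)` an element `q_σ` with `π q_σ = σ`, and put
`a_q = y q - y q_σ` for `q ∈ supp x`, `π q = σ`, and `m_k(σ) = ∑_{π q = σ} x_q a_q ^ k`. Some
`m_k(σ)` is not zero (otherwise all sums `∑ x_q` over `π q = σ`, `y q = b` vanish: apply the
vanishing of the moments to a polynomial which is `0` at all values `a_q` except one); let `i` be
the least such `k`. For `g ∈ V` and `N ≥ i`,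
`x (g y^N) = ∑_σ (R_{q_σ} g) ∑_k binom(N, k) m_k(σ) (y + v_{q_σ})^(N - k)
= binom(N, i) (x'' g) y^(N - i) + (terms of lower degree in y)`, where `R_q f (Y) = f (Y q)` and
`x'' = ∑_σ m_i(σ) q_σ`, and `π_* x'' ≠ 0`. So given `f = f_n y^n + ⋯` with `f_n ∈ V` choose `g ∈ V`
with `x'' g = f_n / binom(n + i, i)`; then `f - x (g y^(n + i))` has degree `< n` in `y`. Induct on
`n` (the elements of `V[y]` are the sums `∑_{k < n} f_k y^k`, `f_k ∈ V`; no uniqueness of the
coefficients is needed).
-/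

namespace Pool.Agent.MP3f0e40.PL

open Pool.Agent.MP3f0e40

namespace NTower

variable {Q S : Type}

/-- sums of `g * y ^ k`, `g ∈ V`, `k < n` -/
def W (V : Subalgebra ℚ (Q → ℚ)) (z : Q → ℚ) (n : ℕ) : Submodule ℚ (Q → ℚ) :=
  Submodule.span ℚ {f | ∃ k < n, ∃ g ∈ V, f = g * z ^ k}

variable {V : Subalgebra ℚ (Q → ℚ)} {z : Q → ℚ}

theorem W_basic {n k : ℕ} (hk : k < n) {g : Q → ℚ} (hg : g ∈ V) : g * z ^ k ∈ W V z n :=
  Submodule.subset_span ⟨k, hk, g, hg, rfl⟩

theorem W_mono {m n : ℕ} (h : m ≤ n) : W V z m ≤ W V z n := by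
  refine Submodule.span_mono ?_
  rintro f ⟨k, hk, g, hg, rfl⟩
  exact ⟨k, by omega, g, hg, rfl⟩

theorem W_mul {m n : ℕ} {f g : Q → ℚ} (hf : f ∈ W V z m) (hg : g ∈ W V z n) :
    f * g ∈ W V z (m + n) := by
  induction hf using Submodule.span_induction with
  | mem f hf =>
    obtain ⟨k, hk, a, ha, rfl⟩ := hf
    induction hg using Submodule.span_induction with
    | mem g hg =>
      obtain ⟨l, hl, b, hb, rfl⟩ := hg
      have e : a * z ^ k * (b * z ^ l) = a * b * z ^ (k + l) := by ring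
      rw [e]
      exact W_basic (by omega) (mul_mem ha hb)
    | zero => rw [mul_zero]; exact zero_mem _
    | add g h _ _ h1 h2 => rw [mul_add]; exact add_mem h1 h2
    | smul c g _ h1 => rw [mul_smul_comm]; exact Submodule.smul_mem _ c h1
  | zero => rw [zero_mul]; exact zero_mem _
  | add f h _ _ h1 h2 => rw [add_mul]; exact add_mem h1 h2
  | smul c f _ h1 => rw [smul_mul_assoc]; exact Submodule.smul_mem _ c h1

theorem W_zero {f : Q → ℚ} (hf : f ∈ W V z 0) : f = 0 := by
  induction hf using Submodule.span_induction with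
  | mem f hf =>
    obtain ⟨k, hk, -⟩ := hf
    omega
  | zero => rfl
  | add f h _ _ h1 h2 => rw [h1, h2, add_zero]
  | smul c f _ h1 => rw [h1, smul_zero]

theorem W_top {n : ℕ} {f : Q → ℚ} (hf : f ∈ W V z (n + 1)) :
    ∃ c ∈ V, ∃ g ∈ W V z n, f = c * z ^ n + g := by
  induction hf using Submodule.span_induction with
  | mem f hf =>
    obtain ⟨k, hk, a, ha, rfl⟩ := hf
    by_cases h : k = n
    · exact ⟨a, ha, 0, zero_mem _, by rw [h, add_zero]⟩
    · have hk' : k < n := by omega
      exact ⟨0, zero_mem _, _, W_basic hk' ha, by rw [zero_mul, zero_add]⟩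
  | zero => exact ⟨0, zero_mem _, 0, zero_mem _, by rw [zero_mul, zero_add]⟩
  | add f h _ _ h1 h2 =>
    obtain ⟨c, hc, g, hg, rfl⟩ := h1
    obtain ⟨c', hc', g', hg', rfl⟩ := h2
    exact ⟨c + c', add_mem hc hc', g + g', add_mem hg hg', by ring⟩
  | smul a f _ h1 =>
    obtain ⟨c, hc, g, hg, rfl⟩ := h1
    exact ⟨a • c, Subalgebra.smul_mem _ hc a, a • g, Submodule.smul_mem _ a hg, by
      rw [smul_add, smul_mul_assoc]⟩

theorem W_le {n : ℕ} {f : Q → ℚ} (hf : f ∈ W V z n) :
    f ∈ Algebra.adjoin ℚ ((V : Set (Q → ℚ)) ∪ {z}) := by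
  induction hf using Submodule.span_induction with
  | mem f hf =>
    obtain ⟨k, hk, a, ha, rfl⟩ := hf
    have h1 : a ∈ Algebra.adjoin ℚ ((V : Set (Q → ℚ)) ∪ {z}) :=
      Algebra.subset_adjoin (Set.mem_union_left _ ha)
    have h2 : z ∈ Algebra.adjoin ℚ ((V : Set (Q → ℚ)) ∪ {z}) :=
      Algebra.subset_adjoin (Set.mem_union_right _ (Set.mem_singleton z))
    exact mul_mem h1 (pow_mem h2 k)
  | zero => exact zero_mem _
  | add f h _ _ h1 h2 => exact add_mem h1 h2
  | smul a f _ h1 => exact Subalgebra.smul_mem _ h1 a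

theorem le_W {f : Q → ℚ} (hf : f ∈ Algebra.adjoin ℚ ((V : Set (Q → ℚ)) ∪ {z})) :
    ∃ n, f ∈ W V z n := by
  induction hf using Algebra.adjoin_induction with
  | mem f hf =>
    rcases hf with hf | hf
    · refine ⟨1, ?_⟩
      have h := W_basic (V := V) (z := z) (n := 1) (k := 0) (by omega) hf
      rwa [pow_zero, mul_one] at h
    · refine ⟨2, ?_⟩
      have h := W_basic (V := V) (z := z) (n := 2) (k := 1) (by omega) (one_mem V)
      rw [pow_one, one_mul] at h
      rw [Set.mem_singleton_iff.mp hf]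
      exact h
  | algebraMap r =>
    refine ⟨1, ?_⟩
    have h := W_basic (V := V) (z := z) (n := 1) (k := 0) (by omega)
      (Subalgebra.algebraMap_mem V r)
    rwa [pow_zero, mul_one] at h
  | add f g _ _ h1 h2 =>
    obtain ⟨m, hm⟩ := h1
    obtain ⟨n, hn⟩ := h2
    exact ⟨m + n, add_mem (W_mono (by omega) hm) (W_mono (by omega) hn)⟩
  | mul f g _ _ h1 h2 =>
    obtain ⟨m, hm⟩ := h1
    obtain ⟨n, hn⟩ := h2
    exact ⟨m + n, W_mul hm hn⟩

variable [Group Q]

theorem act_add (x : Q →₀ ℤ) (f g : Q → ℚ) : act x (f + g) = act x f + act x g := by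
  funext Y
  simp only [act, Pi.add_apply, mul_add, Finsupp.sum_add]

theorem act_zero (x : Q →₀ ℤ) : act x (0 : Q → ℚ) = 0 := by
  funext Y
  simp only [act, Pi.zero_apply, mul_zero, Finsupp.sum, Finset.sum_const_zero]

theorem zero_act (f : Q → ℚ) : act (0 : Q →₀ ℤ) f = 0 := by
  funext Y
  simp only [act, Finsupp.sum_zero_index, Pi.zero_apply]

/-- the action as a finite sum -/
theorem act_eq (x : Q →₀ ℤ) (f : Q → ℚ) :
    act x f = ∑ q ∈ x.support, (x q : ℚ) • (fun Y => f (Y * q)) := by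
  funext Y
  rw [Finset.sum_apply]
  rfl

theorem act_mem (hV : ∀ f ∈ V, ∀ q, (fun Y => f (Y * q)) ∈ V) (x : Q →₀ ℤ) {f : Q → ℚ}
    (hf : f ∈ V) : act x f ∈ V := by
  rw [act_eq]
  exact sum_mem fun q _ => Subalgebra.smul_mem _ (hV f hf q) _

theorem act_push (x : Q →₀ ℤ) (t : Q → Q) (a : Q → ℤ) (f : Q → ℚ) (Y : Q) :
    act (x.sum fun q n => Finsupp.single (t q) (n * a q)) f Y =
      x.sum fun q n => (n : ℚ) * (a q : ℚ) * f (Y * t q) := by
  unfold act
  rw [Finsupp.sum_sum_index]
  · refine Finsupp.sum_congr fun q _ => ?_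
    rw [Finsupp.sum_single_index]
    · push_cast; ring
    · push_cast; ring
  · intro q; push_cast; ring
  · intro q m n; push_cast; ring

/-- degree of the action on `g * y ^ m` -/
theorem act_top (hV : ∀ f ∈ V, ∀ q, (fun Y => f (Y * q)) ∈ V)
    (hz : ∀ q, (fun Y => z (Y * q) - z Y) ∈ V) (x : Q →₀ ℤ) {g : Q → ℚ} (hg : g ∈ V) (m : ℕ) :
    act x (g * z ^ m) - act x g * z ^ m ∈ W V z m := by
  rw [act_eq, act_eq, Finset.sum_mul, ← Finset.sum_sub_distrib]
  refine sum_mem fun q _ => ?_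
  rw [smul_mul_assoc, ← smul_sub]
  refine Submodule.smul_mem _ _ ?_
  have e : (fun Y => (g * z ^ m) (Y * q)) - (fun Y => g (Y * q)) * z ^ m =
      ∑ j ∈ Finset.range m, ((fun Y => g (Y * q)) * (fun Y => z (Y * q) - z Y) ^ (m - j) *
        (m.choose j : Q → ℚ)) * z ^ j := by
    funext Y
    have h1 : z (Y * q) ^ m = (z Y + (z (Y * q) - z Y)) ^ m := by ring
    simp only [Pi.sub_apply, Pi.mul_apply, Pi.pow_apply, Finset.sum_apply, Pi.natCast_apply]
    rw [h1, add_pow, Finset.sum_range_succ, Nat.sub_self, pow_zero, Nat.choose_self, Nat.cast_one,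
      mul_one, mul_one, mul_add, add_sub_cancel_right, Finset.mul_sum]
    refine Finset.sum_congr rfl fun j _ => ?_
    ring
  rw [e]
  refine sum_mem fun j hj => ?_
  refine W_basic (Finset.mem_range.mp hj) ?_
  exact mul_mem (mul_mem (hV g hg q) (pow_mem (hz q) _)) (natCast_mem V _)

end NTower

open NTower

theorem tower_step {Q S : Type} [Group Q] (V : Subalgebra ℚ (Q → ℚ))
    (hV : ∀ f ∈ V, ∀ q, (fun Y => f (Y * q)) ∈ V) (π : Q → S)
    (hπ : ∀ f ∈ V, ∀ q q', π q = π q' → ∀ Y, f (Y * q) = f (Y * q')) (y : Q → ℤ)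
    (hy : ∀ q, (fun Y => ((y (Y * q) - y Y : ℤ) : ℚ)) ∈ V)
    (hyπ : ∀ q q' Y, π q = π q' → y (Y * q') - y (Y * q) = y q' - y q)
    (H : ∀ x : Q →₀ ℤ, Finsupp.mapDomain π x ≠ 0 → ∀ f ∈ V, ∃ g ∈ V, act x g = f)
    (x : Q →₀ ℤ) (hx : Finsupp.mapDomain (fun q => (π q, y q)) x ≠ 0) (f : Q → ℚ)
    (hf : f ∈ Algebra.adjoin ℚ ((V : Set (Q → ℚ)) ∪ {fun Y => (y Y : ℚ)})) :
    ∃ g ∈ Algebra.adjoin ℚ ((V : Set (Q → ℚ)) ∪ {fun Y => (y Y : ℚ)}), act x g = f := by
  classical
  obtain ⟨z, hzy⟩ : ∃ z : Q → ℚ, z = fun Y => (y Y : ℚ) := ⟨_, rfl⟩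
  rw [← hzy] at hf ⊢
  have hz' : ∀ Y, z Y = (y Y : ℚ) := fun Y => by rw [hzy]
  have hz : ∀ q, (fun Y => z (Y * q) - z Y) ∈ V := by
    intro q
    have h := hy q
    have e : (fun Y => ((y (Y * q) - y Y : ℤ) : ℚ)) = (fun Y => z (Y * q) - z Y) := by
      funext Y
      rw [hz', hz']
      push_cast
      rfl
    rwa [e] at h
  obtain ⟨s, hs⟩ : ∃ s : S → Q, ∀ q, π (s (π q)) = π q :=
    ⟨Function.invFun π, fun q => Function.invFun_eq ⟨q, rfl⟩⟩
  obtain ⟨xk, hxk⟩ : ∃ xk : ℕ → (Q →₀ ℤ), ∀ k, xk k =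
      x.sum fun q n => Finsupp.single (s (π q)) (n * (y q - y (s (π q))) ^ k) := ⟨_, fun _ => rfl⟩
  obtain ⟨M, hM⟩ : ∃ M : ℕ → (S →₀ ℤ), ∀ k, M k =
      x.sum fun q n => Finsupp.single (π q) (n * (y q - y (s (π q))) ^ k) := ⟨_, fun _ => rfl⟩
  have key : ∀ g ∈ V, ∀ N : ℕ, act x (g * z ^ N) =
      ∑ k ∈ Finset.range (N + 1), (N.choose k : ℚ) • act (xk k) (g * z ^ (N - k)) := by
    intro g hg N
    funext Y
    rw [Finset.sum_apply]
    simp only [Pi.smul_apply, smul_eq_mul, hxk, act_push]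
    simp only [act, Finsupp.sum]
    simp_rw [Finset.mul_sum]
    rw [Finset.sum_comm]
    refine Finset.sum_congr rfl fun q _ => ?_
    have h1 : g (Y * q) = g (Y * s (π q)) := hπ g hg _ _ (hs q).symm Y
    have h2 : z (Y * q) = ((y q - y (s (π q)) : ℤ) : ℚ) + z (Y * s (π q)) := by
      rw [hz', hz', ← hyπ (s (π q)) q Y (hs q)]
      push_cast
      ring
    simp only [Pi.mul_apply, Pi.pow_apply]
    rw [h1, h2, add_pow, Finset.mul_sum, Finset.mul_sum]
    refine Finset.sum_congr rfl fun k _ => ?_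
    push_cast
    ring
  have push1 : ∀ k, Finsupp.mapDomain π (xk k) = M k := by
    intro k
    rw [hxk, hM]
    change Finsupp.mapDomain.addMonoidHom π (x.sum _) = _
    rw [map_finsuppSum]
    refine Finsupp.sum_congr fun q _ => ?_
    rw [Finsupp.mapDomain.addMonoidHom_apply, Finsupp.mapDomain_single, hs]
  have push2 : ∀ k, xk k = Finsupp.mapDomain s (M k) := by
    intro k
    rw [hxk, hM]
    change _ = Finsupp.mapDomain.addMonoidHom s (x.sum _)
    rw [map_finsuppSum]
    refine Finsupp.sum_congr fun q _ => ?_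
    rw [Finsupp.mapDomain.addMonoidHom_apply, Finsupp.mapDomain_single]
  have hne : ∃ i, M i ≠ 0 := by
    by_contra hcon
    push Not at hcon
    apply hx
    have hpol : ∀ (σ : S) (p : Polynomial ℤ), (x.sum fun q n =>
        if π q = σ then n * p.eval (y q - y (s (π q))) else 0) = 0 := by
      intro σ p
      have h1 : ∀ k, (x.sum fun q n =>
          if π q = σ then n * (y q - y (s (π q))) ^ k else 0) = 0 := by
        intro k
        have h2 : M k σ = 0 := by rw [hcon k]; rfl
        rw [hM, Finsupp.sum_apply] at h2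
        simpa only [Finsupp.single_apply] using h2
      have h3 : (x.sum fun q n => if π q = σ then n * p.eval (y q - y (s (π q))) else 0) =
          ∑ k ∈ Finset.range (p.natDegree + 1), p.coeff k * (x.sum fun q n =>
            if π q = σ then n * (y q - y (s (π q))) ^ k else 0) := by
        simp only [Finsupp.sum]
        simp_rw [Finset.mul_sum]
        rw [Finset.sum_comm]
        refine Finset.sum_congr rfl fun q _ => ?_
        by_cases hq : π q = σ
        · simp only [hq, if_true]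
          rw [Polynomial.eval_eq_sum_range, Finset.mul_sum]
          refine Finset.sum_congr rfl fun k _ => ?_
          ring
        · simp only [hq, if_false, mul_zero, Finset.sum_const_zero]
      rw [h3]
      simp only [h1, mul_zero, Finset.sum_const_zero]
    ext ⟨σ, b⟩
    rw [Finsupp.mapDomain, Finsupp.sum_apply, Finsupp.zero_apply]
    obtain ⟨A, hA⟩ : ∃ A : Finset ℤ, A =
      (x.support.image fun q => y q - y (s σ)).erase (b - y (s σ)) := ⟨_, rfl⟩
    obtain ⟨p, hp⟩ : ∃ p : Polynomial ℤ, p =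
      ∏ c ∈ A, (Polynomial.X - Polynomial.C c) := ⟨_, rfl⟩
    have hev : ∀ t, p.eval t = ∏ c ∈ A, (t - c) := by
      intro t
      rw [hp, Polynomial.eval_prod]
      refine Finset.prod_congr rfl fun c _ => ?_
      rw [Polynomial.eval_sub, Polynomial.eval_X, Polynomial.eval_C]
    have hb : p.eval (b - y (s σ)) ≠ 0 := by
      rw [hev, Finset.prod_ne_zero_iff]
      intro c hc h0
      rw [hA] at hc
      exact Finset.ne_of_mem_erase hc (sub_eq_zero.mp h0).symm
    have h4 := hpol σ p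
    have h5 : (x.sum fun q n => if π q = σ then n * p.eval (y q - y (s (π q))) else 0) =
        (x.sum fun q n => Finsupp.single (π q, y q) n (σ, b)) * p.eval (b - y (s σ)) := by
      rw [Finsupp.sum, Finsupp.sum, Finset.sum_mul]
      refine Finset.sum_congr rfl fun q hq => ?_
      rw [Finsupp.single_apply]
      by_cases h1 : π q = σ
      · by_cases h2 : y q = b
        · rw [if_pos h1, if_pos (by rw [h1, h2]), h1, h2]
        · rw [if_pos h1, if_neg (fun h => h2 (Prod.ext_iff.mp h).2), zero_mul]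
          have h6 : p.eval (y q - y (s (π q))) = 0 := by
            rw [hev]
            refine Finset.prod_eq_zero (i := y q - y (s (π q))) ?_ (sub_self _)
            rw [hA, h1]
            refine Finset.mem_erase.mpr ⟨fun h => h2 ?_, Finset.mem_image.mpr ⟨q, hq, rfl⟩⟩
            linarith
          rw [h6, mul_zero]
      · rw [if_neg h1, if_neg (fun h => h1 (Prod.ext_iff.mp h).1), zero_mul]
    rw [h5] at h4
    exact (mul_eq_zero.mp h4).resolve_right hb
  obtain ⟨i, hi, hmin⟩ : ∃ i, M i ≠ 0 ∧ ∀ k < i, M k = 0 :=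
    ⟨Nat.find hne, Nat.find_spec hne, fun k hk => not_not.mp (Nat.find_min hne hk)⟩
  have hx0 : ∀ k < i, xk k = 0 := by
    intro k hk
    rw [push2, hmin k hk, Finsupp.mapDomain_zero]
  have main : ∀ n, ∀ f ∈ W V z n, ∃ g, (∃ m, g ∈ W V z m) ∧ act x g = f := by
    intro n
    induction n with
    | zero =>
      intro f hf
      exact ⟨0, ⟨0, zero_mem _⟩, by rw [W_zero hf, act_zero]⟩
    | succ n ih =>
      intro f hf
      obtain ⟨c, hc, f', hf', rfl⟩ := W_top hf
      have hC : ((n + i).choose i : ℚ) ≠ 0 := by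
        exact_mod_cast (Nat.choose_pos (by omega)).ne'
      obtain ⟨g0, hg0, hg0'⟩ := H (xk i) (by rw [push1]; exact hi)
        (((n + i).choose i : ℚ)⁻¹ • c) (Subalgebra.smul_mem _ hc _)
      have e := key g0 hg0 (n + i)
      have hmem : act x (g0 * z ^ (n + i)) - c * z ^ n ∈ W V z n := by
        rw [e, ← Finset.add_sum_erase (Finset.range (n + i + 1)) _
          (Finset.mem_range.mpr (by omega : i < n + i + 1)), add_sub_right_comm,
          Nat.add_sub_cancel]
        refine add_mem ?_ (sum_mem fun k hk => ?_)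
        · have h1 := Submodule.smul_mem _ ((n + i).choose i : ℚ) (act_top hV hz (xk i) hg0 n)
          rw [hg0', smul_sub, smul_mul_assoc, smul_inv_smul₀ hC] at h1
          exact h1
        · refine Submodule.smul_mem _ _ ?_
          have hki : k ≠ i := Finset.ne_of_mem_erase hk
          have hkn : k < n + i + 1 := Finset.mem_range.mp (Finset.mem_of_mem_erase hk)
          rcases lt_or_gt_of_ne hki with h | h
          · rw [hx0 k h, zero_act]
            exact zero_mem _
          · have h1 := act_top hV hz (xk k) hg0 (n + i - k)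
            have h2 : act (xk k) g0 * z ^ (n + i - k) ∈ W V z (n + i - k + 1) :=
              W_basic (by omega) (act_mem hV _ hg0)
            have h3 := add_mem (W_mono (Nat.le_succ _) h1) h2
            rw [sub_add_cancel] at h3
            exact W_mono (by omega) h3
      obtain ⟨g1, ⟨m, hm⟩, hg1⟩ := ih (f' - (act x (g0 * z ^ (n + i)) - c * z ^ n))
        (sub_mem hf' hmem)
      refine ⟨g1 + g0 * z ^ (n + i), ⟨m + (n + i + 1), add_mem (W_mono (by omega) hm)
        (W_basic (by omega) hg0)⟩, ?_⟩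
      rw [act_add, hg1]
      abel
  obtain ⟨n, hn⟩ := le_W hf
  obtain ⟨g, ⟨m, hm⟩, hg⟩ := main n f hn
  exact ⟨g, W_le hm, hg⟩

end Pool.Agent.MP3f0e40.PL
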