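import Mathlib
import Pool.Agent.Lib.MP_3f0e40_al.PL.NTower

set_option autoImplicit false

/-!
# MP_3f0e40_al, project PL: the group ring of a unitriangular group acts surjectively on
# polynomial functions

`pol_shift`: `ent (Y q) i j = ∑_k ent Y i k * ent q k j`; induct on `Algebra.adjoin`.

`surj`: call a finite set `S` of positions `(i, j)`, `i < j`, closed if `(i, j) ∈ S` and
`i < k < j` imply `(i, k) ∈ S` and `(k, j) ∈ S`. Let `V_S` be the algebra generated by the entries
`Y ↦ Y i j`, `(i, j) ∈ S`, and `π_S(q)` the family of the entries of `q` in `S` (say with `0` at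
the positions outside `S`). By `(Y q) i j = Y i j + q i j + ∑_{i < k < j} Y i k q k j` the algebra
`V_S` is invariant under right translations if `S` is closed, and `f (Y q)` depends only on `Y`
and `π_S q` for `f ∈ V_S`. By induction on the number of elements of `S` every `x` with
`(π_S)_* x ≠ 0` acts surjectively on `V_S`: for `S = ∅`, `V_S` are the constants and `x` acts by
the number `∑ x_q ≠ 0`; otherwise remove a position `p = (i, j)` of `S` with `j - i` maximal (`S ∖
{p}` is closed) and use `tower_step` with `V = V_{S ∖ {p}}`, `π = π_{S ∖ {p}}` and `y` the entry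
`p`; `π_S` is a function of `(π, y)`, so `(π_S)_* x ≠ 0` implies `(π, y)_* x ≠ 0`. For `S` the set
of all positions `i < j` the map `π_S` is injective, and `V_S = Pol m` (the other entries are
constants).
-/

namespace Pool.Agent.MP3f0e40.PL

open Pool.Agent.MP3f0e40

namespace NSurj

theorem ent_mul {m : ℕ} (Y q : UT m) (i j : Fin (m + 1)) :
    ent (Y * q) i j = ∑ k, ent Y i k * ent q k j := by
  unfold ent
  rw [Subgroup.coe_mul, Units.val_mul, Matrix.mul_apply]

theorem ent_diag {m : ℕ} (Y : UT m) (i : Fin (m + 1)) : ent Y i i = 1 := by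
  have h := Y.2.1 i i (by omega)
  rw [zero_dvd_iff, Matrix.sub_apply, Matrix.one_apply_eq] at h
  unfold ent
  linarith

theorem ent_low {m : ℕ} (Y : UT m) {i j : Fin (m + 1)} (hij : j < i) : ent Y i j = 0 := by
  have hij' : (j : ℕ) < i := hij
  have h := Y.2.1 i j (by omega)
  rw [zero_dvd_iff, Matrix.sub_apply, Matrix.one_apply_ne hij.ne', sub_zero] at h
  exact h

/-- closed sets of positions -/
def Cl {m : ℕ} (S : Finset (Fin (m + 1) × Fin (m + 1))) : Prop :=
  ∀ i j, (i, j) ∈ S → i < j ∧ ∀ k, i < k → k < j → (i, k) ∈ S ∧ (k, j) ∈ S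

/-- the algebra of the entries in `S` -/
def VS {m : ℕ} (S : Finset (Fin (m + 1) × Fin (m + 1))) : Subalgebra ℚ (UT m → ℚ) :=
  Algebra.adjoin ℚ {f | ∃ p ∈ S, f = fun Y => (ent Y p.1 p.2 : ℚ)}

open Classical in
/-- the entries in `S` -/
noncomputable def pS {m : ℕ} (S : Finset (Fin (m + 1) × Fin (m + 1))) (q : UT m) :
    Fin (m + 1) × Fin (m + 1) → ℤ := fun p => if p ∈ S then ent q p.1 p.2 else 0

theorem pS_eq {m : ℕ} {S : Finset (Fin (m + 1) × Fin (m + 1))} {q q' : UT m}
    (h : pS S q = pS S q') {i j : Fin (m + 1)} (hij : (i, j) ∈ S) : ent q i j = ent q' i j := by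
  have h1 := congrFun h (i, j)
  simp only [pS, if_pos hij] at h1
  exact h1

theorem gen_mem {m : ℕ} {S : Finset (Fin (m + 1) × Fin (m + 1))} {i j : Fin (m + 1)}
    (hij : (i, j) ∈ S) : (fun Y : UT m => (ent Y i j : ℚ)) ∈ VS S :=
  Algebra.subset_adjoin ⟨(i, j), hij, rfl⟩

theorem const_mem {Q : Type} (V : Subalgebra ℚ (Q → ℚ)) (r : ℚ) : (fun _ : Q => r) ∈ V :=
  V.algebraMap_mem r

theorem VS_mono {m : ℕ} {S S' : Finset (Fin (m + 1) × Fin (m + 1))} (h : S' ⊆ S) :
    VS S' ≤ VS S :=
  Algebra.adjoin_mono fun _ ⟨p, hp, hf⟩ => ⟨p, h hp, hf⟩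

/-- right translations of an adjoined algebra -/
theorem shift_gen {Q : Type} [Group Q] (V : Subalgebra ℚ (Q → ℚ)) (T : Set (Q → ℚ)) (q : Q)
    (hT : ∀ f ∈ T, (fun Y => f (Y * q)) ∈ V) (f : Q → ℚ) (hf : f ∈ Algebra.adjoin ℚ T) :
    (fun Y => f (Y * q)) ∈ V := by
  induction hf using Algebra.adjoin_induction with
  | mem f hf => exact hT f hf
  | algebraMap r => exact const_mem V r
  | add f g _ _ hf hg => exact V.add_mem hf hg
  | mul f g _ _ hf hg => exact V.mul_mem hf hg

theorem VS_shift {m : ℕ} {S : Finset (Fin (m + 1) × Fin (m + 1))} (hS : Cl S)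
    (f : UT m → ℚ) (hf : f ∈ VS S) (q : UT m) : (fun Y => f (Y * q)) ∈ VS S := by
  refine shift_gen (VS S) _ q ?_ f hf
  rintro _ ⟨⟨i, j⟩, hij, rfl⟩
  have h1 : (fun Y : UT m => ((ent (Y * q) i j : ℤ) : ℚ)) =
      ∑ k, fun Y : UT m => (ent Y i k : ℚ) * (ent q k j : ℚ) := by
    funext Y
    rw [ent_mul, Finset.sum_apply]
    push_cast
    rfl
  rw [h1]
  refine (VS S).sum_mem fun k _ => ?_
  rcases lt_trichotomy k i with hk | hk | hk
  · have h2 : (fun Y : UT m => (ent Y i k : ℚ) * (ent q k j : ℚ)) = fun _ => 0 := by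
      funext Y
      rw [ent_low Y hk, Int.cast_zero, zero_mul]
    rw [h2]
    exact const_mem _ 0
  · have h2 : (fun Y : UT m => (ent Y i k : ℚ) * (ent q k j : ℚ)) =
        fun _ => (ent q k j : ℚ) := by
      funext Y
      rw [hk, ent_diag Y i, Int.cast_one, one_mul]
    rw [h2]
    exact const_mem _ _
  · rcases lt_trichotomy k j with hkj | hkj | hkj
    · exact (VS S).mul_mem (gen_mem ((hS i j hij).2 k hk hkj).1) (const_mem _ _)
    · rw [hkj]
      exact (VS S).mul_mem (gen_mem hij) (const_mem _ _)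
    · have h2 : (fun Y : UT m => (ent Y i k : ℚ) * (ent q k j : ℚ)) = fun _ => 0 := by
        funext Y
        rw [ent_low q hkj, Int.cast_zero, mul_zero]
      rw [h2]
      exact const_mem _ 0

theorem VS_dep {m : ℕ} {S : Finset (Fin (m + 1) × Fin (m + 1))} (hS : Cl S)
    (f : UT m → ℚ) (hf : f ∈ VS S) (q q' : UT m) (hq : pS S q = pS S q') (Y : UT m) :
    f (Y * q) = f (Y * q') := by
  induction hf using Algebra.adjoin_induction with
  | mem f hf =>
    obtain ⟨⟨i, j⟩, hij, rfl⟩ := hf
    dsimp only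
    rw [ent_mul, ent_mul]
    congr 1
    refine Finset.sum_congr rfl fun k _ => ?_
    rcases lt_trichotomy k i with hk | hk | hk
    · rw [ent_low Y hk, zero_mul, zero_mul]
    · rw [hk, pS_eq hq hij]
    · rcases lt_trichotomy k j with hkj | hkj | hkj
      · rw [pS_eq hq ((hS i j hij).2 k hk hkj).2]
      · rw [hkj, ent_diag q, ent_diag q']
      · rw [ent_low q hkj, ent_low q' hkj]
  | algebraMap r => rfl
  | add f g _ _ hf hg =>
    rw [Pi.add_apply, Pi.add_apply, hf, hg]
  | mul f g _ _ hf hg =>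
    rw [Pi.mul_apply, Pi.mul_apply, hf, hg]

theorem main {m : ℕ} (n : ℕ) : ∀ S : Finset (Fin (m + 1) × Fin (m + 1)), S.card = n → Cl S →
    ∀ x : UT m →₀ ℤ, Finsupp.mapDomain (pS S) x ≠ 0 → ∀ f ∈ VS S, ∃ g ∈ VS S, act x g = f := by
  induction n with
  | zero =>
    intro S hS _ x hx f hf
    rw [Finset.card_eq_zero] at hS
    subst hS
    -- the augmentation is not zero
    have hN : (x.sum fun _ n => n) ≠ 0 := by
      intro h0
      apply hx
      have h1 : (pS (∅ : Finset (Fin (m + 1) × Fin (m + 1))) : UT m → _) = fun _ => 0 := by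
        funext q p
        simp [pS]
      rw [h1, Finsupp.mapDomain]
      have h2 : (x.sum fun _ n => Finsupp.single (0 : Fin (m + 1) × Fin (m + 1) → ℤ) n) =
          Finsupp.single 0 (x.sum fun _ n => n) := by
        rw [Finsupp.sum, Finsupp.sum, Finsupp.single_finsetSum]
      rw [h2, h0, Finsupp.single_zero]
    have h3 : VS (∅ : Finset (Fin (m + 1) × Fin (m + 1))) = ⊥ := by
      have h4 : {f : UT m → ℚ | ∃ p ∈ (∅ : Finset (Fin (m + 1) × Fin (m + 1))),
          f = fun Y => (ent Y p.1 p.2 : ℚ)} = ∅ := by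
        ext f
        simp
      rw [VS, h4, Algebra.adjoin_empty]
    have hf' := hf
    rw [h3, Algebra.mem_bot] at hf'
    obtain ⟨r, rfl⟩ := hf'
    have hNQ : ((x.sum fun _ n => n : ℤ) : ℚ) ≠ 0 := by exact_mod_cast hN
    refine ⟨fun _ => r / ((x.sum fun _ n => n : ℤ) : ℚ), const_mem _ _, ?_⟩
    funext Y
    have h5 : act x (fun _ => r / ((x.sum fun _ n => n : ℤ) : ℚ)) Y =
        ((x.sum fun _ n => n : ℤ) : ℚ) * (r / ((x.sum fun _ n => n : ℤ) : ℚ)) := by
      unfold act
      rw [Finsupp.sum, ← Finset.sum_mul]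
      congr 1
      rw [Finsupp.sum]
      push_cast
      rfl
    rw [h5, mul_div_cancel₀ _ hNQ]
    rfl
  | succ n ih =>
    intro S hSn hS x hx f hf
    have hne : S.Nonempty := by
      rw [← Finset.card_pos, hSn]
      omega
    obtain ⟨p, hp, hmax⟩ := Finset.exists_max_image S
      (fun p => (p.2 : ℕ) - (p.1 : ℕ)) hne
    obtain ⟨i₀, j₀⟩ := p
    dsimp only at hmax
    have hij0 := (hS i₀ j₀ hp).1
    have hS' : Cl (S.erase (i₀, j₀)) := by
      intro i j hij
      have hij' := Finset.mem_of_mem_erase hij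
      refine ⟨(hS i j hij').1, fun k h1 h2 => ?_⟩
      have h3 := hmax (i, j) hij'
      dsimp only at h3
      have h1' : (i : ℕ) < k := h1
      have h2' : (k : ℕ) < j := h2
      have h3' : (i₀ : ℕ) < j₀ := hij0
      have h4 := (hS i j hij').2 k h1 h2
      refine ⟨Finset.mem_erase.2 ⟨?_, h4.1⟩, Finset.mem_erase.2 ⟨?_, h4.2⟩⟩
      · intro h5
        have h6 : i = i₀ := congrArg Prod.fst h5
        have h7 : k = j₀ := congrArg Prod.snd h5
        rw [← h6, ← h7] at h3
        omega
      · intro h5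
        have h6 : k = i₀ := congrArg Prod.fst h5
        have h7 : j = j₀ := congrArg Prod.snd h5
        rw [← h6, ← h7] at h3
        omega
    have hcard : (S.erase (i₀, j₀)).card = n := by
      rw [Finset.card_erase_of_mem hp, hSn]
      rfl
    have hmem : ∀ {i j}, (i, j) ∈ S → (i, j) ≠ (i₀, j₀) → (i, j) ∈ S.erase (i₀, j₀) :=
      fun h h' => Finset.mem_erase.2 ⟨h', h⟩
    have hVeq : Algebra.adjoin ℚ ((VS (S.erase (i₀, j₀)) : Set (UT m → ℚ)) ∪
        {fun Y => (ent Y i₀ j₀ : ℚ)}) = VS S := by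
      refine le_antisymm (Algebra.adjoin_le ?_) (Algebra.adjoin_le ?_)
      · rintro g (hg | hg)
        · exact VS_mono (Finset.erase_subset _ _) hg
        · rw [Set.mem_singleton_iff.1 hg]
          exact gen_mem hp
      · rintro _ ⟨⟨i, j⟩, hij, rfl⟩
        by_cases h : (i, j) = (i₀, j₀)
        · refine Algebra.subset_adjoin (Or.inr ?_)
          rw [Set.mem_singleton_iff]
          rw [Prod.mk.injEq] at h
          rw [h.1, h.2]
        · exact Algebra.subset_adjoin (Or.inl (gen_mem (hmem hij h)))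
    have hstep := tower_step (VS (S.erase (i₀, j₀))) (fun g hg q => VS_shift hS' g hg q)
      (pS (S.erase (i₀, j₀))) (fun g hg q q' h Y => VS_dep hS' g hg q q' h Y)
      (fun q => ent q i₀ j₀) ?_ ?_ (fun x' hx' g hg => ih _ hcard hS' x' hx' g hg) x ?_ f ?_
    · rw [hVeq] at hstep
      exact hstep
    · intro q
      have h1 : (fun Y : UT m => ((ent (Y * q) i₀ j₀ - ent Y i₀ j₀ : ℤ) : ℚ)) =
          ∑ k ∈ Finset.univ.erase j₀, fun Y : UT m => (ent Y i₀ k : ℚ) * (ent q k j₀ : ℚ) := by
        funext Y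
        rw [ent_mul, Finset.sum_apply, ← Finset.sum_erase_add Finset.univ _ (Finset.mem_univ j₀),
          ent_diag q j₀]
        push_cast
        ring
      rw [h1]
      refine Subalgebra.sum_mem _ fun k hk => ?_
      have hkj0 : k ≠ j₀ := (Finset.mem_erase.1 hk).1
      rcases lt_trichotomy k i₀ with hk | hk | hk
      · have h2 : (fun Y : UT m => (ent Y i₀ k : ℚ) * (ent q k j₀ : ℚ)) = fun _ => 0 := by
          funext Y
          rw [ent_low Y hk, Int.cast_zero, zero_mul]
        rw [h2]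
        exact const_mem _ 0
      · have h2 : (fun Y : UT m => (ent Y i₀ k : ℚ) * (ent q k j₀ : ℚ)) =
            fun _ => (ent q k j₀ : ℚ) := by
          funext Y
          rw [hk, ent_diag Y i₀, Int.cast_one, one_mul]
        rw [h2]
        exact const_mem _ _
      · rcases lt_trichotomy k j₀ with hkj | hkj | hkj
        · refine Subalgebra.mul_mem _ (gen_mem (hmem ((hS i₀ j₀ hp).2 k hk hkj).1 ?_))
            (const_mem _ _)
          intro h5
          exact hkj0 (congrArg Prod.snd h5)
        · exact absurd hkj hkj0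
        · have h2 : (fun Y : UT m => (ent Y i₀ k : ℚ) * (ent q k j₀ : ℚ)) = fun _ => 0 := by
            funext Y
            rw [ent_low q hkj, Int.cast_zero, mul_zero]
          rw [h2]
          exact const_mem _ 0
    · intro q q' Y hq
      rw [ent_mul, ent_mul, ← Finset.sum_sub_distrib, Finset.sum_eq_single i₀]
      · rw [ent_diag Y i₀]
        ring
      · intro k _ hki
        rw [← mul_sub]
        rcases lt_trichotomy k i₀ with hk | hk | hk
        · rw [ent_low Y hk, zero_mul]
        · exact absurd hk hki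
        · rcases lt_trichotomy k j₀ with hkj | hkj | hkj
          · rw [pS_eq hq (hmem ((hS i₀ j₀ hp).2 k hk hkj).2
              (fun h5 => hki (congrArg Prod.fst h5))), sub_self, mul_zero]
          · rw [hkj, ent_diag q, ent_diag q', sub_self, mul_zero]
          · rw [ent_low q hkj, ent_low q' hkj, sub_self, mul_zero]
      · intro h
        exact absurd (Finset.mem_univ i₀) h
    · classical
      intro h0
      apply hx
      have h1 : (pS S : UT m → _) = (fun z : (Fin (m + 1) × Fin (m + 1) → ℤ) × ℤ =>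
          fun p' => if p' = (i₀, j₀) then z.2 else z.1 p') ∘
          (fun q => (pS (S.erase (i₀, j₀)) q, ent q i₀ j₀)) := by
        funext q p'
        simp only [Function.comp_apply, pS, Finset.mem_erase]
        by_cases h2 : p' = (i₀, j₀)
        · rw [if_pos h2, h2, if_pos hp]
        · rw [if_neg h2]
          by_cases h3 : p' ∈ S
          · rw [if_pos h3, if_pos ⟨h2, h3⟩]
          · rw [if_neg h3, if_neg (fun h => h3 h.2)]
      rw [h1, Finsupp.mapDomain_comp, h0, Finsupp.mapDomain_zero]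
    · rw [hVeq]
      exact hf

end NSurj

theorem pol_shift {m : ℕ} (f : UT m → ℚ) (hf : f ∈ Pol m) (q : UT m) :
    (fun Y => f (Y * q)) ∈ Pol m := by
  refine NSurj.shift_gen (Pol m) _ q ?_ f hf
  rintro _ ⟨i, j, rfl⟩
  have h1 : (fun Y : UT m => ((ent (Y * q) i j : ℤ) : ℚ)) =
      ∑ k, fun Y : UT m => (ent Y i k : ℚ) * (ent q k j : ℚ) := by
    funext Y
    rw [NSurj.ent_mul, Finset.sum_apply]
    push_cast
    rfl
  rw [h1]
  exact (Pol m).sum_mem fun k _ => (Pol m).mul_mem (Algebra.subset_adjoin ⟨i, k, rfl⟩)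
    (NSurj.const_mem _ _)

theorem surj {m : ℕ} (x : UT m →₀ ℤ) (hx : x ≠ 0) (f : UT m → ℚ) (hf : f ∈ Pol m) :
    ∃ g ∈ Pol m, act x g = f := by
  classical
  let S : Finset (Fin (m + 1) × Fin (m + 1)) := Finset.univ.filter fun p => p.1 < p.2
  have hSm : ∀ i j, (i, j) ∈ S ↔ i < j := by
    intro i j
    simp [S]
  have hS : NSurj.Cl S := by
    intro i j hij
    exact ⟨(hSm i j).1 hij, fun k h1 h2 => ⟨(hSm i k).2 h1, (hSm k j).2 h2⟩⟩
  have hV : NSurj.VS S = Pol m := by
    refine le_antisymm (Algebra.adjoin_le ?_) (Algebra.adjoin_le ?_)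
    · rintro _ ⟨⟨i, j⟩, -, rfl⟩
      exact Algebra.subset_adjoin ⟨i, j, rfl⟩
    · rintro _ ⟨i, j, rfl⟩
      rcases lt_trichotomy i j with h | h | h
      · exact NSurj.gen_mem ((hSm i j).2 h)
      · have h2 : (fun Y : UT m => (ent Y i j : ℚ)) = fun _ => 1 := by
          funext Y
          rw [h, NSurj.ent_diag Y j, Int.cast_one]
        rw [h2]
        exact NSurj.const_mem _ 1
      · have h2 : (fun Y : UT m => (ent Y i j : ℚ)) = fun _ => 0 := by
          funext Y
          rw [NSurj.ent_low Y h, Int.cast_zero]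
        rw [h2]
        exact NSurj.const_mem _ 0
  have hinj : Function.Injective (NSurj.pS S : UT m → _) := by
    intro q q' hq
    refine Subtype.ext (Units.ext (Matrix.ext fun i j => ?_))
    change ent q i j = ent q' i j
    rcases lt_trichotomy i j with h | h | h
    · exact NSurj.pS_eq hq ((hSm i j).2 h)
    · rw [h, NSurj.ent_diag q, NSurj.ent_diag q']
    · rw [NSurj.ent_low q h, NSurj.ent_low q' h]
  have hx' : Finsupp.mapDomain (NSurj.pS S) x ≠ 0 := by
    intro h
    apply hx
    apply Finsupp.mapDomain_injective hinj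
    rw [h, Finsupp.mapDomain_zero]
  rw [← hV] at hf ⊢
  exact NSurj.main S.card S rfl hS x hx' f hf

end Pool.Agent.MP3f0e40.PL
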