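import Mathlib
import Pool.Agent.Lib.MP_3f0e40_al.PL.NSurj

set_option autoImplicit false

/-!
# MP_3f0e40_al, project PL: polynomial functions with rational coefficients

`pol_int`: `Algebra.adjoin_induction`; for `f + f'` and `f f'` take the products of the `M`, the
functions `M' F + M F'` and `F F'`; for a constant its denominator and numerator.

`pol_int_fin`: take the product of the `M` of the finitely many functions.

`ut_quot`: `Q` is the quotient of `UT m` by the kernel of the reduction modulo `n` (to the units of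
`Matrix (Fin (m + 1)) (Fin (m + 1)) (ZMod n)`), or the range of this homomorphism.
-/

namespace Pool.Agent.MP3f0e40.PL

open Pool.Agent.MP3f0e40

theorem pol_int {m : ℕ} (f : UT m → ℚ) (hf : f ∈ Pol m) :
    ∃ (M : ℕ) (F : UT m → ℤ), 0 < M ∧ (∀ Y, (M : ℚ) * f Y = F Y) ∧
      ∀ (n : ℤ) (Y Y' : UT m), (∀ i j, n ∣ ent Y i j - ent Y' i j) → n ∣ F Y - F Y' := by
  induction hf using Algebra.adjoin_induction with
  | mem f hf =>
    obtain ⟨i, j, rfl⟩ := hf
    refine ⟨1, fun Y => ent Y i j, one_pos, fun Y => by push_cast; ring, fun n Y Y' h => h i j⟩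
  | algebraMap r =>
    refine ⟨r.den, fun _ => r.num, r.den_pos, fun Y => ?_, fun n Y Y' _ => by simp⟩
    change (r.den : ℚ) * r = r.num
    rw [mul_comm]
    exact Rat.mul_den_eq_num r
  | add f g _ _ hf hg =>
    obtain ⟨M, F, hM, hF, hF'⟩ := hf
    obtain ⟨M', G, hM', hG, hG'⟩ := hg
    refine ⟨M * M', fun Y => M' * F Y + M * G Y, Nat.mul_pos hM hM', fun Y => ?_,
      fun n Y Y' h => ?_⟩
    · push_cast
      rw [← hF Y, ← hG Y, Pi.add_apply]
      ring
    · have e : (M' * F Y + M * G Y : ℤ) - (M' * F Y' + M * G Y') =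
          M' * (F Y - F Y') + M * (G Y - G Y') := by ring
      rw [e]
      exact dvd_add (Dvd.dvd.mul_left (hF' n Y Y' h) _) (Dvd.dvd.mul_left (hG' n Y Y' h) _)
  | mul f g _ _ hf hg =>
    obtain ⟨M, F, hM, hF, hF'⟩ := hf
    obtain ⟨M', G, hM', hG, hG'⟩ := hg
    refine ⟨M * M', fun Y => F Y * G Y, Nat.mul_pos hM hM', fun Y => ?_,
      fun n Y Y' h => ?_⟩
    · push_cast
      rw [← hF Y, ← hG Y, Pi.mul_apply]
      ring
    · have e : (F Y * G Y : ℤ) - F Y' * G Y' =
          F Y * (G Y - G Y') + G Y' * (F Y - F Y') := by ring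
      rw [e]
      exact dvd_add (Dvd.dvd.mul_left (hG' n Y Y' h) _) (Dvd.dvd.mul_left (hF' n Y Y' h) _)

/-- a common denominator -/
theorem pol_int_fin {m : ℕ} {ι : Type} [Finite ι] (f : ι → UT m → ℚ) (hf : ∀ i, f i ∈ Pol m) :
    ∃ (M : ℕ) (F : ι → UT m → ℤ), 0 < M ∧ (∀ i Y, (M : ℚ) * f i Y = F i Y) ∧
      ∀ i (n : ℤ) (Y Y' : UT m), (∀ p q, n ∣ ent Y p q - ent Y' p q) → n ∣ F i Y - F i Y' := by
  classical
  have := Fintype.ofFinite ι
  choose M F hM hF hF' using fun i => pol_int (f i) (hf i)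
  refine ⟨∏ i, M i, fun i Y => (∏ j ∈ Finset.univ.erase i, M j : ℕ) * F i Y,
    Finset.prod_pos fun i _ => hM i, fun i Y => ?_, fun i n Y Y' h => ?_⟩
  · rw [← Finset.prod_erase_mul _ _ (Finset.mem_univ i)]
    push_cast
    rw [← hF i Y]
    ring
  · rw [← mul_sub]
    exact Dvd.dvd.mul_left (hF' i n Y Y' h) _

/-- the congruence quotients of the unitriangular group -/
theorem ut_quot (m n : ℕ) (hn : 0 < n) : ∃ (Q : Type) (_ : Group Q) (_ : Finite Q)
    (π : UT m →* Q), Function.Surjective π ∧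
      ∀ Y Y' : UT m, π Y = π Y' ↔ ∀ i j, (n : ℤ) ∣ ent Y i j - ent Y' i j := by
  have : NeZero n := ⟨hn.ne'⟩
  let φ : UT m →* (Matrix (Fin (m + 1)) (Fin (m + 1)) (ZMod n))ˣ :=
    (Units.map ((Int.castRingHom (ZMod n)).mapMatrix :
      Matrix (Fin (m + 1)) (Fin (m + 1)) ℤ →+* _).toMonoidHom).comp (UT m).subtype
  have : Finite (Matrix (Fin (m + 1)) (Fin (m + 1)) (ZMod n))ˣ := by
    have : Finite (Matrix (Fin (m + 1)) (Fin (m + 1)) (ZMod n)) :=
      inferInstanceAs (Finite (Fin (m + 1) → Fin (m + 1) → ZMod n))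
    exact Finite.of_injective _ Units.val_injective
  refine ⟨φ.range, inferInstance, inferInstance, φ.rangeRestrict, φ.rangeRestrict_surjective,
    fun Y Y' => ?_⟩
  have h1 : φ.rangeRestrict Y = φ.rangeRestrict Y' ↔ φ Y = φ Y' := by
    rw [Subtype.ext_iff]
    rfl
  rw [h1, Units.ext_iff, ← Matrix.ext_iff]
  refine forall_congr' fun i => forall_congr' fun j => ?_
  change ((ent Y i j : ℤ) : ZMod n) = ((ent Y' i j : ℤ) : ZMod n) ↔ _
  rw [ZMod.intCast_eq_intCast_iff_dvd_sub, ← dvd_neg, neg_sub]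

end Pool.Agent.MP3f0e40.PL
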