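import Mathlib
import Pool.Agent.Lib.MP_3f0e40_al.PL.NDefs

set_option autoImplicit false

/-!
# MP_3f0e40_al, project PL: existence and uniqueness of Fox derivatives and cocycles

Definitions: `Fox`, `Coc` in `NDefs.lean`.

`exists_crossed`: the homomorphism of the free group to the semidirect product of `Multiplicative
M` with `Q`, `z ↦ (d₀ z, φ z)`; `d w` is the first component.

`exists_fox`: `exists_crossed` for `M` the group ring with `Q` acting by `q • x = single q 1 * x`;
or: the homomorphism of the free group to the units of the `2 × 2` matrices over the group ring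
with `z ↦ !![single (φ z) 1, δ; 0, 1]`, `δ = 1` for `z = a` and `0` otherwise; `x w` is the upper
right entry.

`exists_coc`: the homomorphism of the free group to the semidirect product of the group
`Q → Rˣ` with `Q` acting by `(q • f) Y = f (Y * q)`, `z ↦ (B z, φ z)`. `A w` is the first
component.

`Coc.unique`: `A w Y` is invertible with inverse `A w⁻¹ (Y φ(w))`, so the values at inverses of
letters are determined by the values at letters.

`coc_ker`: `w ↦ ((Y, u) ↦ (Y φ(w), u A_w(Y)))` is an action from the right of the free group on the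
finite set `Q × R` (a homomorphism to the opposite group of `Equiv.Perm (Q × R)`; or use `w⁻¹`),
the given set is its kernel (take `u = 1`).
-/

namespace Pool.Agent.MP3f0e40.PL

open Pool.Agent.MP3f0e40

/-- crossed homomorphisms for an action given by endomorphisms -/
theorem NCoc.crossed {Z Q M : Type} [Group Q] [AddCommGroup M] (T : Q →* AddMonoid.End M)
    (φ : FreeGroup Z →* Q) (d₀ : Z → M) : ∃ d : FreeGroup Z → M,
      (∀ z, d (FreeGroup.of z) = d₀ z) ∧ ∀ v w, d (v * w) = d v + T (φ v) (d w) := by
  have hTm : ∀ (q q' : Q) (m : M), T (q * q') m = T q (T q' m) := by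
    intro q q' m
    rw [map_mul]
    rfl
  have hT1 : ∀ (q : Q) (m : M), T q⁻¹ (T q m) = m := by
    intro q m
    rw [← hTm, inv_mul_cancel, map_one]
    rfl
  have hT2 : ∀ (q : Q) (m : M), T q (T q⁻¹ m) = m := by
    intro q m
    rw [← hTm, mul_inv_cancel, map_one]
    rfl
  have hP : ∀ (e : Equiv.Perm M) (m : M), e (e⁻¹ m) = m := by
    intro e m
    rw [← Equiv.Perm.mul_apply, mul_inv_cancel]
    rfl
  let P : Z → Equiv.Perm M := fun z =>
    { toFun := fun m => d₀ z + T (φ (FreeGroup.of z)) m
      invFun := fun m => T (φ (FreeGroup.of z))⁻¹ (m - d₀ z)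
      left_inv := fun m => by
        change T (φ (FreeGroup.of z))⁻¹ (d₀ z + T (φ (FreeGroup.of z)) m - d₀ z) = m
        rw [add_sub_cancel_left, hT1]
      right_inv := fun m => by
        change d₀ z + T (φ (FreeGroup.of z)) (T (φ (FreeGroup.of z))⁻¹ (m - d₀ z)) = m
        rw [hT2, add_sub_cancel] }
  have key : ∀ (w : FreeGroup Z) (m : M),
      FreeGroup.lift P w m = FreeGroup.lift P w 0 + T (φ w) m := by
    intro w
    induction w using FreeGroup.induction_on with
    | C1 =>
      intro m
      rw [map_one, map_one, map_one]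
      change m = 0 + m
      rw [zero_add]
    | of z =>
      intro m
      rw [FreeGroup.lift_apply_of]
      change d₀ z + T (φ (FreeGroup.of z)) m = d₀ z + T (φ (FreeGroup.of z)) 0 +
        T (φ (FreeGroup.of z)) m
      rw [map_zero, add_zero]
    | inv_of z hz =>
      intro m
      rw [map_inv, Equiv.Perm.inv_eq_iff_eq, hz, map_add, ← add_assoc, ← hz, map_inv, hT2, hP,
        zero_add]
    | mul v w hv hw =>
      intro m
      rw [map_mul, Equiv.Perm.mul_apply, Equiv.Perm.mul_apply, hw m, hv, hv (FreeGroup.lift P w 0),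
        map_add, map_mul, hTm, add_assoc]
  refine ⟨fun w => FreeGroup.lift P w 0, fun z => ?_, fun v w => ?_⟩
  · change FreeGroup.lift P (FreeGroup.of z) 0 = d₀ z
    rw [FreeGroup.lift_apply_of]
    change d₀ z + T (φ (FreeGroup.of z)) 0 = d₀ z
    rw [map_zero, add_zero]
  · change FreeGroup.lift P (v * w) 0 = _
    rw [map_mul, Equiv.Perm.mul_apply, key v]

theorem exists_crossed {Z Q M : Type} [Group Q] [AddCommGroup M] [DistribMulAction Q M]
    (φ : FreeGroup Z →* Q) (d₀ : Z → M) : ∃ d : FreeGroup Z → M,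
      (∀ z, d (FreeGroup.of z) = d₀ z) ∧ ∀ v w, d (v * w) = d v + φ v • d w := by
  exact NCoc.crossed (DistribMulAction.toAddMonoidEnd Q M) φ d₀

theorem exists_fox {Z Q : Type} [Group Q] (φ : FreeGroup Z →* Q) (a : Z) :
    ∃ x : FreeGroup Z → MonoidAlgebra ℤ Q, Fox φ a x := by
  classical
  let T : Q →* AddMonoid.End (MonoidAlgebra ℤ Q) :=
    { toFun := fun q => AddMonoidHom.mulLeft (MonoidAlgebra.single q (1 : ℤ))
      map_one' := by
        ext1 x
        change MonoidAlgebra.single (1 : Q) (1 : ℤ) * x = x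
        rw [← MonoidAlgebra.one_def, one_mul]
      map_mul' := fun q q' => by
        ext1 x
        change MonoidAlgebra.single (q * q') (1 : ℤ) * x =
          MonoidAlgebra.single q (1 : ℤ) * (MonoidAlgebra.single q' (1 : ℤ) * x)
        rw [← mul_assoc, MonoidAlgebra.single_mul_single, one_mul] }
  obtain ⟨d, h1, h2⟩ := NCoc.crossed T φ (fun z => if z = a then 1 else 0)
  refine ⟨d, ?_, fun z hz => ?_, h2⟩
  · rw [h1, if_pos rfl]
  · rw [h1, if_neg hz]

theorem exists_coc {Z Q R : Type} [Group Q] [Monoid R] (φ : FreeGroup Z →* Q)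
    (B : Z → Q → Rˣ) : ∃ A : FreeGroup Z → Q → R, Coc φ A ∧
      ∀ z Y, A (FreeGroup.of z) Y = B z Y := by
  let θ : Q →* MulAut (Q → Rˣ) :=
    { toFun := fun q =>
        { toFun := fun f Y => f (Y * q)
          invFun := fun f Y => f (Y * q⁻¹)
          left_inv := fun f => by
            funext Y
            change f (Y * q⁻¹ * q) = f Y
            rw [inv_mul_cancel_right]
          right_inv := fun f => by
            funext Y
            change f (Y * q * q⁻¹) = f Y
            rw [mul_inv_cancel_right]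
          map_mul' := fun f g => rfl }
      map_one' := by
        ext f Y
        change (f (Y * 1) : R) = f Y
        rw [mul_one]
      map_mul' := fun q q' => by
        ext f Y
        change (f (Y * (q * q')) : R) = f (Y * q * q')
        rw [mul_assoc] }
  let Φ : FreeGroup Z →* (Q → Rˣ) ⋊[θ] Q :=
    FreeGroup.lift fun z => ⟨B z, φ (FreeGroup.of z)⟩
  have hr : ∀ w, (Φ w).right = φ w := by
    intro w
    have : (SemidirectProduct.rightHom).comp Φ = φ := by
      ext z
      simp [Φ]
    exact DFunLike.congr_fun this w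
  refine ⟨fun w Y => ((Φ w).left Y : R), ⟨fun Y => ?_, fun v w Y => ?_⟩, fun z Y => ?_⟩
  · rw [map_one]
    rfl
  · rw [map_mul, SemidirectProduct.mul_left, Pi.mul_apply, Units.val_mul, hr]
    rfl
  · simp [Φ]

theorem Coc.unique {Z Q R : Type} [Group Q] [Monoid R] {φ : FreeGroup Z →* Q}
    {A A' : FreeGroup Z → Q → R} (hA : Coc φ A) (hA' : Coc φ A')
    (h : ∀ z Y, A (FreeGroup.of z) Y = A' (FreeGroup.of z) Y) : A = A' := by
  funext w
  induction w using FreeGroup.induction_on with
  | C1 =>
    funext Y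
    rw [hA.one, hA'.one]
  | of z =>
    funext Y
    exact h z Y
  | inv_of z hz =>
    funext Y
    have e1 : A (FreeGroup.of z)⁻¹ Y * A (FreeGroup.of z) (Y * φ (FreeGroup.of z)⁻¹) = 1 := by
      rw [← hA.mul, inv_mul_cancel, hA.one]
    have e2 : A' (FreeGroup.of z) (Y * φ (FreeGroup.of z)⁻¹) * A' (FreeGroup.of z)⁻¹ Y = 1 := by
      have h1 := hA'.mul (FreeGroup.of z) (FreeGroup.of z)⁻¹ (Y * φ (FreeGroup.of z)⁻¹)
      rw [mul_inv_cancel, hA'.one, map_inv, inv_mul_cancel_right] at h1
      rw [map_inv]
      exact h1.symm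
    rw [← h z] at e2
    exact left_inv_eq_right_inv e1 e2
  | mul v w hv hw =>
    funext Y
    rw [hA.mul, hA'.mul, hv, hw]

theorem coc_ker {Z Q R : Type} [Group Q] [Monoid R] [Finite Q] [Finite R]
    {φ : FreeGroup Z →* Q} {A : FreeGroup Z → Q → R} (hA : Coc φ A) :
    ∃ N : Subgroup (FreeGroup Z), N.Normal ∧ N.FiniteIndex ∧
      ∀ w, w ∈ N ↔ φ w = 1 ∧ ∀ Y, A w Y = 1 := by
  have hcomp : ∀ (v w : FreeGroup Z) (x : Q × R),
      ((x.1 * φ v * φ w, x.2 * A v x.1 * A w (x.1 * φ v)) : Q × R) =
        (x.1 * φ (v * w), x.2 * A (v * w) x.1) := by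
    intro v w x
    rw [hA.mul, map_mul, mul_assoc, mul_assoc]
  have hone : ∀ x : Q × R, ((x.1 * φ 1, x.2 * A 1 x.1) : Q × R) = x := by
    intro x
    rw [hA.one, map_one, mul_one, mul_one]
  let P : FreeGroup Z → Equiv.Perm (Q × R) := fun w =>
    { toFun := fun x => (x.1 * φ w, x.2 * A w x.1)
      invFun := fun x => (x.1 * φ w⁻¹, x.2 * A w⁻¹ x.1)
      left_inv := fun x => by
        have h1 := hcomp w w⁻¹ x
        rw [mul_inv_cancel, hone] at h1
        exact h1
      right_inv := fun x => by
        have h1 := hcomp w⁻¹ w x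
        rw [inv_mul_cancel, hone] at h1
        exact h1 }
  let Ψ : FreeGroup Z →* Equiv.Perm (Q × R) :=
    { toFun := fun w => P w⁻¹
      map_one' := by
        ext1 x
        rw [inv_one]
        exact hone x
      map_mul' := fun v w => by
        ext1 x
        rw [mul_inv_rev]
        exact (hcomp w⁻¹ v⁻¹ x).symm }
  have hinv : ∀ w, (Ψ w)⁻¹ = P w := by
    intro w
    rw [← map_inv]
    change P w⁻¹⁻¹ = P w
    rw [inv_inv]
  refine ⟨Ψ.ker, inferInstance, inferInstance, fun w => ?_⟩
  rw [MonoidHom.mem_ker, ← inv_eq_one, hinv]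
  constructor
  · intro h
    have h1 : ∀ x : Q × R, ((x.1 * φ w, x.2 * A w x.1) : Q × R) = x := fun x => by
      have := DFunLike.congr_fun h x
      exact this
    refine ⟨?_, fun Y => ?_⟩
    · have h2 := congrArg Prod.fst (h1 (1, 1))
      simpa using h2
    · have h2 := congrArg Prod.snd (h1 (Y, 1))
      simpa using h2
  · rintro ⟨h1, h2⟩
    ext1 x
    change ((x.1 * φ w, x.2 * A w x.1) : Q × R) = x
    rw [h1, h2, mul_one, mul_one]

end Pool.Agent.MP3f0e40.PL
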