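import Mathlib
import Pool.Agent.Lib.MP_3f0e40_al.PL.CycDefs

set_option autoImplicit false

/-!
# MP_3f0e40_al, project PL: equations over unitriangular groups

`r ∈ F(C ∪ L)`, `a ∈ L` a letter whose exponent sum `n` in `r` is not zero, `ρ` an integral
unitriangular representation of `F(C)` of size `k + 1`. Then there is an integral unitriangular
representation `ρ'` of `F(C ∪ L)` with `ρ' r = 1` whose restriction to `F(C)` has the same kernel
as `ρ` (it is conjugate to `ρ` over `ℚ`).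

Proof. Send the letters of `L` other than `a` to `1` and look for a rational unitriangular matrix
`z` such that `r(ρ(C), z) = 1`. For `e = 1, …, k + 1` one finds `z_e` such that `r(ρ(C), z_e) - 1`
has zero entries `(i, j)` for `j < i + e`: `z_1 = 1`; let `E` be the part of `-(1/n) (r(ρ(C), z_e)
- 1)` on the diagonal `j = i + e`, and `z_{e+1} = z_e (1 + E)`. Modulo matrices with zero entries
for `j < i + e + 1` the matrix `1 + E` commutes with unitriangular matrices and `v(ρ(C), z_e (1 +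
E)) ≡ v(ρ(C), z_e) (1 + n(v) E)` for every word `v`, `n(v)` the exponent sum of `a` in `v`
(compare two homomorphisms on letters, or induct on `v`), so `r(ρ(C), z_{e+1}) ≡ (1 - n E) (1 + n
E) ≡ 1`. For `e = k + 1` this gives `r(ρ(C), z) = 1`. Let `M > 0` be a common denominator of the
entries of `z` and `z⁻¹`, `d = diag(1, M, …, M^k)`: conjugation multiplies the entry `(i, j)` by
`M^(j - i)` for `j ≥ i` (in the appropriate direction), so the conjugates of `z`, `z⁻¹` and of the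
matrices `ρ(g)` are integral and unitriangular. Suggestion: work with homomorphisms from the free
group to the units of the matrix ring (or directly to matrices, as `ρ` does), and define the
integral conjugate of `ρ(g)` entrywise by `M^(j-i) ρ(g) i j`.
-/

namespace Pool.Agent.MP3f0e40.PL

open Pool.Agent.MP3f0e40

namespace RatSolve

variable {k : ℕ}

/-- rational matrices vanishing below the `e`-th diagonal -/
def DQ (e : ℕ) (A : Matrix (Fin (k + 1)) (Fin (k + 1)) ℚ) : Prop :=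
  ∀ i j : Fin (k + 1), (j : ℕ) < i + e → A i j = 0

theorem DQ.add {e : ℕ} {A B : Matrix (Fin (k + 1)) (Fin (k + 1)) ℚ} (hA : DQ e A)
    (hB : DQ e B) : DQ e (A + B) := fun i j h => by
  rw [Matrix.add_apply, hA i j h, hB i j h, add_zero]

theorem DQ.sub {e : ℕ} {A B : Matrix (Fin (k + 1)) (Fin (k + 1)) ℚ} (hA : DQ e A)
    (hB : DQ e B) : DQ e (A - B) := fun i j h => by
  rw [Matrix.sub_apply, hA i j h, hB i j h, sub_zero]

theorem DQ.neg {e : ℕ} {A : Matrix (Fin (k + 1)) (Fin (k + 1)) ℚ} (hA : DQ e A) :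
    DQ e (-A) := fun i j h => by
  rw [Matrix.neg_apply, hA i j h, neg_zero]

theorem DQ.smul {e : ℕ} {A : Matrix (Fin (k + 1)) (Fin (k + 1)) ℚ} (c : ℚ)
    (hA : DQ e A) : DQ e (c • A) := fun i j h => by
  rw [Matrix.smul_apply, hA i j h, smul_zero]

theorem DQ.mono {e e' : ℕ} {A : Matrix (Fin (k + 1)) (Fin (k + 1)) ℚ} (hA : DQ e A)
    (h : e' ≤ e) : DQ e' A := fun i j hij => hA i j (by omega)

theorem DQ.mul {e e' : ℕ} {A B : Matrix (Fin (k + 1)) (Fin (k + 1)) ℚ} (hA : DQ e A)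
    (hB : DQ e' B) : DQ (e + e') (A * B) := by
  intro i j h
  rw [Matrix.mul_apply]
  refine Finset.sum_eq_zero fun l _ => ?_
  rcases Nat.lt_or_ge l (i + e) with h1 | h1
  · rw [hA i l h1, zero_mul]
  · rw [hB l j (by omega), mul_zero]

theorem DQ_one : DQ 0 (1 : Matrix (Fin (k + 1)) (Fin (k + 1)) ℚ) := by
  intro i j h
  rw [Matrix.one_apply_ne (by
    intro h1
    rw [h1] at h
    omega)]

theorem DQ_zero (e : ℕ) : DQ e (0 : Matrix (Fin (k + 1)) (Fin (k + 1)) ℚ) := fun _ _ _ => rfl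

theorem DQ_top {A : Matrix (Fin (k + 1)) (Fin (k + 1)) ℚ} {e : ℕ} (he : k + 1 ≤ e)
    (h : DQ e A) : A = 0 := by
  ext i j
  exact h i j (by omega)

/-- from `A - 1` to `A` -/
theorem DQ.of_sub_one {A : Matrix (Fin (k + 1)) (Fin (k + 1)) ℚ} (h : DQ 1 (A - 1)) :
    DQ 0 A := by
  have h1 := (h.mono (Nat.zero_le 1)).add DQ_one
  rwa [sub_add_cancel] at h1

theorem DQ_mul_sub_one {e : ℕ} {A B : Matrix (Fin (k + 1)) (Fin (k + 1)) ℚ}
    (hA : DQ e (A - 1)) (hB : DQ e (B - 1)) : DQ e (A * B - 1) := by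
  have h : A * B - 1 = (A - 1) * (B - 1) + ((A - 1) + (B - 1)) := by noncomm_ring
  rw [h]
  exact ((hA.mul hB).mono (by omega)).add (hA.add hB)

/-- the unitriangular units -/
def T1 (k : ℕ) : Subgroup (Matrix (Fin (k + 1)) (Fin (k + 1)) ℚ)ˣ where
  carrier := {u | DQ 1 ((u : Matrix (Fin (k + 1)) (Fin (k + 1)) ℚ) - 1) ∧
    DQ 1 (((u⁻¹ : (Matrix (Fin (k + 1)) (Fin (k + 1)) ℚ)ˣ) :
      Matrix (Fin (k + 1)) (Fin (k + 1)) ℚ) - 1)}
  one_mem' := by
    constructor
    · rw [Units.val_one, sub_self]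
      exact DQ_zero 1
    · rw [inv_one, Units.val_one, sub_self]
      exact DQ_zero 1
  mul_mem' := by
    rintro u v ⟨h1, h2⟩ ⟨h3, h4⟩
    constructor
    · rw [Units.val_mul]
      exact DQ_mul_sub_one h1 h3
    · rw [mul_inv_rev, Units.val_mul]
      exact DQ_mul_sub_one h4 h2
  inv_mem' := by
    rintro u ⟨h1, h2⟩
    refine ⟨h2, ?_⟩
    rw [inv_inv]
    exact h1

/-- powers of a strictly triangular matrix -/
theorem DQ.pow {e : ℕ} {A : Matrix (Fin (k + 1)) (Fin (k + 1)) ℚ} (hA : DQ e A) (n : ℕ) :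
    DQ (n * e) (A ^ n) := by
  induction n with
  | zero =>
    rw [zero_mul, pow_zero]
    exact DQ_one
  | succ n ih =>
    rw [pow_succ, add_mul, one_mul]
    exact ih.mul hA

/-- `1 + E` as a unit -/
theorem exists_unit {e : ℕ} (he : 1 ≤ e) {E : Matrix (Fin (k + 1)) (Fin (k + 1)) ℚ}
    (hE : DQ e E) : ∃ u ∈ T1 k, (u : Matrix (Fin (k + 1)) (Fin (k + 1)) ℚ) = 1 + E := by
  have hp : (-E) ^ (k + 1) = 0 := by
    refine DQ_top ?_ (hE.neg.pow (k + 1))
    nlinarith
  have h1 : (1 + E) * ∑ i ∈ Finset.range (k + 1), (-E) ^ i = 1 := by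
    have h := mul_neg_geom_sum (-E) (k + 1)
    rwa [hp, sub_neg_eq_add, sub_zero] at h
  have h2 : (∑ i ∈ Finset.range (k + 1), (-E) ^ i) * (1 + E) = 1 := by
    have h := geom_sum_mul_neg (-E) (k + 1)
    rwa [hp, sub_neg_eq_add, sub_zero] at h
  refine ⟨⟨1 + E, ∑ i ∈ Finset.range (k + 1), (-E) ^ i, h1, h2⟩, ⟨?_, ?_⟩, rfl⟩
  · show DQ 1 (1 + E - 1)
    rw [add_sub_cancel_left]
    exact hE.mono he
  · show DQ 1 (∑ i ∈ Finset.range (k + 1), (-E) ^ i - 1)
    rw [Finset.sum_range_succ', pow_zero, add_sub_cancel_right]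
    have : ∀ s : Finset ℕ, DQ 1 (∑ i ∈ s, (-E) ^ (i + 1)) := by
      intro s
      classical
      induction s using Finset.induction with
      | empty =>
        rw [Finset.sum_empty]
        exact DQ_zero 1
      | insert i s hi ih =>
        rw [Finset.sum_insert hi]
        refine DQ.add ?_ ih
        refine (hE.neg.pow (i + 1)).mono ?_
        nlinarith
    exact this _

/-- the rational form of the representation -/
noncomputable def rhoQ {C : Type} (ρ : FreeGroup C →* Matrix (Fin (k + 1)) (Fin (k + 1)) ℤ) :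
    FreeGroup C →* (Matrix (Fin (k + 1)) (Fin (k + 1)) ℚ)ˣ :=
  (Units.map ((Int.castRingHom ℚ).mapMatrix : Matrix (Fin (k + 1)) (Fin (k + 1)) ℤ →+*
    Matrix (Fin (k + 1)) (Fin (k + 1)) ℚ).toMonoidHom).comp ρ.toHomUnits

theorem rhoQ_apply {C : Type} (ρ : FreeGroup C →* Matrix (Fin (k + 1)) (Fin (k + 1)) ℤ)
    (g : FreeGroup C) (i j : Fin (k + 1)) :
    (rhoQ ρ g : Matrix (Fin (k + 1)) (Fin (k + 1)) ℚ) i j = ((ρ g i j : ℤ) : ℚ) := rfl

theorem rhoQ_D {C : Type} {ρ : FreeGroup C →* Matrix (Fin (k + 1)) (Fin (k + 1)) ℤ}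
    (hρ : ∀ g, D 0 1 (ρ g - 1)) (g : FreeGroup C) :
    DQ 1 ((rhoQ ρ g : Matrix (Fin (k + 1)) (Fin (k + 1)) ℚ) - 1) := by
  intro i j h
  have h1 := zero_dvd_iff.1 (hρ g i j h)
  rw [Matrix.sub_apply] at h1 ⊢
  rw [rhoQ_apply]
  rw [Matrix.one_apply] at h1 ⊢
  split_ifs at h1 ⊢ with h2
  · have h3 : ρ g i j = 1 := by linarith
    rw [h3]
    simp
  · have h3 : ρ g i j = 0 := by linarith
    rw [h3]
    simp

theorem rhoQ_T {C : Type} {ρ : FreeGroup C →* Matrix (Fin (k + 1)) (Fin (k + 1)) ℤ}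
    (hρ : ∀ g, D 0 1 (ρ g - 1)) (g : FreeGroup C) : rhoQ ρ g ∈ T1 k := by
  refine ⟨rhoQ_D hρ g, ?_⟩
  rw [← map_inv]
  exact rhoQ_D hρ g⁻¹

open Classical in
/-- the representation of `F(C ∪ L)` with `a ↦ z` -/
noncomputable def sig {C L : Type} (ρ : FreeGroup C →* Matrix (Fin (k + 1)) (Fin (k + 1)) ℤ)
    (a : L) (z : (Matrix (Fin (k + 1)) (Fin (k + 1)) ℚ)ˣ) :
    FreeGroup (C ⊕ L) →* (Matrix (Fin (k + 1)) (Fin (k + 1)) ℚ)ˣ :=
  FreeGroup.lift (Sum.elim (fun c => rhoQ ρ (FreeGroup.of c)) fun l => if l = a then z else 1)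

theorem sig_inC {C L : Type} (ρ : FreeGroup C →* Matrix (Fin (k + 1)) (Fin (k + 1)) ℤ)
    (a : L) (z : (Matrix (Fin (k + 1)) (Fin (k + 1)) ℚ)ˣ) (c : FreeGroup C) :
    sig ρ a z (inC c) = rhoQ ρ c := by
  have : (sig ρ a z).comp inC = rhoQ ρ := by
    ext1 x
    rw [MonoidHom.comp_apply, inC, FreeGroup.map.of, sig, FreeGroup.lift_apply_of]
    rfl
  exact DFunLike.congr_fun this c

theorem sig_T {C L : Type} {ρ : FreeGroup C →* Matrix (Fin (k + 1)) (Fin (k + 1)) ℤ}
    (hρ : ∀ g, D 0 1 (ρ g - 1)) (a : L) {z : (Matrix (Fin (k + 1)) (Fin (k + 1)) ℚ)ˣ}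
    (hz : z ∈ T1 k) (g : FreeGroup (C ⊕ L)) : sig ρ a z g ∈ T1 k := by
  classical
  have h1 : ∀ x : C ⊕ L, sig ρ a z (FreeGroup.of x) ∈ T1 k := by
    rintro (c | l)
    · rw [sig, FreeGroup.lift_apply_of]
      exact rhoQ_T hρ _
    · rw [sig, FreeGroup.lift_apply_of]
      show (if l = a then z else 1) ∈ T1 k
      split_ifs
      · exact hz
      · exact (T1 k).one_mem
  induction g using FreeGroup.induction_on with
  | C1 =>
    rw [map_one]
    exact (T1 k).one_mem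
  | of x => exact h1 x
  | inv_of x _ =>
    rw [map_inv]
    exact (T1 k).inv_mem (h1 x)
  | mul x y hx hy =>
    rw [map_mul]
    exact (T1 k).mul_mem hx hy

/-- the exponent sum -/
noncomputable def ex {C L : Type} (a : L) (v : FreeGroup (C ⊕ L)) : ℚ :=
  ((Multiplicative.toAdd (expo (Sum.inr a) v) : ℤ) : ℚ)

theorem ex_mul {C L : Type} (a : L) (v w : FreeGroup (C ⊕ L)) :
    ex a (v * w) = ex a v + ex a w := by
  unfold ex
  rw [map_mul, toAdd_mul, Int.cast_add]

theorem ex_inv {C L : Type} (a : L) (v : FreeGroup (C ⊕ L)) : ex a v⁻¹ = -ex a v := by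
  unfold ex
  rw [map_inv, toAdd_inv, Int.cast_neg]

theorem ex_one {C L : Type} (a : L) : ex a (1 : FreeGroup (C ⊕ L)) = 0 := by
  unfold ex
  rw [map_one, toAdd_one, Int.cast_zero]

/-- the first order change of the values -/
theorem step {C L : Type} {ρ : FreeGroup C →* Matrix (Fin (k + 1)) (Fin (k + 1)) ℤ}
    (hρ : ∀ g, D 0 1 (ρ g - 1)) (a : L) {z u : (Matrix (Fin (k + 1)) (Fin (k + 1)) ℚ)ˣ}
    (hz : z ∈ T1 k) (hu : u ∈ T1 k) {e : ℕ} {E : Matrix (Fin (k + 1)) (Fin (k + 1)) ℚ}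
    (hE : DQ e E) (hue : (u : Matrix (Fin (k + 1)) (Fin (k + 1)) ℚ) = 1 + E)
    (v : FreeGroup (C ⊕ L)) :
    DQ (e + 1) ((sig ρ a (z * u) v : Matrix (Fin (k + 1)) (Fin (k + 1)) ℚ) -
      (sig ρ a z v : Matrix (Fin (k + 1)) (Fin (k + 1)) ℚ) - ex a v • E) := by
  have hzu : z * u ∈ T1 k := (T1 k).mul_mem hz hu
  have hletter : ∀ x : C ⊕ L, DQ (e + 1) ((sig ρ a (z * u) (FreeGroup.of x) :
      Matrix (Fin (k + 1)) (Fin (k + 1)) ℚ) - (sig ρ a z (FreeGroup.of x) :
        Matrix (Fin (k + 1)) (Fin (k + 1)) ℚ) - ex a (FreeGroup.of x) • E) := by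
    rintro (c | l)
    · have h1 : ex a (FreeGroup.of (Sum.inl c) : FreeGroup (C ⊕ L)) = 0 := by
        unfold ex expo
        rw [FreeGroup.lift_apply_of, if_neg (by simp)]
        simp
      rw [h1, zero_smul, sub_zero, sig, sig, FreeGroup.lift_apply_of, FreeGroup.lift_apply_of]
      simp only [Sum.elim_inl, sub_self]
      exact DQ_zero _
    · by_cases hl : l = a
      · subst hl
        have h1 : ex l (FreeGroup.of (Sum.inr l) : FreeGroup (C ⊕ L)) = 1 := by
          unfold ex expo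
          rw [FreeGroup.lift_apply_of, if_pos rfl]
          simp
        rw [h1, one_smul, sig, sig, FreeGroup.lift_apply_of, FreeGroup.lift_apply_of]
        simp only [Sum.elim_inr, if_true, Units.val_mul, hue]
        have h2 : (z : Matrix (Fin (k + 1)) (Fin (k + 1)) ℚ) * (1 + E) - z - E =
            ((z : Matrix (Fin (k + 1)) (Fin (k + 1)) ℚ) - 1) * E := by noncomm_ring
        rw [h2]
        exact (hz.1.mul hE).mono (by omega)
      · have h1 : ex a (FreeGroup.of (Sum.inr l) : FreeGroup (C ⊕ L)) = 0 := by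
          unfold ex expo
          rw [FreeGroup.lift_apply_of, if_neg (by simpa using hl)]
          simp
        rw [h1, zero_smul, sub_zero, sig, sig, FreeGroup.lift_apply_of, FreeGroup.lift_apply_of]
        simp only [Sum.elim_inr, if_neg hl, sub_self]
        exact DQ_zero _
  induction v using FreeGroup.induction_on with
  | C1 =>
    rw [map_one, map_one, ex_one, zero_smul, sub_self, sub_zero]
    exact DQ_zero _
  | of x => exact hletter x
  | inv_of x _ =>
    have hx := hletter x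
    rw [map_inv, map_inv, ex_inv]
    have hA := sig_T hρ a hz (FreeGroup.of x)
    have hA' := sig_T hρ a hzu (FreeGroup.of x)
    set A := sig ρ a z (FreeGroup.of x)
    set A' := sig ρ a (z * u) (FreeGroup.of x)
    set n := ex a (FreeGroup.of x)
    have h1 : ((A'⁻¹ : (Matrix (Fin (k + 1)) (Fin (k + 1)) ℚ)ˣ) :
        Matrix (Fin (k + 1)) (Fin (k + 1)) ℚ) * (A' : Matrix (Fin (k + 1)) (Fin (k + 1)) ℚ) = 1 :=
      A'.inv_mul
    have h2 : (A : Matrix (Fin (k + 1)) (Fin (k + 1)) ℚ) *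
        ((A⁻¹ : (Matrix (Fin (k + 1)) (Fin (k + 1)) ℚ)ˣ) :
          Matrix (Fin (k + 1)) (Fin (k + 1)) ℚ) = 1 := A.mul_inv
    set B := ((A⁻¹ : (Matrix (Fin (k + 1)) (Fin (k + 1)) ℚ)ˣ) :
        Matrix (Fin (k + 1)) (Fin (k + 1)) ℚ) with hB
    set B' := ((A'⁻¹ : (Matrix (Fin (k + 1)) (Fin (k + 1)) ℚ)ˣ) :
        Matrix (Fin (k + 1)) (Fin (k + 1)) ℚ) with hB'
    set X := (A' : Matrix (Fin (k + 1)) (Fin (k + 1)) ℚ) -
      (A : Matrix (Fin (k + 1)) (Fin (k + 1)) ℚ) - n • E with hX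
    have h3 : B' - B - (-n) • E = -(B' * X * B) - n • ((B' - 1) * E * B + E * (B - 1)) := by
      have h4 : B' * X * B = (B' * (A' : Matrix (Fin (k + 1)) (Fin (k + 1)) ℚ)) * B -
          B' * ((A : Matrix (Fin (k + 1)) (Fin (k + 1)) ℚ) * B) - n • (B' * E * B) := by
        rw [hX, mul_sub, mul_sub, sub_mul, sub_mul, mul_smul_comm, smul_mul_assoc,
          mul_assoc B' (A : Matrix (Fin (k + 1)) (Fin (k + 1)) ℚ)]
      rw [h4, h1, h2, one_mul, mul_one]
      have h5 : (B' - 1) * E * B + E * (B - 1) = B' * E * B - E := by noncomm_ring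
      rw [h5, smul_sub, neg_smul]
      abel
    rw [h3]
    have hB0 : DQ 0 B := DQ.of_sub_one hA.2
    have hB0' : DQ 0 B' := DQ.of_sub_one hA'.2
    refine DQ.sub ?_ (DQ.smul _ (DQ.add ?_ ?_))
    · exact (((hB0'.mul hx).mul hB0).mono (by omega)).neg
    · exact ((hA'.2.mul hE).mul hB0).mono (by omega)
    · exact (hE.mul hA.2).mono (by omega)
  | mul x y hx hy =>
    rw [map_mul, map_mul, ex_mul, Units.val_mul, Units.val_mul]
    have hA := sig_T hρ a hz x
    have hB := sig_T hρ a hzu y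
    set A := (sig ρ a z x : Matrix (Fin (k + 1)) (Fin (k + 1)) ℚ)
    set A' := (sig ρ a (z * u) x : Matrix (Fin (k + 1)) (Fin (k + 1)) ℚ)
    set B := (sig ρ a z y : Matrix (Fin (k + 1)) (Fin (k + 1)) ℚ)
    set B' := (sig ρ a (z * u) y : Matrix (Fin (k + 1)) (Fin (k + 1)) ℚ)
    set n := ex a x
    set m := ex a y
    have h1 : A' * B' - A * B - (n + m) • E = m • ((A - 1) * E) + A * (B' - B - m • E) +
        n • (E * (B' - 1)) + (A' - A - n • E) * B' := by
      have h2 : A * (B' - B - m • E) = A * B' - A * B - m • (A * E) := by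
        rw [mul_sub, mul_sub, mul_smul_comm]
      have h3 : (A' - A - n • E) * B' = A' * B' - A * B' - n • (E * B') := by
        rw [sub_mul, sub_mul, smul_mul_assoc]
      rw [h2, h3, sub_mul, mul_sub, one_mul, mul_one, smul_sub, smul_sub, add_smul]
      abel
    rw [h1]
    refine DQ.add (DQ.add (DQ.add ?_ ?_) ?_) ?_
    · exact ((hA.1.mul hE).mono (by omega)).smul _
    · exact ((DQ.of_sub_one hA.1).mul hy).mono (by omega)
    · exact ((hE.mul hB.1).mono (by omega)).smul _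
    · exact (hx.mul (DQ.of_sub_one hB.1)).mono (by omega)

/-- the solutions up to the `e`-th diagonal -/
theorem approx {C L : Type} {ρ : FreeGroup C →* Matrix (Fin (k + 1)) (Fin (k + 1)) ℤ}
    (hρ : ∀ g, D 0 1 (ρ g - 1)) (a : L) {r : FreeGroup (C ⊕ L)} (ha : ex a r ≠ 0) (e : ℕ) :
    ∃ z ∈ T1 k, DQ (e + 1) ((sig ρ a z r : Matrix (Fin (k + 1)) (Fin (k + 1)) ℚ) - 1) := by
  induction e with
  | zero => exact ⟨1, (T1 k).one_mem, (sig_T hρ a (T1 k).one_mem r).1⟩
  | succ e ih =>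
    obtain ⟨z, hz, hr⟩ := ih
    let E : Matrix (Fin (k + 1)) (Fin (k + 1)) ℚ := Matrix.of fun i j =>
      if (j : ℕ) = i + (e + 1) then
        -((sig ρ a z r : Matrix (Fin (k + 1)) (Fin (k + 1)) ℚ) i j) / ex a r else 0
    have hE : DQ (e + 1) E := by
      intro i j h
      show (if (j : ℕ) = i + (e + 1) then _ else (0 : ℚ)) = 0
      rw [if_neg (by omega)]
    obtain ⟨u, hu, hue⟩ := exists_unit (by omega) hE
    refine ⟨z * u, (T1 k).mul_mem hz hu, ?_⟩
    have h1 := step hρ a hz hu hE hue r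
    have h2 : DQ (e + 1 + 1) ((sig ρ a z r : Matrix (Fin (k + 1)) (Fin (k + 1)) ℚ) - 1 +
        ex a r • E) := by
      intro i j h
      by_cases hj : (j : ℕ) = i + (e + 1)
      · have hij : i ≠ j := by
          intro h3
          rw [h3] at hj
          omega
        have h4 : E i j = -((sig ρ a z r : Matrix (Fin (k + 1)) (Fin (k + 1)) ℚ) i j) / ex a r :=
          if_pos hj
        rw [Matrix.add_apply, Matrix.sub_apply, Matrix.smul_apply, Matrix.one_apply_ne hij, h4,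
          smul_eq_mul]
        field_simp
        ring
      · have hlt : (j : ℕ) < i + (e + 1) := by omega
        rw [Matrix.add_apply, hr i j hlt, Matrix.smul_apply, hE i j hlt, smul_zero, add_zero]
    have h3 := h1.add h2
    have h4 : (sig ρ a (z * u) r : Matrix (Fin (k + 1)) (Fin (k + 1)) ℚ) -
        (sig ρ a z r : Matrix (Fin (k + 1)) (Fin (k + 1)) ℚ) - ex a r • E +
        ((sig ρ a z r : Matrix (Fin (k + 1)) (Fin (k + 1)) ℚ) - 1 + ex a r • E) =
        (sig ρ a (z * u) r : Matrix (Fin (k + 1)) (Fin (k + 1)) ℚ) - 1 := by abel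
    rwa [h4] at h3

/-- the integral matrix `B` is the conjugate of `A` by `diag(1, M, …, M^k)` -/
def Rel (M : ℕ) (B : Matrix (Fin (k + 1)) (Fin (k + 1)) ℤ)
    (A : Matrix (Fin (k + 1)) (Fin (k + 1)) ℚ) : Prop :=
  ∀ i j : Fin (k + 1), (B i j : ℚ) * (M : ℚ) ^ (i : ℕ) = A i j * (M : ℚ) ^ (j : ℕ)

theorem Rel.mul {M : ℕ} {B B' : Matrix (Fin (k + 1)) (Fin (k + 1)) ℤ}
    {A A' : Matrix (Fin (k + 1)) (Fin (k + 1)) ℚ} (h : Rel M B A) (h' : Rel M B' A') :
    Rel M (B * B') (A * A') := by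
  intro i j
  rw [Matrix.mul_apply, Matrix.mul_apply, Int.cast_sum, Finset.sum_mul, Finset.sum_mul]
  refine Finset.sum_congr rfl fun l _ => ?_
  rw [Int.cast_mul]
  calc (B i l : ℚ) * (B' l j : ℚ) * (M : ℚ) ^ (i : ℕ) =
      ((B i l : ℚ) * (M : ℚ) ^ (i : ℕ)) * (B' l j : ℚ) := by ring
    _ = A i l * ((B' l j : ℚ) * (M : ℚ) ^ (l : ℕ)) := by rw [h i l]; ring
    _ = A i l * A' l j * (M : ℚ) ^ (j : ℕ) := by rw [h' l j]; ring

theorem Rel_one (M : ℕ) : Rel M (1 : Matrix (Fin (k + 1)) (Fin (k + 1)) ℤ) 1 := by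
  intro i j
  by_cases h : i = j
  · subst h
    simp
  · rw [Matrix.one_apply_ne h, Matrix.one_apply_ne h]
    simp

theorem Rel.unique {M : ℕ} (hM : 0 < M) {B B' : Matrix (Fin (k + 1)) (Fin (k + 1)) ℤ}
    {A : Matrix (Fin (k + 1)) (Fin (k + 1)) ℚ} (h : Rel M B A) (h' : Rel M B' A) : B = B' := by
  ext i j
  have h1 := (h i j).trans (h' i j).symm
  have h2 : (M : ℚ) ^ (i : ℕ) ≠ 0 := pow_ne_zero _ (by positivity)
  exact_mod_cast mul_right_cancel₀ h2 h1

theorem Rel.unique' {M : ℕ} (hM : 0 < M) {B : Matrix (Fin (k + 1)) (Fin (k + 1)) ℤ}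
    {A A' : Matrix (Fin (k + 1)) (Fin (k + 1)) ℚ} (h : Rel M B A) (h' : Rel M B A') : A = A' := by
  ext i j
  have h1 := (h i j).symm.trans (h' i j)
  have h2 : (M : ℚ) ^ (j : ℕ) ≠ 0 := pow_ne_zero _ (by positivity)
  exact mul_right_cancel₀ h2 h1

/-- a common denominator -/
theorem exists_den {ι : Type} [Fintype ι] (f : ι → ℚ) :
    ∃ M : ℕ, 0 < M ∧ ∀ i, ∃ c : ℤ, (c : ℚ) = M * f i := by
  classical
  refine ⟨∏ i, (f i).den, Finset.prod_pos fun i _ => (f i).den_pos, fun i => ?_⟩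
  obtain ⟨t, ht⟩ := Finset.dvd_prod_of_mem (fun i => (f i).den) (Finset.mem_univ i)
  refine ⟨t * (f i).num, ?_⟩
  rw [ht]
  push_cast
  have h1 : ((f i).den : ℚ) * f i = (f i).num := by
    rw [mul_comm]
    exact Rat.mul_den_eq_num (f i)
  rw [← h1]
  ring

/-- the integral conjugate -/
theorem exists_rel {M : ℕ} {A : Matrix (Fin (k + 1)) (Fin (k + 1)) ℚ} (hA : DQ 1 (A - 1))
    (hint : ∀ i j, ∃ c : ℤ, (c : ℚ) = M * A i j) : ∃ B, Rel M B A := by
  have h : ∀ i j : Fin (k + 1), ∃ b : ℤ,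
      (b : ℚ) * (M : ℚ) ^ (i : ℕ) = A i j * (M : ℚ) ^ (j : ℕ) := by
    intro i j
    rcases lt_trichotomy (j : ℕ) (i : ℕ) with h1 | h1 | h1
    · have h2 := hA i j (by omega)
      rw [Matrix.sub_apply, Matrix.one_apply_ne (by
        intro h3
        rw [h3] at h1
        omega), sub_zero] at h2
      exact ⟨0, by rw [h2]; simp⟩
    · have h3 : i = j := Fin.ext h1.symm
      subst h3
      have h2 := hA i i (by omega)
      rw [Matrix.sub_apply, Matrix.one_apply_eq] at h2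
      refine ⟨1, ?_⟩
      rw [sub_eq_zero.1 h2]
      simp
    · obtain ⟨c, hc⟩ := hint i j
      obtain ⟨t, ht⟩ : ∃ t, (j : ℕ) = i + 1 + t := ⟨(j : ℕ) - (i + 1), by omega⟩
      refine ⟨(M : ℤ) ^ t * c, ?_⟩
      rw [Int.cast_mul, hc, ht]
      push_cast
      ring
  choose b hb using h
  exact ⟨Matrix.of b, hb⟩

end RatSolve

open RatSolve in
theorem rat_solve {C L : Type} (r : FreeGroup (C ⊕ L)) (a : L) (ha : expo (Sum.inr a) r ≠ 1)
    (k : ℕ) (ρ : FreeGroup C →* Matrix (Fin (k + 1)) (Fin (k + 1)) ℤ)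
    (hρ : ∀ g, D 0 1 (ρ g - 1)) :
    ∃ ρ' : FreeGroup (C ⊕ L) →* Matrix (Fin (k + 1)) (Fin (k + 1)) ℤ,
      (∀ g, D 0 1 (ρ' g - 1)) ∧ ρ' r = 1 ∧ ∀ c : FreeGroup C, ρ' (inC c) = 1 → ρ c = 1 := by
  have hex : ex a r ≠ 0 := by
    intro h
    apply ha
    have h1 : Multiplicative.toAdd (expo (Sum.inr a) r) = 0 := by
      unfold ex at h
      exact_mod_cast h
    exact h1
  obtain ⟨z, hz, hr⟩ := approx hρ a hex k
  have hr1 : (sig ρ a z r : Matrix (Fin (k + 1)) (Fin (k + 1)) ℚ) = 1 :=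
    sub_eq_zero.1 (DQ_top le_rfl hr)
  obtain ⟨M, hM, hden⟩ := exists_den (fun x : Bool × Fin (k + 1) × Fin (k + 1) =>
    if x.1 then (z : Matrix (Fin (k + 1)) (Fin (k + 1)) ℚ) x.2.1 x.2.2 else
      ((z⁻¹ : (Matrix (Fin (k + 1)) (Fin (k + 1)) ℚ)ˣ) :
        Matrix (Fin (k + 1)) (Fin (k + 1)) ℚ) x.2.1 x.2.2)
  have hz1 : ∃ B, Rel M B (z : Matrix (Fin (k + 1)) (Fin (k + 1)) ℚ) :=
    exists_rel hz.1 fun i j => hden (true, i, j)
  have hz2 : ∃ B, Rel M B ((z⁻¹ : (Matrix (Fin (k + 1)) (Fin (k + 1)) ℚ)ˣ) :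
      Matrix (Fin (k + 1)) (Fin (k + 1)) ℚ) :=
    exists_rel hz.2 fun i j => by
      have := hden (false, i, j)
      simpa using this
  have hρ1 : ∀ g, ∃ B, Rel M B (rhoQ ρ g : Matrix (Fin (k + 1)) (Fin (k + 1)) ℚ) := fun g =>
    exists_rel (rhoQ_D hρ g) fun i j => ⟨M * ρ g i j, by
      rw [rhoQ_apply]
      push_cast
      ring⟩
  have hall : ∀ g, ∃ B, Rel M B (sig ρ a z g : Matrix (Fin (k + 1)) (Fin (k + 1)) ℚ) := by
    classical
    intro g
    induction g using FreeGroup.induction_on with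
    | C1 => exact ⟨1, by rw [map_one]; exact Rel_one M⟩
    | of x =>
      rcases x with c | l
      · rw [sig, FreeGroup.lift_apply_of]
        exact hρ1 _
      · rw [sig, FreeGroup.lift_apply_of]
        by_cases hl : l = a
        · simp only [Sum.elim_inr, if_pos hl]
          exact hz1
        · simp only [Sum.elim_inr, if_neg hl]
          exact ⟨1, Rel_one M⟩
    | inv_of x _ =>
      rw [map_inv]
      rcases x with c | l
      · rw [sig, FreeGroup.lift_apply_of, Sum.elim_inl, ← map_inv]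
        exact hρ1 _
      · rw [sig, FreeGroup.lift_apply_of]
        by_cases hl : l = a
        · simp only [Sum.elim_inr, if_pos hl]
          exact hz2
        · simp only [Sum.elim_inr, if_neg hl, inv_one]
          exact ⟨1, Rel_one M⟩
    | mul x y hx hy =>
      obtain ⟨B, hB⟩ := hx
      obtain ⟨B', hB'⟩ := hy
      refine ⟨B * B', ?_⟩
      rw [map_mul, Units.val_mul]
      exact hB.mul hB'
  choose F hF using hall
  have hF1 : F 1 = 1 := by
    have h := hF 1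
    rw [map_one] at h
    exact h.unique hM (Rel_one M)
  let ρ' : FreeGroup (C ⊕ L) →* Matrix (Fin (k + 1)) (Fin (k + 1)) ℤ :=
    { toFun := F
      map_one' := hF1
      map_mul' := fun x y => by
        have h := hF (x * y)
        rw [map_mul, Units.val_mul] at h
        exact h.unique hM ((hF x).mul (hF y)) }
  have hM0 : ∀ i : ℕ, (M : ℚ) ^ i ≠ 0 := fun i => pow_ne_zero _ (by positivity)
  refine ⟨ρ', fun g i j hij => ?_, ?_, fun c hc => ?_⟩
  · rw [zero_dvd_iff]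
    have h1 := hF g i j
    have h2 := (sig_T hρ a hz g).1 i j hij
    show (F g - 1) i j = 0
    rw [Matrix.sub_apply] at h2 ⊢
    by_cases h3 : i = j
    · subst h3
      rw [Matrix.one_apply_eq] at h2 ⊢
      rw [sub_eq_zero.1 h2, one_mul] at h1
      have h4 : ((F g i i : ℤ) : ℚ) = 1 := by
        refine mul_right_cancel₀ (hM0 i) ?_
        rw [h1, one_mul]
      have h5 : F g i i = 1 := by exact_mod_cast h4
      rw [h5, sub_self]
    · rw [Matrix.one_apply_ne h3, sub_zero] at h2 ⊢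
      rw [h2, zero_mul] at h1
      have h4 := (mul_eq_zero.1 h1).resolve_right (hM0 i)
      exact_mod_cast h4
  · show F r = 1
    have h := hF r
    rw [hr1] at h
    exact h.unique hM (Rel_one M)
  · have h := hF (inC c)
    have hc' : F (inC c) = 1 := hc
    rw [hc', sig_inC] at h
    have h1 := h.unique' hM (Rel_one M)
    ext i j
    have h2 := congrFun (congrFun h1 i) j
    rw [rhoQ_apply] at h2
    by_cases h3 : i = j
    · subst h3
      rw [Matrix.one_apply_eq] at h2 ⊢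
      exact_mod_cast h2
    · rw [Matrix.one_apply_ne h3] at h2 ⊢
      exact_mod_cast h2

theorem rtn_of_exp {C L : Type} (r : FreeGroup (C ⊕ L)) (a : L)
    (ha : expo (Sum.inr a) r ≠ 1) : RTN r := by
  intro c hc
  obtain ⟨k, ρ, hρ, hne⟩ := exists_rep_ne c hc
  obtain ⟨ρ', h1, h2, h3⟩ := rat_solve r a ha k ρ hρ
  exact ⟨k, ρ', h1, h2, fun h => hne (h3 c h)⟩

end Pool.Agent.MP3f0e40.PL
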