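import Mathlib
import Pool.Agent.Lib.MP_3f0e40_al.PL.NSurj
import Pool.Agent.Lib.MP_3f0e40_al.PL.NCoc
import Pool.Agent.Lib.MP_3f0e40_al.PL.RatSolve

set_option autoImplicit false

/-!
# MP_3f0e40_al, project PL: cocycles of unitriangular matrices with polynomial entries

`DQ e M`: the rational matrix `M` vanishes below the `e`-th diagonal (`RatSolve.lean`, with
`DQ.add`, `DQ.mul`, `exists_unit`, ...).

`act_single_mul`, `act_fox`: linearity of `act` in the first argument and
`act (single q' n) f (Y q) = act (single (q q') n) f Y`.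

`coc_pol`: induction on `w` (`FreeGroup.induction_on`): products by `pol_shift`; inverses by
`A v⁻¹ (Y) = (A v (Y φ(v)⁻¹))⁻¹` and `(1 + N)⁻¹ = ∑_{i ≤ k} (-N)^i` for the strictly upper
triangular matrix `N` (its entries are sums of products of the entries of `N`).
-/

namespace Pool.Agent.MP3f0e40.PL

open Pool.Agent.MP3f0e40 RatSolve

namespace NPol

theorem act_add {Q : Type} [Group Q] (x y : Q →₀ ℤ) (f : Q → ℚ) (Y : Q) :
    act (x + y) f Y = act x f Y + act y f Y := by
  unfold act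
  exact Finsupp.sum_add_index' (fun q => by simp) (fun q a b => by push_cast; ring)

theorem act_single {Q : Type} [Group Q] (q : Q) (n : ℤ) (f : Q → ℚ) (Y : Q) :
    act (Finsupp.single q n) f Y = n * f (Y * q) := by
  unfold act
  exact Finsupp.sum_single_index (by simp)

variable {m k : ℕ}

/-- matrices with polynomial entries -/
def PM (M : UT m → Matrix (Fin (k + 1)) (Fin (k + 1)) ℚ) : Prop :=
  ∀ i j, (fun Y => M Y i j) ∈ Pol m

theorem const_mem (c : ℚ) : (fun _ : UT m => c) ∈ Pol m := by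
  have h := (Pol m).algebraMap_mem c
  exact h

theorem PM.const (M : Matrix (Fin (k + 1)) (Fin (k + 1)) ℚ) : PM (m := m) (fun _ => M) :=
  fun i j => const_mem (M i j)

theorem PM.mul {M N : UT m → Matrix (Fin (k + 1)) (Fin (k + 1)) ℚ} (hM : PM M) (hN : PM N) :
    PM (fun Y => M Y * N Y) := by
  intro i j
  have h : (fun Y => (M Y * N Y) i j) = ∑ l, (fun Y => M Y i l) * (fun Y => N Y l j) := by
    funext Y
    rw [Matrix.mul_apply, Finset.sum_apply]
    rfl
  rw [h]
  exact (Pol m).sum_mem fun l _ => (Pol m).mul_mem (hM i l) (hN l j)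

theorem PM.neg {M : UT m → Matrix (Fin (k + 1)) (Fin (k + 1)) ℚ} (hM : PM M) :
    PM (fun Y => -M Y) := fun i j => (Pol m).neg_mem (hM i j)

theorem PM.sub {M N : UT m → Matrix (Fin (k + 1)) (Fin (k + 1)) ℚ} (hM : PM M) (hN : PM N) :
    PM (fun Y => M Y - N Y) := fun i j => (Pol m).sub_mem (hM i j) (hN i j)

theorem PM.pow {M : UT m → Matrix (Fin (k + 1)) (Fin (k + 1)) ℚ} (hM : PM M) (n : ℕ) :
    PM (fun Y => M Y ^ n) := by
  induction n with
  | zero =>
    simp only [pow_zero]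
    exact PM.const 1
  | succ n ih =>
    simp only [pow_succ]
    exact ih.mul hM

theorem PM.sum {M : ℕ → UT m → Matrix (Fin (k + 1)) (Fin (k + 1)) ℚ} (s : Finset ℕ)
    (hM : ∀ n, PM (M n)) : PM (fun Y => ∑ n ∈ s, M n Y) := by
  intro i j
  have h : (fun Y => (∑ n ∈ s, M n Y) i j) = ∑ n ∈ s, (fun Y => M n Y i j) := by
    funext Y
    rw [Matrix.sum_apply, Finset.sum_apply]
  rw [h]
  exact (Pol m).sum_mem fun n _ => hM n i j

theorem PM.shift {M : UT m → Matrix (Fin (k + 1)) (Fin (k + 1)) ℚ} (hM : PM M) (q : UT m) :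
    PM (fun Y => M (Y * q)) := fun i j => pol_shift _ (hM i j) q

theorem inv_eq {E : Matrix (Fin (k + 1)) (Fin (k + 1)) ℚ} (hE : DQ 1 E)
    {B : Matrix (Fin (k + 1)) (Fin (k + 1)) ℚ} (hB : (1 + E) * B = 1) :
    B = ∑ i ∈ Finset.range (k + 1), (-E) ^ i := by
  have hp : (-E) ^ (k + 1) = 0 := by
    refine DQ_top ?_ (hE.neg.pow (k + 1))
    omega
  have h2 : (∑ i ∈ Finset.range (k + 1), (-E) ^ i) * (1 + E) = 1 := by
    have h := geom_sum_mul_neg (-E) (k + 1)
    rwa [hp, sub_neg_eq_add, sub_zero] at h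
  calc B = ((∑ i ∈ Finset.range (k + 1), (-E) ^ i) * (1 + E)) * B := by rw [h2, one_mul]
    _ = (∑ i ∈ Finset.range (k + 1), (-E) ^ i) * ((1 + E) * B) := by rw [mul_assoc]
    _ = _ := by rw [hB, mul_one]

theorem sum_dq {E : Matrix (Fin (k + 1)) (Fin (k + 1)) ℚ} (hE : DQ 1 E) :
    DQ 1 (∑ i ∈ Finset.range (k + 1), (-E) ^ i - 1) := by
  rw [Finset.sum_range_succ', pow_zero, add_sub_cancel_right]
  have : ∀ s : Finset ℕ, DQ 1 (∑ i ∈ s, (-E) ^ (i + 1)) := by
    intro s
    classical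
    induction s using Finset.induction_on with
    | empty =>
      rw [Finset.sum_empty]
      exact DQ_zero 1
    | insert a s ha ih =>
      rw [Finset.sum_insert ha]
      exact ((hE.neg.pow (a + 1)).mono (by omega)).add ih
  exact this _

end NPol

theorem act_single_mul {Q : Type} [Group Q] (q : Q) (x : MonoidAlgebra ℤ Q) (f : Q → ℚ)
    (Y : Q) : act (MonoidAlgebra.single q 1 * x).coeff f Y = act x.coeff f (Y * q) := by
  induction x using MonoidAlgebra.induction_linear with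
  | zero =>
    rw [mul_zero]
    simp [act]
  | add x y hx hy =>
    rw [mul_add, MonoidAlgebra.coeff_add, MonoidAlgebra.coeff_add, NPol.act_add, NPol.act_add,
      hx, hy]
  | single g n =>
    rw [MonoidAlgebra.single_mul_single, MonoidAlgebra.coeff_single, MonoidAlgebra.coeff_single,
      NPol.act_single, NPol.act_single, one_mul, mul_assoc Y q g]

theorem act_fox {Z Q : Type} [Group Q] {φ : FreeGroup Z →* Q} {a : Z}
    {x : FreeGroup Z → MonoidAlgebra ℤ Q} (hx : Fox φ a x) (f : Q → ℚ) (v w : FreeGroup Z)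
    (Y : Q) : act (x (v * w)).coeff f Y = act (x v).coeff f Y + act (x w).coeff f (Y * φ v) := by
  rw [hx.mul, MonoidAlgebra.coeff_add, NPol.act_add, act_single_mul]

theorem coc_pol {Z : Type} {m k : ℕ} {φ : FreeGroup Z →* UT m}
    {A : FreeGroup Z → UT m → Matrix (Fin (k + 1)) (Fin (k + 1)) ℚ} (hA : Coc φ A)
    (h1 : ∀ z Y, DQ 1 (A (FreeGroup.of z) Y - 1))
    (h2 : ∀ z i j, (fun Y => A (FreeGroup.of z) Y i j) ∈ Pol m) (w : FreeGroup Z) :
    (∀ Y, DQ 1 (A w Y - 1)) ∧ ∀ i j, (fun Y => A w Y i j) ∈ Pol m := by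
  induction w using FreeGroup.induction_on with
  | C1 =>
    refine ⟨fun Y => ?_, fun i j => ?_⟩
    · rw [hA.one, sub_self]
      exact DQ_zero 1
    · simp only [hA.one]
      exact NPol.PM.const 1 i j
  | of z => exact ⟨h1 z, h2 z⟩
  | inv_of z _ =>
    have hinv : ∀ Y, A (FreeGroup.of z)⁻¹ Y = ∑ i ∈ Finset.range (k + 1),
        (-(A (FreeGroup.of z) (Y * (φ (FreeGroup.of z))⁻¹) - 1)) ^ i := by
      intro Y
      refine NPol.inv_eq (h1 z _) ?_
      have h3 := hA.mul (FreeGroup.of z) (FreeGroup.of z)⁻¹ (Y * (φ (FreeGroup.of z))⁻¹)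
      rw [mul_inv_cancel, hA.one, inv_mul_cancel_right] at h3
      rw [add_sub_cancel]
      exact h3.symm
    refine ⟨fun Y => ?_, ?_⟩
    · change DQ 1 (A (FreeGroup.of z)⁻¹ Y - 1)
      rw [hinv]
      exact NPol.sum_dq (h1 z _)
    · change NPol.PM (fun Y => A (FreeGroup.of z)⁻¹ Y)
      simp only [hinv]
      have h3 : NPol.PM (fun Y => A (FreeGroup.of z) Y) := h2 z
      have h4 := (h3.sub (NPol.PM.const 1)).neg.shift (φ (FreeGroup.of z))⁻¹
      exact NPol.PM.sum _ fun n => h4.pow n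
  | mul v w hv hw =>
    refine ⟨fun Y => ?_, ?_⟩
    · rw [hA.mul]
      exact DQ_mul_sub_one (hv.1 Y) (hw.1 _)
    · change NPol.PM (fun Y => A (v * w) Y)
      simp only [hA.mul]
      have h3 : NPol.PM (fun Y => A v Y) := hv.2
      have h4 : NPol.PM (fun Y => A w Y) := hw.2
      exact h3.mul (h4.shift (φ v))

end Pool.Agent.MP3f0e40.PL
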