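import Mathlib
import Pool.Agent.Lib.MP_3f0e40_al.PL.NPol

set_option autoImplicit false

/-!
# MP_3f0e40_al, project PL: solving `A_r = 1` layer by layer

`layer`: by induction on `e`, `1 ≤ e ≤ k + 1`, there is `Λ` such that for the cocycle `A` (it
exists by `exists_coc`, the values at the letters are units by `exists_unit`, and it is unique by
`Coc.unique`) the matrix `A r Y - 1` vanishes below the `e`-th diagonal for all `Y`. `e = 1`:
`Λ = 1`; all `A w Y` are unitriangular (`coc_pol`). Step from `e ≤ k` to `e + 1`: put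
`Λ' Y = Λ Y (1 + E Y)` with `E Y` on the `e`-th diagonal, entries in `Pol m`, and
`F_w(Y) = act (x w).coeff (E · i j) Y` at the position `(i, j)`. For the cocycle `A'` of `Λ'` one
has `A'_w(Y) ≡ A_w(Y) (1 + F_w(Y))` modulo matrices vanishing below the `(e + 1)`-st diagonal:
induction on `w`; `F_{v w}(Y) = F_v(Y) + F_w(Y φ(v))` by `act_fox`, `(1 + F) A ≡ A (1 + F)` for
`A` unitriangular, and for inverses `A'_{v⁻¹}(Y) A'_v(Y φ(v)⁻¹) = 1`. For `w = r`: if `G(Y)` is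
the `e`-th diagonal of `A_r(Y) - 1` then `A'_r(Y) ≡ 1 + G(Y) + F_r(Y)`. The entries of `G` are in
`Pol m` by `coc_pol`, so by `surj` with `x r` one can choose the entries of `E` with
`F_r(Y) = -G(Y)`. For `e = k + 1` the matrix is `0`.
-/

namespace Pool.Agent.MP3f0e40.PL

open Pool.Agent.MP3f0e40 RatSolve

namespace NLayer

variable {C L : Type} {m k : ℕ}

/-- the condition on the cocycle -/
structure IsC (ρ : FreeGroup C →* Matrix (Fin (k + 1)) (Fin (k + 1)) ℤ)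
    (φ : FreeGroup (C ⊕ L) →* UT m) (a : L) (Λ : UT m → Matrix (Fin (k + 1)) (Fin (k + 1)) ℚ)
    (A : FreeGroup (C ⊕ L) → UT m → Matrix (Fin (k + 1)) (Fin (k + 1)) ℚ) : Prop where
  coc : Coc φ A
  inl : ∀ c Y i j, A (FreeGroup.of (Sum.inl c)) Y i j = (ρ (FreeGroup.of c) i j : ℚ)
  inr : ∀ Y, A (FreeGroup.of (Sum.inr a)) Y = Λ Y
  oth : ∀ l, l ≠ a → ∀ Y, A (FreeGroup.of (Sum.inr l)) Y = 1

theorem pol_const (c : ℚ) : (fun _ : UT m => c) ∈ Pol m := (Pol m).algebraMap_mem c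

theorem isC_pol {ρ : FreeGroup C →* Matrix (Fin (k + 1)) (Fin (k + 1)) ℤ}
    (hρ : ∀ g, D 0 1 (ρ g - 1)) {φ : FreeGroup (C ⊕ L) →* UT m} {a : L}
    {Λ : UT m → Matrix (Fin (k + 1)) (Fin (k + 1)) ℚ}
    {A : FreeGroup (C ⊕ L) → UT m → Matrix (Fin (k + 1)) (Fin (k + 1)) ℚ}
    (h1 : ∀ Y, DQ 1 (Λ Y - 1)) (h2 : ∀ i j, (fun Y => Λ Y i j) ∈ Pol m) (hA : IsC ρ φ a Λ A)
    (w : FreeGroup (C ⊕ L)) :
    (∀ Y, DQ 1 (A w Y - 1)) ∧ ∀ i j, (fun Y => A w Y i j) ∈ Pol m := by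
  refine coc_pol hA.coc ?_ ?_ w
  · rintro (c | l) Y
    · have h3 : A (FreeGroup.of (Sum.inl c)) Y =
          (rhoQ ρ (FreeGroup.of c) : Matrix (Fin (k + 1)) (Fin (k + 1)) ℚ) := by
        ext i j
        rw [hA.inl, rhoQ_apply]
      rw [h3]
      exact rhoQ_D hρ _
    · by_cases hl : l = a
      · subst hl
        rw [hA.inr]
        exact h1 Y
      · rw [hA.oth l hl, sub_self]
        exact DQ_zero 1
  · rintro (c | l) i j
    · have h3 : (fun Y => A (FreeGroup.of (Sum.inl c)) Y i j) =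
          fun _ => (ρ (FreeGroup.of c) i j : ℚ) := funext fun Y => hA.inl c Y i j
      rw [h3]
      exact pol_const _
    · by_cases hl : l = a
      · subst hl
        have h3 : (fun Y => A (FreeGroup.of (Sum.inr l)) Y i j) = fun Y => Λ Y i j :=
          funext fun Y => by rw [hA.inr]
        rw [h3]
        exact h2 i j
      · have h3 : (fun Y => A (FreeGroup.of (Sum.inr l)) Y i j) =
            fun _ => (1 : Matrix (Fin (k + 1)) (Fin (k + 1)) ℚ) i j :=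
          funext fun Y => by rw [hA.oth l hl]
        rw [h3]
        exact pol_const _

/-- existence of the cocycle -/
theorem exists_isC {ρ : FreeGroup C →* Matrix (Fin (k + 1)) (Fin (k + 1)) ℤ}
    {φ : FreeGroup (C ⊕ L) →* UT m} {a : L}
    {Λ : UT m → Matrix (Fin (k + 1)) (Fin (k + 1)) ℚ} (h1 : ∀ Y, DQ 1 (Λ Y - 1)) :
    ∃ A, IsC ρ φ a Λ A := by
  classical
  have hu : ∀ Y, ∃ u : (Matrix (Fin (k + 1)) (Fin (k + 1)) ℚ)ˣ,
      (u : Matrix (Fin (k + 1)) (Fin (k + 1)) ℚ) = Λ Y := by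
    intro Y
    obtain ⟨u, _, hu⟩ := exists_unit le_rfl (h1 Y)
    exact ⟨u, by rw [hu, add_sub_cancel]⟩
  choose u hu using hu
  obtain ⟨A, hA, hA2⟩ := exists_coc φ (R := Matrix (Fin (k + 1)) (Fin (k + 1)) ℚ)
    (Sum.elim (fun c _ => rhoQ ρ (FreeGroup.of c)) fun l Y => if l = a then u Y else 1)
  refine ⟨A, hA, ?_, ?_, ?_⟩
  · intro c Y i j
    rw [hA2]
    exact rhoQ_apply ρ _ i j
  · intro Y
    rw [hA2, Sum.elim_inr, if_pos rfl, hu]
  · intro l hl Y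
    rw [hA2, Sum.elim_inr, if_neg hl, Units.val_one]

/-- the matrix `F_w(Y)` -/
noncomputable def Fm (x : FreeGroup (C ⊕ L) → MonoidAlgebra ℤ (UT m))
    (E : UT m → Matrix (Fin (k + 1)) (Fin (k + 1)) ℚ) (w : FreeGroup (C ⊕ L)) (Y : UT m) :
    Matrix (Fin (k + 1)) (Fin (k + 1)) ℚ :=
  Matrix.of fun i j => act (x w).coeff (fun Y => E Y i j) Y

theorem Fm_apply (x : FreeGroup (C ⊕ L) → MonoidAlgebra ℤ (UT m))
    (E : UT m → Matrix (Fin (k + 1)) (Fin (k + 1)) ℚ) (w : FreeGroup (C ⊕ L)) (Y : UT m)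
    (i j : Fin (k + 1)) : Fm x E w Y i j = act (x w).coeff (fun Y => E Y i j) Y := rfl

theorem act_zero_left {Q : Type} [Group Q] (f : Q → ℚ) (Y : Q) :
    act (0 : MonoidAlgebra ℤ Q).coeff f Y = 0 := by
  rw [MonoidAlgebra.coeff_zero, act, Finsupp.sum_zero_index]

theorem act_one_left {Q : Type} [Group Q] (f : Q → ℚ) (Y : Q) :
    act (1 : MonoidAlgebra ℤ Q).coeff f Y = f Y := by
  rw [MonoidAlgebra.one_def, MonoidAlgebra.coeff_single, act, Finsupp.sum_single_index]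
  · rw [mul_one, Int.cast_one, one_mul]
  · rw [Int.cast_zero, zero_mul]

theorem act_zero_right {Q : Type} [Group Q] (x : Q →₀ ℤ) (Y : Q) :
    act x (fun _ => (0 : ℚ)) Y = 0 := by
  rw [act, Finsupp.sum]
  exact Finset.sum_eq_zero fun q _ => mul_zero _

theorem Fm_mul {φ : FreeGroup (C ⊕ L) →* UT m} {a : L}
    {x : FreeGroup (C ⊕ L) → MonoidAlgebra ℤ (UT m)} (hx : Fox φ (Sum.inr a) x)
    (E : UT m → Matrix (Fin (k + 1)) (Fin (k + 1)) ℚ) (v w : FreeGroup (C ⊕ L)) (Y : UT m) :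
    Fm x E (v * w) Y = Fm x E v Y + Fm x E w (Y * φ v) := by
  ext i j
  rw [Matrix.add_apply, Fm_apply, Fm_apply, Fm_apply, act_fox hx]

theorem Fm_DQ {e : ℕ} {x : FreeGroup (C ⊕ L) → MonoidAlgebra ℤ (UT m)}
    {E : UT m → Matrix (Fin (k + 1)) (Fin (k + 1)) ℚ} (hE : ∀ Y, DQ e (E Y))
    (w : FreeGroup (C ⊕ L)) (Y : UT m) : DQ e (Fm x E w Y) := by
  intro i j h
  have h1 : (fun Y => E Y i j) = fun _ => 0 := funext fun Y => hE Y i j h
  rw [Fm_apply, h1, act_zero_right]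

theorem Fm_one {φ : FreeGroup (C ⊕ L) →* UT m} {a : L}
    {x : FreeGroup (C ⊕ L) → MonoidAlgebra ℤ (UT m)} (hx : Fox φ (Sum.inr a) x)
    (E : UT m → Matrix (Fin (k + 1)) (Fin (k + 1)) ℚ) (Y : UT m) : Fm x E 1 Y = 0 := by
  have h := Fm_mul hx E 1 1 Y
  rw [mul_one, map_one, mul_one] at h
  exact left_eq_add.1 h

theorem step {ρ : FreeGroup C →* Matrix (Fin (k + 1)) (Fin (k + 1)) ℤ}
    (hρ : ∀ g, D 0 1 (ρ g - 1)) {φ : FreeGroup (C ⊕ L) →* UT m} {a : L}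
    {x : FreeGroup (C ⊕ L) → MonoidAlgebra ℤ (UT m)} (hx : Fox φ (Sum.inr a) x)
    {Λ Λ' E : UT m → Matrix (Fin (k + 1)) (Fin (k + 1)) ℚ} {e : ℕ} (he : 1 ≤ e)
    (h1 : ∀ Y, DQ 1 (Λ Y - 1)) (h2 : ∀ i j, (fun Y => Λ Y i j) ∈ Pol m)
    (h1' : ∀ Y, DQ 1 (Λ' Y - 1)) (h2' : ∀ i j, (fun Y => Λ' Y i j) ∈ Pol m)
    (hE : ∀ Y, DQ e (E Y)) (hΛ : ∀ Y, Λ' Y = Λ Y * (1 + E Y))
    {A A' : FreeGroup (C ⊕ L) → UT m → Matrix (Fin (k + 1)) (Fin (k + 1)) ℚ}
    (hA : IsC ρ φ a Λ A) (hA' : IsC ρ φ a Λ' A') (w : FreeGroup (C ⊕ L)) :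
    ∀ Y, DQ (e + 1) (A' w Y - A w Y * (1 + Fm x E w Y)) := by
  have hu := isC_pol hρ h1 h2 hA
  have hu' := isC_pol hρ h1' h2' hA'
  have hF : ∀ w Y, DQ e (Fm x E w Y) := fun w Y => Fm_DQ hE w Y
  have hF1 : ∀ w Y, DQ 0 (1 + Fm x E w Y) := fun w Y =>
    DQ_one.add ((hF w Y).mono (Nat.zero_le e))
  have hof : ∀ z Y, DQ (e + 1) (A' (FreeGroup.of z) Y - A (FreeGroup.of z) Y *
      (1 + Fm x E (FreeGroup.of z) Y)) := by
    rintro (c | l) Y
    · have h3 : Fm x E (FreeGroup.of (Sum.inl c)) Y = 0 := by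
        ext i j
        rw [Fm_apply, hx.other _ (by simp), act_zero_left]
        rfl
      have h4 : A' (FreeGroup.of (Sum.inl c)) Y = A (FreeGroup.of (Sum.inl c)) Y := by
        ext i j
        rw [hA.inl, hA'.inl]
      rw [h3, h4, add_zero, mul_one, sub_self]
      exact DQ_zero _
    · by_cases hl : l = a
      · subst hl
        have h3 : Fm x E (FreeGroup.of (Sum.inr l)) Y = E Y := by
          ext i j
          rw [Fm_apply, hx.self, act_one_left]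
        rw [h3, hA.inr, hA'.inr, hΛ, sub_self]
        exact DQ_zero _
      · have h3 : Fm x E (FreeGroup.of (Sum.inr l)) Y = 0 := by
          ext i j
          rw [Fm_apply, hx.other _ (by simpa using hl), act_zero_left]
          rfl
        rw [h3, hA.oth l hl, hA'.oth l hl, add_zero, mul_one, sub_self]
        exact DQ_zero _
  induction w using FreeGroup.induction_on with
  | C1 =>
    intro Y
    rw [hA.coc.one, hA'.coc.one, Fm_one hx, add_zero, mul_one, sub_self]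
    exact DQ_zero _
  | of z => exact hof z
  | inv_of z ih =>
    intro Y
    set v : FreeGroup (C ⊕ L) := FreeGroup.of z with hv
    have ha : A v⁻¹ Y * A v (Y * φ v⁻¹) = 1 := by
      rw [← hA.coc.mul, inv_mul_cancel, hA.coc.one]
    have ha' : A' v⁻¹ Y * A' v (Y * φ v⁻¹) = 1 := by
      rw [← hA'.coc.mul, inv_mul_cancel, hA'.coc.one]
    have hf : Fm x E v⁻¹ Y + Fm x E v (Y * φ v⁻¹) = 0 := by
      rw [← Fm_mul hx, inv_mul_cancel, Fm_one hx]
    have hf' : Fm x E v⁻¹ Y = -Fm x E v (Y * φ v⁻¹) := eq_neg_of_add_eq_zero_left hf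
    have hb : A' v (Y * φ v⁻¹) * A' v⁻¹ Y = 1 := mul_eq_one_comm.1 ha'
    have h5 := ih (Y * φ v⁻¹)
    have h6 := hF v (Y * φ v⁻¹)
    have h7 := (hu v).1 (Y * φ v⁻¹)
    have h8 := ((hu v⁻¹).1 Y).of_sub_one
    have h9 := ((hu' v⁻¹).1 Y).of_sub_one
    rw [hf']
    set a₁ := A v⁻¹ Y with ha₁
    set b₁ := A v (Y * φ v⁻¹) with hb₁
    set a₂ := A' v⁻¹ Y with ha₂
    set b₂ := A' v (Y * φ v⁻¹) with hb₂
    set f := Fm x E v (Y * φ v⁻¹) with hff
    have key : DQ (e + 1) (a₁ * (1 + -f) * b₂ - 1) := by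
      have e1 : a₁ * (1 + -f) * b₂ - 1 = a₁ * (1 + -f) * (b₂ - b₁ * (1 + f)) +
          (a₁ * ((b₁ - 1) * f - f * (b₁ - 1)) * (1 + f) - (a₁ * b₁) * (f * f) +
            (a₁ * b₁ - 1)) := by
        noncomm_ring
      rw [e1, ha, sub_self, one_mul, add_zero]
      have h10 : DQ 0 (1 + -f) := DQ_one.add (h6.neg.mono (Nat.zero_le e))
      have h11 : DQ 0 (1 + f) := DQ_one.add (h6.mono (Nat.zero_le e))
      refine DQ.add ?_ (DQ.sub ?_ ?_)
      · exact ((h8.mul h10).mul h5).mono (by omega)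
      · exact ((h8.mul (((h7.mul h6).mono (by omega)).sub (h6.mul h7) :
          DQ (e + 1) ((b₁ - 1) * f - f * (b₁ - 1)))).mul h11).mono (by omega)
      · exact (h6.mul h6).mono (by omega)
    have e2 : a₂ - a₁ * (1 + -f) = -((a₁ * (1 + -f) * b₂ - 1) * a₂) := by
      rw [sub_mul, one_mul, mul_assoc (a₁ * (1 + -f)), hb, mul_one]
      abel
    rw [e2]
    exact ((key.mul h9).mono (by omega)).neg
  | mul v w ihv ihw =>
    intro Y
    rw [hA.coc.mul, hA'.coc.mul, Fm_mul hx]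
    have h5 := ihv Y
    have h6 := ihw (Y * φ v)
    have h7 := hF v Y
    have h8 := hF w (Y * φ v)
    have h9 := ((hu v).1 Y).of_sub_one
    have h10 := (hu w).1 (Y * φ v)
    have h11 := ((hu' w).1 (Y * φ v)).of_sub_one
    have h12 := hF1 v Y
    set a₁ := A v Y
    set b₁ := A w (Y * φ v)
    set a₂ := A' v Y
    set b₂ := A' w (Y * φ v)
    set f := Fm x E v Y
    set g := Fm x E w (Y * φ v)
    have h13 := h10.of_sub_one
    have h14 : DQ 0 (1 + g) := DQ_one.add (h8.mono (Nat.zero_le e))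
    have e1 : a₂ * b₂ - a₁ * b₁ * (1 + (f + g)) = (a₂ - a₁ * (1 + f)) * b₂ +
        (a₁ * (1 + f) * (b₂ - b₁ * (1 + g)) + (a₁ * (f * (b₁ - 1) - (b₁ - 1) * f) * (1 + g) +
          a₁ * b₁ * (f * g))) := by
      noncomm_ring
    rw [e1]
    refine DQ.add ?_ (DQ.add ?_ (DQ.add ?_ ?_))
    · exact (h5.mul h11).mono (by omega)
    · exact ((h9.mul h12).mul h6).mono (by omega)
    · exact ((h9.mul ((h7.mul h10).sub ((h10.mul h7).mono (by omega)) :
        DQ (e + 1) (f * (b₁ - 1) - (b₁ - 1) * f))).mul h14).mono (by omega)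
    · exact ((h9.mul h13).mul (h7.mul h8)).mono (by omega)

theorem layers (ρ : FreeGroup C →* Matrix (Fin (k + 1)) (Fin (k + 1)) ℤ)
    (hρ : ∀ g, D 0 1 (ρ g - 1)) (φ : FreeGroup (C ⊕ L) →* UT m) (a : L)
    (x : FreeGroup (C ⊕ L) → MonoidAlgebra ℤ (UT m)) (hx : Fox φ (Sum.inr a) x)
    (r : FreeGroup (C ⊕ L)) (hr : x r ≠ 0) (e : ℕ) :
    ∃ Λ : UT m → Matrix (Fin (k + 1)) (Fin (k + 1)) ℚ,
      (∀ Y, DQ 1 (Λ Y - 1)) ∧ (∀ i j, (fun Y => Λ Y i j) ∈ Pol m) ∧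
      ∀ A, IsC ρ φ a Λ A → ∀ Y, DQ (e + 1) (A r Y - 1) := by
  induction e with
  | zero =>
    refine ⟨fun _ => 1, fun Y => ?_, fun i j => pol_const _, fun A hA Y => ?_⟩
    · rw [sub_self]
      exact DQ_zero 1
    · refine (isC_pol (Λ := fun _ => 1) hρ (fun Y => ?_) (fun i j => pol_const _) hA r).1 Y
      rw [sub_self]
      exact DQ_zero 1
  | succ e ih =>
    obtain ⟨Λ, h1, h2, h3⟩ := ih
    obtain ⟨A, hA⟩ := exists_isC (ρ := ρ) (φ := φ) (a := a) h1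
    have hpol := isC_pol hρ h1 h2 hA r
    have hAr := h3 A hA
    have hr' : (x r).coeff ≠ 0 := by
      rwa [Ne, MonoidAlgebra.coeff_eq_zero]
    have hg : ∀ i j, ∃ g ∈ Pol m, act (x r).coeff g = fun Y => -(A r Y - 1) i j := by
      intro i j
      refine surj _ hr' _ ?_
      have h4 : (fun Y => -(A r Y - 1) i j) =
          -((fun Y => A r Y i j) - fun _ => (1 : Matrix (Fin (k + 1)) (Fin (k + 1)) ℚ) i j) := by
        ext Y
        rw [Matrix.sub_apply, Pi.neg_apply, Pi.sub_apply]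
      rw [h4]
      exact (Pol m).neg_mem ((Pol m).sub_mem (hpol.2 i j) (pol_const _))
    choose g hg hg2 using hg
    let E : UT m → Matrix (Fin (k + 1)) (Fin (k + 1)) ℚ := fun Y =>
      Matrix.of fun i j => if (j : ℕ) = i + (e + 1) then g i j Y else 0
    have hEa : ∀ Y i j, E Y i j = if (j : ℕ) = i + (e + 1) then g i j Y else 0 :=
      fun _ _ _ => rfl
    have hE : ∀ Y, DQ (e + 1) (E Y) := by
      intro Y i j h
      rw [hEa, if_neg (by omega)]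
    have hEp : ∀ i j, (fun Y => E Y i j) ∈ Pol m := by
      intro i j
      by_cases h : (j : ℕ) = i + (e + 1)
      · have h4 : (fun Y => E Y i j) = g i j := funext fun Y => by rw [hEa, if_pos h]
        rw [h4]
        exact hg i j
      · have h4 : (fun Y => E Y i j) = fun _ => 0 := funext fun Y => by rw [hEa, if_neg h]
        rw [h4]
        exact pol_const 0
    have h1' : ∀ Y, DQ 1 (Λ Y * (1 + E Y) - 1) := by
      intro Y
      refine DQ_mul_sub_one (h1 Y) ?_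
      rw [add_sub_cancel_left]
      exact (hE Y).mono (by omega)
    have h2' : ∀ i j, (fun Y => (Λ Y * (1 + E Y)) i j) ∈ Pol m := by
      intro i j
      have h4 : (fun Y => (Λ Y * (1 + E Y)) i j) = ∑ l, (fun Y => Λ Y i l) *
          ((fun _ => (1 : Matrix (Fin (k + 1)) (Fin (k + 1)) ℚ) l j) + fun Y => E Y l j) := by
        ext Y
        rw [Matrix.mul_apply, Finset.sum_apply]
        rfl
      rw [h4]
      exact (Pol m).sum_mem fun l _ => (Pol m).mul_mem (h2 i l)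
        ((Pol m).add_mem (pol_const _) (hEp l j))
    refine ⟨fun Y => Λ Y * (1 + E Y), h1', h2', fun A' hA' Y => ?_⟩
    have h5 := step hρ hx (Nat.succ_pos e) h1 h2 h1' h2' hE (fun _ => rfl) hA hA' r Y
    have h6 : DQ (e + 1 + 1) ((A r Y - 1) + Fm x E r Y) := by
      intro i j h
      rcases Nat.lt_or_ge j (i + (e + 1)) with h7 | h7
      · rw [Matrix.add_apply, hAr Y i j h7, Fm_DQ hE r Y i j h7, add_zero]
      · have h8 : (j : ℕ) = i + (e + 1) := by omega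
        have h9 : (fun Y => E Y i j) = g i j := funext fun Y => by rw [hEa, if_pos h8]
        rw [Matrix.add_apply, Fm_apply, h9, hg2, add_neg_cancel]
    have h7 : A' r Y - 1 = (A' r Y - A r Y * (1 + Fm x E r Y)) +
        (((A r Y - 1) + Fm x E r Y) + (A r Y - 1) * Fm x E r Y) := by
      noncomm_ring
    rw [h7]
    exact h5.add (h6.add (((hAr Y).mul (Fm_DQ hE r Y)).mono (by omega)))

end NLayer

theorem layer {C L : Type} {m k : ℕ}
    (ρ : FreeGroup C →* Matrix (Fin (k + 1)) (Fin (k + 1)) ℤ) (hρ : ∀ g, D 0 1 (ρ g - 1))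
    (φ : FreeGroup (C ⊕ L) →* UT m) (a : L)
    (x : FreeGroup (C ⊕ L) → MonoidAlgebra ℤ (UT m)) (hx : Fox φ (Sum.inr a) x)
    (r : FreeGroup (C ⊕ L)) (hr : x r ≠ 0) :
    ∃ Λ : UT m → Matrix (Fin (k + 1)) (Fin (k + 1)) ℚ,
      (∀ Y, DQ 1 (Λ Y - 1)) ∧ (∀ i j, (fun Y => Λ Y i j) ∈ Pol m) ∧
      ∀ A : FreeGroup (C ⊕ L) → UT m → Matrix (Fin (k + 1)) (Fin (k + 1)) ℚ, Coc φ A →
        (∀ c Y i j, A (FreeGroup.of (Sum.inl c)) Y i j = (ρ (FreeGroup.of c) i j : ℚ)) →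
        (∀ Y, A (FreeGroup.of (Sum.inr a)) Y = Λ Y) →
        (∀ l, l ≠ a → ∀ Y, A (FreeGroup.of (Sum.inr l)) Y = 1) → ∀ Y, A r Y = 1 := by
  obtain ⟨Λ, h1, h2, h3⟩ := NLayer.layers ρ hρ φ a x hx r hr k
  refine ⟨Λ, h1, h2, fun A hA hl hr ho Y => ?_⟩
  exact sub_eq_zero.1 (DQ_top le_rfl (h3 A ⟨hA, hl, hr, ho⟩ Y))

end Pool.Agent.MP3f0e40.PL
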