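import Mathlib
import Pool.Agent.Lib.MP_3f0e40_al.PL.NLayer
import Pool.Agent.Lib.MP_3f0e40_al.PL.NInt

set_option autoImplicit false

/-!
# MP_3f0e40_al, project PL: congruence quotients of `F(C)` extend to `⟨C, L; r⟩`

`cong_of_foxNe`: let `φ`, `a`, `x` be as in `FoxNe r`, and `ρ`, `n₀ > 0` as in `Cong`. Take `Λ`
from `layer` and `M > 0` and the integral functions `F i j = M Λ i j` from `pol_int_fin`. Put
`Λ' Y i j = M^(j-i-1) F i j Y` for `i < j` (that is, `M^(j-i) Λ Y i j`), `1` for `i = j`, `0` for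
`i > j`: integral unitriangular matrices; `ρ' c i j = M^(j-i) ρ c i j` for `i ≤ j`, `0` otherwise,
is again a homomorphism to integral unitriangular matrices. By `exists_coc` there is a cocycle
`B : F(C ∪ L) → UT m → Mat ℤ` along `φ` with `B c Y = ρ' c`, `B a Y = Λ' Y`, `B l Y = 1` for the
other letters of `L` (unitriangular integral matrices are units). The rational matrices
`A w Y i j = B w Y i j * M^i / M^j` form a cocycle with the values required in `layer`, hence
`A r Y = 1` and `B r Y = 1` for all `Y`. Also `B (inC c) Y = ρ' c` (`Coc.unique` or induction).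

Let `n = n₀ M^k` and `π : UT m → Q` as in `ut_quot`. `B z Y` modulo `n` depends only on `π Y` for
the letters `z`; so there is a cocycle `B'` along `π ∘ φ` with values in
`Matrix _ _ (ZMod n)` with `B' z (π Y) = B z Y` modulo `n` for the letters (`exists_coc`, choose
preimages under `π`), and then `B' w (π Y) = B w Y` modulo `n` for all words `w` by `Coc.unique`
(along `φ`). Let `N` be the subgroup of `coc_ker` for `B'`: it contains `r` (`φ r = 1`,
`B r Y = 1`). If `c ∈ F(C)` and `inC c ∈ N` then `ρ' c ≡ 1` modulo `n₀ M^k`, so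
`M^(j-i) (ρ c - 1) i j` is divisible by `n₀ M^k` and `(ρ c - 1) i j` by `n₀`. So
`E = N.comap inC`.
-/

namespace Pool.Agent.MP3f0e40.PL

open Pool.Agent.MP3f0e40 RatSolve

namespace NCong

variable {k : ℕ}

theorem D_diag {A : Matrix (Fin (k + 1)) (Fin (k + 1)) ℤ} (hA : D 0 1 (A - 1))
    (i : Fin (k + 1)) : A i i = 1 := by
  have h := zero_dvd_iff.1 (hA i i (by omega))
  rw [Matrix.sub_apply, Matrix.one_apply_eq] at h
  linarith

theorem D_low {A : Matrix (Fin (k + 1)) (Fin (k + 1)) ℤ} (hA : D 0 1 (A - 1))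
    {i j : Fin (k + 1)} (h : (j : ℕ) < i) : A i j = 0 := by
  have h1 := zero_dvd_iff.1 (hA i j (by omega))
  rw [Matrix.sub_apply, Matrix.one_apply_ne (by
    intro h3
    rw [h3] at h
    omega)] at h1
  linarith

/-- unitriangular integral matrices are units -/
theorem isUnit_of_D {A : Matrix (Fin (k + 1)) (Fin (k + 1)) ℤ} (hA : D 0 1 (A - 1)) :
    IsUnit A := by
  rw [Matrix.isUnit_iff_isUnit_det]
  have h1 : A.BlockTriangular id := by
    intro i j hij
    have h2 : j < i := hij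
    exact D_low hA (by exact_mod_cast h2)
  rw [Matrix.det_of_isUpperTriangular h1, Finset.prod_eq_one fun i _ => D_diag hA i]
  exact isUnit_one

/-- the conjugate of an integral unitriangular matrix by `diag(1, M, …, M^k)` -/
def cj (M : ℕ) (A : Matrix (Fin (k + 1)) (Fin (k + 1)) ℤ) :
    Matrix (Fin (k + 1)) (Fin (k + 1)) ℤ :=
  Matrix.of fun i j => if (i : ℕ) ≤ j then (M : ℤ) ^ ((j : ℕ) - i) * A i j else 0

theorem cj_le {M : ℕ} (A : Matrix (Fin (k + 1)) (Fin (k + 1)) ℤ) {i j : Fin (k + 1)}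
    (h : (i : ℕ) ≤ j) : cj M A i j = (M : ℤ) ^ ((j : ℕ) - i) * A i j := if_pos h

theorem cj_lt {M : ℕ} (A : Matrix (Fin (k + 1)) (Fin (k + 1)) ℤ) {i j : Fin (k + 1)}
    (h : (j : ℕ) < i) : cj M A i j = 0 := if_neg (by omega)

theorem cj_D (M : ℕ) {A : Matrix (Fin (k + 1)) (Fin (k + 1)) ℤ} (hA : D 0 1 (A - 1)) :
    D 0 1 (cj M A - 1) := by
  intro i j hij
  rw [Matrix.sub_apply]
  rcases Nat.lt_or_ge (j : ℕ) i with h | h
  · rw [cj_lt A h, Matrix.one_apply_ne (by
      intro h3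
      rw [h3] at h
      omega), sub_zero]
  · have h1 : i = j := Fin.ext (by omega)
    subst h1
    rw [cj_le A le_rfl, D_diag hA, Nat.sub_self, pow_zero, Matrix.one_apply_eq]
    norm_num

theorem cj_rel (M : ℕ) {C : Type} {ρ : FreeGroup C →* Matrix (Fin (k + 1)) (Fin (k + 1)) ℤ}
    (hρ : ∀ g, D 0 1 (ρ g - 1)) (g : FreeGroup C) :
    Rel M (cj M (ρ g)) (rhoQ ρ g : Matrix (Fin (k + 1)) (Fin (k + 1)) ℚ) := by
  intro i j
  rw [rhoQ_apply]
  rcases Nat.lt_or_ge (j : ℕ) i with h | h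
  · rw [cj_lt _ h, D_low (hρ g) h]
    simp
  · rw [cj_le _ h]
    obtain ⟨t, ht⟩ := Nat.exists_eq_add_of_le h
    rw [ht, Nat.add_sub_cancel_left]
    push_cast
    ring

theorem cj_dvd {M n : ℕ} (hM : 0 < M) {A : Matrix (Fin (k + 1)) (Fin (k + 1)) ℤ}
    (hA : D 0 1 (A - 1)) (i j : Fin (k + 1))
    (h : ((n * M ^ k : ℕ) : ℤ) ∣ (cj M A - 1) i j) : (n : ℤ) ∣ (A - 1) i j := by
  rcases Nat.lt_or_ge (j : ℕ) i with h1 | h1
  · rw [Matrix.sub_apply, D_low hA h1, Matrix.one_apply_ne (by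
      intro h3
      rw [h3] at h1
      omega), sub_zero]
    exact dvd_zero _
  · have h2 : (cj M A - 1) i j = (M : ℤ) ^ ((j : ℕ) - i) * (A - 1) i j := by
      rw [Matrix.sub_apply, Matrix.sub_apply, cj_le A h1]
      by_cases h3 : i = j
      · subst h3
        rw [Nat.sub_self, pow_zero, one_mul, one_mul]
      · rw [Matrix.one_apply_ne h3, sub_zero, sub_zero]
    rw [h2] at h
    have hj := j.2
    obtain ⟨t, ht⟩ : ∃ t, k = ((j : ℕ) - i) + t := ⟨k - ((j : ℕ) - i), by omega⟩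
    have h3 : ((n * M ^ k : ℕ) : ℤ) = (M : ℤ) ^ ((j : ℕ) - i) * (n * (M : ℤ) ^ t) := by
      have h4 : M ^ k = M ^ ((j : ℕ) - i) * M ^ t := by rw [← pow_add, ← ht]
      rw [h4]
      push_cast
      ring
    rw [h3] at h
    have h5 : ((M : ℤ) ^ ((j : ℕ) - i)) ≠ 0 := pow_ne_zero _ (by exact_mod_cast hM.ne')
    exact (Dvd.intro _ rfl).trans ((mul_dvd_mul_iff_left h5).1 h)

/-- the integral matrices for the letter `a` -/
def lam (M : ℕ) (f : Fin (k + 1) × Fin (k + 1) → ℤ) : Matrix (Fin (k + 1)) (Fin (k + 1)) ℤ :=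
  Matrix.of fun i j => if (i : ℕ) < j then (M : ℤ) ^ ((j : ℕ) - i - 1) * f (i, j) else
    if i = j then 1 else 0

theorem lam_D (M : ℕ) (f : Fin (k + 1) × Fin (k + 1) → ℤ) : D 0 1 (lam M f - 1) := by
  intro i j hij
  have h1 : lam M f i j = if i = j then 1 else 0 := if_neg (by omega)
  rw [Matrix.sub_apply, h1, Matrix.one_apply, sub_self]

theorem lam_rel {M : ℕ} {f : Fin (k + 1) × Fin (k + 1) → ℤ}
    {A : Matrix (Fin (k + 1)) (Fin (k + 1)) ℚ} (hA : DQ 1 (A - 1))
    (h : ∀ p : Fin (k + 1) × Fin (k + 1), (M : ℚ) * A p.1 p.2 = f p) : Rel M (lam M f) A := by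
  intro i j
  rcases Nat.lt_or_ge (i : ℕ) j with h1 | h1
  · have h2 : lam M f i j = (M : ℤ) ^ ((j : ℕ) - i - 1) * f (i, j) := if_pos h1
    rw [h2]
    push_cast
    rw [← h (i, j)]
    obtain ⟨t, ht⟩ : ∃ t, (j : ℕ) = i + t + 1 := ⟨(j : ℕ) - i - 1, by omega⟩
    have h3 : (j : ℕ) - i - 1 = t := by omega
    rw [h3, ht]
    simp only
    ring
  · have h2 : lam M f i j = if i = j then 1 else 0 := if_neg (by omega)
    have h3 := hA i j (by omega)
    rw [Matrix.sub_apply, Matrix.one_apply] at h3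
    rw [h2, sub_eq_zero.1 h3]
    by_cases h4 : i = j
    · subst h4
      simp
    · rw [if_neg h4, if_neg h4]
      simp

theorem lam_dvd {M : ℕ} {f f' : Fin (k + 1) × Fin (k + 1) → ℤ} {n : ℤ}
    (h : ∀ p, n ∣ f p - f' p) (i j : Fin (k + 1)) : n ∣ lam M f i j - lam M f' i j := by
  rcases Nat.lt_or_ge (i : ℕ) j with h1 | h1
  · have h2 : ∀ g : Fin (k + 1) × Fin (k + 1) → ℤ,
        lam M g i j = (M : ℤ) ^ ((j : ℕ) - i - 1) * g (i, j) := fun g => if_pos h1
    rw [h2, h2, ← mul_sub]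
    exact Dvd.dvd.mul_left (h (i, j)) _
  · have h2 : ∀ g : Fin (k + 1) × Fin (k + 1) → ℤ,
        lam M g i j = if i = j then 1 else 0 := fun g => if_neg (by omega)
    rw [h2, h2, sub_self]
    exact dvd_zero n

/-- reduction modulo `n` -/
def red (k n : ℕ) : Matrix (Fin (k + 1)) (Fin (k + 1)) ℤ →*
    Matrix (Fin (k + 1)) (Fin (k + 1)) (ZMod n) :=
  ((Int.castRingHom (ZMod n)).mapMatrix : Matrix (Fin (k + 1)) (Fin (k + 1)) ℤ →+*
    Matrix (Fin (k + 1)) (Fin (k + 1)) (ZMod n)).toMonoidHom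

theorem red_apply (n : ℕ) (A : Matrix (Fin (k + 1)) (Fin (k + 1)) ℤ) (i j : Fin (k + 1)) :
    red k n A i j = ((A i j : ℤ) : ZMod n) := rfl

theorem red_eq {n : ℕ} {A B : Matrix (Fin (k + 1)) (Fin (k + 1)) ℤ}
    (h : ∀ i j, (n : ℤ) ∣ A i j - B i j) : red k n A = red k n B := by
  ext i j
  rw [red_apply, red_apply]
  exact ((ZMod.intCast_eq_intCast_iff_dvd_sub _ _ _).2 (h i j)).symm

theorem dvd_of_red {n : ℕ} {A : Matrix (Fin (k + 1)) (Fin (k + 1)) ℤ}
    (h : red k n A = 1) (i j : Fin (k + 1)) : (n : ℤ) ∣ (A - 1) i j := by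
  have h1 : red k n A i j = red k n 1 i j := by rw [h, map_one]
  rw [red_apply, red_apply] at h1
  exact (ZMod.intCast_eq_intCast_iff_dvd_sub _ _ _).1 h1.symm

end NCong

open NCong in
theorem cong_of_foxNe {C L : Type} (r : FreeGroup (C ⊕ L)) (h : FoxNe r) : Cong (Tr r) := by
  classical
  obtain ⟨m, φ, a, x, hx, hφr, hxr⟩ := h
  intro k ρ hρ n hn
  obtain ⟨Λ, hΛ1, hΛ2, hΛ3⟩ := layer ρ hρ φ a x hx r hxr
  obtain ⟨M, F, hM, hF, hF'⟩ := pol_int_fin
    (fun (p : Fin (k + 1) × Fin (k + 1)) (Y : UT m) => Λ Y p.1 p.2) fun p => hΛ2 p.1 p.2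
  -- the values at the letters
  let b : C ⊕ L → UT m → Matrix (Fin (k + 1)) (Fin (k + 1)) ℤ := fun z Y =>
    Sum.elim (fun c => cj M (ρ (FreeGroup.of c)))
      (fun l => if l = a then lam M (fun p => F p Y) else 1) z
  have hbD : ∀ z Y, D 0 1 (b z Y - 1) := by
    rintro (c | l) Y
    · exact cj_D M (hρ _)
    · show D 0 1 ((if l = a then lam M (fun p => F p Y) else 1) - 1)
      split_ifs
      · exact lam_D M _
      · rw [sub_self]
        exact D_zero 0 1
  choose u hu using fun z Y => isUnit_of_D (hbD z Y)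
  obtain ⟨B, hB, hBz⟩ := exists_coc φ u
  have hBz' : ∀ z Y, B (FreeGroup.of z) Y = b z Y := fun z Y => by rw [hBz, hu]
  -- the rational cocycle
  have hM0 : ∀ i : ℕ, (M : ℚ) ^ i ≠ 0 := fun i => pow_ne_zero _ (by positivity)
  let A : FreeGroup (C ⊕ L) → UT m → Matrix (Fin (k + 1)) (Fin (k + 1)) ℚ := fun w Y =>
    Matrix.of fun i j => (B w Y i j : ℚ) * (M : ℚ) ^ (i : ℕ) / (M : ℚ) ^ (j : ℕ)
  have hA : ∀ w Y, Rel M (B w Y) (A w Y) := by
    intro w Y i j
    show _ = (B w Y i j : ℚ) * (M : ℚ) ^ (i : ℕ) / (M : ℚ) ^ (j : ℕ) * (M : ℚ) ^ (j : ℕ)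
    rw [div_mul_cancel₀ _ (hM0 j)]
  have hAc : Coc φ A := by
    refine ⟨fun Y => ?_, fun v w Y => ?_⟩
    · refine (hA 1 Y).unique' hM ?_
      rw [hB.one]
      exact Rel_one M
    · refine (hA (v * w) Y).unique' hM ?_
      rw [hB.mul]
      exact (hA v Y).mul (hA w _)
  have hAr : ∀ Y, A r Y = 1 := by
    refine hΛ3 A hAc ?_ ?_ ?_
    · intro c Y i j
      have h1 := hA (FreeGroup.of (Sum.inl c)) Y
      rw [hBz'] at h1
      have h2 := h1.unique' hM (cj_rel M hρ (FreeGroup.of c))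
      rw [h2, rhoQ_apply]
    · intro Y
      have h1 := hA (FreeGroup.of (Sum.inr a)) Y
      rw [hBz'] at h1
      have h2 : b (Sum.inr a) Y = lam M (fun p => F p Y) := if_pos rfl
      rw [h2] at h1
      exact h1.unique' hM (lam_rel (hΛ1 Y) fun p => hF p Y)
    · intro l hl Y
      have h1 := hA (FreeGroup.of (Sum.inr l)) Y
      rw [hBz'] at h1
      have h2 : b (Sum.inr l) Y = 1 := if_neg hl
      rw [h2] at h1
      exact h1.unique' hM (Rel_one M)
  have hBr : ∀ Y, B r Y = 1 := by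
    intro Y
    have h1 := hA r Y
    rw [hAr] at h1
    exact h1.unique hM (Rel_one M)
  -- the restriction to the common letters
  have hBC : ∀ g Y, B (inC g) Y = cj M (ρ g) := by
    have h1 : Coc (φ.comp inC) (fun (g : FreeGroup C) Y => B (inC g) Y) := by
      refine ⟨fun Y => ?_, fun v w Y => ?_⟩
      · rw [map_one]
        exact hB.one Y
      · rw [map_mul]
        exact hB.mul _ _ Y
    have h2 : Coc (φ.comp inC) (fun (g : FreeGroup C) (_ : UT m) => cj M (ρ g)) := by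
      refine ⟨fun Y => ?_, fun v w Y => ?_⟩
      · have h3 := cj_rel M hρ 1
        rw [map_one, map_one, Units.val_one] at h3
        show cj M (ρ 1) = 1
        rw [map_one]
        exact h3.unique hM (Rel_one M)
      · have h3 := cj_rel M hρ (v * w)
        rw [map_mul (rhoQ ρ), Units.val_mul] at h3
        exact h3.unique hM ((cj_rel M hρ v).mul (cj_rel M hρ w))
    have h3 := h1.unique h2 fun c Y => by
      show B (inC (FreeGroup.of c)) Y = cj M (ρ (FreeGroup.of c))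
      rw [inC, FreeGroup.map.of]
      exact hBz' (Sum.inl c) Y
    intro g Y
    exact congrFun (congrFun h3 g) Y
  -- reduction modulo `n M^k`
  have hn' : 0 < n * M ^ k := by positivity
  have : NeZero (n * M ^ k) := ⟨hn'.ne'⟩
  obtain ⟨Q, _, _, π, hπ, hπ'⟩ := ut_quot m (n * M ^ k) hn'
  obtain ⟨B', hB', hBz''⟩ := exists_coc (π.comp φ)
    (fun z q => Units.map (red k (n * M ^ k)) (u z (Function.surjInv hπ q)))
  have hBB : ∀ w Y, B' w (π Y) = red k (n * M ^ k) (B w Y) := by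
    have h1 : Coc φ (fun w Y => B' w (π Y)) := by
      refine ⟨fun Y => hB'.one _, fun v w Y => ?_⟩
      show B' (v * w) (π Y) = B' v (π Y) * B' w (π (Y * φ v))
      rw [hB'.mul, map_mul]
      rfl
    have h2 : Coc φ (fun w Y => red k (n * M ^ k) (B w Y)) := by
      refine ⟨fun Y => ?_, fun v w Y => ?_⟩
      · rw [hB.one, map_one]
      · rw [hB.mul, map_mul]
    have h3 := h1.unique h2 fun z Y => by
      show B' (FreeGroup.of z) (π Y) = red k (n * M ^ k) (B (FreeGroup.of z) Y)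
      rw [hBz'', hBz']
      show red k (n * M ^ k) (u z (Function.surjInv hπ (π Y))) = _
      rw [hu]
      refine red_eq fun i j => ?_
      have h4 := (hπ' _ _).1 (Function.surjInv_eq hπ (π Y))
      rcases z with c | l
      · show ((n * M ^ k : ℕ) : ℤ) ∣ cj M (ρ (FreeGroup.of c)) i j -
          cj M (ρ (FreeGroup.of c)) i j
        rw [sub_self]
        exact dvd_zero _
      · by_cases hl : l = a
        · have h5 : ∀ Y, b (Sum.inr l) Y = lam M (fun p => F p Y) := fun Y => if_pos hl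
          rw [h5, h5]
          exact lam_dvd (fun p => hF' p _ _ _ h4) i j
        · have h5 : ∀ Y, b (Sum.inr l) Y = 1 := fun Y => if_neg hl
          rw [h5, h5, sub_self]
          exact dvd_zero _
    intro w Y
    exact congrFun (congrFun h3 w) Y
  obtain ⟨N, hN1, hN2, hN3⟩ := coc_ker hB'
  refine ⟨N.comap inC, ⟨N, hN1, hN2, (hN3 r).2 ⟨?_, fun q => ?_⟩, rfl⟩, fun c hc i j => ?_⟩
  · rw [MonoidHom.comp_apply, hφr, map_one]
  · obtain ⟨Y, rfl⟩ := hπ q
    rw [hBB, hBr, map_one]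
  · have h1 := ((hN3 (inC c)).1 hc).2 (π 1)
    rw [hBB, hBC] at h1
    exact cj_dvd hM (hρ c) i j (dvd_of_red h1 i j)

end Pool.Agent.MP3f0e40.PL
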