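import Mathlib
import Pool.Agent.Lib.MP_3f0e40_al.PL.NDefs

set_option autoImplicit false

/-!
# MP_3f0e40_al, project PL: cyclic subgroups are closed if congruence quotients extend

`potent_cong`: the proof of `potent_of_rep` in `CycRtn.lean`, with the divisibilities in place of
the subgroup `cong`.

`cyc_of_cong`: as `cyc_of_rtn` in `CycRtn.lean`.
-/

namespace Pool.Agent.MP3f0e40.PL

open Pool.Agent.MP3f0e40

namespace NCyc

theorem potent_cong {Z : Type} {k : ℕ}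
    (ρ : FreeGroup Z →* Matrix (Fin (k + 1)) (Fin (k + 1)) ℤ) (hρ : ∀ g, D 0 1 (ρ g - 1))
    (s : FreeGroup Z) (hs : ρ s ≠ 1) (b : FreeGroup Z) : ∃ j : ℤ, ∀ n : ℕ, 0 < n →
      ∃ n' : ℕ, 0 < n' ∧
        ∀ i : ℤ, (∀ p q, (n' : ℤ) ∣ (ρ (b * s ^ (-i)) - 1) p q) → (n : ℤ) ∣ i - j := by
  classical
  obtain ⟨S, hS⟩ : ∃ S, S = ρ s - 1 := ⟨_, rfl⟩
  have hex : ∃ d, ∃ i j : Fin (k + 1), (j : ℕ) = i + d ∧ S i j ≠ 0 := by
    by_contra hcon
    push Not at hcon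
    apply hs
    rw [← sub_eq_zero, ← hS]
    ext i j
    rcases Nat.lt_or_ge (j : ℕ) i with h | h
    · rw [hS]
      exact zero_dvd_iff.1 (hρ s i j (by omega))
    · exact hcon (j - i) i j (by omega)
  obtain ⟨i₀, j₀, hij, hS0⟩ := Nat.find_spec hex
  obtain ⟨d, hd⟩ : ∃ d, d = Nat.find hex := ⟨_, rfl⟩
  rw [← hd] at hij
  have hρS : D 0 1 S := by
    rw [hS]
    exact hρ s
  have hSd : D 0 d S := by
    intro i j h
    rw [zero_dvd_iff]
    by_contra hne0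
    have h1 : ¬ ((j : ℕ) < i + 1) := fun h2 => hne0 (zero_dvd_iff.1 (hρS i j h2))
    rw [hd] at h
    exact Nat.find_min hex (by omega : (j : ℕ) - i < Nat.find hex) ⟨i, j, by omega, hne0⟩
  have hd1 : 1 ≤ d := by
    by_contra h
    exact hS0 (zero_dvd_iff.1 (hρS i₀ j₀ (by omega)))
  have h0 : ∀ x, D 0 0 (ρ x) := by
    intro x
    have := ((hρ x).mono (by omega : 0 ≤ 1)).add (D_one 0)
    rwa [sub_add_cancel] at this
  -- powers
  have hpow : ∀ l : ℕ, D 0 (d + 1) (ρ (s ^ l) - 1 - (l : ℤ) • S) := by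
    intro l
    induction l with
    | zero =>
      rw [pow_zero, map_one, sub_self]
      simp only [Nat.cast_zero, zero_smul, sub_zero]
      exact D_zero 0 _
    | succ l ih =>
      have h1 : ρ (s ^ (l + 1)) - 1 - ((l + 1 : ℕ) : ℤ) • S =
          (ρ (s ^ l) - 1) * S + (ρ (s ^ l) - 1 - (l : ℤ) • S) := by
        have h2 : ρ s = S + 1 := by rw [hS, sub_add_cancel]
        rw [pow_succ, map_mul, h2]
        push_cast
        rw [add_smul, one_smul]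
        noncomm_ring
      rw [h1]
      refine D.add ?_ ih
      have h3 := (hρ (s ^ l)).mul hSd
      exact h3.mono (by omega)
  have hzpow : ∀ l : ℤ, D 0 (d + 1) (ρ (s ^ l) - 1 - l • S) := by
    intro l
    obtain ⟨l, rfl | rfl⟩ := l.eq_nat_or_neg
    · rw [zpow_natCast]
      exact hpow l
    · rw [zpow_neg, zpow_natCast]
      have h1 : ρ (s ^ l)⁻¹ - 1 - (-(l : ℤ)) • S =
          -((ρ (s ^ l)⁻¹ - 1) * (ρ (s ^ l) - 1)) - (ρ (s ^ l) - 1 - (l : ℤ) • S) := by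
        have h2 : ρ (s ^ l)⁻¹ * ρ (s ^ l) = 1 := by rw [← map_mul, inv_mul_cancel, map_one]
        rw [sub_mul, mul_sub, h2, neg_smul]
        noncomm_ring
      rw [h1]
      refine D.sub (D.neg ?_) (hpow l)
      -- `ρ (s ^ l) - 1` lies deep
      have h3 : D 0 d (ρ (s ^ l) - 1) := by
        have := ((hpow l).mono (by omega : d ≤ d + 1)).add (hSd.smul (l : ℤ))
        rwa [sub_add_cancel] at this
      exact ((hρ _).mul h3).mono (by omega)
  refine ⟨ρ b i₀ j₀ / S i₀ j₀, fun n hn => ?_⟩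
  let n' : ℕ := n * (S i₀ j₀).natAbs
  have hn' : 0 < n' := Nat.mul_pos hn (Int.natAbs_pos.2 hS0)
  refine ⟨n', hn', fun i hi => ?_⟩
  have h1 : D n' (d + 1) (ρ (b * s ^ (-i)) - 1) := fun p q _ => hi p q
  have h2 : D n' (d + 1) (ρ b - ρ (s ^ i)) := by
    have h3 : ρ b - ρ (s ^ i) = (ρ (b * s ^ (-i)) - 1) * ρ (s ^ i) := by
      rw [sub_mul, ← map_mul, one_mul]
      congr 2
      rw [mul_assoc, ← zpow_add]
      simp
    rw [h3]
    have := D.mul h1 (h0 (s ^ i))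
    rwa [add_zero] at this
  have h3 := h2.sub ((hzpow i).of_zero (n' : ℤ) |>.neg)
  have h4 := h3 i₀ j₀ (by omega)
  have h5 : (ρ b - ρ (s ^ i) - -(ρ (s ^ i) - 1 - i • S)) i₀ j₀ = ρ b i₀ j₀ - i * S i₀ j₀ := by
    have h6 : (1 : Matrix (Fin (k + 1)) (Fin (k + 1)) ℤ) i₀ j₀ = 0 := Matrix.one_apply_ne (by
      intro h7
      rw [h7] at hij
      omega)
    simp only [Matrix.sub_apply, Matrix.neg_apply, Matrix.smul_apply, smul_eq_mul, h6]
    ring
  rw [h5] at h4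
  have h6 : (S i₀ j₀) ∣ ρ b i₀ j₀ := by
    have h7 : (S i₀ j₀) ∣ (n' : ℤ) := by
      show _ ∣ ((n * (S i₀ j₀).natAbs : ℕ) : ℤ)
      push_cast
      exact Dvd.dvd.mul_left (by rw [dvd_abs]) _
    have h8 := h7.trans h4
    exact (Int.dvd_iff_dvd_of_dvd_sub h8).2 (Dvd.intro_left i rfl)
  obtain ⟨c, hc⟩ := h6
  rw [hc, Int.mul_ediv_cancel_left c hS0]
  rw [hc] at h4
  have h7 : S i₀ j₀ * c - i * S i₀ j₀ = (c - i) * S i₀ j₀ := by ring
  rw [h7] at h4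
  have h8 : (n : ℤ) * |S i₀ j₀| ∣ (c - i) * S i₀ j₀ := by
    have : ((n' : ℕ) : ℤ) = (n : ℤ) * |S i₀ j₀| := by
      show ((n * (S i₀ j₀).natAbs : ℕ) : ℤ) = _
      push_cast
      rfl
    rwa [this] at h4
  have h9 : (n : ℤ) * S i₀ j₀ ∣ (c - i) * S i₀ j₀ := by
    rcases abs_choice (S i₀ j₀) with h | h
    · rwa [h] at h8
    · rw [h, mul_neg] at h8
      exact (neg_dvd).1 h8
  have h10 := Int.dvd_of_mul_dvd_mul_right hS0 h9
  have h11 : (n : ℤ) ∣ -(c - i) := (dvd_neg).2 h10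
  rwa [neg_sub] at h11

theorem sep {C : Type} {P : Subgroup (FreeGroup C) → Prop} (h : Cong P) {c : FreeGroup C}
    (hc : c ≠ 1) : ∃ M, P M ∧ c ∉ M := by
  obtain ⟨k, ρ, hρ, hρc⟩ := exists_rep_ne c hc
  obtain ⟨i, j, hij⟩ : ∃ i j, (ρ c - 1) i j ≠ 0 := by
    by_contra hcon
    push Not at hcon
    apply hρc
    rw [← sub_eq_zero]
    ext i j
    exact hcon i j
  obtain ⟨e, he⟩ : ∃ e, e = (ρ c - 1) i j := ⟨_, rfl⟩
  rw [← he] at hij
  obtain ⟨E, hE, hE'⟩ := h k ρ hρ (e.natAbs + 1) (Nat.succ_pos _)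
  refine ⟨E, hE, fun hm => ?_⟩
  have h1 := hE' c hm i j
  rw [← he, Int.natCast_dvd] at h1
  have h2 := Nat.le_of_dvd (Int.natAbs_pos.2 hij) h1
  omega

end NCyc

theorem cyc_of_cong {C : Type} (P : Subgroup (FreeGroup C) → Prop) (hP : Fam P)
    (h : Cong P) : Cyc P := by
  intro v b hb
  by_cases hv : v = 1
  · have hb1 : b ≠ 1 := by
      have := hb 0
      rwa [zpow_zero] at this
    obtain ⟨M, h1, h2⟩ := NCyc.sep h hb1
    refine ⟨M, h1, fun i hi => h2 ?_⟩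
    rw [hv, one_zpow, mul_one] at hi
    exact hi
  · obtain ⟨k, ρ, hρ, hρv⟩ := exists_rep_ne v hv
    obtain ⟨j, hj⟩ := NCyc.potent_cong ρ hρ v hρv b
    have hne : b * v ^ (-j) ≠ 1 := fun h1 => hb j (by
      rw [zpow_neg, mul_inv_eq_one] at h1
      exact h1)
    obtain ⟨M, hM1, hM2⟩ := NCyc.sep h hne
    have hMn := hP.nrm M hM1
    have hMf := hP.fin M hM1
    obtain ⟨n', hn', hn''⟩ := hj M.index (Nat.pos_of_ne_zero hMf.index_ne_zero)
    obtain ⟨E, hE, hE'⟩ := h k ρ hρ n' hn'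
    refine ⟨M ⊓ E, hP.inf _ _ hM1 hE, fun i hi => hM2 ?_⟩
    obtain ⟨c, hc⟩ := hn'' i (hE' _ hi.2)
    have h1 : v ^ (i - j) ∈ M := by
      rw [hc, zpow_mul, zpow_natCast]
      exact M.zpow_mem (M.pow_index_mem _) c
    have h2 := M.mul_mem hi.1 h1
    rw [mul_assoc, ← zpow_add] at h2
    have h3 : -i + (i - j) = -j := by ring
    rwa [h3] at h2

end Pool.Agent.MP3f0e40.PL
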