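import Mathlib
import Pool.Agent.Lib.MP_3f0e40_al.PL.NCoc

set_option autoImplicit false

/-!
# MP_3f0e40_al, project PL: words surviving the deletion of the common letters

`foxNe_of_del`: by `exists_rep_ne` (`Magnus.lean`) there are `k` and an integral unitriangular
representation `ρ : F(L) → Mat_{k+1}(ℤ)` with `ρ (del r) ≠ 1`; take `k` minimal (`Nat.find`).
`k ≠ 0`, since `1 × 1` unitriangular matrices are `1`; so `k = m + 1`. The upper left block `ρ'` of
`ρ` of size `m + 1` is again a unitriangular representation, so `ρ' (del r) = 1` by minimality of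
`k`. Let `β w` be the upper `m + 1` entries of the last column of `ρ w`: `β (v w) = β v + ρ' v β w`
(the last row of `ρ v` is `0, …, 0, 1`), and `β (del r) ≠ 0` because `ρ (del r) ≠ 1`,
`ρ' (del r) = 1`. Let `φ : F(C ∪ L) → UT m` be `ρ'` after `del`. Suppose the Fox derivatives
`x_a r` (`exists_fox`, with respect to the letters `a ∈ L`) all vanish. For a ring homomorphism
`Θ : ℤ[UT m] → Mat_{m+1}(ℤ)` extending the inclusion (`MonoidAlgebra.lift`) one has
`β (del w) = ∑_{a ∈ L} Θ(x_a w) β(a)`, the sum over any finite set of letters containing those of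
`w` (induct on `w`: there is a finite set `T` such that the formula holds with the sum over every
finite set containing `T`; or use `exists_crossed` with `M = L →₀ ℤ[UT m]`). So `β (del r) = 0`,
a contradiction.
-/

namespace Pool.Agent.MP3f0e40.PL

open Pool.Agent.MP3f0e40

namespace NMin

open Matrix

/-- Crossed maps which agree on the letters are equal. -/
theorem crossed_unique {Z : Type} {m : ℕ} (A : FreeGroup Z →* Matrix (Fin m) (Fin m) ℤ)
    (f g : FreeGroup Z → Fin m → ℤ) (hf : ∀ v w, f (v * w) = f v + A v *ᵥ f w)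
    (hg : ∀ v w, g (v * w) = g v + A v *ᵥ g w)
    (h : ∀ z, f (FreeGroup.of z) = g (FreeGroup.of z)) : f = g := by
  have h1 : ∀ f : FreeGroup Z → Fin m → ℤ, (∀ v w, f (v * w) = f v + A v *ᵥ f w) →
      f 1 = 0 := by
    intro f hf
    have h2 := hf 1 1
    rw [mul_one, map_one, one_mulVec] at h2
    exact left_eq_add.1 h2
  have h2 : ∀ f : FreeGroup Z → Fin m → ℤ, (∀ v w, f (v * w) = f v + A v *ᵥ f w) →
      ∀ w, f w⁻¹ = -(A w⁻¹ *ᵥ f w) := by
    intro f hf w
    have h3 := hf w⁻¹ w
    rw [inv_mul_cancel, h1 f hf] at h3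
    exact eq_neg_of_add_eq_zero_left h3.symm
  funext w
  refine FreeGroup.induction_on w ?_ h ?_ ?_
  · rw [h1 f hf, h1 g hg]
  · intro z hz
    rw [h2 f hf, h2 g hg, hz]
  · intro v w hv hw
    rw [hf, hg, hv, hw]

theorem ent_lt {k : ℕ} {A : Matrix (Fin (k + 1)) (Fin (k + 1)) ℤ} (h : D 0 1 (A - 1))
    {i j : Fin (k + 1)} (hij : (j : ℕ) < i) : A i j = 0 := by
  have h1 := zero_dvd_iff.1 (h i j (by omega))
  rw [Matrix.sub_apply, one_apply_ne (by rintro rfl; exact lt_irrefl _ hij), sub_zero] at h1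
  exact h1

theorem ent_eq {k : ℕ} {A : Matrix (Fin (k + 1)) (Fin (k + 1)) ℤ} (h : D 0 1 (A - 1))
    (i : Fin (k + 1)) : A i i = 1 := by
  have h1 := zero_dvd_iff.1 (h i i (by omega))
  rw [Matrix.sub_apply, one_apply_eq] at h1
  exact sub_eq_zero.1 h1

section Blk

variable {G : Type} [Group G] {m : ℕ} (ρ : G →* Matrix (Fin (m + 1 + 1)) (Fin (m + 1 + 1)) ℤ)
  (hρ : ∀ g, D 0 1 (ρ g - 1))

/-- The upper left block. -/
def blk : G →* Matrix (Fin (m + 1)) (Fin (m + 1)) ℤ where
  toFun g := (ρ g).submatrix Fin.castSucc Fin.castSucc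
  map_one' := by
    rw [map_one]
    exact submatrix_one _ (Fin.castSucc_injective _)
  map_mul' g h := by
    ext i j
    rw [map_mul, submatrix_apply, mul_apply, mul_apply, Fin.sum_univ_castSucc,
      ent_lt (hρ h) (i := Fin.last (m + 1)) (j := j.castSucc) j.2, mul_zero, add_zero]
    rfl

theorem blk_apply (g : G) (i j : Fin (m + 1)) :
    blk ρ hρ g i j = ρ g i.castSucc j.castSucc := rfl

theorem blk_D (g : G) : D 0 1 (blk ρ hρ g - 1) := by
  intro i j hij
  have h1 := hρ g i.castSucc j.castSucc hij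
  rw [Matrix.sub_apply, one_apply] at h1 ⊢
  rw [blk_apply]
  have h2 : (i.castSucc = j.castSucc) ↔ i = j := (Fin.castSucc_injective _).eq_iff
  rwa [if_congr h2 rfl rfl] at h1

/-- The upper part of the last column. -/
def col (g : G) : Fin (m + 1) → ℤ := fun i => ρ g i.castSucc (Fin.last (m + 1))

include hρ in
theorem col_mul (g h : G) : col ρ (g * h) = col ρ g + blk ρ hρ g *ᵥ col ρ h := by
  funext i
  change ρ (g * h) i.castSucc (Fin.last (m + 1)) = ρ g i.castSucc (Fin.last (m + 1)) +
    ∑ j : Fin (m + 1), ρ g i.castSucc j.castSucc * ρ h j.castSucc (Fin.last (m + 1))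
  rw [map_mul, mul_apply, Fin.sum_univ_castSucc, ent_eq (hρ h), mul_one, add_comm]

theorem col_one : col ρ 1 = 0 := by
  funext i
  change ρ 1 i.castSucc (Fin.last (m + 1)) = 0
  rw [map_one, one_apply_ne (Fin.castSucc_lt_last i).ne]

include hρ in
theorem eq_one {g : G} (h1 : blk ρ hρ g = 1) (h2 : col ρ g = 0) : ρ g = 1 := by
  ext i j
  induction i using Fin.lastCases with
  | last =>
    induction j using Fin.lastCases with
    | last => rw [ent_eq (hρ g), one_apply_eq]
    | cast j =>
      rw [ent_lt (hρ g) (i := Fin.last (m + 1)) (j := j.castSucc) j.2,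
        one_apply_ne (Fin.castSucc_lt_last j).ne']
  | cast i =>
    induction j using Fin.lastCases with
    | last =>
      rw [one_apply_ne (Fin.castSucc_lt_last i).ne]
      exact congrFun h2 i
    | cast j =>
      rw [← blk_apply ρ hρ, h1, one_apply, one_apply]
      exact if_congr (Fin.castSucc_injective _).eq_iff.symm rfl rfl

end Blk

/-- A unitriangular representation as a homomorphism to `UT m`. -/
noncomputable def toUT {G : Type} [Group G] {m : ℕ}
    (f : G →* Matrix (Fin (m + 1)) (Fin (m + 1)) ℤ) (hf : ∀ g, D 0 1 (f g - 1)) : G →* UT m :=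
  f.toHomUnits.codRestrict (UT m) fun g => ⟨hf g, by
    rw [← map_inv]
    exact hf g⁻¹⟩

/-- The representation of the group ring. -/
noncomputable def Th (m : ℕ) :
    MonoidAlgebra ℤ (UT m) →ₐ[ℤ] Matrix (Fin (m + 1)) (Fin (m + 1)) ℤ :=
  MonoidAlgebra.lift ℤ (Matrix (Fin (m + 1)) (Fin (m + 1)) ℤ) (UT m)
    ((Units.coeHom _).comp (UT m).subtype)

theorem Th_of {m : ℕ} (q : UT m) : Th m (MonoidAlgebra.of ℤ (UT m) q) =
    ((q : (Matrix (Fin (m + 1)) (Fin (m + 1)) ℤ)ˣ) : Matrix (Fin (m + 1)) (Fin (m + 1)) ℤ) :=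
  MonoidAlgebra.lift_of _ _

/-- Evaluation at vectors. -/
noncomputable def Ps {m : ℕ} {L : Type} (b : L → Fin (m + 1) → ℤ) :
    (L →₀ MonoidAlgebra ℤ (UT m)) →+ (Fin (m + 1) → ℤ) :=
  Finsupp.liftAddHom fun a =>
    { toFun := fun y => Th m y *ᵥ b a
      map_zero' := by rw [map_zero, zero_mulVec]
      map_add' := fun x y => by rw [map_add, add_mulVec] }

theorem Ps_single {m : ℕ} {L : Type} (b : L → Fin (m + 1) → ℤ) (a : L)
    (y : MonoidAlgebra ℤ (UT m)) : Ps b (Finsupp.single a y) = Th m y *ᵥ b a := by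
  unfold Ps
  rw [Finsupp.liftAddHom_apply_single]
  rfl

theorem Ps_smul {m : ℕ} {L : Type} (b : L → Fin (m + 1) → ℤ) (x : MonoidAlgebra ℤ (UT m))
    (f : L →₀ MonoidAlgebra ℤ (UT m)) : Ps b (x • f) = Th m x *ᵥ Ps b f := by
  induction f using Finsupp.induction_linear with
  | zero => rw [smul_zero, map_zero, mulVec_zero]
  | add f g hf hg => rw [smul_add, map_add, map_add, hf, hg, mulVec_add]
  | single a y => rw [Finsupp.smul_single, Ps_single, Ps_single, smul_eq_mul, map_mul,
      mulVec_mulVec]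

theorem main {C L : Type} (r : FreeGroup (C ⊕ L)) (k : ℕ) :
    ∀ ρ : FreeGroup L →* Matrix (Fin (k + 1)) (Fin (k + 1)) ℤ, (∀ g, D 0 1 (ρ g - 1)) →
      ρ (del r) ≠ 1 → FoxNe r := by
  induction k with
  | zero =>
    intro ρ hρ hne
    exfalso
    apply hne
    ext i j
    have hij : i = j := Subsingleton.elim (α := Fin 1) _ _
    rw [hij, ent_eq (hρ _), one_apply_eq]
  | succ m ih =>
    intro ρ hρ hne
    by_cases hb : blk ρ hρ (del r) = 1
    swap
    · exact ih (blk ρ hρ) (blk_D ρ hρ) hb
    obtain ⟨d, hd1, hd2⟩ := @exists_crossed (C ⊕ L) (UT m) (L →₀ MonoidAlgebra ℤ (UT m)) _ _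
      (DistribMulAction.compHom _ (MonoidAlgebra.of ℤ (UT m)))
      ((toUT (blk ρ hρ) (blk_D ρ hρ)).comp del)
      (Sum.elim (fun _ => 0) fun a => Finsupp.single a 1)
    set φ : FreeGroup (C ⊕ L) →* UT m := (toUT (blk ρ hρ) (blk_D ρ hρ)).comp del with hφ
    have hd3 : ∀ v w, d (v * w) = d v + MonoidAlgebra.of ℤ (UT m) (φ v) • d w := hd2
    by_cases hr : ∃ a, d r a ≠ 0
    · obtain ⟨a, ha⟩ := hr
      refine ⟨m, φ, a, fun w => d w a, ⟨?_, ?_, ?_⟩, ?_, ha⟩
      · rw [hd1]
        exact Finsupp.single_eq_same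
      · intro z hz
        rw [hd1]
        rcases z with c | a'
        · rfl
        · exact Finsupp.single_eq_of_ne fun h => hz (by rw [h])
      · intro v w
        rw [hd3, Finsupp.add_apply, Finsupp.smul_apply, smul_eq_mul]
        rfl
      · exact Subtype.ext (Units.ext hb)
    · exfalso
      have h0 : d r = 0 := by
        ext1 a
        by_contra ha
        exact hr ⟨a, ha⟩
      have key : (fun w => col ρ (del w)) =
          fun w => Ps (fun a => col ρ (FreeGroup.of a)) (d w) := by
        refine crossed_unique ((blk ρ hρ).comp del) _ _ ?_ ?_ ?_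
        · intro v w
          rw [map_mul, col_mul ρ hρ]
          rfl
        · intro v w
          rw [hd3, map_add, Ps_smul, Th_of]
          rfl
        · intro z
          rw [hd1]
          rcases z with c | a
          · have h1 : del (FreeGroup.of (Sum.inl c) : FreeGroup (C ⊕ L)) = 1 := by
              unfold del
              rw [FreeGroup.lift_apply_of]
              rfl
            rw [h1, col_one]
            exact (map_zero _).symm
          · have h1 : del (FreeGroup.of (Sum.inr a) : FreeGroup (C ⊕ L)) = FreeGroup.of a := by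
              unfold del
              rw [FreeGroup.lift_apply_of]
              rfl
            rw [h1]
            refine Eq.trans ?_ (Ps_single _ a 1).symm
            rw [map_one, one_mulVec]
      have h1 := congrFun key r
      beta_reduce at h1
      rw [h0, map_zero] at h1
      exact hne (eq_one ρ hρ hb h1)

end NMin

theorem foxNe_of_del {C L : Type} (r : FreeGroup (C ⊕ L)) (h : del r ≠ 1) : FoxNe r := by
  obtain ⟨k, ρ, hρ, hne⟩ := exists_rep_ne (del r) h
  exact NMin.main r k ρ hρ hne

end Pool.Agent.MP3f0e40.PL
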