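import Mathlib

set_option autoImplicit false

/-!
# MP_3f0e40_al, project PL: equations over finite `p`-groups

Let `Γ` be a finite `p`-group, `r` a word in the letters `Z` (coefficients, with values `f`) and
one unknown `none`, whose exponent sum `n` in `r` is prime to `p`. Then `r(α, f) = γ` has a solution
`α ∈ Γ` for every `γ ∈ Γ`.

Proof. Induction on the order of `Γ` (for all `f`, `γ`). If `Γ` is trivial take `α = 1`. Otherwise
the centre `Z(Γ)` is nontrivial (`IsPGroup.center_nontrivial`), so `Γ ⧸ Z(Γ)` is a smaller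
`p`-group, and by induction there is `α ∈ Γ` with `r(α, f) = γ ζ`, `ζ ∈ Z(Γ)`. For `ξ ∈ Z(Γ)`
one has
`r(α ξ, f) = r(α, f) ξⁿ` (the map `v ↦ v(α, f) ξ^{n(v)}`, `n(v)` the exponent sum of `none`, is a
homomorphism with the right values on letters). Since `n` is prime to `p`, `ξ ↦ ξⁿ` is bijective on
the finite abelian `p`-group `Z(Γ)`; choose `ξⁿ = ζ⁻¹`.
-/

namespace Pool.Agent.MP3f0e40.PL

namespace PAdic

/-- the exponent sum of the unknown -/
def deg (Z : Type) : FreeGroup (Option Z) →* Multiplicative ℤ :=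
  FreeGroup.lift (fun o : Option Z => o.elim (Multiplicative.ofAdd (1 : ℤ)) fun _ => 1)

/-- evaluation at `α ξ` with `ξ` in the centre -/
theorem eval_mul {Z Γ : Type} [Group Γ] (f : Z → Γ) (α ξ : Γ) (hξ : ξ ∈ Subgroup.center Γ)
    (r : FreeGroup (Option Z)) :
    FreeGroup.lift (fun o : Option Z => o.elim (α * ξ) f) r =
      FreeGroup.lift (fun o : Option Z => o.elim α f) r *
        ξ ^ (Multiplicative.toAdd (deg Z r)) := by
  have hc : ∀ k : ℤ, ξ ^ k ∈ Subgroup.center Γ := fun k => Subgroup.zpow_mem _ hξ k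
  let φ : FreeGroup (Option Z) →* Γ :=
    { toFun := fun v => FreeGroup.lift (fun o : Option Z => o.elim α f) v *
        ξ ^ (Multiplicative.toAdd (deg Z v))
      map_one' := by simp
      map_mul' := fun v w => by
        rw [map_mul, map_mul, toAdd_mul, zpow_add]
        have h1 := Subgroup.mem_center_iff.1 (hc (Multiplicative.toAdd (deg Z v)))
          (FreeGroup.lift (fun o : Option Z => o.elim α f) w)
        simp only [mul_assoc]
        congr 1
        rw [← mul_assoc, h1, mul_assoc] }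
  have hφ : FreeGroup.lift (fun o : Option Z => o.elim (α * ξ) f) = φ := by
    refine FreeGroup.ext_hom _ _ fun o => ?_
    rcases o with _ | z
    · change FreeGroup.lift (fun o : Option Z => o.elim (α * ξ) f) (FreeGroup.of none) =
        FreeGroup.lift (fun o : Option Z => o.elim α f) (FreeGroup.of none) *
          ξ ^ (Multiplicative.toAdd (deg Z (FreeGroup.of none)))
      simp [deg]
    · change FreeGroup.lift (fun o : Option Z => o.elim (α * ξ) f) (FreeGroup.of (some z)) =
        FreeGroup.lift (fun o : Option Z => o.elim α f) (FreeGroup.of (some z)) *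
          ξ ^ (Multiplicative.toAdd (deg Z (FreeGroup.of (some z))))
      simp [deg]
  rw [hφ]
  rfl

/-- roots in finite `p`-groups -/
theorem exists_root {p : ℕ} [Fact p.Prime] {G : Type} [Group G] (hG : IsPGroup p G) {n : ℤ}
    (hn : ¬ (p : ℤ) ∣ n) (g : G) : ∃ x : G, x ^ n = g := by
  have hco : p.Coprime n.natAbs := by
    rw [Nat.Prime.coprime_iff_not_dvd Fact.out]
    intro h
    exact hn (Int.natCast_dvd.2 h)
  rcases Int.natAbs_eq n with h | h
  · obtain ⟨x, hx⟩ := (hG.powEquiv hco).surjective g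
    refine ⟨x, ?_⟩
    rw [h, zpow_natCast]
    exact hx
  · obtain ⟨x, hx⟩ := (hG.powEquiv hco).surjective g⁻¹
    refine ⟨x, ?_⟩
    rw [h, zpow_neg, zpow_natCast, inv_eq_iff_eq_inv]
    exact hx

theorem main {p : ℕ} [Fact p.Prime] {Z : Type} (r : FreeGroup (Option Z)) (n : ℤ)
    (hn : deg Z r = Multiplicative.ofAdd n) (hp : ¬ (p : ℤ) ∣ n) (N : ℕ) :
    ∀ (Γ : Type) [Group Γ] [Finite Γ], Nat.card Γ ≤ N → IsPGroup p Γ → ∀ (f : Z → Γ) (γ : Γ),
      ∃ α : Γ, FreeGroup.lift (fun o : Option Z => o.elim α f) r = γ := by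
  induction N with
  | zero =>
    intro Γ _ _ hN
    have h1 : 0 < Nat.card Γ := Nat.card_pos
    omega
  | succ N ih =>
    intro Γ _ _ hN hΓ f γ
    rcases subsingleton_or_nontrivial Γ with hs | hs
    · exact ⟨1, Subsingleton.elim _ _⟩
    · have hZ : Nontrivial (Subgroup.center Γ) := hΓ.center_nontrivial
      have hcard := Subgroup.card_eq_card_quotient_mul_card_subgroup (Subgroup.center Γ)
      have h2 : 1 < Nat.card (Subgroup.center Γ) := Finite.one_lt_card
      have h3 : 0 < Nat.card (Γ ⧸ Subgroup.center Γ) := Nat.card_pos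
      have h4 : Nat.card (Γ ⧸ Subgroup.center Γ) < Nat.card Γ := by
        rw [hcard]
        exact lt_mul_of_one_lt_right h3 h2
      obtain ⟨α', hα'⟩ := ih (Γ ⧸ Subgroup.center Γ) (by omega)
        (hΓ.to_quotient (Subgroup.center Γ)) (fun z => (f z : Γ ⧸ Subgroup.center Γ))
        (γ : Γ ⧸ Subgroup.center Γ)
      obtain ⟨α, rfl⟩ := QuotientGroup.mk_surjective α'
      have h5 : (QuotientGroup.mk' (Subgroup.center Γ)).comp
          (FreeGroup.lift (fun o : Option Z => o.elim α f)) =
          FreeGroup.lift (fun o : Option Z => o.elim (α : Γ ⧸ Subgroup.center Γ)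
            (fun z => (f z : Γ ⧸ Subgroup.center Γ))) := by
        refine FreeGroup.ext_hom _ _ fun o => ?_
        rcases o with _ | z <;> simp
      rw [← h5] at hα'
      change ((FreeGroup.lift (fun o : Option Z => o.elim α f) r : Γ) :
        Γ ⧸ Subgroup.center Γ) = _ at hα'
      rw [QuotientGroup.eq] at hα'
      obtain ⟨ξ, hξ⟩ := exists_root (hΓ.to_subgroup (Subgroup.center Γ)) hp ⟨_, hα'⟩
      refine ⟨α * ξ, ?_⟩
      rw [eval_mul f α ξ ξ.2, hn, toAdd_ofAdd]
      have h6 : (ξ : Γ) ^ n = (FreeGroup.lift (fun o : Option Z => o.elim α f) r)⁻¹ * γ := by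
        have h7 := congrArg (Subtype.val) hξ
        rw [Subgroup.coe_zpow] at h7
        exact h7
      rw [h6, mul_inv_cancel_left]

end PAdic

theorem p_solve (p : ℕ) [Fact p.Prime] {Z : Type} (r : FreeGroup (Option Z)) (n : ℤ)
    (hn : FreeGroup.lift (fun o : Option Z => o.elim (Multiplicative.ofAdd (1 : ℤ)) fun _ => 1) r =
      Multiplicative.ofAdd n) (hp : ¬ (p : ℤ) ∣ n) (Γ : Type) [Group Γ] [Finite Γ]
    (hΓ : IsPGroup p Γ) (f : Z → Γ) (γ : Γ) :
    ∃ α : Γ, FreeGroup.lift (fun o : Option Z => o.elim α f) r = γ :=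
  PAdic.main r n hn hp (Nat.card Γ) Γ le_rfl hΓ f γ

end Pool.Agent.MP3f0e40.PL
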