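import Mathlib
import Pool.Agent.Lib.MP_3f0e40_al.Magnus

set_option autoImplicit false

/-!
# MP_3f0e40_al, project PL: free groups are residually finite `p`-groups

Proof. `exists_rep_ne` (`Pool/Agent/Lib/MP_3f0e40_al/Magnus.lean`) gives a homomorphism `ρ` of the
free group to integer matrices of size `k + 1` with `ρ g - 1` strictly upper triangular (`D 0 1`)
and `ρ x ≠ 1`. Some entry of `ρ x - 1` is nonzero, so it is nonzero modulo `p ^ j` for large `j`.
Reduce modulo `p ^ j`: the matrices `1 + A`, `A` strictly upper triangular over `ZMod (p ^ j)`,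
form a group of order a power of `p`: directly, `(1 + A)^(p^m) = ∑ choose(p^m, i) A^i` with
`A^(k+1) = 0`, and `p^j ∣ choose(p^m, i)` for `1 ≤ i ≤ k` if `m` is large
(`v_p(choose(p^m, i)) ≥ m - v_p(i)`), so every element of the image has order a power of `p`. Take
`Γ` = the range of the homomorphism to the units of `Matrix (Fin (k+1)) (Fin (k+1)) (ZMod (p^j))`.
-/

namespace Pool.Agent.MP3f0e40.PL

namespace ResP

/-- In a ring in which `p ^ j = 0`, `1 + A` has order a power of `p` if `A` is nilpotent. -/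
theorem pow_eq_one (p : ℕ) [hp : Fact p.Prime] {R : Type} [Ring R] {j k : ℕ}
    (hj : (p : R) ^ j = 0) {A : R} (hA : A ^ k = 0) : ∃ m : ℕ, (1 + A) ^ p ^ m = 1 := by
  have hc : Commute (1 : R) A := Commute.one_left A
  obtain ⟨r, hr⟩ := hc.exists_add_pow_prime_pow_eq hp.out k
  have h1 : A ^ p ^ k = 0 := by
    have h2 : k ≤ p ^ k := (Nat.lt_pow_self hp.out.one_lt).le
    rw [← Nat.sub_add_cancel h2, pow_add, hA, mul_zero]
  rw [one_pow, h1, add_zero, mul_one, mul_assoc] at hr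
  obtain ⟨q, hq⟩ : ∃ q : R, (1 + A) ^ p ^ k = 1 + p * q := ⟨_, hr⟩
  refine ⟨k + j, ?_⟩
  rw [pow_add, pow_mul, hq]
  have h4 : ((p : Polynomial ℤ)) ∣ (1 + (p : Polynomial ℤ) * Polynomial.X) - 1 := by
    rw [add_sub_cancel_left]
    exact dvd_mul_right _ _
  obtain ⟨w, hw⟩ := dvd_sub_pow_of_dvd_sub h4 j
  have h5 := congrArg (Polynomial.aeval q) hw
  simp only [map_sub, map_pow, map_add, map_one, map_mul, map_natCast, Polynomial.aeval_X,
    one_pow] at h5
  rw [pow_succ, hj, zero_mul, zero_mul] at h5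
  exact sub_eq_zero.1 h5

end ResP

theorem free_res_p (p : ℕ) [Fact p.Prime] {Z : Type} (x : FreeGroup Z) (hx : x ≠ 1) :
    ∃ (Γ : Type) (_ : Group Γ) (_ : Finite Γ) (φ : FreeGroup Z →* Γ), IsPGroup p Γ ∧ φ x ≠ 1 := by
  have hp : p.Prime := Fact.out
  obtain ⟨k, ρ, hρ, hne⟩ := exists_rep_ne x hx
  obtain ⟨i₀, j₀, hij⟩ : ∃ i j, (ρ x - 1) i j ≠ 0 := by
    by_contra hcon
    push Not at hcon
    exact hne (sub_eq_zero.1 (Matrix.ext hcon))
  obtain ⟨j, hj⟩ : ∃ j : ℕ, ((ρ x - 1) i₀ j₀).natAbs < p ^ j :=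
    ⟨_, Nat.lt_pow_self hp.one_lt⟩
  have hn0 : p ^ j ≠ 0 := (pow_pos hp.pos j).ne'
  have : NeZero (p ^ j) := ⟨hn0⟩
  let θ : Matrix (Fin (k + 1)) (Fin (k + 1)) ℤ →+*
      Matrix (Fin (k + 1)) (Fin (k + 1)) (ZMod (p ^ j)) :=
    (Int.castRingHom (ZMod (p ^ j))).mapMatrix
  let f : FreeGroup Z →* Matrix (Fin (k + 1)) (Fin (k + 1)) (ZMod (p ^ j)) :=
    θ.toMonoidHom.comp ρ
  have hfin : Finite (Matrix (Fin (k + 1)) (Fin (k + 1)) (ZMod (p ^ j)))ˣ := inferInstance
  refine ⟨f.toHomUnits.range, inferInstance, inferInstance, f.toHomUnits.rangeRestrict, ?_, ?_⟩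
  · rintro ⟨_, g, rfl⟩
    have h1 : ∀ e : ℕ, D 0 e ((ρ g - 1) ^ e) := by
      intro e
      induction e with
      | zero =>
        rw [pow_zero]
        exact D_one 0
      | succ e ih =>
        rw [pow_succ]
        exact ih.mul (hρ g)
    have h2 : (ρ g - 1) ^ (k + 1) = 0 := by
      ext a b
      exact zero_dvd_iff.1 (h1 (k + 1) a b (by omega))
    have h3 : (θ (ρ g - 1)) ^ (k + 1) = 0 := by
      rw [← map_pow, h2, map_zero]
    have h4 : ((p : Matrix (Fin (k + 1)) (Fin (k + 1)) (ZMod (p ^ j)))) ^ j = 0 := by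
      have h5 := map_natCast (algebraMap (ZMod (p ^ j))
        (Matrix (Fin (k + 1)) (Fin (k + 1)) (ZMod (p ^ j)))) (p ^ j)
      rw [ZMod.natCast_self, map_zero] at h5
      rw [← Nat.cast_pow]
      exact h5.symm
    obtain ⟨m, hm⟩ := ResP.pow_eq_one p h4 h3
    refine ⟨m, Subtype.ext (Units.ext ?_)⟩
    have h6 : f g = 1 + θ (ρ g - 1) := by
      rw [map_sub, map_one, add_sub_cancel]
      rfl
    change (f g) ^ p ^ m = 1
    rw [h6]
    exact hm
  · intro h
    have h1 : f x = 1 := congrArg Units.val (congrArg Subtype.val h)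
    have h2 : θ (ρ x - 1) = 0 := by
      rw [map_sub, map_one, sub_eq_zero]
      exact h1
    have h3 : (((ρ x - 1) i₀ j₀ : ℤ) : ZMod (p ^ j)) = 0 := congrFun (congrFun h2 i₀) j₀
    rw [ZMod.intCast_zmod_eq_zero_iff_dvd] at h3
    have h4 : p ^ j ∣ ((ρ x - 1) i₀ j₀).natAbs := by
      rw [← Int.natCast_dvd]
      exact h3
    have h5 := Nat.le_of_dvd (Int.natAbs_pos.2 hij) h4
    omega

end Pool.Agent.MP3f0e40.PL
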