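import Mathlib
import Pool.Agent.Lib.MP_3f0e40_al.PL.Fam
import Pool.Agent.Lib.MP_3f0e40_al.PL.PAdic
import Pool.Agent.Lib.MP_3f0e40_al.PL.ResP

set_option autoImplicit false

/-!
# MP_3f0e40_al, project PL: relators with a private letter of nonzero exponent sum

`r ∈ F(C ∪ L)`, `a ∈ L` a letter whose exponent sum in `r` is not zero.

`tf_of_exp`: `expo a` kills `F(C)`, so it takes the value `expo a r ≠ 1` on `r F(C)` and the value
`1` on the conjugates of elements of `F(C)`.

`sepd_of_exp`: let `c ∈ F(C)`, `c ≠ 1`; choose a prime `p` not dividing the exponent sum `n` and a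
homomorphism `φ : F(C) → Γ` to a finite `p`-group with `φ c ≠ 1` (`free_res_p`). Let all letters of
`L` different from `a` go to `1`; by `p_solve` (with `Z = C ∪ (L ∖ {a})`, `γ = 1`; rename the
letters by a map `C ⊕ L → Option Z`, `inr a ↦ none`, e.g. with `Z = C ⊕ L` itself: send `x` to
`none` if `x = inr a` and to `some x` otherwise) there is `α ∈ Γ` such that the homomorphism
`F(C ∪ L) → Γ` extending `φ` with `a ↦ α` kills `r`. Its kernel `N` is normal of finite index,
`r ∈ N`, and `D = N ∩ F(C)` does not contain `c`.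
-/

namespace Pool.Agent.MP3f0e40.PL

open Pool.Agent.MP3f0e40

namespace SepExp

theorem expo_inC {C L : Type} (a : L) (c : FreeGroup C) :
    expo (Sum.inr a : C ⊕ L) (inC c) = 1 := by
  have h : (expo (Sum.inr a : C ⊕ L)).comp inC = 1 := by
    refine FreeGroup.ext_hom _ _ fun x => ?_
    simp [inC, expo]
  exact DFunLike.congr_fun h c

open Classical in
/-- `inr a` becomes the unknown -/
noncomputable def ren {C L : Type} (a : L) (x : C ⊕ L) : Option (C ⊕ L) :=
  if x = Sum.inr a then none else some x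

theorem deg_ren {C L : Type} (a : L) (r : FreeGroup (C ⊕ L)) :
    FreeGroup.lift (fun o : Option (C ⊕ L) =>
      o.elim (Multiplicative.ofAdd (1 : ℤ)) fun _ => 1) (FreeGroup.map (ren a) r) =
    expo (Sum.inr a) r := by
  have h : (FreeGroup.lift (fun o : Option (C ⊕ L) =>
      o.elim (Multiplicative.ofAdd (1 : ℤ)) fun _ => 1)).comp (FreeGroup.map (ren a)) =
      expo (Sum.inr a) := by
    refine FreeGroup.ext_hom _ _ fun x => ?_
    rw [MonoidHom.comp_apply, FreeGroup.map.of, FreeGroup.lift_apply_of, expo,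
      FreeGroup.lift_apply_of, ren]
    by_cases hx : x = Sum.inr a
    · simp [hx]
    · simp [hx]
  exact DFunLike.congr_fun h r

end SepExp

theorem tf_of_exp {C L : Type} (r : FreeGroup (C ⊕ L)) (a : L) (ha : expo (Sum.inr a) r ≠ 1) :
    TF r := by
  intro c d g h
  have h1 := congrArg (expo (Sum.inr a)) h
  rw [map_mul, SepExp.expo_inC, mul_one, map_mul, map_mul, SepExp.expo_inC, mul_one, map_inv,
    mul_inv_cancel] at h1
  exact ha h1

theorem sepd_of_exp {C L : Type} (r : FreeGroup (C ⊕ L)) (a : L)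
    (ha : expo (Sum.inr a) r ≠ 1) : Sepd (Tr r) := by
  classical
  intro c hc
  set n : ℤ := Multiplicative.toAdd (expo (Sum.inr a) r) with hn
  have hn0 : n ≠ 0 := by
    intro h
    apply ha
    rw [← ofAdd_toAdd (expo (Sum.inr a) r), ← hn, h, ofAdd_zero]
  obtain ⟨p, hp1, hp2⟩ := Nat.exists_infinite_primes (n.natAbs + 1)
  haveI : Fact p.Prime := ⟨hp2⟩
  have hpn : ¬ (p : ℤ) ∣ n := by
    intro h
    have h1 := Int.natCast_dvd.1 h
    have h2 := Nat.le_of_dvd (Int.natAbs_pos.2 hn0) h1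
    omega
  obtain ⟨Γ, _, _, φ, hΓ, hφ⟩ := free_res_p p c hc
  obtain ⟨α, hα⟩ := p_solve p (FreeGroup.map (SepExp.ren a) r) n
    (by rw [SepExp.deg_ren, hn, ofAdd_toAdd]) hpn Γ hΓ
    (Sum.elim (fun x => φ (FreeGroup.of x)) fun _ => 1) 1
  set Ψ : FreeGroup (C ⊕ L) →* Γ :=
    (FreeGroup.lift (fun o : Option (C ⊕ L) =>
      o.elim α (Sum.elim (fun x => φ (FreeGroup.of x)) fun _ => 1))).comp
      (FreeGroup.map (SepExp.ren a)) with hΨ
  have h1 : Ψ.comp inC = φ := by
    refine FreeGroup.ext_hom _ _ fun x => ?_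
    rw [MonoidHom.comp_apply, inC, FreeGroup.map.of, hΨ, MonoidHom.comp_apply,
      FreeGroup.map.of, FreeGroup.lift_apply_of, SepExp.ren]
    simp
  refine ⟨Ψ.ker.comap inC, ⟨Ψ.ker, inferInstance, inferInstance, ?_, rfl⟩, ?_⟩
  · rw [MonoidHom.mem_ker]
    exact hα
  · rw [Subgroup.mem_comap, MonoidHom.mem_ker]
    intro h2
    apply hφ
    rw [← h1]
    exact h2

end Pool.Agent.MP3f0e40.PL
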