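import Mathlib
import Pool.Agent.Lib.MP_3f0e40_al.PL.Fam

set_option autoImplicit false
set_option linter.unusedSectionVars false

/-!
# MP_3f0e40_al, project PL: malnormality of `F(C)` relative to `⟨C, w⟩`

`F = F(C ∪ L)`, `w ∈ F`, and no element of the coset `w F(C)` is conjugate in `F` to an element of
`F(C)` (`TF w`). `U = (iF w).range` is the subgroup generated by `C` and `w`. Claim: if `k ∈ F(C)`,
`k ≠ 1`, `g ∈ F` and `g⁻¹ k g ∈ U` then `g ∈ U`.

Proof. Write `|x|` for the number of letters of `L` in the reduced word of `x`; `|x y| ≤ |x| + |y|`,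
`|x| = 0` iff `x ∈ F(C)`.
(0) Let `w = c₁ t c₂`, `c₁, c₂ ∈ F(C)`, such that the reduced word of `t` begins and ends with a
letter of `L` (`w ∉ F(C)` by `TF.notMem`). `U` is generated by `C` and `t`, and `t` is not
conjugate to an element of `F(C)`: `t = c₁⁻¹ w c₂⁻¹` is conjugate to `w c₂⁻¹ c₁⁻¹`.
(1) `t = h t₀ h⁻¹`, reduced as written, `t₀` cyclically reduced (Mathlib:
`FreeGroup.reduceCyclically`, `conj_conjugator_reduceCyclically`); `t₀` contains a letter of `L`
since `t` is not conjugate into `F(C)`. So for `e ≠ 0` the reduced word of `t ^ e` is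
`h t₀ᵉ h⁻¹`; it begins and ends with a letter of `L`, and `|t ^ e| ≥ |e|`.
(2) Every `u ∈ U` is conjugate in `U` to (a) an element of `F(C)`, or (b) `t ^ e`, `e ≠ 0`, or (c) a
product `u' = c₁ t^{e₁} c₂ t^{e₂} ⋯ cₙ t^{eₙ}`, `n ≥ 1`, all `cᵢ ∈ F(C)`, `cᵢ ≠ 1`, `eᵢ ≠ 0` (cyclic
reduction in the free product `F(C) * ⟨t⟩`; take a conjugate with the least number of factors, or
use induction on words of `F(C ∪ {none})`).
(3) In case (b) `|u'ᵐ| = |t^{em}| ≥ m`; in case (c) there is no cancellation between neighbouring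
factors in the power `u'ᵐ` (a letter of `C` meets a letter of `L`), so `|u'ᵐ| ≥ m` as well.
(4) Let `u = g⁻¹ k g ∈ U` and `u = u₁ u' u₁⁻¹` with `u₁ ∈ U` and `u'` as in (2). Then
`u'ᵐ = q⁻¹ kᵐ q` with `q = g u₁`, so `|u'ᵐ| ≤ 2 |q|` for all `m`, which excludes (b) and (c). So
`u' ∈ F(C)` and `u' ≠ 1`.
(5) `F(C)` is malnormal in `F`: if `1 ≠ u' ∈ F(C)`, `q⁻¹ k q = u'`, `k ∈ F(C)`, then `q ∈ F(C)`
(write
`q = q' c` with `q'` ending in a letter of `L` if `q ∉ F(C)`; then `k = q u' q⁻¹ =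
q' (c u' c⁻¹) q'⁻¹` is reduced as written and contains letters of `L`, contradiction). So
`g = q u₁⁻¹ ∈ U`.
-/

namespace Pool.Agent.MP3f0e40.PL

open Pool.Agent.MP3f0e40

namespace WordMal

open FreeGroup (IsReduced isReduced_toWord reduceCyclically)

section Lists

variable {C L : Type}

/-- letters of `L` -/
def rt (a : (C ⊕ L) × Bool) : Bool := a.1.isRight

/-- the word begins and ends with a letter of `L` -/
def En (l : List ((C ⊕ L) × Bool)) : Prop :=
  (∃ a ∈ l.head?, rt a = true) ∧ ∃ a ∈ l.getLast?, rt a = true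

theorem En.ne_nil {l : List ((C ⊕ L) × Bool)} (h : En l) : l ≠ [] := by
  rintro rfl
  obtain ⟨⟨a, ha, -⟩, -⟩ := h
  simp at ha

theorem En.pos {l : List ((C ⊕ L) × Bool)} (h : En l) : 1 ≤ l.countP rt := by
  obtain ⟨⟨a, ha, ra⟩, -⟩ := h
  exact List.countP_pos_iff.2 ⟨a, List.mem_of_mem_head? ha, ra⟩

theorem En.invRev {l : List ((C ⊕ L) × Bool)} (h : En l) : En (FreeGroup.invRev l) := by
  obtain ⟨⟨a, ha, ra⟩, ⟨b, hb, rb⟩⟩ := h
  unfold FreeGroup.invRev
  refine ⟨⟨(b.1, !b.2), ?_, rb⟩, ⟨(a.1, !a.2), ?_, ra⟩⟩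
  · rw [List.head?_reverse, List.getLast?_map, Option.mem_def.1 hb]
    rfl
  · rw [List.getLast?_reverse, List.head?_map, Option.mem_def.1 ha]
    rfl

theorem first_split {β : Type} (p : β → Bool) (l : List β) (h : ∃ a ∈ l, p a = true) :
    ∃ u a r, l = u ++ a :: r ∧ (∀ x ∈ u, p x = false) ∧ p a = true := by
  induction l with
  | nil => simp at h
  | cons b l ih =>
    by_cases hb : p b = true
    · exact ⟨[], b, l, rfl, by simp, hb⟩
    · obtain ⟨a, ha, pa⟩ := h
      have ha' : a ∈ l := by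
        rcases List.mem_cons.1 ha with rfl | ha
        · exact absurd pa hb
        · exact ha
      obtain ⟨u, a', r, e, h1, h2⟩ := ih ⟨a, ha', pa⟩
      refine ⟨b :: u, a', r, by rw [e]; rfl, ?_, h2⟩
      intro x hx
      rcases List.mem_cons.1 hx with rfl | hx
      · simpa using hb
      · exact h1 x hx

theorem split_list (l : List ((C ⊕ L) × Bool)) (h : ∃ a ∈ l, rt a = true) :
    ∃ u m v, l = u ++ m ++ v ∧ (∀ x ∈ u, rt x = false) ∧ (∀ x ∈ v, rt x = false) ∧ En m := by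
  obtain ⟨u, a, r, e, h1, h2⟩ := first_split rt l h
  obtain ⟨v, b, s, e', h3, h4⟩ := first_split rt (a :: r).reverse
    ⟨a, by simp, h2⟩
  have e2 : a :: r = (s.reverse ++ [b]) ++ v.reverse := by
    have := congrArg List.reverse e'
    rw [List.reverse_reverse] at this
    rw [this]
    simp
  refine ⟨u, s.reverse ++ [b], v.reverse, ?_, h1, ?_, ⟨a, ?_, h2⟩, ⟨b, ?_, h4⟩⟩
  · rw [e, e2]
    simp
  · intro x hx
    exact h3 x (List.mem_reverse.1 hx)
  · have h5 : (a :: r).head? = some a := rfl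
    rw [e2, List.head?_append] at h5
    cases hh : (s.reverse ++ [b]).head? with
    | none => simp at hh
    | some x =>
      rw [hh] at h5
      simpa using h5
  · simp

theorem count_rep (l : List ((C ⊕ L) × Bool)) (n : ℕ) :
    ((List.replicate n l).flatten).countP rt = n * l.countP rt := by
  induction n with
  | zero => simp
  | succ n ih =>
    rw [List.replicate_succ, List.flatten_cons, List.countP_append, ih]
    ring

theorem mk_left (l : List ((C ⊕ L) × Bool)) (h : ∀ a ∈ l, rt a = false) :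
    ∃ c : FreeGroup C, (FreeGroup.mk l : FreeGroup (C ⊕ L)) = inC c := by
  induction l with
  | nil => exact ⟨1, by rw [map_one]; rfl⟩
  | cons a l ih =>
    obtain ⟨c, hc⟩ := ih fun x hx => h x (List.mem_cons_of_mem _ hx)
    obtain ⟨a1, a2⟩ := a
    have ha : rt ((a1, a2) : (C ⊕ L) × Bool) = false := h _ List.mem_cons_self
    rcases a1 with x | x
    · refine ⟨FreeGroup.mk [(x, a2)] * c, ?_⟩
      have h1 : (FreeGroup.mk ((Sum.inl x, a2) :: l) : FreeGroup (C ⊕ L)) =
          FreeGroup.mk [(Sum.inl x, a2)] * FreeGroup.mk l := by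
        rw [FreeGroup.mul_mk]
        rfl
      rw [h1, hc, map_mul]
      rfl
    · simp [rt] at ha

end Lists

variable {C L : Type} [DecidableEq C] [DecidableEq L]

/-- number of letters of `L` -/
def cnt (x : FreeGroup (C ⊕ L)) : ℕ := x.toWord.countP rt

theorem inC_letters (c : FreeGroup C) : ∀ a ∈ (inC (L := L) c).toWord, rt a = false := by
  have h1 : inC (L := L) c = FreeGroup.mk (c.toWord.map fun x => (Sum.inl x.1, x.2)) := by
    conv_lhs => rw [← FreeGroup.mk_toWord (x := c)]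
    exact FreeGroup.map.mk
  rw [h1, FreeGroup.toWord_mk]
  intro a ha
  have h2 := (FreeGroup.reduce.red (L := c.toWord.map fun x => ((Sum.inl x.1 : C ⊕ L), x.2))).sublist.subset ha
  obtain ⟨x, -, rfl⟩ := List.mem_map.1 h2
  rfl

theorem exists_inC (x : FreeGroup (C ⊕ L)) (h : ∀ a ∈ x.toWord, rt a = false) :
    ∃ c : FreeGroup C, x = inC c := by
  obtain ⟨c, hc⟩ := mk_left x.toWord h
  rw [FreeGroup.mk_toWord] at hc
  exact ⟨c, hc⟩

theorem cnt_inC (c : FreeGroup C) : cnt (inC (L := L) c) = 0 := by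
  unfold cnt
  rw [List.countP_eq_zero]
  intro a ha
  rw [inC_letters c a ha]
  simp

theorem cnt_mul_le (x y : FreeGroup (C ⊕ L)) : cnt (x * y) ≤ cnt x + cnt y := by
  unfold cnt
  rw [← List.countP_append]
  exact (FreeGroup.toWord_mul_sublist x y).countP_le

theorem cnt_inv (x : FreeGroup (C ⊕ L)) : cnt x⁻¹ = cnt x := by
  unfold cnt
  rw [FreeGroup.toWord_inv]
  unfold FreeGroup.invRev
  rw [List.countP_reverse, List.countP_map]
  rfl

theorem red_append {l₁ l₂ : List ((C ⊕ L) × Bool)} (h₁ : IsReduced l₁) (h₂ : IsReduced l₂)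
    (h : ∀ x ∈ l₁.getLast?, ∀ y ∈ l₂.head?, rt x ≠ rt y) : IsReduced (l₁ ++ l₂) := by
  refine List.IsChain.append h₁ h₂ fun x hx y hy hxy => ?_
  exact absurd (by unfold rt; rw [hxy]) (h x hx y hy)

theorem toWord_mul3 (x y : FreeGroup (C ⊕ L)) (c : FreeGroup C) (hx : En x.toWord)
    (hy : En y.toWord) (hc : c ≠ 1) :
    (x * inC c * y).toWord = x.toWord ++ (inC (L := L) c).toWord ++ y.toWord := by
  have hne : (inC (L := L) c).toWord ≠ [] := by
    rw [Ne, FreeGroup.toWord_eq_nil_iff]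
    intro h
    exact hc (inC_injective (L := L) (by rw [h, map_one]))
  have h1 : IsReduced (x.toWord ++ (inC (L := L) c).toWord) := by
    refine red_append isReduced_toWord isReduced_toWord fun a ha b hb => ?_
    obtain ⟨a', ha', ra⟩ := hx.2
    have haa : a = a' := Option.mem_unique ha ha'
    rw [haa, ra, inC_letters c b (List.mem_of_mem_head? hb)]
    simp
  have h2 : (x * inC c).toWord = x.toWord ++ (inC (L := L) c).toWord := by
    rw [FreeGroup.toWord_mul, h1.reduce_eq]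
  have h3 : IsReduced (x.toWord ++ (inC (L := L) c).toWord ++ y.toWord) := by
    refine red_append h1 isReduced_toWord fun a ha b hb => ?_
    obtain ⟨b', hb', rb⟩ := hy.1
    have hbb : b = b' := Option.mem_unique hb hb'
    have ha2 : a ∈ (inC (L := L) c).toWord := by
      rw [List.getLast?_append, List.getLast?_eq_some_getLast hne] at ha
      have : a = (inC (L := L) c).toWord.getLast hne := by simpa using ha.symm
      rw [this]
      exact List.getLast_mem hne
    rw [hbb, rb, inC_letters c a ha2]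
    simp
  rw [FreeGroup.toWord_mul, h2, h3.reduce_eq]

theorem En_append {l₁ l₂ l₃ : List ((C ⊕ L) × Bool)} (h₁ : En l₁) (h₃ : En l₃) :
    En (l₁ ++ l₂ ++ l₃) := by
  obtain ⟨⟨a, ha, ra⟩, -⟩ := h₁
  obtain ⟨-, ⟨b, hb, rb⟩⟩ := h₃
  refine ⟨⟨a, ?_, ra⟩, ⟨b, ?_, rb⟩⟩
  · rw [List.head?_append, List.head?_append, Option.mem_def.1 ha]
    rfl
  · rw [List.getLast?_append, Option.mem_def.1 hb]
    rfl

theorem mul3 (x y : FreeGroup (C ⊕ L)) (c : FreeGroup C) (hx : En x.toWord)
    (hy : En y.toWord) (hc : c ≠ 1) :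
    En (x * inC c * y).toWord ∧ cnt (x * inC c * y) = cnt x + cnt y := by
  have h1 := toWord_mul3 x y c hx hy hc
  refine ⟨?_, ?_⟩
  · rw [h1]
    exact En_append hx hy
  · unfold cnt
    rw [h1, List.countP_append, List.countP_append]
    have := cnt_inC (L := L) c
    unfold cnt at this
    rw [this, Nat.add_zero]

/-- decomposition of an element outside `F(C)` -/
theorem decomp (x : FreeGroup (C ⊕ L)) (hx : ¬ ∃ c : FreeGroup C, x = inC c) :
    ∃ (c₁ : FreeGroup C) (t : FreeGroup (C ⊕ L)) (c₂ : FreeGroup C),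
      x = inC c₁ * t * inC c₂ ∧ En t.toWord := by
  have h1 : ∃ a ∈ x.toWord, rt a = true := by
    by_contra hcon
    push Not at hcon
    exact hx (exists_inC x fun a ha => by simpa using hcon a ha)
  obtain ⟨u, m, v, e, hu, hv, hm⟩ := split_list x.toWord h1
  obtain ⟨c₁, hc₁⟩ := mk_left u hu
  obtain ⟨c₂, hc₂⟩ := mk_left v hv
  have hred : IsReduced m := by
    have h2 : IsReduced x.toWord := isReduced_toWord
    rw [e] at h2
    exact List.IsChain.right_of_append (List.IsChain.left_of_append h2)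
  refine ⟨c₁, FreeGroup.mk m, c₂, ?_, ?_⟩
  · rw [← hc₁, ← hc₂, FreeGroup.mul_mk, FreeGroup.mul_mk, ← e, FreeGroup.mk_toWord]
  · rw [FreeGroup.toWord_mk, hred.reduce_eq]
    exact hm

/-- `F(C)` is malnormal in `F(C ∪ L)` -/
theorem mal (q : FreeGroup (C ⊕ L)) (a b : FreeGroup C) (ha : a ≠ 1)
    (h : q * inC a * q⁻¹ = inC b) : ∃ c : FreeGroup C, q = inC c := by
  by_contra hcon
  obtain ⟨c₁, t, c₂, rfl, ht⟩ := decomp q hcon
  have ht' : En (t⁻¹).toWord := by
    rw [FreeGroup.toWord_inv]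
    exact ht.invRev
  have hne : c₂ * a * c₂⁻¹ ≠ 1 := by
    intro h1
    exact ha (conj_eq_one_iff.1 h1)
  have h1 : t * inC (c₂ * a * c₂⁻¹) * t⁻¹ = inC (c₁⁻¹ * b * c₁) := by
    rw [map_mul, map_mul, map_mul, map_mul, map_inv, map_inv, ← h]
    group
  have h2 := (mul3 t t⁻¹ _ ht ht' hne).2
  rw [h1, cnt_inC] at h2
  have h3 : 1 ≤ cnt t := ht.pos
  omega

/-- powers -/
theorem pow_facts (t : FreeGroup (C ⊕ L)) (ht : En t.toWord)
    (hnc : ∀ (d : FreeGroup C) (g : FreeGroup (C ⊕ L)), t ≠ g * inC d * g⁻¹) (n : ℕ) :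
    En (t ^ (n + 1)).toWord ∧ n + 1 ≤ cnt (t ^ (n + 1)) := by
  obtain ⟨h, hh⟩ : ∃ h, h = reduceCyclically.conjugator t.toWord := ⟨_, rfl⟩
  obtain ⟨s, hs⟩ : ∃ s, s = reduceCyclically t.toWord := ⟨_, rfl⟩
  have hT : h ++ s ++ FreeGroup.invRev h = t.toWord := by
    rw [hh, hs]
    exact reduceCyclically.conj_conjugator_reduceCyclically _
  have hW : (t ^ (n + 1)).toWord =
      h ++ (List.replicate (n + 1) s).flatten ++ FreeGroup.invRev h := by
    rw [FreeGroup.toWord_pow, hh, hs]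
    exact reduceCyclically.reduce_flatten_replicate_succ isReduced_toWord n
  have hsr : ∃ a ∈ s, rt a = true := by
    by_contra hcon
    push Not at hcon
    obtain ⟨d, hd⟩ := mk_left s fun a ha => by simpa using hcon a ha
    refine hnc d (FreeGroup.mk h) ?_
    rw [← hd, FreeGroup.inv_mk, FreeGroup.mul_mk, FreeGroup.mul_mk, hT, FreeGroup.mk_toWord]
  have hs1 : 1 ≤ s.countP rt := List.countP_pos_iff.2 hsr
  have hsne : s ≠ [] := by
    rintro rfl
    simp at hsr
  refine ⟨?_, ?_⟩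
  · rw [hW]
    rw [← hT] at ht
    rcases eq_or_ne h [] with h0 | h0
    · rw [h0] at ht ⊢
      rw [List.nil_append, FreeGroup.invRev_empty, List.append_nil] at ht ⊢
      refine ⟨?_, ?_⟩
      · rw [List.replicate_succ, List.flatten_cons, List.head?_append]
        obtain ⟨a, ha, ra⟩ := ht.1
        refine ⟨a, ?_, ra⟩
        rw [Option.mem_def.1 ha]
        rfl
      · rw [List.replicate_succ', List.flatten_append, List.getLast?_append]
        obtain ⟨a, ha, ra⟩ := ht.2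
        refine ⟨a, ?_, ra⟩
        simp [Option.mem_def.1 ha]
    · have hi : FreeGroup.invRev h ≠ [] := by
        intro h1
        have := congrArg List.length h1
        rw [FreeGroup.invRev_length] at this
        exact h0 (List.length_eq_zero_iff.1 this)
      refine ⟨?_, ?_⟩
      · obtain ⟨a, ha, ra⟩ := ht.1
        refine ⟨a, ?_, ra⟩
        rw [List.head?_append, List.head?_append, List.head?_eq_some_head h0] at ha ⊢
        exact ha
      · obtain ⟨a, ha, ra⟩ := ht.2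
        refine ⟨a, ?_, ra⟩
        rw [List.getLast?_append, List.getLast?_eq_some_getLast hi] at ha ⊢
        exact ha
  · unfold cnt
    rw [hW, List.countP_append, List.countP_append, count_rep]
    have h1 : n + 1 ≤ (n + 1) * s.countP rt := Nat.le_mul_of_pos_right _ hs1
    omega

theorem zpow_facts (t : FreeGroup (C ⊕ L)) (ht : En t.toWord)
    (hnc : ∀ (d : FreeGroup C) (g : FreeGroup (C ⊕ L)), t ≠ g * inC d * g⁻¹) (e : ℤ)
    (he : e ≠ 0) : En (t ^ e).toWord ∧ e.natAbs ≤ cnt (t ^ e) := by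
  rcases lt_or_gt_of_ne he with h | h
  · obtain ⟨n, rfl⟩ : ∃ n : ℕ, e = -((n + 1 : ℕ) : ℤ) := ⟨(-e).toNat - 1, by omega⟩
    have h1 := pow_facts t ht hnc n
    rw [zpow_neg, zpow_natCast, cnt_inv, FreeGroup.toWord_inv]
    refine ⟨h1.1.invRev, ?_⟩
    rw [Int.natAbs_neg, Int.natAbs_natCast]
    exact h1.2
  · obtain ⟨n, rfl⟩ : ∃ n : ℕ, e = ((n + 1 : ℕ) : ℤ) := ⟨e.toNat - 1, by omega⟩
    have h1 := pow_facts t ht hnc n
    rw [zpow_natCast, Int.natAbs_natCast]
    exact h1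

/-- alternating products -/
def val (t : FreeGroup (C ⊕ L)) : ℤ → List (FreeGroup C × ℤ) → FreeGroup (C ⊕ L)
  | e, [] => t ^ e
  | e, p :: l => t ^ e * inC p.1 * val t p.2 l

/-- no trivial syllables -/
def Gd (l : List (FreeGroup C × ℤ)) : Prop := ∀ p ∈ l, p.1 ≠ 1 ∧ p.2 ≠ 0

theorem val_facts (t : FreeGroup (C ⊕ L)) (ht : En t.toWord)
    (hnc : ∀ (d : FreeGroup C) (g : FreeGroup (C ⊕ L)), t ≠ g * inC d * g⁻¹)
    (l : List (FreeGroup C × ℤ)) (e : ℤ) (he : e ≠ 0) (hl : Gd l) :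
    En (val t e l).toWord := by
  induction l generalizing e with
  | nil => exact (zpow_facts t ht hnc e he).1
  | cons p l ih =>
    obtain ⟨h1, h2⟩ := hl p List.mem_cons_self
    exact (mul3 _ _ _ (zpow_facts t ht hnc e he).1
      (ih p.2 h2 fun q hq => hl q (List.mem_cons_of_mem _ hq)) h1).1

theorem val_snoc (t : FreeGroup (C ⊕ L)) (l : List (FreeGroup C × ℤ)) (e : ℤ)
    (c : FreeGroup C) (e' : ℤ) :
    val t e (l ++ [(c, e')]) = val t e l * inC c * t ^ e' := by
  induction l generalizing e with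
  | nil => rfl
  | cons p l ih =>
    change t ^ e * inC p.1 * val t p.2 (l ++ [(c, e')]) = t ^ e * inC p.1 * val t p.2 l * inC c * t ^ e'
    rw [ih]
    group

theorem val_mem (t : FreeGroup (C ⊕ L)) (U : Subgroup (FreeGroup (C ⊕ L))) (htU : t ∈ U)
    (hCU : ∀ c : FreeGroup C, inC c ∈ U) (l : List (FreeGroup C × ℤ)) (e : ℤ) :
    val t e l ∈ U := by
  induction l generalizing e with
  | nil => exact U.zpow_mem htU e
  | cons p l ih => exact U.mul_mem (U.mul_mem (U.zpow_mem htU e) (hCU _)) (ih _)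

theorem Gd.snoc {l : List (FreeGroup C × ℤ)} (h : Gd l) {c : FreeGroup C} {e : ℤ}
    (hc : c ≠ 1) (he : e ≠ 0) : Gd (l ++ [(c, e)]) := by
  intro p hp
  rcases List.mem_append.1 hp with hp | hp
  · exact h p hp
  · rw [List.mem_singleton.1 hp]
    exact ⟨hc, he⟩

/-- right multiplication by a power of `t` -/
theorem val_mul (t : FreeGroup (C ⊕ L)) (l : List (FreeGroup C × ℤ)) (e : ℤ) (he : e ≠ 0)
    (hl : Gd l) (a : ℤ) :
    (∃ l', l'.length = l.length ∧ Gd l' ∧ ∃ e', e' ≠ 0 ∧ val t e l * t ^ a = val t e' l') ∨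
      (l = [] ∧ val t e l * t ^ a = 1) ∨
      ∃ l' c, l'.length < l.length ∧ Gd l' ∧ val t e l * t ^ a = val t e l' * inC c := by
  rcases List.eq_nil_or_concat' l with rfl | ⟨l', p, rfl⟩
  · have h1 : val t e [] * t ^ a = t ^ (e + a) := by rw [zpow_add]; rfl
    by_cases h2 : e + a = 0
    · right; left
      rw [h1, h2, zpow_zero]
      exact ⟨rfl, rfl⟩
    · left
      exact ⟨[], rfl, hl, e + a, h2, h1⟩
  · obtain ⟨c, e'⟩ := p
    have hl' : Gd l' := fun q hq => hl q (List.mem_append_left _ hq)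
    obtain ⟨hc, he'⟩ := hl (c, e') (List.mem_append_right _ (List.mem_singleton.2 rfl))
    have h1 : val t e (l' ++ [(c, e')]) * t ^ a = val t e l' * inC c * t ^ (e' + a) := by
      rw [val_snoc, zpow_add]
      group
    by_cases h2 : e' + a = 0
    · right; right
      refine ⟨l', c, by simp, hl', ?_⟩
      rw [h1, h2, zpow_zero, mul_one]
    · left
      refine ⟨l' ++ [(c, e' + a)], by simp, hl'.snoc hc h2, e, he, ?_⟩
      rw [h1, val_snoc]

/-- normal forms -/
theorem normal (t : FreeGroup (C ⊕ L)) (u : FreeGroup (C ⊕ L))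
    (hu : u ∈ Subgroup.closure (Set.range (fun c : FreeGroup C => (inC c : FreeGroup (C ⊕ L))) ∪
      {t})) :
    (∃ c : FreeGroup C, u = inC c) ∨
      ∃ (c : FreeGroup C) (e : ℤ) (l : List (FreeGroup C × ℤ)) (d : FreeGroup C),
        e ≠ 0 ∧ Gd l ∧ u = inC c * val t e l * inC d := by
  have step : ∀ (u : FreeGroup (C ⊕ L)) (a : ℤ), a ≠ 0 → ((∃ c : FreeGroup C, u = inC c) ∨
      ∃ (c : FreeGroup C) (e : ℤ) (l : List (FreeGroup C × ℤ)) (d : FreeGroup C),
        e ≠ 0 ∧ Gd l ∧ u = inC c * val t e l * inC d) →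
      ((∃ c : FreeGroup C, u * t ^ a = inC c) ∨
      ∃ (c : FreeGroup C) (e : ℤ) (l : List (FreeGroup C × ℤ)) (d : FreeGroup C),
        e ≠ 0 ∧ Gd l ∧ u * t ^ a = inC c * val t e l * inC d) := by
    rintro u a ha (⟨c, rfl⟩ | ⟨c, e, l, d, he, hl, rfl⟩)
    · right
      refine ⟨c, a, [], 1, ha, fun p hp => by simp at hp, ?_⟩
      rw [map_one, mul_one]
      rfl
    · by_cases hd : d = 1
      · rw [hd, map_one, mul_one]
        rcases val_mul t l e he hl a with ⟨l', -, hl', e', he', h⟩ | ⟨-, h⟩ | ⟨l', c', -, hl', h⟩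
        · right
          exact ⟨c, e', l', 1, he', hl', by rw [map_one, mul_one, mul_assoc, h]⟩
        · left
          exact ⟨c, by rw [mul_assoc, h, mul_one]⟩
        · right
          exact ⟨c, e, l', c', he, hl', by rw [mul_assoc, h, mul_assoc]⟩
      · right
        refine ⟨c, e, l ++ [(d, a)], 1, he, hl.snoc hd ha, ?_⟩
        rw [val_snoc, map_one, mul_one]
        group
  induction hu using Subgroup.closure_induction_right with
  | one => exact Or.inl ⟨1, by rw [map_one]⟩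
  | mul_right x hx y hy ih =>
    rcases hy with ⟨c', rfl⟩ | hy
    · rcases ih with ⟨c, rfl⟩ | ⟨c, e, l, d, he, hl, rfl⟩
      · exact Or.inl ⟨c * c', by rw [map_mul]⟩
      · exact Or.inr ⟨c, e, l, d * c', he, hl, by rw [map_mul, ← mul_assoc]⟩
    · rw [Set.mem_singleton_iff.1 hy]
      have := step x 1 one_ne_zero ih
      rwa [zpow_one] at this
  | mul_inv_cancel x hx y hy ih =>
    rcases hy with ⟨c', rfl⟩ | hy
    · rcases ih with ⟨c, rfl⟩ | ⟨c, e, l, d, he, hl, rfl⟩
      · exact Or.inl ⟨c * c'⁻¹, by rw [map_mul, map_inv]⟩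
      · exact Or.inr ⟨c, e, l, d * c'⁻¹, he, hl, by rw [map_mul, map_inv, ← mul_assoc]⟩
    · rw [Set.mem_singleton_iff.1 hy]
      have := step x (-1) (by norm_num) ih
      rwa [zpow_neg, zpow_one] at this

/-- bounded powers -/
def Bd (x : FreeGroup (C ⊕ L)) : Prop := ∃ B : ℕ, ∀ m : ℕ, cnt (x ^ m) ≤ B

theorem Bd.conj {x : FreeGroup (C ⊕ L)} (h : Bd x) (v : FreeGroup (C ⊕ L)) :
    Bd (v⁻¹ * x * v) := by
  obtain ⟨B, hB⟩ := h
  refine ⟨cnt v⁻¹ + B + cnt v, fun m => ?_⟩
  have h1 : (v⁻¹ * x * v) ^ m = v⁻¹ * x ^ m * v := by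
    have := conj_pow (a := v⁻¹) (b := x) (i := m)
    rwa [inv_inv] at this
  rw [h1]
  have h2 := cnt_mul_le (v⁻¹ * x ^ m) v
  have h3 := cnt_mul_le v⁻¹ (x ^ m)
  have h4 := hB m
  omega

theorem bd_inC (c : FreeGroup C) : Bd (inC (L := L) c) := by
  refine ⟨0, fun m => ?_⟩
  rw [← map_pow, cnt_inC]

theorem not_bd_mul (x : FreeGroup (C ⊕ L)) (hx : En x.toWord) (d : FreeGroup C) (hd : d ≠ 1) :
    ¬ Bd (x * inC d) := by
  rintro ⟨B, hB⟩
  have key : ∀ m : ℕ, ∃ y : FreeGroup (C ⊕ L), (x * inC d) ^ (m + 1) = y * inC d ∧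
      En y.toWord ∧ m + 1 ≤ cnt y := by
    intro m
    induction m with
    | zero => exact ⟨x, by rw [zero_add, pow_one], hx, hx.pos⟩
    | succ m ih =>
      obtain ⟨y, h1, h2, h3⟩ := ih
      obtain ⟨h4, h5⟩ := mul3 y x d h2 hx hd
      refine ⟨y * inC d * x, ?_, h4, ?_⟩
      · rw [pow_succ, h1]
        group
      · rw [h5]
        have : 1 ≤ cnt x := hx.pos
        omega
  obtain ⟨y, h1, h2, h3⟩ := key B
  have h4 : y = (x * inC d) ^ (B + 1) * inC d⁻¹ := by
    rw [h1, map_inv]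
    group
  have h5 := cnt_mul_le ((x * inC d) ^ (B + 1)) (inC d⁻¹)
  rw [← h4, cnt_inC] at h5
  have h6 := hB (B + 1)
  omega

theorem not_bd_zpow (t : FreeGroup (C ⊕ L)) (ht : En t.toWord)
    (hnc : ∀ (d : FreeGroup C) (g : FreeGroup (C ⊕ L)), t ≠ g * inC d * g⁻¹) (e : ℤ)
    (he : e ≠ 0) : ¬ Bd (t ^ e) := by
  rintro ⟨B, hB⟩
  have h1 := hB (B + 1)
  rw [← zpow_natCast, ← zpow_mul] at h1
  have h2 : e * ((B + 1 : ℕ) : ℤ) ≠ 0 := mul_ne_zero he (by exact_mod_cast Nat.succ_ne_zero B)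
  have h3 := (zpow_facts t ht hnc _ h2).2
  rw [Int.natAbs_mul, Int.natAbs_natCast] at h3
  have h4 : 1 ≤ e.natAbs := Int.natAbs_pos.2 he
  have h5 : B + 1 ≤ e.natAbs * (B + 1) := Nat.le_mul_of_pos_left _ h4
  omega

/-- elements with bounded powers are conjugate in `U` to elements of `F(C)` -/
theorem ellip (t : FreeGroup (C ⊕ L)) (ht : En t.toWord)
    (hnc : ∀ (d : FreeGroup C) (g : FreeGroup (C ⊕ L)), t ≠ g * inC d * g⁻¹)
    (U : Subgroup (FreeGroup (C ⊕ L))) (htU : t ∈ U) (hCU : ∀ c : FreeGroup C, inC c ∈ U) (n : ℕ) :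
    ∀ (l : List (FreeGroup C × ℤ)) (e : ℤ) (d : FreeGroup C), l.length = n → e ≠ 0 → Gd l →
      Bd (val t e l * inC d) → ∃ v ∈ U, ∃ c : FreeGroup C, v⁻¹ * (val t e l * inC d) * v = inC c := by
  induction n using Nat.strong_induction_on with
  | _ n ih =>
    intro l e d hn he hl hb
    by_cases hd : d = 1
    swap
    · exact absurd hb (not_bd_mul _ (val_facts t ht hnc l e he hl) d hd)
    rw [hd, map_one, mul_one] at hb ⊢
    rcases l with _ | ⟨p, l⟩
    · exact absurd hb (not_bd_zpow t ht hnc e he)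
    · obtain ⟨hp1, hp2⟩ := hl p List.mem_cons_self
      have hl' : Gd l := fun q hq => hl q (List.mem_cons_of_mem _ hq)
      have hvU : t ^ e * inC p.1 ∈ U := U.mul_mem (U.zpow_mem htU e) (hCU _)
      have h1 : (t ^ e * inC p.1)⁻¹ * val t e (p :: l) * (t ^ e * inC p.1) =
          val t p.2 l * t ^ e * inC p.1 := by
        change (t ^ e * inC p.1)⁻¹ * (t ^ e * inC p.1 * val t p.2 l) * (t ^ e * inC p.1) = _
        group
      have hb' := hb.conj (t ^ e * inC p.1)
      rw [h1] at hb'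
      rcases val_mul t l p.2 hp2 hl' e with ⟨l', -, hg, e', he', h⟩ | ⟨-, h⟩ | ⟨l', c', hlt, hg, h⟩
      · rw [h] at hb'
        exact absurd hb' (not_bd_mul _ (val_facts t ht hnc l' e' he' hg) _ hp1)
      · refine ⟨_, hvU, p.1, ?_⟩
        rw [h1, h, one_mul]
      · have h2 : val t p.2 l' * inC c' * inC p.1 = val t p.2 l' * inC (c' * p.1) := by
          rw [map_mul, mul_assoc]
        rw [h, h2] at hb'
        obtain ⟨v, hv, c, hc⟩ := ih l'.length (by rw [← hn, List.length_cons]; omega) l' p.2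
          (c' * p.1) rfl hp2 hg hb'
        refine ⟨(t ^ e * inC p.1) * v, U.mul_mem hvU hv, c, ?_⟩
        rw [← hc, ← h2, ← h, ← h1]
        group

end WordMal

theorem malw {C L : Type} (w : FreeGroup (C ⊕ L)) (hw : TF w) (k : FreeGroup C) (hk : k ≠ 1)
    (g : FreeGroup (C ⊕ L)) (h : g⁻¹ * inC k * g ∈ (iF w).range) : g ∈ (iF w).range := by
  classical
  obtain ⟨c₁, t, c₂, hwt, ht⟩ := WordMal.decomp w (by
    rintro ⟨c, hc⟩
    exact hw.notMem ⟨c, hc.symm⟩)
  have hCU : ∀ c : FreeGroup C, (inC c : FreeGroup (C ⊕ L)) ∈ (iF w).range := fun c =>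
    ⟨old c, iF_old w c⟩
  have hwU : w ∈ (iF w).range := ⟨_, iF_none w⟩
  have htw : t = inC c₁⁻¹ * w * inC c₂⁻¹ := by
    rw [hwt, map_inv, map_inv]
    group
  have htU : t ∈ (iF w).range := by
    rw [htw]
    exact Subgroup.mul_mem _ (Subgroup.mul_mem _ (hCU _) hwU) (hCU _)
  have hnc : ∀ (d : FreeGroup C) (g : FreeGroup (C ⊕ L)), t ≠ g * inC d * g⁻¹ := by
    intro d g' hg'
    refine hw (c₂⁻¹ * c₁⁻¹) d (inC c₁ * g') ?_
    rw [hwt, hg', map_mul, map_inv, map_inv]
    group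
  have hcl : (iF w).range ≤ Subgroup.closure
      (Set.range (fun c : FreeGroup C => (inC c : FreeGroup (C ⊕ L))) ∪ {t}) := by
    refine FreeGroup.range_lift_le ?_
    rintro _ ⟨o, rfl⟩
    have hC : ∀ c : FreeGroup C, (inC c : FreeGroup (C ⊕ L)) ∈ Subgroup.closure
      (Set.range (fun c : FreeGroup C => (inC c : FreeGroup (C ⊕ L))) ∪ {t}) := fun c =>
      Subgroup.subset_closure (Or.inl ⟨c, rfl⟩)
    rcases o with _ | c
    · change w ∈ _
      rw [hwt]
      exact Subgroup.mul_mem _ (Subgroup.mul_mem _ (hC _) (Subgroup.subset_closure (Or.inr rfl)))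
        (hC _)
    · have := hC (FreeGroup.of c)
      rw [inC, FreeGroup.map.of] at this
      exact this
  set u := g⁻¹ * inC k * g with hu
  have hbu : WordMal.Bd u := (WordMal.bd_inC k).conj g
  obtain ⟨v, hv, c, hc⟩ : ∃ v ∈ (iF w).range, ∃ c : FreeGroup C, v⁻¹ * u * v = inC c := by
    rcases WordMal.normal t u (hcl h) with ⟨c, hc⟩ | ⟨c, e, l, d, he, hl, hcd⟩
    · exact ⟨1, Subgroup.one_mem _, c, by rw [hc]; group⟩
    · have h1 : (inC c)⁻¹ * u * inC c = WordMal.val t e l * inC (d * c) := by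
        rw [hcd, map_mul]
        group
      have h2 := hbu.conj (inC c)
      rw [h1] at h2
      obtain ⟨v, hv, c', hc'⟩ := WordMal.ellip t ht hnc (iF w).range htU hCU l.length l e (d * c)
        rfl he hl h2
      refine ⟨inC c * v, Subgroup.mul_mem _ (hCU c) hv, c', ?_⟩
      rw [← hc', ← h1]
      group
  have hc1 : c ≠ 1 := by
    rintro rfl
    rw [map_one] at hc
    apply hk
    apply inC_injective (L := L)
    rw [map_one]
    have : inC k = g * (v * (v⁻¹ * u * v) * v⁻¹) * g⁻¹ := by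
      rw [hu]
      group
    rw [this, hc]
    group
  obtain ⟨c', hc'⟩ := WordMal.mal (g * v) c k hc1 (by
    rw [← hc, hu]
    group)
  have : g = inC c' * v⁻¹ := by
    rw [← hc']
    group
  rw [this]
  exact Subgroup.mul_mem _ (hCU c') (Subgroup.inv_mem _ hv)

end Pool.Agent.MP3f0e40.PL
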