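import Mathlib
import Pool.Agent.Lib.MP_3f0e40_al.PL.Step2
import Pool.Agent.Lib.MP_3f0e40_al.PL.WordInj
import Pool.Agent.Lib.MP_3f0e40_al.PL.WordMal
import Pool.Agent.Lib.MP_3f0e40_al.PL.HallFull
import Pool.Agent.Lib.MP_3f0e40_al.PL.HallMal
import Pool.Agent.Lib.MP_3f0e40_al.PL.SepExp
import Pool.Agent.Lib.MP_3f0e40_al.PL.Conv

set_option autoImplicit false

/-!
# MP_3f0e40_al, project PL: the theorem for the alphabet `(C ∪ L₁) ∪ L₂`
-/

namespace Pool.Agent.MP3f0e40.PL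

open Pool.Agent.MP3f0e40
open scoped commutatorElement

variable {C L₁ L₂ : Type}

/-- the three kinds of pairs -/
def Cond (r : FreeGroup (C ⊕ L₁)) (s : FreeGroup (C ⊕ L₂)) : Prop :=
  (∃ a, expo (Sum.inr a) r ≠ 1) ∧ TF s ∨ TF r ∧ TF s ∧ Sepd (Tr r) ∨
    r ∉ (inC : FreeGroup C →* FreeGroup (C ⊕ L₁)).range ∧
      s ∉ (inC : FreeGroup C →* FreeGroup (C ⊕ L₂)).range ∧ Full (Tr r)

theorem Cond.notMem {r : FreeGroup (C ⊕ L₁)} {s : FreeGroup (C ⊕ L₂)} (h : Cond r s) :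
    r ∉ (inC : FreeGroup C →* FreeGroup (C ⊕ L₁)).range ∧
      s ∉ (inC : FreeGroup C →* FreeGroup (C ⊕ L₂)).range := by
  rcases h with ⟨⟨a, ha⟩, hs⟩ | ⟨hr, hs, -⟩ | ⟨hr, hs, -⟩
  · exact ⟨(tf_of_exp r a ha).notMem, hs.notMem⟩
  · exact ⟨hr.notMem, hs.notMem⟩
  · exact ⟨hr, hs⟩

theorem main_types {W : FreeGroup (Fin 2)} (hW : Bal W) (r : FreeGroup (C ⊕ L₁))
    (s : FreeGroup (C ⊕ L₂)) (h : Cond r s) :
    Group.ResiduallyFinite (IW r s W) ↔ Group.ResiduallyFinite (QW W) := by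
  have hn := h.notMem
  refine ⟨conv hW r s hn.1 hn.2, fun hQ => ?_⟩
  have hP := fam_Tr r
  have key : TF r → TF s → Sepd (Tr r) → Group.ResiduallyFinite (IW r s W) := by
    intro hr hs hsep
    refine I_rf hW hQ r s hsep ?_ ?_
    · exact rh_mal (Tr r) hP hsep r (iF_inj r hr.notMem) (malw r hr)
    · exact rh_mal (Tr r) hP hsep s (iF_inj s hs.notMem) (malw s hs)
  rcases h with ⟨⟨a, ha⟩, hs⟩ | ⟨hr, hs, hsep⟩ | ⟨hr, hs, hfull⟩
  · exact key (tf_of_exp r a ha) hs (sepd_of_exp r a ha)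
  · exact key hr hs hsep
  · exact I_rf hW hQ r s (sepd_of_full hfull) (rh_full (Tr r) hP hfull r (iF_inj r hr))
      (rh_full (Tr r) hP hfull s (iF_inj s hs))

/-- words of the commutator subgroup have zero exponent sums -/
theorem bal_of_comm (W : FreeGroup (Fin 2)) (hW : W ∈ commutator (FreeGroup (Fin 2))) :
    Bal W := by
  have h : ∀ (K : Type) [Group K] (f : FreeGroup (Fin 2) →* K),
      (∀ x y : K, x ∈ f.range → y ∈ f.range → x * y = y * x) → f W = 1 := by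
    intro K _ f hf
    have h1 : commutator (FreeGroup (Fin 2)) ≤ f.ker := by
      rw [commutator_def, Subgroup.commutator_le]
      intro a _ b _
      rw [MonoidHom.mem_ker, map_commutatorElement, commutatorElement_eq_one_iff_mul_comm]
      exact hf _ _ ⟨a, rfl⟩ ⟨b, rfl⟩
    exact h1 hW
  have h3 : ∀ (K : Type) [Group K] (a b : K) (z : K), a ∈ Subgroup.zpowers z →
      b ∈ Subgroup.zpowers z → sub a b W = 1 := by
    intro K _ a b z ha hb
    refine h K (sub a b) ?_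
    have h4 : (sub a b).range ≤ Subgroup.zpowers z := by
      rintro _ ⟨w, rfl⟩
      induction w using FreeGroup.induction_on with
      | C1 => rw [map_one]; exact Subgroup.one_mem _
      | of i =>
        rw [sub, FreeGroup.lift_apply_of]
        fin_cases i
        · exact ha
        · exact hb
      | inv_of i hi => rw [map_inv]; exact Subgroup.inv_mem _ hi
      | mul x y hx hy => rw [map_mul]; exact Subgroup.mul_mem _ hx hy
    intro x y hx hy
    obtain ⟨m, rfl⟩ := Subgroup.mem_zpowers_iff.1 (h4 hx)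
    obtain ⟨n, rfl⟩ := Subgroup.mem_zpowers_iff.1 (h4 hy)
    rw [← zpow_add, ← zpow_add, add_comm]
  intro K _ a
  exact ⟨h3 K a 1 a (Subgroup.mem_zpowers a) (Subgroup.one_mem _),
    h3 K 1 a a (Subgroup.one_mem _) (Subgroup.mem_zpowers a)⟩

/-- `⟨x, y; [x, y]⟩` is residually finite -/
theorem rf_Z2 : Group.ResiduallyFinite
    (QW ⁅(FreeGroup.of 0 : FreeGroup (Fin 2)), FreeGroup.of 1⁆) := by
  refine rf_disjoint {(0 : Fin 2)} _ _ ?_ ?_
  · exact Subgroup.subset_closure ⟨0, rfl, rfl⟩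
  · exact Subgroup.subset_closure ⟨1, by simp, rfl⟩

end Pool.Agent.MP3f0e40.PL
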