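import Mathlib
import Pool.Agent.Lib.MP_3f0e40_al.PL.MainT

set_option autoImplicit false

/-!
# MP_3f0e40_al, project PL: words in a fixed alphabet `X`
-/

namespace Pool.Agent.MP3f0e40.PL

open Pool.Agent.MP3f0e40

variable {X : Type}

/-- the words in the letters `S` -/
def FS (S : Set X) : Subgroup (FreeGroup X) := Subgroup.closure (FreeGroup.of '' S)

/-- reading words in `S ∪ T` -/
def vv (S T : Set X) : FreeGroup (↥S ⊕ ↥T) →* FreeGroup X :=
  FreeGroup.map (Sum.elim Subtype.val Subtype.val)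

theorem vv_of (S T : Set X) (x : ↥S ⊕ ↥T) :
    vv S T (FreeGroup.of x) = FreeGroup.of (Sum.elim Subtype.val Subtype.val x) := by
  rw [vv, FreeGroup.map.of]

theorem exists_vv (S T : Set X) (w : FreeGroup X) (hw : w ∈ FS (S ∪ T)) :
    ∃ w', vv S T w' = w := by
  have h : FS (S ∪ T) ≤ (vv S T).range := by
    rw [FS, Subgroup.closure_le]
    rintro _ ⟨x, hx | hx, rfl⟩
    · exact ⟨FreeGroup.of (Sum.inl ⟨x, hx⟩), vv_of _ _ _⟩
    · exact ⟨FreeGroup.of (Sum.inr ⟨x, hx⟩), vv_of _ _ _⟩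
  exact h hw

theorem vv_inC (S T : Set X) (c : FreeGroup ↥S) :
    vv S T (inC c) = FreeGroup.map Subtype.val c := by
  have : (vv S T).comp inC = FreeGroup.map Subtype.val := by
    ext1 x
    rw [MonoidHom.comp_apply, inC, FreeGroup.map.of, FreeGroup.map.of, vv_of]
    rfl
  exact DFunLike.congr_fun this c

theorem map_val_mem (S : Set X) (c : FreeGroup ↥S) :
    FreeGroup.map (Subtype.val : ↥S → X) c ∈ FS S := by
  induction c using FreeGroup.induction_on with
  | C1 => rw [map_one]; exact Subgroup.one_mem _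
  | of i => rw [FreeGroup.map.of]; exact Subgroup.subset_closure ⟨i, i.2, rfl⟩
  | inv_of i hi => rw [map_inv]; exact Subgroup.inv_mem _ hi
  | mul x y hx hy => rw [map_mul]; exact Subgroup.mul_mem _ hx hy

theorem FS_eq_range (S : Set X) : FS S = (FreeGroup.map (Subtype.val : ↥S → X)).range := by
  apply le_antisymm
  · rw [FS, Subgroup.closure_le]
    rintro _ ⟨x, hx, rfl⟩
    exact ⟨FreeGroup.of ⟨x, hx⟩, FreeGroup.map.of⟩
  · rintro _ ⟨c, rfl⟩
    exact map_val_mem S c

theorem vv_inC_mem (S T : Set X) (c : FreeGroup ↥S) : vv S T (inC c) ∈ FS S := by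
  rw [vv_inC]
  exact map_val_mem S c

theorem vv_injective (S T : Set X) (h : Disjoint S T) : Function.Injective (vv S T) := by
  refine FreeGroup.map_injective ?_
  rintro (a | a) (b | b) hab
  · exact congrArg Sum.inl (Subtype.ext hab)
  · exact absurd b.2 (Set.disjoint_left.1 h ((show (a : X) = b from hab) ▸ a.2))
  · exact absurd a.2 (Set.disjoint_left.1 h ((show (a : X) = b from hab) ▸ b.2))
  · exact congrArg Sum.inr (Subtype.ext hab)

theorem disj1 (A B : Set X) : Disjoint (A ∩ B) Bᶜ :=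
  Set.disjoint_compl_right_iff_subset.2 Set.inter_subset_right

theorem disj2 (A B : Set X) : Disjoint (A ∩ B) (B \ A) := by
  rw [Set.disjoint_left]
  exact fun x hx hx' => hx'.2 hx.1

/-- reading words in the alphabet `((A ∩ B) ∪ Bᶜ) ∪ (B ∖ A)` -/
def v3 (A B : Set X) : FreeGroup ((↥(A ∩ B) ⊕ ↥Bᶜ) ⊕ ↥(B \ A)) →* FreeGroup X :=
  FreeGroup.map (Sum.elim (Sum.elim Subtype.val Subtype.val) Subtype.val)

theorem v3_of (A B : Set X) (x : (↥(A ∩ B) ⊕ ↥Bᶜ) ⊕ ↥(B \ A)) :
    v3 A B (FreeGroup.of x) =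
      FreeGroup.of (Sum.elim (Sum.elim Subtype.val Subtype.val) Subtype.val x) := by
  rw [v3, FreeGroup.map.of]

theorem v3_inl (A B : Set X) (v : FreeGroup (↥(A ∩ B) ⊕ ↥Bᶜ)) :
    v3 A B (FreeGroup.map Sum.inl v) = vv _ _ v := by
  have : (v3 A B).comp (FreeGroup.map Sum.inl) = vv (A ∩ B) Bᶜ := by
    ext1 x
    rw [MonoidHom.comp_apply, FreeGroup.map.of, v3_of, vv_of]
    rfl
  exact DFunLike.congr_fun this v

theorem v3_in2 (A B : Set X) (v : FreeGroup (↥(A ∩ B) ⊕ ↥(B \ A))) :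
    v3 A B (in2 v) = vv _ _ v := by
  have : (v3 A B).comp in2 = vv (A ∩ B) (B \ A) := by
    ext1 x
    rw [MonoidHom.comp_apply, in2, FreeGroup.map.of, v3_of, vv_of]
    cases x <;> rfl
  exact DFunLike.congr_fun this v

/-- renaming of letters -/
theorem rf_rename {Y Z : Type} (e : Y ≃ Z) (w : FreeGroup Y) :
    Group.ResiduallyFinite (PresentedGroup ({w} : Set (FreeGroup Y))) ↔
      Group.ResiduallyFinite (PresentedGroup ({FreeGroup.map e w} : Set (FreeGroup Z))) := by
  have key : ∀ {Y Z : Type} (e : Y ≃ Z) (w : FreeGroup Y),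
      Group.ResiduallyFinite (PresentedGroup ({FreeGroup.map e w} : Set (FreeGroup Z))) →
      Group.ResiduallyFinite (PresentedGroup ({w} : Set (FreeGroup Y))) := by
    intro Y Z e w h
    have h1 : FreeGroup.lift (fun y => (PresentedGroup.of (e y) :
        PresentedGroup ({FreeGroup.map e w} : Set (FreeGroup Z)))) w = 1 := by
      have : FreeGroup.lift (fun y => (PresentedGroup.of (e y) :
          PresentedGroup ({FreeGroup.map e w} : Set (FreeGroup Z)))) =
          (PresentedGroup.mk _).comp (FreeGroup.map e) := by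
        ext1 y
        rw [MonoidHom.comp_apply, FreeGroup.map.of, FreeGroup.lift_apply_of]
        rfl
      rw [this]
      exact mk_rel _
    have h2 : FreeGroup.lift (fun z => (PresentedGroup.of (e.symm z) :
        PresentedGroup ({w} : Set (FreeGroup Y)))) (FreeGroup.map e w) = 1 := by
      have : (FreeGroup.lift (fun z => (PresentedGroup.of (e.symm z) :
          PresentedGroup ({w} : Set (FreeGroup Y))))).comp (FreeGroup.map e) =
          PresentedGroup.mk _ := by
        ext1 y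
        rw [MonoidHom.comp_apply, FreeGroup.map.of, FreeGroup.lift_apply_of,
          Equiv.symm_apply_apply]
        rfl
      have h3 := DFunLike.congr_fun this w
      rw [MonoidHom.comp_apply] at h3
      rw [h3]
      exact mk_rel w
    refine rf_of_injective (toG w _ h1) ?_ h
    have h3 : (toG _ _ h2).comp (toG w _ h1) = MonoidHom.id _ := by
      apply PresentedGroup.ext
      intro x
      rw [MonoidHom.comp_apply, toG_of, toG_of, Equiv.symm_apply_apply]
      rfl
    intro x y hxy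
    have h4 := congrArg (toG _ _ h2) hxy
    have h5 : ∀ x, (toG _ _ h2) (toG w _ h1 x) = x := fun x => DFunLike.congr_fun h3 x
    rwa [h5, h5] at h4
  refine ⟨fun h => ?_, key e w⟩
  have h1 := key e.symm (FreeGroup.map e w)
  have h2 : FreeGroup.map e.symm (FreeGroup.map e w) = w := by
    have : (FreeGroup.map e.symm).comp (FreeGroup.map e) = MonoidHom.id _ := by
      ext1 y
      rw [MonoidHom.comp_apply, FreeGroup.map.of, FreeGroup.map.of, Equiv.symm_apply_apply]
      rfl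
    exact DFunLike.congr_fun this w
  rw [h2] at h1
  exact h1 h

theorem rf_sets (A B : Set X) (r' : FreeGroup (↥(A ∩ B) ⊕ ↥Bᶜ))
    (s' : FreeGroup (↥(A ∩ B) ⊕ ↥(B \ A))) (W : FreeGroup (Fin 2)) :
    Group.ResiduallyFinite (IW r' s' W) ↔ Group.ResiduallyFinite
      (PresentedGroup ({sub (vv _ _ r') (vv _ _ s') W} : Set (FreeGroup X))) := by
  classical
  let f : (↥(A ∩ B) ⊕ ↥Bᶜ) ⊕ ↥(B \ A) → X :=
    Sum.elim (Sum.elim Subtype.val Subtype.val) Subtype.val
  have hf : Function.Bijective f := by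
    constructor
    · rintro ((a | a) | a) ((b | b) | b) hab
      · exact congrArg _ (congrArg _ (Subtype.ext hab))
      · exact absurd a.2.2 ((show (a : X) = b from hab) ▸ b.2)
      · exact absurd a.2.1 ((show (a : X) = b from hab) ▸ b.2.2)
      · exact absurd b.2.2 ((show (a : X) = b from hab) ▸ a.2)
      · exact congrArg _ (congrArg _ (Subtype.ext hab))
      · exact absurd b.2.1 ((show (a : X) = b from hab) ▸ a.2)
      · exact absurd b.2.1 ((show (a : X) = b from hab) ▸ a.2.2)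
      · exact absurd a.2.1 ((show (a : X) = b from hab) ▸ b.2)
      · exact congrArg _ (Subtype.ext hab)
    · intro x
      by_cases hB : x ∈ B
      · by_cases hA : x ∈ A
        · exact ⟨Sum.inl (Sum.inl ⟨x, hA, hB⟩), rfl⟩
        · exact ⟨Sum.inr ⟨x, hB, hA⟩, rfl⟩
      · exact ⟨Sum.inl (Sum.inr ⟨x, hB⟩), rfl⟩
  have h := rf_rename (Equiv.ofBijective f hf) (sub (FreeGroup.map Sum.inl r') (in2 s') W)
  have h1 : FreeGroup.map (Equiv.ofBijective f hf) (sub (FreeGroup.map Sum.inl r') (in2 s') W) =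
      sub (vv _ _ r') (vv _ _ s') W := by
    have h2 : (FreeGroup.map (Equiv.ofBijective f hf)) = v3 A B := rfl
    rw [h2, sub_map, v3_inl, v3_in2]
  rw [h1] at h
  exact h

/-- the conditions in terms of `X` -/
theorem main_sets (A B : Set X) (r s : FreeGroup X) (hr : r ∈ FS A) (hs : s ∈ FS B)
    (h : ((∃ a ∈ A \ B, expo a r ≠ 1) ∧
        ∀ c ∈ FS (A ∩ B), ∀ d ∈ FS (A ∩ B), ∀ g, s * c ≠ g * d * g⁻¹) ∨
      ((∀ c ∈ FS (A ∩ B), ∀ d ∈ FS (A ∩ B), ∀ g, r * c ≠ g * d * g⁻¹) ∧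
        (∀ c ∈ FS (A ∩ B), ∀ d ∈ FS (A ∩ B), ∀ g, s * c ≠ g * d * g⁻¹) ∧
        ∀ c ∈ FS (A ∩ B), c ≠ 1 → ∃ N : Subgroup (FreeGroup X), N.Normal ∧ N.FiniteIndex ∧
          r ∈ N ∧ c ∉ N) ∨
      (r ∉ FS (A ∩ B) ∧ s ∉ FS (A ∩ B) ∧ ∀ D : Subgroup (FS (A ∩ B)), D.FiniteIndex →
        ∃ N : Subgroup (FreeGroup X), N.Normal ∧ N.FiniteIndex ∧ r ∈ N ∧
          N.subgroupOf (FS (A ∩ B)) ≤ D))
    (W : FreeGroup (Fin 2)) (hW : W ∈ commutator (FreeGroup (Fin 2))) :
    Group.ResiduallyFinite (PresentedGroup ({sub r s W} : Set (FreeGroup X))) ↔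
      Group.ResiduallyFinite (PresentedGroup ({W} : Set (FreeGroup (Fin 2)))) := by
  obtain ⟨r', rfl⟩ := exists_vv (A ∩ B) Bᶜ r (by
    refine Subgroup.closure_mono (Set.image_mono ?_) hr
    intro x hx
    by_cases hB : x ∈ B
    · exact Or.inl ⟨hx, hB⟩
    · exact Or.inr hB)
  obtain ⟨s', rfl⟩ := exists_vv (A ∩ B) (B \ A) s (by
    refine Subgroup.closure_mono (Set.image_mono ?_) hs
    intro x hx
    by_cases hA : x ∈ A
    · exact Or.inl ⟨hA, hx⟩
    · exact Or.inr ⟨hx, hA⟩)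
  rw [← rf_sets]
  refine main_types (bal_of_comm W hW) r' s' ?_
  have tf : ∀ {T : Set X} (w : FreeGroup (↥(A ∩ B) ⊕ ↥T)),
      (∀ c ∈ FS (A ∩ B), ∀ d ∈ FS (A ∩ B), ∀ g, vv _ _ w * c ≠ g * d * g⁻¹) → TF w := by
    intro T w hw c d g hcd
    apply hw _ (vv_inC_mem _ T c) _ (vv_inC_mem _ T d) (vv _ _ g)
    rw [← map_mul, hcd, map_mul, map_mul, map_inv]
  have nm : ∀ {T : Set X} (_ : Disjoint (A ∩ B) T) (w : FreeGroup (↥(A ∩ B) ⊕ ↥T)),
      vv _ _ w ∉ FS (A ∩ B) → w ∉ (inC : FreeGroup ↥(A ∩ B) →* _).range := by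
    rintro T hT _ hw ⟨c, rfl⟩
    exact hw (vv_inC_mem _ T c)
  rcases h with ⟨⟨a, ha, har⟩, hs2⟩ | ⟨hr2, hs2, hsep⟩ | ⟨hr2, hs2, hfull⟩
  · refine Or.inl ⟨⟨⟨a, ha.2⟩, fun h1 => har ?_⟩, tf s' hs2⟩
    have : (expo a).comp (vv (A ∩ B) Bᶜ) = expo (Sum.inr ⟨a, ha.2⟩) := by
      ext1 x
      rw [MonoidHom.comp_apply, vv_of, expo, expo, FreeGroup.lift_apply_of,
        FreeGroup.lift_apply_of]
      cases x with
      | inl x =>
        rw [if_neg, if_neg]
        · exact fun h => by cases h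
        · intro h
          exact ha.2 (h ▸ x.2.2)
      | inr x =>
        by_cases hx : (x : X) = a
        · rw [if_pos (show Sum.elim Subtype.val Subtype.val (Sum.inr x) = a from hx), if_pos]
          exact congrArg Sum.inr (Subtype.ext hx)
        · rw [if_neg (show ¬ Sum.elim Subtype.val Subtype.val (Sum.inr x) = a from hx), if_neg]
          intro h
          exact hx (congrArg Subtype.val (Sum.inr_injective h))
    have h2 := DFunLike.congr_fun this r'
    rw [MonoidHom.comp_apply] at h2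
    rw [h2, h1]
  · refine Or.inr (Or.inl ⟨tf r' hr2, tf s' hs2, ?_⟩)
    intro c hc
    obtain ⟨N, h1, h2, h3, h4⟩ := hsep _ (vv_inC_mem _ Bᶜ c) (fun h => hc (by
      apply inC_injective (L := ↥Bᶜ)
      apply vv_injective _ _ (disj1 A B)
      rw [h, map_one, map_one]))
    exact ⟨_, ⟨N.comap (vv _ _), h1.comap _, finIdx_comap _ N, h3, rfl⟩, h4⟩
  · refine Or.inr (Or.inr ⟨nm (disj1 A B) r' hr2, nm (disj2 A B) s' hs2, ?_⟩)
    intro D hD hDf
    let e : FreeGroup ↥(A ∩ B) →* FS (A ∩ B) :=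
      (FreeGroup.map (Subtype.val : ↥(A ∩ B) → X)).codRestrict _ (map_val_mem _)
    have he : Function.Surjective e := by
      rintro ⟨x, hx⟩
      rw [FS_eq_range] at hx
      obtain ⟨c, hc⟩ := hx
      exact ⟨c, Subtype.ext hc⟩
    have hei : Function.Injective e := by
      intro a b hab
      exact FreeGroup.map_injective Subtype.val_injective (congrArg Subtype.val hab)
    obtain ⟨N, h1, h2, h3, h4⟩ := hfull (D.map e)
      ⟨ne_zero_of_dvd_ne_zero hDf.index_ne_zero (Subgroup.index_map_dvd D he)⟩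
    refine ⟨_, ⟨N.comap (vv _ _), h1.comap _, finIdx_comap _ N, h3, rfl⟩, ?_⟩
    intro c hc
    have h5 : e c ∈ N.subgroupOf (FS (A ∩ B)) := by
      rw [Subgroup.mem_subgroupOf]
      have : vv (A ∩ B) Bᶜ (inC c) ∈ N := hc
      rwa [vv_inC] at this
    obtain ⟨c', hc', hcc⟩ := h4 h5
    rwa [← hei hcc]

end Pool.Agent.MP3f0e40.PL
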