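import Mathlib
import Pool.Agent.Lib.MP_3f0e40_al.PL.Sets
import Pool.Agent.Lib.MP_3f0e40_al.PL.HallCyc
import Pool.Agent.Lib.MP_3f0e40_al.PL.NCyc
import Pool.Agent.Lib.MP_3f0e40_al.PL.NCong
import Pool.Agent.Lib.MP_3f0e40_al.PL.NMin

set_option autoImplicit false

/-!
# MP_3f0e40_al, project PL: the theorem for closed cyclic subgroups
-/

namespace Pool.Agent.MP3f0e40.PL

open Pool.Agent.MP3f0e40
open scoped commutatorElement

/-- the theorem for the alphabet `(C ∪ L₁) ∪ L₂` -/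
theorem main_cyc {C L₁ L₂ : Type} {W : FreeGroup (Fin 2)} (hW : Bal W)
    (r : FreeGroup (C ⊕ L₁)) (s : FreeGroup (C ⊕ L₂))
    (hr : r ∉ (inC : FreeGroup C →* FreeGroup (C ⊕ L₁)).range)
    (hs : s ∉ (inC : FreeGroup C →* FreeGroup (C ⊕ L₂)).range) (hc : Cyc (Tr r)) :
    Group.ResiduallyFinite (IW r s W) ↔ Group.ResiduallyFinite (QW W) :=
  ⟨conv hW r s hr hs, fun hQ => I_rf hW hQ r s (sepd_of_cyc hc)
    (rh_cyc (Tr r) (fam_Tr r) hc r (iF_inj r hr)) (rh_cyc (Tr r) (fam_Tr r) hc s (iF_inj s hs))⟩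

variable {X : Type}

open Classical in
/-- the letters `S` are deleted -/
noncomputable def delS (S : Set X) : FreeGroup X →* FreeGroup X :=
  FreeGroup.lift fun x => if x ∈ S then 1 else FreeGroup.of x

/-- the cyclic subgroups of the group generated by the letters `S` are closed in the profinite
topology of `⟨X; r⟩` -/
def CycSep (S : Set X) (r : FreeGroup X) : Prop :=
  ∀ v ∈ FS S, ∀ b ∈ FS S, (∀ i : ℤ, b ≠ v ^ i) → ∃ N : Subgroup (FreeGroup X), N.Normal ∧
    N.FiniteIndex ∧ r ∈ N ∧ ∀ i : ℤ, b * v ^ (-i) ∉ N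

theorem delS_vv (A B : Set X) (w : FreeGroup (↥(A ∩ B) ⊕ ↥Bᶜ)) :
    delS B (vv _ _ w) = FreeGroup.map Subtype.val (del w) := by
  have : (delS B).comp (vv (A ∩ B) Bᶜ) = (FreeGroup.map Subtype.val).comp del := by
    ext1 x
    rw [MonoidHom.comp_apply, MonoidHom.comp_apply, vv_of, delS, del, FreeGroup.lift_apply_of,
      FreeGroup.lift_apply_of]
    cases x with
    | inl x =>
      rw [if_pos (show Sum.elim Subtype.val Subtype.val (Sum.inl x) ∈ B from x.2.2)]
      exact (map_one _).symm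
    | inr x =>
      rw [if_neg (show Sum.elim Subtype.val Subtype.val (Sum.inr x) ∉ B from x.2)]
      exact (FreeGroup.map.of).symm
  exact DFunLike.congr_fun this w

theorem half (A B : Set X) (r s : FreeGroup X) (hr : r ∈ FS A) (hs : s ∈ FS B)
    (hrB : r ∉ FS B) (hsA : s ∉ FS A) (h : delS B r ≠ 1 ∨ CycSep (A ∩ B) r)
    (W : FreeGroup (Fin 2)) (hW : W ∈ commutator (FreeGroup (Fin 2))) :
    Group.ResiduallyFinite (PresentedGroup ({sub r s W} : Set (FreeGroup X))) ↔
      Group.ResiduallyFinite (PresentedGroup ({W} : Set (FreeGroup (Fin 2)))) := by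
  obtain ⟨r', rfl⟩ := exists_vv (A ∩ B) Bᶜ r (by
    refine Subgroup.closure_mono (Set.image_mono ?_) hr
    intro x hx
    by_cases hB : x ∈ B
    · exact Or.inl ⟨hx, hB⟩
    · exact Or.inr hB)
  obtain ⟨s', rfl⟩ := exists_vv (A ∩ B) (B \ A) s (by
    refine Subgroup.closure_mono (Set.image_mono ?_) hs
    intro x hx
    by_cases hA : x ∈ A
    · exact Or.inl ⟨hA, hx⟩
    · exact Or.inr ⟨hx, hA⟩)
  rw [← rf_sets]
  refine main_cyc (bal_of_comm W hW) r' s' ?_ ?_ ?_
  · rintro ⟨c, rfl⟩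
    exact hrB (Subgroup.closure_mono (Set.image_mono Set.inter_subset_right)
      (vv_inC_mem _ Bᶜ c))
  · rintro ⟨c, rfl⟩
    exact hsA (Subgroup.closure_mono (Set.image_mono Set.inter_subset_left)
      (vv_inC_mem _ (B \ A) c))
  · rcases h with h | h
    · refine cyc_of_cong _ (fam_Tr r') (cong_of_foxNe r' (foxNe_of_del r' fun h1 => h ?_))
      rw [delS_vv, h1, map_one]
    · intro v b hb
      have hinj : Function.Injective fun c => vv (A ∩ B) Bᶜ (inC c) :=
        (vv_injective _ _ (disj1 A B)).comp (inC_injective (L := ↥Bᶜ))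
      obtain ⟨N, h1, h2, h3, h4⟩ := h _ (vv_inC_mem _ Bᶜ v) _ (vv_inC_mem _ Bᶜ b) (fun i hi =>
        hb i (hinj (by simpa using hi)))
      refine ⟨_, ⟨N.comap (vv _ _), h1.comap _, finIdx_comap _ N, h3, rfl⟩, fun i hi => h4 i ?_⟩
      rw [Subgroup.mem_comap, Subgroup.mem_comap] at hi
      simpa using hi

/-- exchanging the two words -/
theorem sub_swap (r s : FreeGroup X) (W : FreeGroup (Fin 2)) :
    sub s r (FreeGroup.map (Equiv.swap 0 1) W) = sub r s W := by
  have : (sub s r).comp (FreeGroup.map (Equiv.swap (0 : Fin 2) 1)) = sub r s := by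
    ext1 i
    rw [MonoidHom.comp_apply, FreeGroup.map.of, sub, sub, FreeGroup.lift_apply_of,
      FreeGroup.lift_apply_of]
    fin_cases i <;> rfl
  exact DFunLike.congr_fun this W

theorem main_private (A B : Set X) (r s : FreeGroup X) (hr : r ∈ FS A) (hs : s ∈ FS B)
    (hrB : r ∉ FS B) (hsA : s ∉ FS A)
    (h : (delS B r ≠ 1 ∨ CycSep (A ∩ B) r) ∨ (delS A s ≠ 1 ∨ CycSep (A ∩ B) s))
    (W : FreeGroup (Fin 2)) (hW : W ∈ commutator (FreeGroup (Fin 2))) :
    Group.ResiduallyFinite (PresentedGroup ({sub r s W} : Set (FreeGroup X))) ↔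
      Group.ResiduallyFinite (PresentedGroup ({W} : Set (FreeGroup (Fin 2)))) := by
  rcases h with h | h
  · exact half A B r s hr hs hrB hsA h W hW
  · rw [Set.inter_comm] at h
    have h1 := half B A s r hs hr hsA hrB h (FreeGroup.map (Equiv.swap 0 1) W) (by
      rw [commutator_def] at hW ⊢
      have h2 := Subgroup.mem_map_of_mem (FreeGroup.map (Equiv.swap (0 : Fin 2) 1)) hW
      rw [Subgroup.map_commutator] at h2
      exact Subgroup.commutator_mono le_top le_top h2)
    rw [sub_swap] at h1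
    rw [h1]
    exact (rf_rename (Equiv.swap (0 : Fin 2) 1) W).symm

end Pool.Agent.MP3f0e40.PL
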